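import Pool.Agent.MSN.ThA

/-! # MSN / ThB: statement of Theorem B (interface)

`G` a Galois pair, `ζ` a primitive `p`-th root of unity fixed by `G`, `f` a continuous 2-cocycle with values in `ZMod p`.  After restriction to the subgroup `Gi` fixing all
roots of unity of `p`-power order the class of `ζ ^ f` is `hB κ` for some `κ ∈ K₂(Ω^G)`, at some level `p ^ (m + 1)`.

PROOF: MSN/ThA (assembly); this file is only the statement. -/

set_option autoImplicit false
set_option linter.unusedVariables false

namespace MSN

universe u

open MSG Pool.Agent.Helper14.Massey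

open Pool.Agent.MK (K2 S)

theorem theoremB {p : ℕ} (hp : p.Prime) {G Ω : Type u} [Group G] [TopologicalSpace G] [Field Ω] [MulSemiringAction G Ω]
    (hG : GA G Ω) {ζ : Ω} (hz : PZ p ζ) (hζ : ∀ g : G, g • ζ = ζ) {f : G → G → ZMod p} (hf : f ∈ Z2 p G) : BB p G ζ f :=
  theoremB' hp hG hz hζ hf

end MSN
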