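import Pool.Agent.MSN.Ov
import Pool.Agent.MSC.Zmd

/-! # MSN / Zc: statement (interface): elements of `K₂(k(t))` killed by `hB` on `Gi`

`k` a field with a primitive `p`-th root of unity `ζ₀`, `(G, Ω, j)` a pair over `k(t)`, `z` a primitive `p ^ (m + 1)`-th root of unity, `w ∈ K₂(k(t))` with `hB w = 0` on `Gi`.
Then `p ^ s • w` is constant modulo `p ^ (s + m + 1)`.

PROOF: MSC/Zmd. -/

set_option autoImplicit false
set_option linter.unusedVariables false

namespace MSN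

universe u

open MSG

open Pool.Agent.MK (K2 S)

theorem zero_const {p : ℕ} (hp : p.Prime) {k : Type u} [Field k] {ζ₀ : k} (hz : PZ p ζ₀) {G Ω : Type u} [Group G] [TopologicalSpace G]
    [Field Ω] [MulSemiringAction G Ω] {j : RatFunc k →+* Ω} (h : Ov (RatFunc k) G j) {m : ℕ} {z : Ω}
    (L : Lv (p ^ (m + 1)) (Gi p G Ω) z j) (w : K2 (RatFunc k)) (hw : hB L w = 0) :
    ∃ (s : ℕ) (k₀ : K2 k) (w₁ : K2 (RatFunc k)), p ^ s • w = K2.map (RatFunc.C : k →+* RatFunc k) k₀ + p ^ (s + m + 1) • w₁ :=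
  MSC.zc hp hz h L w hw

end MSN
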