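import Pool.Agent.MSN.Gx
import Pool.Agent.MSG.Uqb

/-! # MSN / Am1: classes which die in the function field `D.K`

`C : Cd p H ζ a g₀`, `b ∈ Ω^H`, `D = C.dat b`.  `(G', Ω', j')` a pair over `D.K`, `μ` a morphism over `Ω^H → D.K`.  A cocycle class `bc f` of `p`-power order which dies in `D.K` is a multiple of the class of `(a, b)`.

PROOF of `am1` (`F = Ω^H`, `L = Ω^(kr H p a)`, `N = kr H p a`).
1. `mo_surj` (with `alg_cF`, `Ov.self`): `μ.r` is surjective; choose `g₁` with `μ.r g₁ = g₀`.  Let `a' = μ.ψ a = j' (cF D a₀)`, `ζ' = μ.ψ ζ`; `km p ζ' a' g₁ = km p ζ a g₀ = 1` (`Mo.km`).  `N' = kr G' p a'`.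
2. `kx_KL` (`α = rt p a` as an element of `L`, `s α = ζ α`), `β = μ.ψ α`, `β ^ p = a'`: `Kx.exists_j1` gives `j₁ : KL → Ω'` with `j₁ (iK y) = j' y`, `j₁ (cL α) = μ.ψ α`; `Ov (KL p L) N' j₁` (`Kx.ov_j1`).
   For `ℓ ∈ L`: `j₁ (cL ℓ) = μ.ψ ℓ`: `ℓ = ∑ c_i α ^ i` with `c_i ∈ F` (`Cd.kum`).
3. `μ₄ : Mo N Ω N' Ω'`, `ψ = μ.ψ`, `r` the restriction of `μ.r` (for `g ∈ N'`: `μ.ψ (μ.r g • α) = g • β = β`, since `β = (root of unity) * rt p a'` and roots of unity of order `p` are fixed; so `μ.r g ∈ N`).  The restriction of `bqm μ (bc f) = 0` to `N'` is `bqm μ₄ (bc (f restricted to N)) = 0`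
   (`Mo.incl`, `bqm_cmp`).  `bi_cL` with the pairs `(N, Ω)` over `L` (`Ov.self (ga_kr C)`) and `(N', Ω', j₁)` over `KL p L` gives `bc (f|N) = 0`, i.e. `CuN N f 1` (`bc_eq_cu`, `bc_one`).
4. `ker_cyc` (`θ = km p ζ a`): `Cu f (c ^ cy θ)` for some `c` fixed by `H`, `c ≠ 0`.  Pull back to `G'` (`pbu_Cu`): `(μ.ψ c) ^ cy θ'` is a coboundary, `θ' = km p ζ' a'` (`Mo.km`).  `norm_of_cy`: `μ.ψ c = ∏_(i<p) g₁ ^ i • y`, `y` fixed by `N'`, `y ≠ 0`.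
5. `y ^ (q ^ n) = j₁ Y` (`Ov.pi`), `g₁ ^ i • j₁ Y = j₁ ((sK D)^[i] Y)` (`Kx.smul_j1`, `km ζ' a' g₁ = 1`).  So `j₁ (∏ (sK D)^[i] Y) = μ.ψ c ^ (q ^ n) = j₁ (cL (algebraMap c₀ ^ (q ^ n)))` (`c = c₀ : F`), so `ami'` for `c₀ ^ (q ^ n)`: `c₀ ^ (q ^ n) = b ^ m * D.N e`, `D.N e = ∏_(i<p) g₀ ^ i • e` (`dat_s`).
6. `q ^ n • bc f = bc ((c ^ (q ^ n)) ^ cy θ) = m • bc (b ^ cy θ) + bc ((D.N e) ^ cy θ) = m • bc (sb p ζ a b)` (`MSC.cy_sym`, `cy_of_norm`; `bc_zpow`, `bc_mul`).  `q ^ n` is prime to `p` (`(p : Ω) ≠ 0`) and `p ^ e • bc f = 0`, so `bc f = (v m) • bc (sb p ζ a b)` with `v q ^ n ≡ 1` modulo `p ^ e`;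
   `p • bc (sb ..) = 0` (`zp ^ p = 1`), so the integer `v m` can be replaced by a natural number.
-/

set_option autoImplicit false
set_option linter.unusedVariables false

namespace MSN

universe u

open MSG

open Pool.Agent.MK (K2 S)

private theorem am1_cop {K : Type u} [Field K] (q : ℕ) [hq : ExpChar K q] {p : ℕ} (hp : p.Prime)
    (h : (p : K) ≠ 0) : q.Coprime p := by
  rcases hq with _ | hq'
  · exact Nat.coprime_one_left p
  · rw [Nat.coprime_primes hq' hp]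
    intro e
    apply h
    rw [← e]
    exact CharP.cast_eq_zero K q

private theorem am1_int {A : Type*} [AddCommGroup A] {x y : A} {p Q e : ℕ} (hp : p.Prime) (hQ : Q.Coprime p)
    (hx : p ^ e • x = 0) (hy : p • y = 0) {m : ℤ} (h : Q • x = m • y) : ∃ t : ℕ, x = t • y := by
  have h1 : IsCoprime (Q : ℤ) ((p ^ e : ℕ) : ℤ) := Nat.isCoprime_iff_coprime.2 (hQ.pow_right e)
  obtain ⟨v, w, hvw⟩ := h1
  have h2 : x = (v * m) • y := by
    have h3 : x = (v * (Q : ℤ) + w * ((p ^ e : ℕ) : ℤ)) • x := by rw [hvw, one_smul]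
    rw [h3, add_smul, mul_smul, mul_smul, natCast_zsmul, natCast_zsmul, hx, smul_zero, add_zero, h, mul_smul]
  have hpos : (0 : ℤ) < (p : ℤ) := by exact_mod_cast hp.pos
  refine ⟨((v * m) % (p : ℤ)).toNat, ?_⟩
  have h4 : (((v * m) % (p : ℤ)).toNat : ℤ) = (v * m) % (p : ℤ) :=
    Int.toNat_of_nonneg (Int.emod_nonneg _ hpos.ne')
  have h5 : v * m = (p : ℤ) * ((v * m) / (p : ℤ)) + (v * m) % (p : ℤ) := (Int.mul_ediv_add_emod _ _).symm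
  rw [h2, ← natCast_zsmul, h4]
  conv_lhs => rw [h5]
  rw [add_smul, mul_comm, mul_smul, natCast_zsmul, hy, smul_zero, zero_add]

section

variable {p : ℕ} {H Ω : Type u} [Group H] [TopologicalSpace H] [Field Ω] [MulSemiringAction H Ω] {ζ a : Ω} {g₀ : H}

/-- the root as an element of `L` -/
private noncomputable def am1_rt (p : ℕ) (H : Type u) {Ω : Type u} [Group H] [Field Ω] [MulSemiringAction H Ω] (a : Ω) :
    fL H Ω p a := ⟨rt p a, fun g => g.2⟩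

private theorem am1_N (C : Cd p H ζ a g₀) (b : fF H Ω) (hb : b ≠ 0) (e : fL H Ω p a) :
    (((C.dat b hb).N e : fL H Ω p a) : Ω) = ∏ i ∈ Finset.range p, g₀ ^ i • (e : Ω) := by
  have h1 : ∀ (i : ℕ) (e : fL H Ω p a), ((((C.dat b hb).s ^ i) e : fL H Ω p a) : Ω) = g₀ ^ i • (e : Ω) := by
    intro i
    induction i with
    | zero =>
      intro e
      rw [pow_zero, pow_zero, one_smul]
      rfl
    | succ i ih =>
      intro e
      have h2 : ((C.dat b hb).s ^ (i + 1)) e = ((C.dat b hb).s ^ i) ((C.dat b hb).s e) := by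
        rw [pow_succ]
        rfl
      rw [h2, ih, C.dat_s, pow_succ, mul_smul]
  unfold Pool.Agent.MSX.Dat.N
  have h3 : ∀ (s : Finset ℕ) (F : ℕ → fL H Ω p a), ((∏ i ∈ s, F i : fL H Ω p a) : Ω) = ∏ i ∈ s, (F i : Ω) := by
    intro s F
    exact map_prod (fL H Ω p a).subtype F s
  rw [h3]
  exact Finset.prod_congr rfl fun i _ => h1 i e

private theorem am1_s (C : Cd p H ζ a g₀) (b : fF H Ω) (hb : b ≠ 0) :
    (C.dat b hb).s (am1_rt p H a) = algebraMap (fF H Ω) (fL H Ω p a) ⟨ζ, C.fz⟩ * am1_rt p H a := by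
  apply Subtype.ext
  rw [C.dat_s]
  show g₀ • rt p a = ζ * rt p a
  have h1 := zp_nat C.hz 1
  rw [Nat.cast_one, pow_one] at h1
  rw [C.smul_rt, C.g1, h1]

private theorem am1_p (C : Cd p H ζ a g₀) :
    am1_rt p H a ^ p = algebraMap (fF H Ω) (fL H Ω p a) ⟨a, C.fa.2⟩ := by
  apply Subtype.ext
  exact C.pow_rt

private theorem am1_pz (C : Cd p H ζ a g₀) : PZ p (⟨ζ, C.fz⟩ : fF H Ω) :=
  ⟨C.hz.odd, C.hz.one_lt, IsPrimitiveRoot.of_map_of_injective (f := (fF H Ω).subtype) C.hz.prim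
    (fF H Ω).subtype.injective⟩

private theorem am1_kx (C : Cd p H ζ a g₀) (b : fF H Ω) (hb : b ≠ 0) :
    Kx p (iK (C.dat b hb)) (sK (C.dat b hb)) (cF (C.dat b hb) ⟨ζ, C.fz⟩) (cF (C.dat b hb) ⟨a, C.fa.2⟩)
      (cL p (fL H Ω p a) (am1_rt p H a)) :=
  kx_KL (C.dat b hb) (am1_pz C) (am1_s C b hb) (am1_p C) (fun h => C.fa.1 (congrArg Subtype.val h))

variable {G' Ω' : Type u} [Group G'] [TopologicalSpace G'] [Field Ω'] [MulSemiringAction G' Ω']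

private theorem am1_km (C : Cd p H ζ a g₀) (hG : GA G' Ω') (μ : Mo H Ω G' Ω') (g : G') :
    km p (μ.ψ ζ) (μ.ψ a) g = km p ζ a (μ.r g) := by
  have i1 := C.ga.alg
  have i2 := hG.alg
  exact μ.km C.hz C.fa.1 (C.fz _) (C.fa.2 _)

private theorem am1_cd (C : Cd p H ζ a g₀) (hG : GA G' Ω') (μ : Mo H Ω G' Ω') {g₁ : G'} (hg : μ.r g₁ = g₀) :
    Cd p G' (μ.ψ ζ) (μ.ψ a) g₁ :=
  ⟨C.hp, hG, μ.pz C.hz, fun g => by rw [← μ.comp, C.fz], μ.fx C.fa, by rw [am1_km C hG μ, hg, C.g1]⟩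

/-- step 2 -/
private theorem am1_j1 (C : Cd p H ζ a g₀) (b : fF H Ω) (hb : b ≠ 0) {j' : (C.dat b hb).K →+* Ω'}
    (μ : Mo H Ω G' Ω') (hμ : ∀ x : fF H Ω, μ.ψ x = j' (cF (C.dat b hb) x))
    {j₁ : Pool.Agent.MSX.KL p (fL H Ω p a) →+* Ω'} (h1 : ∀ y, j₁ (iK (C.dat b hb) y) = j' y)
    (h2 : j₁ (cL p (fL H Ω p a) (am1_rt p H a)) = μ.ψ (rt p a)) (l : fL H Ω p a) :
    μ.ψ (l : Ω) = j₁ (cL p (fL H Ω p a) l) := by
  obtain ⟨c, hc, hl⟩ := C.kum (x := (l : Ω)) (fun g hg => l.2 ⟨g, hg⟩)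
  have h3 : l = ∑ i, algebraMap (fF H Ω) (fL H Ω p a) ⟨c i, hc i⟩ * am1_rt p H a ^ i.val := by
    apply Subtype.ext
    rw [hl]
    have h4 : ∀ (s : Finset (Fin p)) (F : Fin p → fL H Ω p a),
        ((∑ i ∈ s, F i : fL H Ω p a) : Ω) = ∑ i ∈ s, (F i : Ω) := by
      intro s F
      exact map_sum (fL H Ω p a).subtype F s
    rw [h4]
    rfl
  have h5 : j₁ (cL p (fL H Ω p a) l) = ∑ i, μ.ψ (c i) * μ.ψ (rt p a) ^ i.val := by
    conv_lhs => rw [h3]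
    rw [map_sum, map_sum]
    refine Finset.sum_congr rfl fun i _ => ?_
    rw [map_mul, map_mul, map_pow, map_pow, h2, ← iK_cF, h1, ← hμ]
  rw [h5, hl, map_sum]
  refine Finset.sum_congr rfl fun i _ => ?_
  rw [map_mul, map_pow]

/-- the morphism of the subgroups -/
private noncomputable def am1_mo (C : Cd p H ζ a g₀) (hG : GA G' Ω') (μ : Mo H Ω G' Ω') {g₁ : G'} (hg : μ.r g₁ = g₀) :
    Mo (kr H p a) Ω (kr G' p (μ.ψ a)) Ω' where
  ψ := μ.ψ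
  r := (μ.r.comp (kr G' p (μ.ψ a)).subtype).codRestrict (kr H p a) (fun g => by
    have h1 := (am1_cd C hG μ hg).mem_kr.1 g.2
    rw [am1_km C hG μ] at h1
    exact C.mem_kr.2 h1)
  cont := (μ.cont.comp continuous_subtype_val).subtype_mk _
  comp g x := μ.comp g x

/-- step 3 -/
private theorem am1_cu (C : Cd p H ζ a g₀) (b : fF H Ω) (hb : b ≠ 0) (hG : GA G' Ω') (μ : Mo H Ω G' Ω')
    {g₁ : G'} (hg : μ.r g₁ = g₀) {j₁ : Pool.Agent.MSX.KL p (fL H Ω p a) →+* Ω'}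
    (o1 : Ov (Pool.Agent.MSX.KL p (fL H Ω p a)) (kr G' p (μ.ψ a)) j₁)
    (h1 : ∀ l : fL H Ω p a, μ.ψ (l : Ω) = j₁ (cL p (fL H Ω p a) l)) {f : H → H → Ω} (hf : Zo f) {e : ℕ}
    (he : p ^ e • bc f = 0) (h0 : bqm μ (bc f) = 0) : CuN (kr H p a) f (fun _ _ => 1) := by
  have hpL : (p : fL H Ω p a) ≠ 0 := by
    intro h
    apply C.hz.cast_ne
    have h2 := congrArg (fL H Ω p a).subtype h
    rw [map_natCast, map_zero] at h2
    exact h2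
  have hN : Nz (rs (kr H p a) f) := fun g h => hf.ne _ _
  have e1 : bqm (Mo.incl H Ω (kr H p a)) (bc f) = bc (rs (kr H p a) f) := bqm_bc _ hf.ne
  have e2 : p ^ e • bc (rs (kr H p a) f) = 0 := by
    rw [← e1, ← map_nsmul, he, map_zero]
  have e3 : bqm (am1_mo C hG μ hg) (bc (rs (kr H p a) f)) = 0 := by
    have h3 : bqm (Mo.incl G' Ω' (kr G' p (μ.ψ a))) (bqm μ (bc f)) = 0 := by rw [h0, map_zero]
    rw [bqm_bc μ hf.ne, bqm_bc _ (Nz.pf hf.ne μ)] at h3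
    rw [bqm_bc _ hN]
    exact h3
  have e4 := bi_cL (p := p) (L := fL H Ω p a) C.hp hpL (kr H p a) Ω (kr G' p (μ.ψ a)) Ω'
    (FixedPoints.subfield (kr H p a) Ω).subtype j₁ (Ov.self (ga_kr C)) o1 (am1_mo C hG μ hg) h1
    (rs (kr H p a) f) (Zu_sub hf _) e e2 e3
  exact (bc_eq_cu hN Nz.one).1 (by rw [e4, bc_one])

end

theorem am1 {p : ℕ} {H Ω : Type u} [Group H] [TopologicalSpace H] [Field Ω] [MulSemiringAction H Ω] {ζ a : Ω} {g₀ : H}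
    (C : Cd p H ζ a g₀) (b : fF H Ω) (hb : b ≠ 0) {G' Ω' : Type u} [Group G'] [TopologicalSpace G'] [Field Ω'] [MulSemiringAction G' Ω']
    {j' : (C.dat b hb).K →+* Ω'} (h' : Ov (C.dat b hb).K G' j') (μ : Mo H Ω G' Ω')
    (hμ : ∀ x : fF H Ω, μ.ψ x = j' (cF (C.dat b hb) x)) {f : H → H → Ω} (hf : Zo f) {e : ℕ} (he : p ^ e • bc f = 0)
    (h0 : bqm μ (bc f) = 0) : ∃ t : ℕ, bc f = t • bc (sb (H := H) p ζ a (b : Ω)) := by
  have i1 := C.ga.alg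
  have i2 := h'.ga.alg
  have i3 := C.hz.neZero
  have X := am1_kx C b hb
  -- step 1
  obtain ⟨g₁, hg₁⟩ := mo_surj (Ov.self C.ga) h' (φ := cF (C.dat b hb)) (alg_cF (C.dat b hb)) μ hμ g₀
  have hζ' : μ.ψ ζ = j' (cF (C.dat b hb) ⟨ζ, C.fz⟩) := hμ ⟨ζ, C.fz⟩
  have ha' : μ.ψ a = j' (cF (C.dat b hb) ⟨a, C.fa.2⟩) := hμ ⟨a, C.fa.2⟩
  have C' := am1_cd C h'.ga μ hg₁
  -- step 2
  obtain ⟨j₁, hj1, hj2⟩ := X.exists_j1 h' (β := μ.ψ (rt p a)) (by rw [← map_pow, C.pow_rt, ha'])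
  have hkm : km p (j' (cF (C.dat b hb) ⟨ζ, C.fz⟩)) (j' (cF (C.dat b hb) ⟨a, C.fa.2⟩)) g₁ = 1 := by
    rw [← hζ', ← ha']
    exact C'.g1
  have o1 : Ov (Pool.Agent.MSX.KL p (fL H Ω p a)) (kr G' p (μ.ψ a)) j₁ := by
    have h1 := X.ov_j1 h' hj1 hkm
    rw [← ha'] at h1
    exact h1
  have hj := am1_j1 C b hb μ hμ hj1 hj2
  -- steps 3, 4
  have hcu := am1_cu C b hb h'.ga μ hg₁ o1 hj hf he h0
  have hadd : ∀ g h : H, km p ζ a (g * h) = km p ζ a g + km p ζ a h := fun g h =>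
    km_hom C.hz C.fa.1 (C.fz g) (C.fz h) (C.fa.2 g) (C.fa.2 h)
  obtain ⟨c, hc, hfc⟩ := ker_cyc C.ga (km_cont C.ga p ζ a) hadd C.g1 (fun g => C.mem_kr) hf hcu
  have hadd' : ∀ g h : G', km p (μ.ψ ζ) (μ.ψ a) (g * h) = km p (μ.ψ ζ) (μ.ψ a) g + km p (μ.ψ ζ) (μ.ψ a) h :=
    fun g h => km_hom C'.hz C'.fa.1 (C'.fz g) (C'.fz h) (C'.fa.2 g) (C'.fa.2 h)
  have hcu' : Cu (fun g h : G' => μ.ψ c ^ cy (fun g : G' => km p (μ.ψ ζ) (μ.ψ a) g) g h) (fun _ _ => 1) := by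
    have h1 : Cu (pf μ f) (fun _ _ => 1) := by
      rw [bqm_bc μ hf.ne, ← bc_one, bc_eq_cu (Nz.pf hf.ne μ) Nz.one] at h0
      exact h0
    have h2 := pbu_Cu μ hfc
    have h3 : pbu μ (fun g h : H => c ^ cy (fun g : H => km p ζ a g) g h) =
        fun g h : G' => μ.ψ c ^ cy (fun g : G' => km p (μ.ψ ζ) (μ.ψ a) g) g h := by
      funext g h
      show μ.ψ (c ^ cy (fun g : H => km p ζ a g) (μ.r g) (μ.r h)) = _
      rw [map_pow]
      unfold cy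
      beta_reduce
      rw [am1_km C h'.ga μ, am1_km C h'.ga μ]
    rw [h3] at h2
    exact Cu_trans (Cu_symm h2) h1
  obtain ⟨y, hy0, hyN, hy⟩ := norm_of_cy h'.ga (km_cont h'.ga p (μ.ψ ζ) (μ.ψ a)) hadd' C'.g1
    (fun g => C'.mem_kr) (μ.fx hc) hcu'
  -- step 5
  obtain ⟨n, Y, hY⟩ := o1.pi y (fun g => hyN g g.2)
  have hsm : ∀ x, g₁ • j₁ x = j₁ (sK (C.dat b hb) x) := by
    intro x
    have h1 := X.smul_j1 h' hj1 g₁ x
    have h11 : (1 : ZMod p).val = 1 := by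
      have : Fact (1 < p) := ⟨C.hp.one_lt⟩
      exact ZMod.val_one p
    rw [hkm, h11] at h1
    exact h1
  have hsi : ∀ i : ℕ, g₁ ^ i • j₁ Y = j₁ ((sK (C.dat b hb))^[i] Y) := by
    intro i
    induction i with
    | zero =>
      rw [pow_zero, one_smul]
      rfl
    | succ i ih => rw [pow_succ', mul_smul, ih, hsm, Function.iterate_succ_apply']
  have hprod : ∏ k ∈ Finset.range p, (sK (C.dat b hb))^[k] Y =
      cL p (fL H Ω p a) (algebraMap (fF H Ω) (fL H Ω p a) ((⟨c, hc.2⟩ : fF H Ω) ^ (ringExpChar Ω' ^ n))) := by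
    apply j₁.injective
    rw [map_prod, ← iK_cF, hj1, ← hμ]
    have h1 : ∀ i ∈ Finset.range p, j₁ ((sK (C.dat b hb))^[i] Y) = (g₁ ^ i • y) ^ (ringExpChar Ω' ^ n) := by
      intro i _
      rw [← hsi, ← hY, smul_pow']
    rw [Finset.prod_congr rfl h1, Finset.prod_pow, ← hy, ← map_pow]
    rfl
  have hc0 : ((⟨c, hc.2⟩ : fF H Ω) ^ (ringExpChar Ω' ^ n)) ≠ 0 :=
    pow_ne_zero _ (fun h => hc.1 (congrArg Subtype.val h))
  obtain ⟨m, E, hE0, hE⟩ := ami' (C.dat b hb) hc0 hprod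
  have hE' : c ^ (ringExpChar Ω' ^ n) = (b : Ω) ^ m * ∏ i ∈ Finset.range p, g₀ ^ i • (E : Ω) := by
    have h1 := congrArg (fL H Ω p a).subtype hE
    rw [map_mul, map_zpow₀, C.dat_b] at h1
    rw [← am1_N C b hb]
    exact h1
  -- step 6
  have hbF : Fx H (b : Ω) := ⟨fun h => hb (Subtype.ext h), fun g => b.2 g⟩
  have hE0' : (E : Ω) ≠ 0 := fun h => hE0 (Subtype.ext h)
  have nb : Nz (fun g h : H => (b : Ω) ^ cy (fun g : H => km p ζ a g) g h) := fun g h => pow_ne_zero _ hbF.1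
  have nc : Nz (fun g h : H => c ^ cy (fun g : H => km p ζ a g) g h) := fun g h => pow_ne_zero _ hc.1
  have hP0 : (∏ i ∈ Finset.range p, g₀ ^ i • (E : Ω)) ≠ 0 :=
    Finset.prod_ne_zero_iff.2 fun i _ => smul_ne_z _ hE0'
  have nE : Nz (fun g h : H => (∏ i ∈ Finset.range p, g₀ ^ i • (E : Ω)) ^ cy (fun g : H => km p ζ a g) g h) :=
    fun g h => pow_ne_zero _ hP0
  have e1 : bc f = bc (fun g h : H => c ^ cy (fun g : H => km p ζ a g) g h) := (bc_eq_cu hf.ne nc).2 hfc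
  have e2 : bc (fun g h : H => (b : Ω) ^ cy (fun g : H => km p ζ a g) g h) = bc (sb (H := H) p ζ a (b : Ω)) :=
    (bc_eq_cu nb (nz_sb C.hz _ _)).2 (MSC.cy_sym C.ga C.hz C.fz C.fa hbF)
  have e3 : bc (fun g h : H => (∏ i ∈ Finset.range p, g₀ ^ i • (E : Ω)) ^ cy (fun g : H => km p ζ a g) g h) = 0 := by
    rw [← bc_one (H := H) (Ω := Ω), bc_eq_cu nE Nz.one]
    exact cy_of_norm C.ga (km_cont C.ga p ζ a) hadd C.g1 (fun g => C.mem_kr) hE0' (fun g hg => E.2 ⟨g, hg⟩)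
  have e4 : (ringExpChar Ω' ^ n) • bc f = m • bc (sb (H := H) p ζ a (b : Ω)) := by
    rw [e1, ← bc_pow nc, ← e2, ← bc_zpow nb, ← add_zero (bc fun g h : H => _ ^ m), ← e3,
      ← bc_mul (fun g h => zpow_ne_zero _ (nb g h)) nE]
    congr 1
    funext g h
    rw [← pow_mul, mul_comm, pow_mul, hE', mul_pow, ← zpow_natCast, ← zpow_mul, mul_comm m, zpow_mul,
      zpow_natCast]
  have e5 : p • bc (sb (H := H) p ζ a (b : Ω)) = 0 := by
    rw [← bc_pow (nz_sb C.hz _ _), ← bc_one]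
    congr 1
    funext g h
    exact zp_pow C.hz _
  have hcop : (ringExpChar Ω' ^ n).Coprime p :=
    (am1_cop (ringExpChar Ω') C.hp C'.hz.cast_ne).pow_left n
  exact am1_int C.hp hcop he e5 e4

end MSN
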