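import Pool.Agent.MSN.Hd
import Pool.Agent.MSG.Uf
import Pool.Agent.MSG.Syl

/-! # MSN / Gz: the group `G / Gi` is procyclic, a pro-`p` group if `μ_p` is fixed

PROOFS.
* `Gn p G Ω m` is the (open, normal) subgroup fixing all `x` with `x ^ (p ^ m) = 1`: finitely many `x`, open stabilizers.  `Gi = ⋂ Gn m`, decreasing.
* `gi_le_open`: `U` open, `Gi ≤ U`: some `Gn m ≤ U` (compactness: `⋂ (Gn m ∩ Uᶜ) = ∅`, closed, decreasing).
* `gn_idx`: `G / Gn m` has order a power of `p`: every `g` satisfies `g ^ (p ^ m) ∈ Gn m`: if `z` is a primitive root of order `p ^ m` then `g • z = z ^ c` with `c ≡ 1` modulo `p` (`ζ` is a power of `z` fixed by `g`), `c ^ (p ^ m) ≡ 1` modulo `p ^ m`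
  (`Int.ModEq.pow_card_sub_one`... elementary: `c ≡ 1 [p ^ k]` implies `c ^ p ≡ 1 [p ^ (k+1)]`).  So `G / Gn m` is a `p`-group (`IsPGroup.iff_card`).
* `gi_idx`: an open subgroup containing `Gi` contains some `Gn m`, its index divides the index of `Gn m`.
* `gi_tr`: `U` open with index prime to `p`: `U ⊔ Gi` is open with index dividing `U.index` and a power of `p`, so it is `⊤`, and `Gi` is normal: every `g` is `h * u`.
* `cyc`: either `G` fixes all roots of unity of `p`-power order, or there are `i ≥ 1`, a primitive root `ξ` of order `p ^ (i + 1)` with `ξ ^ p` fixed by `G` and `c : G` with `c • ξ ≠ ξ`: take the least `k` such that some root of order `p ^ k` is not fixed; `k ≥ 2` because `ζ` is fixed.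
* `cyc_max`: for such `i`: every root of unity of `p`-power order which is fixed by `G` has order dividing `p ^ i` (if its order is `p ^ k` with `k > i` then `ξ` is a power of it).
* `twist`: `c • z = z ^ v` (`z` of order `p ^ (M + 1)`), `x = ri (bc f) = hB L κ`.  Conjugation by `c`: `bqm (cjm (Gi ..) c) (ri (bc f)) = ri (bc f)` (`bo_cj`, restricted to `Gi`: `CuN_cju_self`), and `bqm (cjm c) (hB L κ) = hB L' κ` with root `c • z = z ^ v` (`bqm_hB`,
  `c • j x = j x`), `v • hB L' κ = hB L κ` (`MSC.hB_zeta`).  So `(v - 1) • x = 0` and `p ^ (M + 1) • x = 0`.  If `M + 1 ≤ i`: `p ^ i • x = 0`.  Otherwise `ξ` is a power of `z`, `c • ξ = ξ ^ v ≠ ξ`, so `p ^ (i + 1)` does not divide `v - 1`, and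
  `gcd (v - 1, p ^ (M + 1))` divides `p ^ i`.
-/

set_option autoImplicit false
set_option linter.unusedVariables false

namespace MSN

universe u

open MSG

open Pool.Agent.MK (K2 S)

section

variable {p : ℕ} {G Ω : Type u} [Group G] [TopologicalSpace G] [Field Ω] [MulSemiringAction G Ω] {ζ : Ω}

/-- the subgroup fixing the roots of unity of order dividing `p ^ m` -/
def Gn (p : ℕ) (G Ω : Type u) [Group G] [Field Ω] [MulSemiringAction G Ω] (m : ℕ) : Subgroup G where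
  carrier := {g | ∀ x : Ω, x ^ (p ^ m) = 1 → g • x = x}
  mul_mem' := by
    intro a b ha hb x hx
    rw [mul_smul, hb x hx, ha x hx]
  one_mem' := fun x _ => one_smul G x
  inv_mem' := by
    intro a ha x hx
    rw [inv_smul_eq_iff, ha x hx]

omit [TopologicalSpace G] [MulSemiringAction G Ω] [Group G] in
private theorem gz_fin (hp : p.Prime) (m : ℕ) : {x : Ω | x ^ (p ^ m) = 1}.Finite := by
  classical
  have hpos : 0 < p ^ m := pow_pos hp.pos m
  refine ((Polynomial.nthRoots (p ^ m) (1 : Ω)).toFinset.finite_toSet).subset ?_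
  intro x hx
  rw [Finset.mem_coe, Multiset.mem_toFinset, Polynomial.mem_nthRoots hpos]
  exact hx

theorem gn_open (hp : p.Prime) (hG : GA G Ω) (m : ℕ) : IsOpen (Gn p G Ω m : Set G) := by
  have h : (Gn p G Ω m : Set G) = ⋂ x ∈ {x : Ω | x ^ (p ^ m) = 1}, {g : G | g • x = x} := by
    ext g
    simp only [Set.mem_iInter]
    exact Iff.rfl
  rw [h]
  exact (gz_fin hp m).isOpen_biInter fun x _ => hG.stab x

theorem gn_normal (m : ℕ) : (Gn p G Ω m).Normal := by
  refine ⟨fun n hn g x hx => ?_⟩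
  have h1 : n • (g⁻¹ • x) = g⁻¹ • x := hn (g⁻¹ • x) (by rw [← smul_pow', hx, smul_one])
  rw [mul_smul, mul_smul, h1, smul_inv_smul]

theorem gi_le_open (hp : p.Prime) (hG : GA G Ω) {U : Subgroup G} (hU : IsOpen (U : Set G)) (h : Gi p G Ω ≤ U) :
    ∃ m : ℕ, Gn p G Ω m ≤ U := by
  have htop := hG.top
  refine MSG.exists_le hG (fun m => Gn p G Ω m)
    (fun k => Subgroup.isClosed_of_isOpen _ (gn_open hp hG k)) ?_ hU ?_
  · intro a b hab g hg x hx
    exact hg x (by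
      obtain ⟨d, rfl⟩ := Nat.exists_eq_add_of_le hab
      rw [pow_add, pow_mul, hx, one_pow])
  · intro g hg
    exact h fun x k hx => hg k x hx

omit [TopologicalSpace G] in
private theorem gz_pow (hz : PZ p ζ) (hζ : ∀ g : G, g • ζ = ζ) (g : G) (m : ℕ) :
    ∀ x : Ω, x ^ (p ^ m) = 1 → g ^ (p ^ m) • x = x := by
  induction m with
  | zero =>
    intro x hx
    rw [pow_zero, pow_one] at hx
    rw [hx, smul_one]
  | succ m ih =>
    intro x hx
    have x0 : x ≠ 0 := by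
      rintro rfl
      rw [zero_pow (pow_ne_zero _ (by have := hz.one_lt; omega))] at hx
      exact zero_ne_one hx
    have h1 : g ^ (p ^ m) • x ^ p = x ^ p := ih (x ^ p) (by rw [← pow_mul, ← pow_succ', hx])
    obtain ⟨u, hu⟩ : ∃ u : Ω, u = (g ^ (p ^ m) • x) / x := ⟨_, rfl⟩
    have h2 : u ^ p = 1 := by
      rw [hu, div_pow, ← smul_pow', h1, div_self (pow_ne_zero _ x0)]
    have := NeZero.of_pos (lt_trans zero_lt_one hz.one_lt)
    obtain ⟨a, _, ha⟩ := hz.prim.eq_pow_of_pow_eq_one h2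
    have h3 : ∀ g : G, g • u = u := fun g => by rw [← ha, smul_pow', hζ]
    have h4 : g ^ (p ^ m) • x = u * x := by rw [hu, div_mul_cancel₀ _ x0]
    have h5 : ∀ n : ℕ, (g ^ (p ^ m)) ^ n • x = u ^ n * x := by
      intro n
      induction n with
      | zero => rw [pow_zero, pow_zero, one_smul, one_mul]
      | succ n ihn =>
        rw [pow_succ', mul_smul, ihn, smul_mul', smul_pow', h3, h4, pow_succ]
        ring
    rw [pow_succ, pow_mul, h5, h2, one_mul]

theorem gn_idx (hp : p.Prime) (hG : GA G Ω) (hz : PZ p ζ) (hζ : ∀ g : G, g • ζ = ζ) (m : ℕ) :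
    ∃ k : ℕ, (Gn p G Ω m).index = p ^ k := by
  have i1 := hG.top
  have i2 := hG.cpt
  have i3 : (Gn p G Ω m).Normal := gn_normal m
  have i4 : Finite (G ⧸ Gn p G Ω m) := Subgroup.quotient_finite_of_isOpen _ (gn_open hp hG m)
  have i5 := Fact.mk hp
  have h1 : IsPGroup p (G ⧸ Gn p G Ω m) := by
    intro q
    obtain ⟨g, rfl⟩ := QuotientGroup.mk_surjective q
    refine ⟨m, ?_⟩
    rw [← QuotientGroup.mk_pow, QuotientGroup.eq_one_iff]
    exact gz_pow hz hζ g m
  obtain ⟨k, hk⟩ := IsPGroup.iff_card.1 h1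
  exact ⟨k, hk⟩

theorem gi_idx (hp : p.Prime) (hG : GA G Ω) (hz : PZ p ζ) (hζ : ∀ g : G, g • ζ = ζ) {U : Subgroup G} (hU : IsOpen (U : Set G))
    (h : Gi p G Ω ≤ U) : ∃ k : ℕ, U.index = p ^ k := by
  obtain ⟨m, hm⟩ := gi_le_open hp hG hU h
  obtain ⟨k, hk⟩ := gn_idx hp hG hz hζ m
  have h1 : U.index ∣ p ^ k := by
    rw [← hk]
    exact Subgroup.index_dvd_of_le hm
  obtain ⟨l, _, hl⟩ := (Nat.dvd_prime_pow hp).1 h1
  exact ⟨l, hl⟩

theorem gi_tr (hp : p.Prime) (hG : GA G Ω) (hz : PZ p ζ) (hζ : ∀ g : G, g • ζ = ζ) {U : Subgroup G} (hU : IsOpen (U : Set G))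
    (h : ¬ p ∣ U.index) (g : G) : ∃ h : Gi p G Ω, (h : G)⁻¹ * g ∈ U := by
  have i1 := hG.top
  have i3 : (Gi p G Ω).Normal := gi_normal
  have hop : IsOpen ((Gi p G Ω ⊔ U : Subgroup G) : Set G) := Subgroup.isOpen_mono le_sup_right hU
  obtain ⟨k, hk⟩ := gi_idx hp hG hz hζ hop le_sup_left
  have h1 : (Gi p G Ω ⊔ U : Subgroup G).index ∣ U.index := Subgroup.index_dvd_of_le le_sup_right
  have h2 : k = 0 := by
    by_contra h0
    exact h ((dvd_pow_self p h0).trans (hk ▸ h1))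
  rw [h2, pow_zero, Subgroup.index_eq_one] at hk
  have h3 : g ∈ ((Gi p G Ω ⊔ U : Subgroup G) : Set G) := by
    rw [hk]
    exact Subgroup.mem_top g
  rw [Subgroup.normal_mul] at h3
  obtain ⟨a, ha, b, hb, rfl⟩ := h3
  refine ⟨⟨a, ha⟩, ?_⟩
  show a⁻¹ * (a * b) ∈ U
  rw [inv_mul_cancel_left]
  exact hb

/-- data of the cyclotomic extension: `ξ` of order `p ^ (i + 1)`, `ξ ^ p` fixed, `c • ξ ≠ ξ` -/
structure Cyx (p : ℕ) (G : Type u) {Ω : Type u} [Group G] [Field Ω] [MulSemiringAction G Ω] (i : ℕ) (ξ : Ω) (c : G) : Prop where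
  one_le : 1 ≤ i
  prim : IsPrimitiveRoot ξ (p ^ (i + 1))
  fx : ∀ g : G, g • ξ ^ p = ξ ^ p
  mv : c • ξ ≠ ξ

theorem cyc (hp : p.Prime) (hG : GA G Ω) (hz : PZ p ζ) (hζ : ∀ g : G, g • ζ = ζ) :
    Mu p G Ω ∨ ∃ (i : ℕ) (ξ : Ω) (c : G), Cyx p G i ξ c := by
  classical
  by_cases hM : Mu p G Ω
  · exact Or.inl hM
  · right
    have hex : ∃ k : ℕ, ∃ (x : Ω) (g : G), x ^ (p ^ k) = 1 ∧ g • x ≠ x := by
      unfold Mu at hM
      push Not at hM
      obtain ⟨g, x, k, hx, hg⟩ := hM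
      exact ⟨k, x, g, hx, hg⟩
    obtain ⟨k, ⟨x, g, hx, hg⟩, hmin⟩ : ∃ k : ℕ, (∃ (x : Ω) (g : G), x ^ (p ^ k) = 1 ∧ g • x ≠ x) ∧
        ∀ l < k, ¬ ∃ (x : Ω) (g : G), x ^ (p ^ l) = 1 ∧ g • x ≠ x :=
      ⟨Nat.find hex, Nat.find_spec hex, fun l hl => Nat.find_min hex hl⟩
    have hfix : ∀ l < k, ∀ (y : Ω) (g : G), y ^ (p ^ l) = 1 → g • y = y := by
      intro l hl y g' hy
      by_contra hne
      exact hmin l hl ⟨y, g', hy, hne⟩
    have k0 : k ≠ 0 := by
      rintro rfl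
      rw [pow_zero, pow_one] at hx
      apply hg
      rw [hx, smul_one]
    have k1 : k ≠ 1 := by
      rintro rfl
      rw [pow_one] at hx
      have := NeZero.of_pos hp.pos
      obtain ⟨a, _, ha⟩ := hz.prim.eq_pow_of_pow_eq_one hx
      apply hg
      rw [← ha, smul_pow', hζ]
    obtain ⟨i, rfl⟩ : ∃ i, k = i + 1 := ⟨k - 1, by omega⟩
    refine ⟨i, x, g, by omega, ?_, ?_, hg⟩
    · have i5 := Fact.mk hp
      rw [IsPrimitiveRoot.iff_orderOf]
      refine orderOf_eq_prime_pow ?_ hx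
      intro h1
      exact hg (hfix i (by omega) x g h1)
    · intro g'
      exact hfix i (by omega) (x ^ p) g' (by rw [← pow_mul, ← pow_succ', hx])

theorem cyc_max (hp : p.Prime) {i : ℕ} {ξ : Ω} {c : G} (h : Cyx p G i ξ c) {x : Ω} {k : ℕ} (hx : x ^ p ^ k = 1)
    (hx' : ∀ g : G, g • x = x) : x ^ p ^ i = 1 := by
  obtain ⟨l, _, hl⟩ := (Nat.dvd_prime_pow hp).1 (orderOf_dvd_of_pow_eq_one hx)
  by_cases hli : l ≤ i
  · rw [← orderOf_dvd_iff_pow_eq_one, hl]
    exact pow_dvd_pow p hli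
  · exfalso
    have h1 : IsPrimitiveRoot x (p ^ l) := by
      rw [← hl]
      exact IsPrimitiveRoot.orderOf x
    have h2 : IsPrimitiveRoot (x ^ p ^ (l - (i + 1))) (p ^ (i + 1)) :=
      h1.pow (pow_pos hp.pos l) (by
        rw [← pow_add]
        congr 1
        omega)
    have := NeZero.of_pos (pow_pos hp.pos (i + 1))
    obtain ⟨a, _, ha⟩ := h2.eq_pow_of_pow_eq_one h.prim.pow_eq_one
    apply h.mv
    rw [← ha, smul_pow', smul_pow', hx']

omit [Group G] [TopologicalSpace G] [MulSemiringAction G Ω] in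
private theorem gz_hB {n : ℕ} {H : Type u} [Group H] [TopologicalSpace H] [MulSemiringAction H Ω] {F : Type u} [Field F] {z z' : Ω}
    {j j' : F →+* Ω} (hz : z = z') (hj : j = j') (L : Lv n H z j) (L' : Lv n H z' j') (x : K2 F) : hB L x = hB L' x := by
  subst hz
  subst hj
  rfl

theorem twist (hp : p.Prime) (hG : GA G Ω) {i : ℕ} {ξ : Ω} {c : G} (hc : Cyx p G i ξ c) {F : Type u} [Field F] {j : F →+* Ω}
    (hj : ∀ (g : G) (x : F), g • j x = j x) {f : G → G → Ω} (hf : Zo f) (h : HD p j (ri p G Ω (bc f))) :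
    p ^ i • ri p G Ω (bc f) = 0 := by
  have i1 := hG.top
  have i3 : (Gi p G Ω).Normal := gi_normal
  obtain ⟨m, z, L, κ, hx⟩ := h
  have hpos : 0 < p ^ (m + 1) := pow_pos hp.pos _
  have i4 := NeZero.of_pos hpos
  have hcz : IsPrimitiveRoot (c • z) (p ^ (m + 1)) := by
    have := L.pz.prim.map_of_injective (f := MulSemiringAction.toRingHom G Ω c) (RingHom.injective _)
    exact this
  obtain ⟨v, _, hv⟩ := L.pz.prim.eq_pow_of_pow_eq_one hcz.pow_eq_one
  have hcop : v.Coprime (p ^ (m + 1)) := by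
    rw [← L.pz.prim.pow_iff_coprime hpos, hv]
    exact hcz
  have hψz : (cjm (Gi p G Ω) c : Mo (Gi p G Ω) Ω (Gi p G Ω) Ω).ψ z = z ^ v := hv.symm
  have hψj : (cjm (Gi p G Ω) c : Mo (Gi p G Ω) Ω (Gi p G Ω) Ω).ψ.comp j = j :=
    RingHom.ext fun x => hj c x
  have L' : Lv (p ^ (m + 1)) (Gi p G Ω) (z ^ v) j := by
    have := L.pull (cjm (Gi p G Ω) c) (gi_ga hG)
    rw [hψz, hψj] at this
    exact this
  have e1 : bqm (cjm (Gi p G Ω) c) (ri p G Ω (bc f)) = ri p G Ω (bc f) := by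
    have h0 : Nz (rs (Gi p G Ω) f) := fun g h => hf.ne _ _
    rw [ri_bc hf.ne, bqm_bc _ h0, bc_eq_cu (h0.pf _) h0]
    have h1 : pf (cjm (Gi p G Ω) c) (rs (Gi p G Ω) f) = fun (g h : Gi p G Ω) => cju c f (g : G) (h : G) := by
      funext g h
      show c • f ((MulAut.conjNormal c⁻¹ g : Gi p G Ω) : G) ((MulAut.conjNormal c⁻¹ h : Gi p G Ω) : G) = c • f (c⁻¹ * g * c) (c⁻¹ * h * c)
      rw [MulAut.conjNormal_apply, MulAut.conjNormal_apply, inv_inv]
    rw [h1]
    exact CuN_cju_self hG hf c (Gi p G Ω)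
  have e2 : bqm (cjm (Gi p G Ω) c) (hB L κ) = hB L' κ := by
    rw [bqm_hB (cjm (Gi p G Ω) c) L (L.pull (cjm (Gi p G Ω) c) (gi_ga hG)) κ]
    exact gz_hB hψz hψj _ _ κ
  have e3 : v • hB L' κ = hB L κ := MSC.hB_zeta hcop.symm L L' κ
  have e4 : v • ri p G Ω (bc f) = ri p G Ω (bc f) := by
    have e3' : v • hB L' κ = ri p G Ω (bc f) := by rw [e3, hx]
    have e2' : ri p G Ω (bc f) = hB L' κ := by
      rw [← e1]
      conv_lhs => rw [hx]
      exact e2
    rw [← e2'] at e3'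
    exact e3'
  have e5 : p ^ (m + 1) • ri p G Ω (bc f) = 0 := by
    rw [hx]
    exact MSC.tors_hB L κ
  have hv0 : 1 ≤ v := by
    rcases Nat.eq_zero_or_pos v with h0 | h0
    · exfalso
      rw [h0, Nat.coprime_zero_left] at hcop
      have := Nat.one_lt_pow (n := m + 1) (by omega) hp.one_lt
      omega
    · exact h0
  have e6 : (v - 1) • ri p G Ω (bc f) = 0 := by
    have : v • ri p G Ω (bc f) = (v - 1) • ri p G Ω (bc f) + ri p G Ω (bc f) := by
      rw [← succ_nsmul, Nat.sub_add_cancel hv0]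
    rw [this] at e4
    exact left_eq_add.1 (by rw [add_comm]; exact e4.symm)
  obtain ⟨e, _, he⟩ := (Nat.dvd_prime_pow hp).1 (addOrderOf_dvd_of_nsmul_eq_zero e5)
  have e7 : p ^ e ∣ v - 1 := by
    rw [← he]
    exact addOrderOf_dvd_of_nsmul_eq_zero e6
  have hei : e ≤ i := by
    by_contra hlt
    have hem : e ≤ m + 1 := by
      have := addOrderOf_dvd_of_nsmul_eq_zero e5
      rw [he] at this
      exact (Nat.pow_dvd_pow_iff_le_right hp.one_lt).1 this
    have h1 : ξ ^ p ^ (m + 1) = 1 := by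
      rw [← orderOf_dvd_iff_pow_eq_one, ← hc.prim.eq_orderOf]
      exact pow_dvd_pow p (by omega)
    obtain ⟨a, _, ha⟩ := L.pz.prim.eq_pow_of_pow_eq_one h1
    have h2 : c • ξ = ξ ^ v := by
      rw [← ha, smul_pow', ← hv, ← pow_mul, ← pow_mul, mul_comm]
    have h3 : ξ ^ (v - 1) = 1 := by
      rw [← orderOf_dvd_iff_pow_eq_one, ← hc.prim.eq_orderOf]
      exact (pow_dvd_pow p (by omega)).trans e7
    apply hc.mv
    rw [h2, ← Nat.sub_add_cancel hv0, pow_add, h3, one_mul, pow_one]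
  rw [← addOrderOf_dvd_iff_nsmul_eq_zero, he]
  exact pow_dvd_pow p hei

end

end MSN
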