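import Pool.Agent.MSN.Am1
import Pool.Agent.MSN.Gz

/-! # MSN / Am2: the same for classes on `Gi`

`C : Cd p G ζ a g₀` with `g₀ ∈ Gi p G Ω`, `D = C.dat b`, `(G', Ω', j')` a pair over `D.K`, `μ` over `Ω^G → D.K`.  A class of `p`-power order of a cocycle on `Gi p G Ω` which dies on `Gi p G' Ω'` is a multiple of the class of `(a, b)`.

PROOF of `am2`.  `N = Gi p G Ω` (normal, closed), `C' : Cd p N ζ a ⟨g₀, _⟩` (`km` computed in `N` and in `G` is the same by definition), `E' = Ω^N`, `L' = Ω^(kr N p a)`, `D' = C'.dat b`.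
1. `kmap`: `κ : D.K → D'.K` over the inclusion `Ω^G → Ω^N` (`L → L'` the inclusion of subfields of `Ω`: `kr N p a` consists of elements of `kr G p a`; `s` and `s'` are the action of `g₀`, `dat_s`).  Choose a pair `(G₃, Ω₃, j₃)` over `D'.K` (`exists_ov`).
   `m'' : Mo N Ω G₃ Ω₃` over `Ω^N → D'.K` (`Ov.mo` for `Ov.self (gi_ga C.ga)`, `φ = j₃ ∘ cF D'`).  `m₁ : Mo G' Ω' G₃ Ω₃` over `κ` (`Ov.mo h'`, `φ = j₃ ∘ κ`).
2. `G₃` fixes all roots of unity of `p`-power order of `Ω₃`: they are images under `m''.ψ` of roots of unity of `Ω` (`Ω` is algebraically closed of the same characteristic: both fields contain exactly `p ^ k` roots of `x ^ (p ^ k) = 1`), which are fixed by `N`.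
   `m₂ = (gim p μ).cmp (toGi p m₁ _) : Mo N Ω G₃ Ω₃`, `bqm m₂ (bc f) = bqm (toGi ..) (bqm (gim p μ) (bc f)) = 0`.
3. `m₂.ψ` and `m''.ψ` agree on `Ω^G`: `m₁.ψ (μ.ψ x) = m₁.ψ (j' (cF D x)) = j₃ (κ (cF D x)) = j₃ (cF D' x)`.  Apply `Mo.conj` (MSG/Mox.lean) to the morphisms `(Mo.incl G Ω N).cmp m₂` and `(Mo.incl G Ω N).cmp m''` of `(G, Ω)`: there is `c : G` with `m₂.ψ x = m''.ψ (c • x)` (or the inverse of `c`) for all `x`, and
   the maps `r` are conjugate by `c`.  So `m₂ = (cjm N c).cmp m''` (equality of the fields of the structure; or show directly `bqm m₂ y = bqm m'' (bqm (cjm N c) y)` for `y = bc f`).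
4. `bqm (cjm N c) (bc f) = bc (pf (cjm N c) f)`, a cocycle class of `p`-power order, killed by `bqm m''`.  `am1` for `C'`: `bqm (cjm N c) (bc f) = t • bc (sb p ζ a b)`.  Apply `bqm (cjm N c⁻¹)`: `bc f = t • bqm (cjm N c⁻¹) (bc (sb p ζ a b)) = t • bc (sb p ζ a b)` (`bqm_sb`; `c` fixes `ζ, a, b`).
   `ri p G Ω (bc (sb p ζ a b)) = bc (sb p ζ a b)` on `N`.
-/

set_option autoImplicit false
set_option linter.unusedVariables false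

namespace MSN

universe u

open MSG

open Pool.Agent.MK (K2 S)

theorem Cd.gi {p : ℕ} {G Ω : Type u} [Group G] [TopologicalSpace G] [Field Ω] [MulSemiringAction G Ω] {ζ a : Ω} {g₀ : G}
    (C : Cd p G ζ a g₀) (hg : g₀ ∈ Gi p G Ω) : Cd p (Gi p G Ω) ζ a (⟨g₀, hg⟩ : Gi p G Ω) :=
  ⟨C.hp, gi_ga C.ga, C.hz, fun g => C.fz g, ⟨C.fa.1, fun g => C.fa.2 g⟩, C.g1⟩

private theorem am2_root {p : ℕ} {Ω Ω' : Type u} [Field Ω] [IsAlgClosed Ω] [Field Ω'] {ζ : Ω} (hp : p.Prime) (hz : PZ p ζ)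
    (ψ : Ω →+* Ω') {x : Ω'} {k : ℕ} (hx : x ^ p ^ k = 1) : ∃ y : Ω, y ^ p ^ k = 1 ∧ ψ y = x := by
  obtain ⟨z, hz1, -⟩ := exists_prim hp hz k
  have h1 : IsPrimitiveRoot (ψ z) (p ^ (k + 1)) := hz1.prim.map_of_injective ψ.injective
  have hne : NeZero (p ^ (k + 1)) := NeZero.of_pos (pow_pos hp.pos _)
  obtain ⟨i, -, hi⟩ := h1.eq_pow_of_pow_eq_one (ξ := x) (by rw [pow_succ, pow_mul, hx, one_pow])
  refine ⟨z ^ i, ?_, by rw [map_pow, hi]⟩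
  apply ψ.injective
  rw [map_pow, map_pow, hi, hx, map_one]

/-- roots of unity come from a subfield which is algebraically closed -/
theorem mu_of {p : ℕ} {H Ω G' Ω' : Type u} [Group H] [TopologicalSpace H] [Field Ω] [MulSemiringAction H Ω]
    [Group G'] [TopologicalSpace G'] [Field Ω'] [MulSemiringAction G' Ω'] (hH : GA H Ω) {ζ : Ω} (hp : p.Prime) (hz : PZ p ζ)
    (h : Mu p H Ω) (m : Mo H Ω G' Ω') : Mu p G' Ω' := by
  intro g x k hx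
  have := hH.alg
  obtain ⟨y, hy, rfl⟩ := am2_root hp hz m.ψ hx
  rw [← m.comp, h _ y k hy]

/-- surjectivity on `Gi` -/
theorem gi_surj {p : ℕ} {G Ω G' Ω' : Type u} [Group G] [TopologicalSpace G] [Field Ω] [MulSemiringAction G Ω]
    [Group G'] [TopologicalSpace G'] [Field Ω'] [MulSemiringAction G' Ω'] (hG : GA G Ω) {ζ : Ω} (hp : p.Prime) (hz : PZ p ζ)
    (m : Mo G Ω G' Ω') (hm : Function.Surjective m.r) : ∀ g ∈ Gi p G Ω, ∃ g' ∈ Gi p G' Ω', m.r g' = g := by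
  intro g hg
  have := hG.alg
  obtain ⟨g', rfl⟩ := hm g
  refine ⟨g', fun x k hx => ?_, rfl⟩
  obtain ⟨y, hy, rfl⟩ := am2_root hp hz m.ψ hx
  rw [← m.comp, hg y k hy]

/-- the inclusion of the fixed fields -/
private theorem am2_le {p : ℕ} {G Ω : Type u} [Group G] [Field Ω] [MulSemiringAction G Ω] (N : Subgroup G) (a : Ω) :
    FixedPoints.subfield (kr G p a) Ω ≤ FixedPoints.subfield (kr N p a) Ω :=
  fun x hx g => hx ⟨((g : N) : G), g.2⟩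

private theorem am2_kap {p : ℕ} {G Ω : Type u} [Group G] [TopologicalSpace G] [Field Ω] [MulSemiringAction G Ω] {ζ a : Ω} {g₀ : G}
    (C : Cd p G ζ a g₀) {N : Subgroup G} (hg : g₀ ∈ N) (C' : Cd p N ζ a (⟨g₀, hg⟩ : N)) (b : fF G Ω) (hb : b ≠ 0)
    (b' : fF N Ω) (hb' : b' ≠ 0) (hbb : algebraMap (fF G Ω) (fF N Ω) b = b') :
    ∃ κ : (C.dat b hb).K →+* (C'.dat b' hb').K, ∀ x, κ (cF (C.dat b hb) x) =
      cF (C'.dat b' hb') (algebraMap (fF G Ω) (fF N Ω) x) := by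
  refine kmap (C.dat b hb) (C'.dat b' hb') (algebraMap (fF G Ω) (fF N Ω))
    (Subfield.inclusion (am2_le N a)) (fun x => Subtype.ext rfl) (fun x => ?_) ?_
  · apply Subtype.ext
    have e1 := C.dat_s b hb x
    have e2 := C'.dat_s b' hb' (Subfield.inclusion (am2_le N a) x)
    exact e1.trans e2.symm
  · rw [C.dat_b, C'.dat_b, hbb]

private theorem am2_cj {G Ω G₃ Ω₃ : Type u} [Group G] [TopologicalSpace G] [IsTopologicalGroup G] [Field Ω] [MulSemiringAction G Ω]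
    [Group G₃] [TopologicalSpace G₃] [Field Ω₃] [MulSemiringAction G₃ Ω₃] (hG : GA G Ω) {N : Subgroup G} [N.Normal]
    (m₂ m' : Mo N Ω G₃ Ω₃) (h : ∀ x : Ω, (∀ g : G, g • x = x) → m'.ψ x = m₂.ψ x) :
    ∃ c : G, ∀ f : N → N → Ω, pf m₂ f = pf ((cjm N c).cmp m') f := by
  obtain ⟨c, h1, h2⟩ := Mo.conj hG ((Mo.incl G Ω N).cmp m') ((Mo.incl G Ω N).cmp m₂) h
  refine ⟨c, fun f => ?_⟩
  have h3 : ∀ g : G₃, m₂.r g = (cjm (Ω := Ω) N c).r (m'.r g) := by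
    intro g
    apply Subtype.ext
    have e1 : ((m₂.r g : N) : G) = c⁻¹ * ((m'.r g : N) : G) * c := h2 g
    have e2 : (((cjm (Ω := Ω) N c).r (m'.r g) : N) : G) = c⁻¹ * ((m'.r g : N) : G) * c⁻¹⁻¹ :=
      MulAut.conjNormal_apply _ _
    rw [e1, e2, inv_inv]
  funext g h
  change m₂.ψ (f (m₂.r g) (m₂.r h)) =
    m'.ψ (c • f ((cjm (Ω := Ω) N c).r (m'.r g)) ((cjm (Ω := Ω) N c).r (m'.r h)))
  rw [h3, h3]
  exact h1 _

private theorem am2_cjj {G Ω : Type u} [Group G] [TopologicalSpace G] [IsTopologicalGroup G] [Field Ω] [MulSemiringAction G Ω]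
    {N : Subgroup G} [N.Normal] (c : G) (f : N → N → Ω) : pf ((cjm N c).cmp (cjm N c⁻¹)) f = f := by
  have h3 : ∀ g : N, (cjm (Ω := Ω) N c).r ((cjm (Ω := Ω) N c⁻¹).r g) = g := by
    intro g
    apply Subtype.ext
    have e1 : ∀ (d : G) (g : N), (((cjm (Ω := Ω) N d).r g : N) : G) = d⁻¹ * (g : G) * d⁻¹⁻¹ :=
      fun d g => MulAut.conjNormal_apply _ _
    rw [e1, e1]
    group
  funext g h
  change c⁻¹ • c • f ((cjm (Ω := Ω) N c).r ((cjm (Ω := Ω) N c⁻¹).r g))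
    ((cjm (Ω := Ω) N c).r ((cjm (Ω := Ω) N c⁻¹).r h)) = f g h
  rw [h3, h3, inv_smul_smul]

theorem am2 {p : ℕ} {G Ω : Type u} [Group G] [TopologicalSpace G] [Field Ω] [MulSemiringAction G Ω] {ζ a : Ω} {g₀ : G}
    (C : Cd p G ζ a g₀) (hg : g₀ ∈ Gi p G Ω) (b : fF G Ω) (hb : b ≠ 0) {G' Ω' : Type u} [Group G'] [TopologicalSpace G'] [Field Ω']
    [MulSemiringAction G' Ω'] {j' : (C.dat b hb).K →+* Ω'} (h' : Ov (C.dat b hb).K G' j') (μ : Mo G Ω G' Ω')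
    (hμ : ∀ x : fF G Ω, μ.ψ x = j' (cF (C.dat b hb) x)) {f : Gi p G Ω → Gi p G Ω → Ω} (hf : Zo f) {e : ℕ}
    (he : p ^ e • bc f = 0) (h0 : bqm (gim p μ) (bc f) = 0) :
    ∃ t : ℕ, bc f = t • ri p G Ω (bc (sb (H := G) p ζ a (b : Ω))) := by
  have htop := C.ga.top
  have hnor : (Gi p G Ω).Normal := gi_normal
  have C' := C.gi hg
  obtain ⟨b', hbb⟩ : ∃ b' : fF (Gi p G Ω) Ω, algebraMap (fF G Ω) (fF (Gi p G Ω) Ω) b = b' := ⟨_, rfl⟩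
  have hb' : b' ≠ 0 := by
    rw [← hbb]
    exact (map_ne_zero _).2 hb
  have hval : (b' : Ω) = b := by
    rw [← hbb]
    rfl
  obtain ⟨κ, hκ⟩ := am2_kap C hg C' b hb b' hb' hbb
  obtain ⟨G₃, Ω₃, _, _, _, _, j₃, h₃⟩ := exists_ov (C'.dat b' hb').K
  obtain ⟨m'', hm''⟩ := (Ov.self C'.ga).mo h₃.ga (j₃.comp (cF (C'.dat b' hb'))) (fun g x => h₃.fj g _)
  obtain ⟨m₁, hm₁⟩ := h'.mo h₃.ga (j₃.comp κ) (fun g x => h₃.fj g _)
  have hMu : Mu p G₃ Ω₃ := mu_of C'.ga C.hp C.hz mu_gi m''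
  obtain ⟨m₂, hm₂⟩ : ∃ m₂ : Mo (Gi p G Ω) Ω G₃ Ω₃, m₂ = (gim p μ).cmp (toGi p m₁ hMu) := ⟨_, rfl⟩
  have h2 : bqm m₂ (bc f) = 0 := by
    rw [hm₂, bqm_cmp, h0, map_zero]
  obtain ⟨c, hc⟩ := am2_cj C.ga m₂ m'' (by
    intro x hx
    have e1 : m''.ψ x = j₃ (cF (C'.dat b' hb') (algebraMap (fF G Ω) (fF (Gi p G Ω) Ω) ⟨x, hx⟩)) :=
      hm'' (algebraMap (fF G Ω) (fF (Gi p G Ω) Ω) ⟨x, hx⟩)
    have e2 : m₂.ψ x = m₁.ψ (μ.ψ ((⟨x, hx⟩ : fF G Ω) : Ω)) := by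
      rw [hm₂]
      rfl
    rw [e1, e2, hμ, hm₁]
    change _ = j₃ (κ (cF (C.dat b hb) ⟨x, hx⟩))
    rw [hκ])
  have hf0 : Nz f := hf.ne
  have h3 : bqm m'' (bc (pf (cjm (Gi p G Ω) c) f)) = 0 := by
    rw [← bqm_bc _ hf0, ← bqm_cmp, bqm_bc _ hf0, ← hc, ← bqm_bc _ hf0, h2]
  have h4 : p ^ e • bc (pf (cjm (Gi p G Ω) c) f) = 0 := by
    rw [← bqm_bc _ hf0, ← map_nsmul, he, map_zero]
  obtain ⟨t, ht⟩ := am1 C' b' hb' h₃ m'' (fun x => hm'' x) (zo_pf hf (cjm (Gi p G Ω) c)) h4 h3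
  refine ⟨t, ?_⟩
  have h5 : bqm (cjm (Gi p G Ω) c⁻¹) (bc (pf (cjm (Gi p G Ω) c) f)) = bc f := by
    rw [← bqm_bc _ hf0, ← bqm_cmp, bqm_bc _ hf0, am2_cjj]
  have hFb : Fx (Gi p G Ω) (b : Ω) := ⟨fun h => hb (Subtype.ext h), fun g => b.2 g⟩
  have h6 : bqm (cjm (Gi p G Ω) c⁻¹) (bc (sb (H := Gi p G Ω) p ζ a (b : Ω))) =
      bc (sb (H := Gi p G Ω) p ζ a (b : Ω)) := by
    rw [bqm_bc _ (nz_sb C.hz _ _), bqm_sb (cjm (Gi p G Ω) c⁻¹) C'.ga C'.ga C.hz C'.fz C'.fa hFb]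
    have e1 : (cjm (Ω := Ω) (Gi p G Ω) c⁻¹).ψ ζ = ζ := C.fz c⁻¹
    have e2 : (cjm (Ω := Ω) (Gi p G Ω) c⁻¹).ψ a = a := C.fa.2 c⁻¹
    have e3 : (cjm (Ω := Ω) (Gi p G Ω) c⁻¹).ψ (b : Ω) = b := b.2 c⁻¹
    rw [e1, e2, e3]
  rw [← h5, ht, map_nsmul, hval, h6, ri_bc (nz_sb C.hz _ _)]
  rfl

end MSN
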