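import Pool.Agent.MSN.Ov

/-! # MSN / Bb: definition of `BB`

`BB p G ζ f`: after restriction to the subgroup `Gi` fixing all roots of unity of `p`-power order the class of `ζ ^ f` is `hB κ` for some `κ ∈ K₂(Ω^G)`, at some level `p ^ (m + 1)`. -/

set_option autoImplicit false
set_option linter.unusedVariables false

namespace MSN

universe u

open MSG Pool.Agent.Helper14.Massey

open Pool.Agent.MK (K2 S)

/-- `f` is a norm residue class over `Gi` -/
def BB (p : ℕ) (G : Type u) {Ω : Type u} [Group G] [TopologicalSpace G] [Field Ω] [MulSemiringAction G Ω] (ζ : Ω)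
    (f : G → G → ZMod p) : Prop :=
  ∃ (m : ℕ) (z : Ω) (L : Lv (p ^ (m + 1)) (Gi p G Ω) z (FixedPoints.subfield G Ω).subtype)
    (κ : K2 (FixedPoints.subfield G Ω)), ri p G Ω (bc (zf ζ f)) = hB L κ

end MSN
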