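import Pool.Agent.MSN.Tl
import Pool.Agent.MSX.Defs

/-! # MSN / Bi: classes of `p`-power order do not die in rational function fields

PROOFS.
* `BI.comp`: given pairs over `k` and `M` and `μ` over `ψ ∘ φ`: choose a pair over `K` (`exists_ov`), `m₁` over `φ` and `m₂` over `ψ` (`Ov.mo`).  `m₁.cmp m₂` and `μ` agree on `j₀ k`, so `bqm μ (bc f) = bqm (m₁.cmp m₂) (bc f) = bqm m₂ (bqm m₁ (bc f))`
  (`Ov.conj`, `bqm_cmp`), `bqm m₁ (bc f) = bc (pf m₁ f)`, `pf m₁ f` is a cocycle (`zo_pf`), killed by `p ^ e`.  So `BI ψ` gives `bqm m₁ (bc f) = 0` and `BI φ` gives `bc f = 0`.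
* `BI.of_comp`: for pairs over `k` and `K` and `μ` over `φ` choose a pair over `M` and `m₂` over `ψ`; `bqm (μ.cmp m₂) (bc f) = bqm m₂ (bqm μ (bc f)) = 0`, so `bc f = 0` by `BI (ψ.comp φ)`.
* `bi_id`: not needed; `BI.equiv`: for a ring isomorphism use `BI.of_comp` with `BI (RingHom.id k)`: for `φ = id` a morphism `μ` over the identity of `k`: there is `μ'` in the other direction over the identity (`Ov.mo`), `μ.cmp μ'` agrees with the identity morphism on
  `j₀ k`, so `bc f = bqm μ' (bqm μ (bc f)) = 0`.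
* `bi_mv`: for `n : ℕ`, for all fields `k`, there are a field `M` and `φ : k →+* M`, `θ : MvPolynomial (Fin n) k →+* M` injective with `θ (C c) = φ c` and `BI p φ`.  Induction: `n = 0`: `M = k` (`MvPolynomial.isEmptyRingEquiv`).  `n + 1`: take `M₀, φ₀, θ₀` for `n`, `M = LaurentSeries M₀`,
  `φ = C ∘ φ₀` (`BI.comp`, `bi_laurent`), `θ` the composition `MvPolynomial (Fin (n+1)) k ≃ Polynomial (MvPolynomial (Fin n) k) → Polynomial M₀ → LaurentSeries M₀` (`MvPolynomial.finSuccEquiv`, `Polynomial.mapRingHom θ₀` injective, `M₀[X] → M₀((t))` injective).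
* `bi_Q`: `Q p L = FractionRing (MvPolynomial (Fin p) L)`; `θ` injective extends to `Q p L →+* M` (`IsFractionRing.lift`), the composition `L → Q p L → M` is `φ`; `BI.of_comp`.
-/

set_option autoImplicit false
set_option linter.unusedVariables false

namespace MSN

universe u

open MSG

variable {p : ℕ} {k K M : Type u} [Field k] [Field K] [Field M]

theorem BI.comp {φ : k →+* K} {ψ : K →+* M} (h : BI p φ) (h' : BI p ψ) : BI p (ψ.comp φ) := by
  intro G₀ Ω₀ G Ω _ _ _ _ _ _ _ _ j₀ j o₀ o μ hμ f hf e he hb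
  obtain ⟨G1, Ω1, _, _, _, _, j1, o1⟩ := exists_ov K
  obtain ⟨m1, hm1⟩ := o₀.mo o1.ga (j1.comp φ) (fun g x => o1.fj g (φ x))
  obtain ⟨m2, hm2⟩ := o1.mo o.ga (j.comp ψ) (fun g x => o.fj g (ψ x))
  have h0 : Nz f := hf.ne
  have e1 : bqm (m1.cmp m2) (bc f) = bqm μ (bc f) := by
    refine o₀.conj μ (m1.cmp m2) (fun y => ?_) hf
    show μ.ψ (j₀ y) = m2.ψ (m1.ψ (j₀ y))
    rw [hm1, hμ]
    exact (hm2 (φ y)).symm
  rw [bqm_cmp, hb] at e1
  have e2 : bqm m1 (bc f) = 0 := by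
    rw [bqm_bc m1 h0] at e1 ⊢
    refine h' G1 Ω1 G Ω j1 j o1 o m2 hm2 (pf m1 f) (zo_pf hf m1) e ?_ e1
    rw [← bqm_bc m1 h0, ← map_nsmul, he, map_zero]
  exact h G₀ Ω₀ G1 Ω1 j₀ j1 o₀ o1 m1 hm1 f hf e he e2

theorem BI.of_comp {φ : k →+* K} {ψ : K →+* M} (h : BI p (ψ.comp φ)) : BI p φ := by
  intro G₀ Ω₀ G Ω _ _ _ _ _ _ _ _ j₀ j o₀ o μ hμ f hf e he hb
  obtain ⟨G2, Ω2, _, _, _, _, j2, o2⟩ := exists_ov M
  obtain ⟨m2, hm2⟩ := o.mo o2.ga (j2.comp ψ) (fun g x => o2.fj g (ψ x))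
  refine h G₀ Ω₀ G2 Ω2 j₀ j2 o₀ o2 (μ.cmp m2) (fun x => ?_) f hf e he ?_
  · show m2.ψ (μ.ψ (j₀ x)) = j2 (ψ (φ x))
    rw [hμ]
    exact hm2 (φ x)
  · rw [bqm_cmp, hb, map_zero]

theorem bi_id : BI p (RingHom.id k) := by
  intro G₀ Ω₀ G Ω _ _ _ _ _ _ _ _ j₀ j o₀ o μ hμ f hf e he hb
  obtain ⟨m, hm⟩ := o.mo o₀.ga j₀ o₀.fj
  have e1 : bqm (Mo.idm G₀ Ω₀) (bc f) = bqm (μ.cmp m) (bc f) := by
    refine o₀.conj (μ.cmp m) (Mo.idm G₀ Ω₀) (fun y => ?_) hf
    show m.ψ (μ.ψ (j₀ y)) = j₀ y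
    rw [hμ]
    exact hm y
  rw [bqm_idm, bqm_cmp, hb, map_zero] at e1
  exact e1

theorem bi_mv (hp : p.Prime) (n : ℕ) : ∀ (k : Type u) [Field k], (p : k) ≠ 0 →
    ∃ (M : Type u) (_ : Field M) (φ : k →+* M) (θ : MvPolynomial (Fin n) k →+* M), Function.Injective θ ∧
      (∀ c, θ (MvPolynomial.C c) = φ c) ∧ BI p φ := by
  induction n with
  | zero =>
    intro k _ hk
    refine ⟨k, inferInstance, RingHom.id k,
      (MvPolynomial.isEmptyRingEquiv k (Fin 0) : MvPolynomial (Fin 0) k ≃+* k).toRingHom,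
      (MvPolynomial.isEmptyRingEquiv k (Fin 0)).injective, fun c => ?_, bi_id⟩
    show MvPolynomial.isEmptyRingEquiv k (Fin 0) (MvPolynomial.C c) = c
    rw [← RingEquiv.eq_symm_apply]
    simp
  | succ n ih =>
    intro k _ hk
    obtain ⟨M₀, _, φ₀, θ₀, hinj, hC, hBI⟩ := ih k hk
    have hM : (p : M₀) ≠ 0 := by
      rw [← map_natCast φ₀ p]
      exact (map_ne_zero φ₀).2 hk
    let T : Polynomial M₀ →+* LaurentSeries M₀ :=
      (HahnSeries.ofPowerSeries ℤ M₀).comp Polynomial.coeToPowerSeries.ringHom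
    have hT : Function.Injective T :=
      HahnSeries.ofPowerSeries_injective.comp (fun a b h => Polynomial.coe_injective M₀ h)
    let E : MvPolynomial (Fin (n + 1)) k →+* Polynomial (MvPolynomial (Fin n) k) :=
      (MvPolynomial.finSuccEquiv k n).toRingEquiv.toRingHom
    have hE : Function.Injective E := (MvPolynomial.finSuccEquiv k n).injective
    refine ⟨LaurentSeries M₀, inferInstance, HahnSeries.C.comp φ₀,
      T.comp ((Polynomial.mapRingHom θ₀).comp E), ?_, fun c => ?_, hBI.comp (bi_laurent hp hM)⟩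
    · exact hT.comp ((Polynomial.map_injective θ₀ hinj).comp hE)
    · have e1 : E (MvPolynomial.C c) = Polynomial.C (MvPolynomial.C c) := by
        have h1 : (MvPolynomial.finSuccEquiv k n).symm (Polynomial.C (MvPolynomial.C c)) =
            MvPolynomial.C c :=
          congrArg (fun F => F c) (MvPolynomial.finSuccEquiv_comp_C_eq_C (R := k) n)
        show MvPolynomial.finSuccEquiv k n (MvPolynomial.C c) = _
        rw [← h1, AlgEquiv.apply_symm_apply]
      show T (Polynomial.map θ₀ (E (MvPolynomial.C c))) = HahnSeries.C (φ₀ c)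
      rw [e1, Polynomial.map_C, hC]
      show HahnSeries.ofPowerSeries ℤ M₀ ((Polynomial.C (φ₀ c) : Polynomial M₀) : PowerSeries M₀) = _
      rw [Polynomial.coe_C, HahnSeries.ofPowerSeries_C]

theorem bi_Q (hp : p.Prime) {L : Type u} [Field L] (hpL : (p : L) ≠ 0) :
    BI p ((algebraMap (Pool.Agent.MSX.S p L) (Pool.Agent.MSX.Q p L)).comp (MvPolynomial.C : L →+* Pool.Agent.MSX.S p L)) := by
  obtain ⟨M, _, φ, θ, hinj, hC, hBI⟩ := bi_mv hp p L hpL
  let ψ : Pool.Agent.MSX.Q p L →+* M := IsFractionRing.lift (A := Pool.Agent.MSX.S p L) hinj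
  have e : ψ.comp ((algebraMap (Pool.Agent.MSX.S p L) (Pool.Agent.MSX.Q p L)).comp
      (MvPolynomial.C : L →+* Pool.Agent.MSX.S p L)) = φ := by
    ext c
    show IsFractionRing.lift (A := Pool.Agent.MSX.S p L) hinj
      (algebraMap (Pool.Agent.MSX.S p L) (Pool.Agent.MSX.Q p L) (MvPolynomial.C c)) = φ c
    rw [IsFractionRing.lift_algebraMap, hC]
  exact BI.of_comp (ψ := ψ) (by rw [e]; exact hBI)

end MSN
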