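import Pool.Agent.MSN.Gz
import Pool.Agent.MSG.Un
import Pool.Agent.MSC.Bd

/-! # MSN / Bta: the auxiliary class `β` (interface; proof by helper31 in MSC)

`ξ` a primitive root of order `p ^ i` fixed by `G`, `i ≥ 1`, no primitive root of order `p ^ (i + 1)` is fixed; `lam ∈ Ω` with stabilizer `U` normal of index `p`, `c ∉ U`, `∏_(r<p) c ^ r • lam = ξ`; `θ : G → ZMod p` the character with kernel `U`, `θ c = 1`.
For `b'` fixed by `G` there is a cocycle `β` with `p ^ i • β = b' ^ cy θ` which is a norm residue class of level `p ^ i` as soon as `b' ^ cy θ` dies. -/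

set_option autoImplicit false
set_option linter.unusedVariables false

namespace MSN

universe u

open MSG

open Pool.Agent.MK (K2 S)

theorem bta {p : ℕ} {G Ω : Type u} [Group G] [TopologicalSpace G] [Field Ω] [MulSemiringAction G Ω] {ζ : Ω} (hp : p.Prime)
    (hG : GA G Ω) (hPS : PS p G) (hz : PZ p ζ) (hζ : ∀ g : G, g • ζ = ζ) {i : ℕ} {ξ₁ : Ω} {c₁ : G} (hc : Cyx p G i ξ₁ c₁) {ξ : Ω}
    (hξ : IsPrimitiveRoot ξ (p ^ i)) {lam : Ω} {c : G} (hn : (MulAction.stabilizer G lam).Normal)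
    (hi : (MulAction.stabilizer G lam).index = p) (hcn : c ∉ MulAction.stabilizer G lam)
    (hN : ∏ r ∈ Finset.range p, c ^ r • lam = ξ) :
    ∃ θ : G → ZMod p, Continuous θ ∧ (∀ g h, θ (g * h) = θ g + θ h) ∧ θ c = 1 ∧ (∀ g, g ∈ MulAction.stabilizer G lam ↔ θ g = 0) ∧
      ∀ b' : Ω, Fx G b' → ∃ β : G → G → Ω, Zo β ∧ p ^ i • bc β = bc (fun g h => b' ^ cy θ g h) ∧
        ∀ (G' Ω' : Type u) [Group G'] [TopologicalSpace G'] [Field Ω'] [MulSemiringAction G' Ω'] (μ : Mo G Ω G' Ω'), GA G' Ω' →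
          bqm μ (bc (fun g h => b' ^ cy θ g h)) = 0 →
          ∃ (L : Lv (p ^ i) G' (μ.ψ ξ) (FixedPoints.subfield G' Ω').subtype) (κ : K2 (FixedPoints.subfield G' Ω')), bqm μ (bc β) = hB L κ := by
  have htop := hG.top
  have hp2 : 1 < p ^ i := Nat.one_lt_pow (by have := hc.one_le; omega) hp.one_lt
  have hpr : IsPrimitiveRoot (ξ₁ ^ p) (p ^ i) := by
    have h1 := hc.prim.pow (pow_pos hp.pos _) (show p ^ (i + 1) = p * p ^ i by rw [pow_succ, mul_comm])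
    exact h1
  have hξG : ∀ σ : G, σ • ξ = ξ := by
    intro σ
    have : NeZero (p ^ i) := ⟨pow_ne_zero i hp.ne_zero⟩
    obtain ⟨k, -, hk⟩ := hpr.eq_pow_of_pow_eq_one hξ.pow_eq_one
    rw [← hk, smul_pow', hc.fx]
  have hPZ : PZ (p ^ i) ξ := ⟨hz.odd.pow, hp2, hξ⟩
  obtain ⟨θ, hθ, hadd, hθc, hθ0⟩ := MSC.exists_theta (G := G) hp hn (hG.stab lam) hi hcn
  refine ⟨θ, hθ, hadd, hθc, hθ0, fun b' hb' => ?_⟩
  obtain ⟨β, hβ, h1, -, h2⟩ := MSC.bta hp hG hPZ hξG hθ hadd hθc (g := lam) (fun σ => (hθ0 σ).symm) hN hb'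
  refine ⟨β, hβ, h1, ?_⟩
  intro G' Ω' _ _ _ _ μ hG' h0
  have L : Lv (p ^ i) G' (μ.ψ ξ) (FixedPoints.subfield G' Ω').subtype :=
    ⟨hG', μ.pz hPZ, fun g => by rw [← μ.comp, hξG], fun g x => x.2 g⟩
  obtain ⟨κ, hκ⟩ := h2 G' Ω' μ h0 L
  exact ⟨L, κ, hκ⟩

end MSN
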