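import Pool.Agent.MSN.Ov
import Pool.Agent.MSX.Laur
import Pool.Agent.MSC.RlA

/-! # MSN / Rl: residue lemma (interface)

`E → F`, `E → k` field embeddings, `φ : F →+* LaurentSeries k` compatible with them (`φ` on `E` is `HahnSeries.C`).  `(G₀, Ω₀, j₀)` is a pair over `E`, `(G, Ω, j)` a pair over `F`,
`m` a morphism over `E → F`; `f` a cocycle on `G₀`, `w ∈ K₂(F)` with `ri (m^* f) = hB w` (level `n = p ^ M`) on `Gi`.  Then the tame symbol of `φ w` is an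
`n`-th power up to a root of unity of `p`-power order. -/

set_option autoImplicit false
set_option linter.unusedVariables false

namespace MSN

universe u

open MSG

open Pool.Agent.MK (K2 S)

theorem rlgen {p : ℕ} (hp : p.Prime) {E F k : Type u} [Field E] [Field F] [Field k] {ζ₀ : E} (hz : PZ p ζ₀)
    (a : E →+* F) (b : E →+* k) (φ : F →+* LaurentSeries k) (hφ : ∀ x, φ (a x) = HahnSeries.C (b x))
    {G₀ Ω₀ G Ω : Type u} [Group G₀] [TopologicalSpace G₀] [Field Ω₀] [MulSemiringAction G₀ Ω₀]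
    [Group G] [TopologicalSpace G] [Field Ω] [MulSemiringAction G Ω] {j₀ : E →+* Ω₀} {j : F →+* Ω}
    (h₀ : Ov E G₀ j₀) (h : Ov F G j) (m : Mo G₀ Ω₀ G Ω) (hm : ∀ x, m.ψ (j₀ x) = j (a x))
    {f : G₀ → G₀ → Ω₀} (hf : Zo f) {M : ℕ} {z : Ω} (L : Lv (p ^ M) (Gi p G Ω) z j) (w : K2 F)
    (hw : ri p G Ω (bqm m (bc f)) = hB L w) :
    ∃ (ε v : kˣ) (l : ℕ), ε ^ p ^ l = 1 ∧ (Pool.Agent.MSX.lv k).tame (K2.map φ w) = Additive.ofMul (ε * v ^ p ^ M) :=
  MSC.rl_all hp hz a b φ hφ h₀ h m hm hf L w hw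

end MSN
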