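import Pool.Agent.MSN.Gx
import Pool.Agent.MSN.Gz
import Pool.Agent.MSN.Rl

/-! # MSN / Rs: residues of a relation

PROOFS.
* `res_step`: by `res_glue` it is enough to know the tame symbols of `K2.map φ w` for every `φ : D.K →+* LaurentSeries k` with `φ (cF D x) = C (b x)`: `rlgen` with `E = F = Ω^G` (`ζ₀ = ζ` as an element of `Ω^G`), `a = cF D`, `h₀ = Ov.self hG`, `h = h'`, `m = μ`.
* `xi_of`: `D.tmK w₁ = n • z` (`n = p ^ M * p ^ s`, `w₁ = p ^ s • w`), so `n • cc z = cc (n • z) = cc (tmK ..) = 0` (`cc_nsmul`, `cc_tmK`).  `CoreI` (second part): `N • cc z` has value `cMb (det g)`, `g ∈ An 1`; `det g = algebraMap c`, `c : F` (`cn_det`, `bm_det`).  Choose `N' N ≡ 1` modulo `n` (`n` is a power of `p`,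
  `N` prime to `p`): `cc z = N' • N • cc z` has value `cMb (algebraMap (c ^ N'))`.  `ξ = c ^ N'`, `g' = g ^ N'`, `ξ ^ n = 1` because `cMb` and `algebraMap` are injective and `n • cc z = 0`.
-/

set_option autoImplicit false
set_option linter.unusedVariables false

namespace MSN

universe u

open MSG

open Pool.Agent.MK (K2 S)

open Pool.Agent.MSX (KL Q Dat Fam tm cc cMb Mb lv)

theorem res_step {p : ℕ} {G Ω : Type u} [Group G] [TopologicalSpace G] [Field Ω] [MulSemiringAction G Ω] {ζ a : Ω} {g₀ : G}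
    (C : Cd p G ζ a g₀) (b : fF G Ω) (hb : b ≠ 0) {G' Ω' : Type u} [Group G'] [TopologicalSpace G']
    [Field Ω'] [MulSemiringAction G' Ω'] {j' : (C.dat b hb).K →+* Ω'} (h' : Ov (C.dat b hb).K G' j') (μ : Mo G Ω G' Ω')
    (hμ : ∀ x : fF G Ω, μ.ψ x = j' (cF (C.dat b hb) x)) {f : G → G → Ω} (hf : Zo f) {M : ℕ} {z₀ : Ω'}
    (L : Lv (p ^ M) (Gi p G' Ω') z₀ j') {w : K2 (C.dat b hb).K} (hw : ri p G' Ω' (bqm μ (bc f)) = hB L w) :
    ∃ (s : ℕ) (z : Fam p (fL G Ω p a)), (C.dat b hb).Good z ∧ p ^ s • (C.dat b hb).tmK w = (p ^ M * p ^ s) • z := by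
  have i1 : IsAlgClosed Ω := C.ga.alg
  have i2 : PerfectField (fL G Ω p a) := perfect (kr G p a)
  have hz₀ : PZ p (⟨ζ, C.fz⟩ : fF G Ω) :=
    ⟨C.hz.odd, C.hz.one_lt, IsPrimitiveRoot.of_map_of_injective (f := (fF G Ω).subtype) C.hz.prim
      (fF G Ω).subtype.injective⟩
  refine res_glue (C.dat b hb) C.hp w M ?_
  intro k _ b' φ hφ
  exact rlgen C.hp hz₀ (cF (C.dat b hb)) b' φ hφ (Ov.self C.ga) h' μ hμ hf L w hw

theorem xi_of {p : ℕ} {F L : Type u} [Field F] [Field L] [Algebra F L] (hp : p.Prime) (D : Dat p F L) [PerfectField L] {N : ℕ} (hN : CoreI D N) {M s : ℕ}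
    {w : K2 D.K} {z : Fam p L} (hz : D.Good z) (hzw : p ^ s • D.tmK w = (p ^ M * p ^ s) • z) :
    ∃ (ξ : F) (k : ℕ), ξ ^ p ^ k = 1 ∧ (((cc z).toMul : (Mb p L)ˣ) : Mb p L) = cMb p L (algebraMap F L ξ) ∧
      ∃ g ∈ D.An 1, g.det = algebraMap F L ξ := by
  obtain ⟨hNp, hcore⟩ := hN
  have hn1 : 1 ≤ p ^ M * p ^ s := Nat.mul_pos (pow_pos hp.pos M) (pow_pos hp.pos s)
  have e0 : (p ^ M * p ^ s) • z = D.tmK (p ^ s • w) := by rw [map_nsmul, hzw]
  obtain ⟨-, g, hg, hgd⟩ := hcore (p ^ s • w) (p ^ M * p ^ s) z hn1 hz e0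
  have e1 : (p ^ M * p ^ s) • cc z = 0 := by
    rw [← Pool.Agent.MSX.cc_nsmul hz.fin, e0, Pool.Agent.MSX.cc_tmK]
  obtain ⟨c, hc⟩ := D.cn_det (D.bm_det 1) hg
  obtain ⟨N', q, hq⟩ : ∃ N' q : ℕ, N' * N = q * (p ^ M * p ^ s) + 1 := by
    rcases hn1.eq_or_lt with h1 | h1
    · have hN0 : N ≠ 0 := by
        rintro rfl
        rw [Nat.coprime_zero_left] at hNp
        exact hp.one_lt.ne' hNp
      refine ⟨1, N - 1, ?_⟩
      rw [← h1]
      omega
    · have h2 : N.Coprime (p ^ M * p ^ s) := (hNp.pow_right M).mul_right (hNp.pow_right s)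
      obtain ⟨v, hv⟩ := Nat.exists_mul_mod_eq_one_of_coprime h2 h1
      refine ⟨v, N * v / (p ^ M * p ^ s), ?_⟩
      have h3 := Nat.div_add_mod (N * v) (p ^ M * p ^ s)
      rw [hv.2] at h3
      rw [mul_comm v N, mul_comm (N * v / (p ^ M * p ^ s))]
      exact h3.symm
  have e2 : cc z = N' • (N • cc z) := by
    rw [smul_smul, hq, add_smul, mul_smul, e1, smul_zero, zero_add, one_smul]
  have e3 : (((cc z).toMul : (Mb p L)ˣ) : Mb p L) = cMb p L (algebraMap F L (c ^ N')) := by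
    rw [e2, toMul_nsmul, Units.val_pow_eq_pow_val, hgd, ← map_pow, ← hc, ← map_pow]
  refine ⟨c ^ N', M + s, ?_, e3, g ^ N', Subring.pow_mem _ hg N', ?_⟩
  · have e4 : ((cc z).toMul : (Mb p L)ˣ) ^ (p ^ M * p ^ s) = 1 := by
      rw [← toMul_nsmul, e1, toMul_zero]
    have e5 : cMb p L (algebraMap F L ((c ^ N') ^ p ^ (M + s))) = 1 := by
      rw [map_pow (algebraMap F L) (c ^ N'), map_pow (cMb p L), ← e3, pow_add,
        ← Units.val_pow_eq_pow_val, e4, Units.val_one]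
    apply (algebraMap F L).injective
    apply (cMb p L).injective
    rw [e5, map_one, map_one]
  · rw [Matrix.det_pow, ← hc, map_pow]

end MSN
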