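import Pool.Agent.MSN.Gx
import Pool.Agent.MSN.Gz
import Pool.Agent.MSX.Tor
import Pool.Agent.MSG.Ncb

/-! # MSN / Tor2: torsion families

PROOFS.
* `tor1`: `torL D (algebraMap ξ')`: `D.N (algebraMap ξ') = algebraMap (ξ' ^ p)` (`s` fixes `F`); `n = p ^ k`.
* `tor2`.  Write `A = sb p ζ a b`; `ri (bc A) = 0` means `CuN (Gi p G Ω) A 1` (`bc_eq_cu`, `bc_one`).  By `CuN_fin` (MSG/Uf.lean) there is an open subgroup containing `Gi` on which `A` is a coboundary, so by `gi_le_open` there is `m ≥ i + 1` with `CuN U A 1`, `U = Gn p G Ω m`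
  (`CuN_mono`; `Gn` is decreasing in `m`).  `g₀ ∈ Gi ≤ U`.  Pair `(U, Ω)` (`U` open, closed): `Cd p U ζ a ⟨g₀, _⟩`; `norm_of_nc` (`Co_of_Cu` turns `Cu` into `Co`): `b = nL p g₀ z`, `z` fixed by `kr U p a = U ∩ kr G p a`.
  `V = U ⊓ kr G p a` (normal in `G`), `M = Ω^V`, an algebra over `L = Ω^(kr G p a)` (inclusion), finite dimensional (`V` has finite index in `kr`; Artin or `Ω^V = L(x)`).  `E : D.Exn M`: `s' = g₀ •`, `z`, `u = y ^ k` where `y` is a primitive root of order `p ^ m` (in `M`: fixed by `U`; fixed by `g₀ ∈ Gi`).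
  `Exn.tor`: `τ` good, `p ^ m • τ = 0`, `cc τ = cMb (norm_(M/L) u)`.
  Norm of `y`: `kr G p a` acts on `M` with kernel `V`; `kr * U = G` (because `G = ⋃ g₀ ^ k kr`, `g₀ ∈ U`), so `kr / V = G / U`; `G / U` acts on `y` by `g • y = y ^ χ(g)` and `χ` identifies `G / U` with the residues `≡ 1` modulo `p ^ i` in `ZMod (p ^ m)`: the image lies there because `ξ₁ ^ p`, a primitive root of order `p ^ i`, is
  fixed; it contains `χ (c) = 1 + p ^ i v`, `p ∤ v`, which generates this group of order `p ^ (m - i)`.  So `norm y = ∏_(t < p ^ (m - i)) y ^ (1 + p ^ i t) = y ^ (p ^ (m - i) + p ^ i p ^ (m - i) (p ^ (m - i) - 1) / 2) = y ^ (p ^ (m - i))` (`p` odd), a primitive root of order `p ^ i`.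
  So `ξ = (norm y) ^ k = norm (y ^ k)` for some `k`.
-/

set_option autoImplicit false
set_option linter.unusedVariables false

namespace MSN

universe u

open MSG

open Pool.Agent.MK (K2 S)

open Pool.Agent.MSX (KL Q Dat Fam tm cc cMb Mb lv)

open Polynomial in
private theorem tor2_norm {K E : Type u} [Field K] [Field E] [Algebra K E] {p : ℕ} (hp : p.Prime)
    (hp2 : p ≠ 2) (n : ℕ) {y : E} {η : K} (hy : y ^ p ^ n = algebraMap K E η)
    (hη : ∀ b : K, b ^ p ≠ η) :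
    IsIntegral K y ∧ Algebra.norm K (IntermediateField.AdjoinSimple.gen K y) = η := by
  have hn : p ^ n ≠ 0 := pow_ne_zero n hp.ne_zero
  have hirr : Irreducible (X ^ (p ^ n) - C η : K[X]) :=
    X_pow_sub_C_irreducible_of_prime_pow hp hp2 n hη
  have hm : (X ^ (p ^ n) - C η : K[X]).Monic := monic_X_pow_sub_C η hn
  have hr : aeval y (X ^ (p ^ n) - C η : K[X]) = 0 := by
    rw [map_sub, map_pow, aeval_X, aeval_C, hy, sub_self]
  have hi : IsIntegral K y := ⟨_, hm, hr⟩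
  have hmin := minpoly.eq_of_irreducible_of_monic hirr hr hm
  refine ⟨hi, ?_⟩
  have h := Algebra.PowerBasis.norm_gen_eq_coeff_zero_minpoly
    (IntermediateField.adjoin.powerBasis hi)
  rw [IntermediateField.adjoin.powerBasis_gen, IntermediateField.minpoly_gen,
    IntermediateField.adjoin.powerBasis_dim, ← hmin, natDegree_X_pow_sub_C,
    (hp.odd_of_ne_two hp2).pow.neg_one_pow, coeff_sub, coeff_X_pow, if_neg (Ne.symm hn),
    coeff_C_zero, zero_sub, neg_mul_neg, one_mul] at h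
  exact h

theorem tor1 {p : ℕ} {F L : Type u} [Field F] [Field L] [Algebra F L] (D : Dat p F L) [PerfectField L] {ξ' : F} {k : ℕ} (h : ξ' ^ p ^ k = 1) :
    ∃ (τ : Fam p L) (l : ℕ), D.Good τ ∧ p ^ l • τ = 0 ∧
      (((cc τ).toMul : (Mb p L)ˣ) : Mb p L) = cMb p L (algebraMap F L (ξ' ^ p)) := by
  have h0 : ξ' ≠ 0 := by
    rintro rfl
    rw [zero_pow (pow_ne_zero _ D.hp.ne_zero)] at h
    exact zero_ne_one h
  obtain ⟨τ, h1, h2, h3⟩ := D.torL (algebraMap F L ξ') ((map_ne_zero (algebraMap F L)).2 h0)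
  refine ⟨τ, k, h1, h2 _ (by rw [← map_pow, h, map_one]), ?_⟩
  rw [h3]
  congr 1
  unfold Pool.Agent.MSX.Dat.N
  rw [Finset.prod_congr rfl (fun i _ => (D.s ^ i).commutes ξ'), Finset.prod_const,
    Finset.card_range, map_pow]

theorem tor2 {p : ℕ} {G Ω : Type u} [Group G] [TopologicalSpace G] [Field Ω] [MulSemiringAction G Ω] {ζ a : Ω} {g₀ : G}
    (C : Cd p G ζ a g₀) (hg : g₀ ∈ Gi p G Ω) (b : fF G Ω) (hb : b ≠ 0) {i : ℕ} {ξ₁ : Ω} {c : G} (hc : Cyx p G i ξ₁ c)
    (hA : ri p G Ω (bc (sb (H := G) p ζ a (b : Ω))) = 0) {ξ : fF G Ω} (hξ : IsPrimitiveRoot (ξ : Ω) (p ^ i)) :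
    ∃ (τ : Fam p (fL G Ω p a)) (l : ℕ), (C.dat b hb).Good τ ∧ p ^ l • τ = 0 ∧
      (((cc τ).toMul : (Mb p (fL G Ω p a))ˣ) : Mb p (fL G Ω p a)) = cMb p (fL G Ω p a) (algebraMap (fF G Ω) (fL G Ω p a) ξ) := by
  have i1 := C.ga.top
  have i2 := C.ga.alg
  have hp := C.hp
  have hp2 : p ≠ 2 := by
    rintro rfl
    exact absurd C.hz.odd (by decide)
  -- an open subgroup on which the symbol is trivial
  have hA1 : CuN (Gi p G Ω) (sb (H := G) p ζ a (b : Ω)) (fun _ _ => 1) := by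
    rw [ri_bc (nz_sb C.hz a (b : Ω)), ← bc_one] at hA
    exact (bc_eq_cu (H := Gi p G Ω) (f := rs (Gi p G Ω) (sb p ζ a (b : Ω)))
      (fun g h => zp_ne C.hz _) Nz.one).1 hA
  have hlc : IsLocallyConstant (fun q : G × G => sb (H := G) p ζ a (b : Ω) q.1 q.2) := by
    have e1 := (IsLocallyConstant.iff_continuous _).2 (km_cont C.ga p ζ a)
    have e2 := (IsLocallyConstant.iff_continuous _).2 (km_cont C.ga p ζ (b : Ω))
    exact (e1.comp_continuous continuous_fst).comp₂ (e2.comp_continuous continuous_snd)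
      fun x y => zp ζ (x * y)
  obtain ⟨U0, hU0, hGU, hcu⟩ := CuN_fin C.ga hlc (IsLocallyConstant.const 1)
    (gi_closed C.ga) hA1
  obtain ⟨m0, hm0⟩ := gi_le_open hp C.ga hU0 hGU
  obtain ⟨m, hm, hmi⟩ : ∃ m, Gn p G Ω (m + 1) ≤ U0 ∧ i ≤ m + 1 := by
    refine ⟨max m0 i, le_trans ?_ hm0, (le_max_right m0 i).trans (Nat.le_succ _)⟩
    intro g hg x hx
    refine hg x ?_
    obtain ⟨e, he⟩ := Nat.exists_eq_add_of_le ((le_max_left m0 i).trans (Nat.le_add_right _ 1))
    rw [he, pow_add, pow_mul, hx, one_pow]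
  have hUo : IsOpen (Gn p G Ω (m + 1) : Set G) := gn_open hp C.ga (m + 1)
  have hUga : GA (Gn p G Ω (m + 1)) Ω := C.ga.sub _ (Subgroup.isClosed_of_isOpen _ hUo)
  have hU : CuN (Gn p G Ω (m + 1)) (sb (H := G) p ζ a (b : Ω)) (fun _ _ => 1) := CuN_mono hm hcu
  have hco : Co (kk (G := Gn p G Ω (m + 1)) p ζ a (b : Ω)) (fun _ _ => 0) := by
    refine Co_of_Cu hUga C.hz (fun g => C.fz (g : G)) ?_
    have e0 : (fun _ _ : Gn p G Ω (m + 1) => zp ζ (0 : ZMod p)) = fun _ _ => (1 : Ω) := by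
      funext _ _
      exact zp_zero C.hz
    rw [e0]
    exact hU
  obtain ⟨z, hz, hbz⟩ := norm_of_nc (G := Gn p G Ω (m + 1)) hUga hp C.hz
    (fun g => C.fz (g : G)) (a := a) (b := (b : Ω)) ⟨C.fa.1, fun g => C.fa.2 (g : G)⟩
    ⟨fun h => hb (Subtype.ext h), fun g => b.2 (g : G)⟩
    (g₀ := ⟨g₀, fun x hx => hg x (m + 1) hx⟩) C.g1 hco
  -- roots of unity
  obtain ⟨y, hy, -⟩ := exists_prim hp C.hz m
  have hpos : ∀ n : ℕ, 0 < p ^ n := fun n => pow_pos hp.pos n
  have hne : ∀ n : ℕ, NeZero (p ^ n) := fun n => NeZero.of_pos (hpos n)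
  have hyd : IsPrimitiveRoot (y ^ p ^ (m + 1 - i)) (p ^ i) :=
    hy.prim.pow (hpos _) (by rw [← pow_add]; congr 1; omega)
  have hne1 := hne i
  have hne2 := hne (m + 1)
  obtain ⟨j, -, hj⟩ := hξ.eq_pow_of_pow_eq_one hyd.pow_eq_one
  obtain ⟨k, -, hk⟩ := hyd.eq_pow_of_pow_eq_one hξ.pow_eq_one
  have hy0 : y ≠ 0 := hy.prim.ne_zero (hpos _).ne'
  obtain ⟨η, hη⟩ : ∃ η : fL G Ω p a, (η : Ω) = y ^ p ^ (m + 1 - i) :=
    ⟨algebraMap (fF G Ω) (fL G Ω p a) (ξ ^ j), hj⟩
  have hηp : ∀ b' : fL G Ω p a, b' ^ p ≠ η := by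
    intro b' hb'
    have e1 : (b' : Ω) ^ p = y ^ p ^ (m + 1 - i) := by
      rw [← hη, ← hb']
      rfl
    have e2 : (b' : Ω) ^ p ^ (i + 1) = 1 := by
      rw [pow_succ', pow_mul, e1, hyd.pow_eq_one]
    have e3 : ∀ g : G, g • (b' : Ω) = b' :=
      C.fixed (fun g hg => b'.2 ⟨g, hg⟩) (hg _ (i + 1) e2)
    have e4 : (b' : Ω) ^ p ^ i = 1 := cyc_max hp hc e2 e3
    obtain ⟨i', hi'⟩ : ∃ i', i = i' + 1 := ⟨i - 1, by have := hc.one_le; omega⟩
    have e5 : (y ^ p ^ (m + 1 - i)) ^ p ^ i' = 1 := by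
      rw [← e1, ← pow_mul, ← pow_succ', ← hi', e4]
    have e6 : p ^ i' < p ^ i := by
      rw [hi']
      exact Nat.pow_lt_pow_right hp.one_lt (Nat.lt_succ_self _)
    exact hyd.pow_ne_one_of_pos_of_lt (hpos i').ne' e6 e5
  obtain ⟨hi, hN⟩ := tor2_norm hp hp2 (m + 1 - i) (K := fL G Ω p a) (E := Ω) (y := y) (η := η)
    hη.symm hηp
  have hgal : IsGalois (fL G Ω p a) Ω := (ga_kr C).isGalois
  have hMz : z ∈ IntermediateField.adjoin (fL G Ω p a) ({y} : Set Ω) := by
    rw [← InfiniteGalois.fixedField_fixingSubgroup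
      (IntermediateField.adjoin (fL G Ω p a) ({y} : Set Ω)), IntermediateField.mem_fixedField_iff]
    intro σ hσ
    rw [IntermediateField.mem_fixingSubgroup_iff] at hσ
    obtain ⟨g, hg'⟩ := (ga_kr C).exists_smul (σ : Ω →+* Ω) (fun x hx => σ.commutes ⟨x, hx⟩)
    have h1 : g • y = y := by
      rw [← hg']
      exact hσ y (IntermediateField.subset_adjoin _ _ (Set.mem_singleton y))
    have h2 : (g : G) ∈ Gn p G Ω (m + 1) := by
      intro x hx
      obtain ⟨j, _, rfl⟩ := hy.prim.eq_pow_of_pow_eq_one hx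
      rw [smul_pow']
      exact congrArg (fun t => t ^ j) h1
    have h3 : (⟨(g : G), h2⟩ : Gn p G Ω (m + 1)) ∈ kr (Gn p G Ω (m + 1)) p a := g.2
    exact (hg' z).trans (hz.2 _ h3)
  have hst : ∀ h : G, h • y = y → ∀ x ∈ IntermediateField.adjoin (fL G Ω p a) ({y} : Set Ω),
      h • x ∈ IntermediateField.adjoin (fL G Ω p a) ({y} : Set Ω) := by
    intro h hh x hx
    induction hx using IntermediateField.adjoin_induction with
    | mem w hw =>
      rw [Set.mem_singleton_iff.1 hw, hh]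
      exact IntermediateField.subset_adjoin _ _ (Set.mem_singleton y)
    | algebraMap c =>
      have h1 : h • (c : Ω) ∈ fL G Ω p a := by
        intro g
        have h2 : h⁻¹ * (g : G) * h ∈ kr G p a := (MSG.kr_conj C.ga C.hz C.fz C.fa h g).1 g.2
        have h3 : (h⁻¹ * (g : G) * h) • (c : Ω) = c := c.2 ⟨_, h2⟩
        have h4 : (g : G) • h • (c : Ω) = h • (h⁻¹ * (g : G) * h) • (c : Ω) := by
          rw [← mul_smul, ← mul_smul]
          congr 1
          group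
        show (g : G) • h • (c : Ω) = h • (c : Ω)
        rw [h4, h3]
      exact IntermediateField.algebraMap_mem _ (⟨_, h1⟩ : fL G Ω p a)
    | add a b _ _ ha hb =>
      rw [smul_add]
      exact add_mem ha hb
    | inv a _ ha =>
      rw [smul_inv'']
      exact inv_mem ha
    | mul a b _ _ ha hb =>
      rw [smul_mul']
      exact mul_mem ha hb
  have hgy : g₀ • y = y := hg y (m + 1) hy.prim.pow_eq_one
  have hgy' : g₀⁻¹ • y = y := by
    rw [inv_smul_eq_iff, hgy]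
  obtain ⟨s', hs'⟩ : ∃ s' : IntermediateField.adjoin (fL G Ω p a) ({y} : Set Ω) ≃+*
      IntermediateField.adjoin (fL G Ω p a) ({y} : Set Ω),
      ∀ x, ((s' x : IntermediateField.adjoin (fL G Ω p a) ({y} : Set Ω)) : Ω) = g₀ • (x : Ω) :=
    ⟨{ toFun := fun x => ⟨g₀ • (x : Ω), hst g₀ hgy x x.2⟩
       invFun := fun x => ⟨g₀⁻¹ • (x : Ω), hst g₀⁻¹ hgy' x x.2⟩
       left_inv := fun x => Subtype.ext (inv_smul_smul g₀ (x : Ω))
       right_inv := fun x => Subtype.ext (smul_inv_smul g₀ (x : Ω))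
       map_mul' := fun x y => Subtype.ext (smul_mul' g₀ (x : Ω) (y : Ω))
       map_add' := fun x y => Subtype.ext (smul_add g₀ (x : Ω) (y : Ω)) }, fun x => rfl⟩
  have hit : ∀ (i : ℕ) (x : IntermediateField.adjoin (fL G Ω p a) ({y} : Set Ω)),
      ((s'^[i] x : IntermediateField.adjoin (fL G Ω p a) ({y} : Set Ω)) : Ω) =
        g₀ ^ i • (x : Ω) := by
    intro i x
    induction i with
    | zero => rw [pow_zero, one_smul, Function.iterate_zero_apply]
    | succ i ih => rw [Function.iterate_succ_apply', hs', ih, ← mul_smul, ← pow_succ']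
  obtain ⟨E, hEu⟩ : ∃ E : (C.dat b hb).Exn
      (IntermediateField.adjoin (fL G Ω p a) ({y} : Set Ω)),
      E.u = IntermediateField.AdjoinSimple.gen (fL G Ω p a) y ^ k :=
    ⟨{ s' := s'
       hs := fun c => Subtype.ext (by
        rw [hs']
        exact (C.dat_s b hb c).symm)
       z := ⟨z, hMz⟩
       hz := Subtype.ext (by
        have e1 : ((∏ i ∈ Finset.range p, s'^[i] (⟨z, hMz⟩ :
            IntermediateField.adjoin (fL G Ω p a) ({y} : Set Ω)) :
            IntermediateField.adjoin (fL G Ω p a) ({y} : Set Ω)) : Ω) =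
            ∏ i ∈ Finset.range p, ((s'^[i] (⟨z, hMz⟩ :
            IntermediateField.adjoin (fL G Ω p a) ({y} : Set Ω)) :
            IntermediateField.adjoin (fL G Ω p a) ({y} : Set Ω)) : Ω) :=
          map_prod (IntermediateField.adjoin (fL G Ω p a) ({y} : Set Ω)).val _ _
        have e2 : (((C.dat b hb).bL : fL G Ω p a) : Ω) = (b : Ω) := by
          unfold Pool.Agent.MSX.Dat.bL
          rw [algFL_val, C.dat_b]
        rw [e1]
        refine Eq.trans ?_ e2.symm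
        rw [hbz]
        exact Finset.prod_congr rfl fun i _ => hit i _)
       u := IntermediateField.AdjoinSimple.gen (fL G Ω p a) y ^ k
       hu := by
        apply pow_ne_zero
        intro h
        exact hy0 (congrArg Subtype.val h)
       su := by
        rw [map_pow]
        congr 1
        apply Subtype.ext
        rw [hs', IntermediateField.AdjoinSimple.coe_gen, hgy] }, rfl⟩
  have i5 : FiniteDimensional (fL G Ω p a)
    (IntermediateField.adjoin (fL G Ω p a) ({y} : Set Ω)) :=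
    IntermediateField.adjoin.finiteDimensional hi
  have i6 : PerfectField (fL G Ω p a) := perfect (kr G p a)
  obtain ⟨τ, h1, h2, h3⟩ := E.tor
  refine ⟨τ, m + 1, h1, h2 _ ?_, ?_⟩
  · rw [hEu, ← pow_mul, mul_comm, pow_mul]
    have e : IntermediateField.AdjoinSimple.gen (fL G Ω p a) y ^ p ^ (m + 1) = 1 :=
      Subtype.ext hy.prim.pow_eq_one
    rw [e, one_pow]
  · rw [h3, hEu, map_pow, hN]
    congr 1
    apply Subtype.ext
    show (η : Ω) ^ k = (ξ : Ω)
    rw [hη, hk]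

end MSN
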