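import Pool.Agent.MSN.S1
import Pool.Agent.MSN.Rs
import Pool.Agent.MSN.Tor2
import Pool.Agent.MSN.Bta

/-! # MSN / C2: the second case of the step

PROOFS.
* `HD.level`: `x` in `HD p j`, `H` fixes the roots of unity of `p`-power order: for all large `M` there are `z`, `L : Lv (p ^ M) H z j`, `κ` with `x = hB L κ`, with the same `z, L` for finitely many classes: `HD.lift` and `exists_prim` (`M = m + 1`).
* `xip`: `ξ ∈ Ω^G`, `ξ ^ p ^ k = 1`, data `Cyx p G i ξ₁ c`: either `ξ = ξ' ^ p` with `ξ' ∈ Ω^G`, `ξ' ^ p ^ k' = 1`, or `ξ` is a primitive root of order `p ^ i`: `ξ ^ p ^ i = 1` (`cyc_max`); if `ξ ^ p ^ (i - 1) = 1` then `ξ` is a power of `(ξ₁ ^ p) ^ p`; `ξ₁ ^ p` is a primitive root of order `p ^ i` fixed by `G`.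
* `c2`.  Suppose `ri (bc (zf ζ f))` is not in `HD`.  Take a common level `M`, root `z₀`, `L : Lv (p ^ M) (Gi p G' Ω') z₀ j'`: `ri (bqm μ (bc (zf ζ f))) = hB L w`, `ri (bqm μ (bc β)) = hB L w_β` (`HD.level`).  `res_step` for both (`Zo (zf ζ f)`: `Zu_zp`): `(s₁, z₁)`, `(s₂, z₂)`; with
  `s = max s₁ s₂` after multiplying: `p ^ s • tmK w = (p ^ M * p ^ s) • z₁`, the same for `w_β, z₂`.  `xi_of`: `ξ, ξ_β`.  If `ξ = ξ' ^ p` (`xip`) then `tor1` gives `τ` with `cc τ = cc z₁` (values in `Mb`: `Units.ext`) and `s1` shows that `ri (bc (zf ζ f))` is in `HD`, contradiction.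
  So `ξ` is a primitive root of order `p ^ i`, and `ξ_β ^ p ^ i = 1` (`cyc_max`), so `ξ_β = ξ ^ t` for some `t : ℕ`.  Let `f₂ g h = β g h * ((zf ζ f g h) ^ t)⁻¹`, `Zo f₂`, `bc f₂ = bc β - t • bc (zf ζ f)`, `w₂ = w_β - t • w`, `z = z₂ - t • z₁` good, `cc z = 0`.
  `s1` with `τ = 0`, `l = 0`: `ri (bc f₂)` is in `HD`.  `twist`: `p ^ i • ri (bc f₂) = 0`, and `p • bc (zf ζ f) = 0`, `i ≥ 1`, so `0 = p ^ i • ri (bc β) = ri (bc (sb p ζ a b))`, contradiction to `hA`.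
-/

set_option autoImplicit false
set_option linter.unusedVariables false

namespace MSN

universe u

open MSG Pool.Agent.Helper14.Massey

open Pool.Agent.MK (K2 S)

open Pool.Agent.MSX (KL Q Dat Fam tm cc cMb Mb lv)

theorem HD.level {p : ℕ} {H Ω F : Type u} [Group H] [TopologicalSpace H] [Field Ω] [MulSemiringAction H Ω] [Field F] {ζ : Ω} {j : F →+* Ω}
    {x y : Bq H Ω} (hp : p.Prime) (hH : GA H Ω) (hz : PZ p ζ) (hm : Mu p H Ω) (hj : ∀ (g : H) (x : F), g • j x = j x) (h : HD p j x)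
    (h' : HD p j y) : ∃ (M : ℕ) (z : Ω) (L : Lv (p ^ M) H z j) (κ κ' : K2 F), x = hB L κ ∧ y = hB L κ' := by
  have i1 := hH.alg
  obtain ⟨m₀, h0⟩ := HD.lift hp hH hm hj h
  obtain ⟨m₁, h1⟩ := HD.lift hp hH hm hj h'
  obtain ⟨z, hz', _⟩ := exists_prim hp hz (max m₀ m₁)
  obtain ⟨κ, hκ⟩ := h0 _ (le_max_left _ _) z hz'
  obtain ⟨κ', hκ'⟩ := h1 _ (le_max_right _ _) z hz'
  have L : Lv (p ^ (max m₀ m₁ + 1)) H z j :=
    ⟨hH, hz', fun g => hm g z _ hz'.prim.pow_eq_one, hj⟩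
  exact ⟨max m₀ m₁ + 1, z, L, κ, κ', hκ L, hκ' L⟩

theorem xip {p : ℕ} {G Ω : Type u} [Group G] [TopologicalSpace G] [Field Ω] [MulSemiringAction G Ω] (hp : p.Prime) {i : ℕ} {ξ₁ : Ω} {c : G}
    (hc : Cyx p G i ξ₁ c) {ξ : fF G Ω} {k : ℕ} (hξ : ξ ^ p ^ k = 1) :
    (∃ (ξ' : fF G Ω) (k' : ℕ), ξ' ^ p ^ k' = 1 ∧ ξ' ^ p = ξ) ∨ IsPrimitiveRoot (ξ : Ω) (p ^ i) := by
  have h1 : (ξ : Ω) ^ p ^ k = 1 := congrArg Subtype.val hξ
  have h2 : (ξ : Ω) ^ p ^ i = 1 := cyc_max hp hc h1 fun g => ξ.2 g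
  obtain ⟨i', rfl⟩ : ∃ i', i = i' + 1 := ⟨i - 1, by have := hc.one_le; omega⟩
  by_cases h3 : (ξ : Ω) ^ p ^ i' = 1
  · left
    have hpos : ∀ n : ℕ, 0 < p ^ n := fun n => pow_pos hp.pos n
    have h4 : IsPrimitiveRoot (ξ₁ ^ p) (p ^ (i' + 1)) :=
      hc.prim.pow (hpos _) (by rw [pow_succ p (i' + 1), mul_comm])
    have h5 : IsPrimitiveRoot ((ξ₁ ^ p) ^ p) (p ^ i') :=
      h4.pow (hpos _) (by rw [pow_succ, mul_comm])
    have h6 := NeZero.of_pos (hpos i')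
    obtain ⟨j, -, hj⟩ := h5.eq_pow_of_pow_eq_one h3
    refine ⟨⟨(ξ₁ ^ p) ^ j, fun g => ?_⟩, i' + 1, ?_, ?_⟩
    · show g • (ξ₁ ^ p) ^ j = (ξ₁ ^ p) ^ j
      rw [smul_pow', hc.fx]
    · apply Subtype.ext
      show ((ξ₁ ^ p) ^ j) ^ p ^ (i' + 1) = 1
      rw [← pow_mul, mul_comm, pow_mul, h4.pow_eq_one, one_pow]
    · apply Subtype.ext
      show ((ξ₁ ^ p) ^ j) ^ p = (ξ : Ω)
      rw [← hj, ← pow_mul (ξ₁ ^ p) j p, mul_comm j p, pow_mul]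
  · right
    have := Fact.mk hp
    rw [IsPrimitiveRoot.iff_orderOf]
    exact orderOf_eq_prime_pow h3 h2

theorem c2 {p : ℕ} {G Ω : Type u} [Group G] [TopologicalSpace G] [Field Ω] [MulSemiringAction G Ω] {ζ a : Ω} {g₀ : G}
    (C : Cd p G ζ a g₀) (hg : g₀ ∈ Gi p G Ω) (hPS : PS p G) (b : fF G Ω) (hb : b ≠ 0) {G' Ω' : Type u} [Group G'] [TopologicalSpace G']
    [Field Ω'] [MulSemiringAction G' Ω'] {j' : (C.dat b hb).K →+* Ω'} (h' : Ov (C.dat b hb).K G' j') (μ : Mo G Ω G' Ω')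
    (hμ : ∀ x : fF G Ω, μ.ψ x = j' (cF (C.dat b hb) x)) {N : ℕ} (hN : CoreI (C.dat b hb) N) {i : ℕ} {ξ₁ : Ω} {c : G}
    (hc : Cyx p G i ξ₁ c) (hA : ri p G Ω (bc (sb (H := G) p ζ a (b : Ω))) ≠ 0) {β : G → G → Ω} (hβ : Zo β)
    (hβi : p ^ i • bc β = bc (sb (H := G) p ζ a (b : Ω))) (hβK : HD p j' (ri p G' Ω' (bqm μ (bc β)))) {f : G → G → ZMod p} (hf : f ∈ Z2 p G)
    (h : HD p j' (ri p G' Ω' (bqm μ (bc (zf ζ f))))) : HD p (fF G Ω).subtype (ri p G Ω (bc (zf ζ f))) := by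
  by_contra hnot
  have i1 : IsAlgClosed Ω := C.ga.alg
  have i2 : PerfectField (fL G Ω p a) := perfect (kr G p a)
  have hp := C.hp
  have hZf : Zo (zf ζ f) := Zu_zp C.ga C.hz C.fz hf
  have hf0 : Nz (zf ζ f) := hZf.ne
  have hβ0 : Nz β := hβ.ne
  have hpf : p • bc (zf ζ f) = 0 := by
    rw [← bc_pow hf0, ← bc_one]
    congr 1
    funext g h
    exact zp_pow C.hz _
  -- a common level
  obtain ⟨M, z₀, L, w, wβ, hw, hwβ⟩ := HD.level (ζ := μ.ψ ζ) hp (gi_ga h'.ga) (μ.pz C.hz) mu_gi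
    (fun g x => h'.fj (g : G') x) h hβK
  obtain ⟨s₁, z₁, hz₁, hzw₁⟩ := res_step C b hb h' μ hμ hZf L hw
  obtain ⟨s₂, z₂, hz₂, hzw₂⟩ := res_step C b hb h' μ hμ hβ L hwβ
  obtain ⟨ξ, k, hξ, hcξ, -⟩ := xi_of hp (C.dat b hb) hN hz₁ hzw₁
  obtain ⟨ξβ, kβ, hξβ, hcξβ, -⟩ := xi_of hp (C.dat b hb) hN hz₂ hzw₂
  rcases xip hp hc hξ with ⟨ξ', k', hξ', e⟩ | hprim
  · obtain ⟨τ, l, hτ, hτl, hcτ⟩ := tor1 (C.dat b hb) hξ'
    refine hnot (s1 C hg hPS b hb h' μ hμ hN hZf (e := 1) (by rw [pow_one]; exact hpf) L hw hz₁ hzw₁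
      hτ hτl ?_)
    apply Additive.toMul.injective
    apply Units.ext
    rw [hcτ, hcξ, e]
  · have h1 : (ξβ : Ω) ^ p ^ i = 1 :=
      cyc_max hp hc (congrArg Subtype.val hξβ : (ξβ : Ω) ^ p ^ kβ = 1) fun g => ξβ.2 g
    have := NeZero.of_pos (pow_pos hp.pos i)
    obtain ⟨t, -, ht⟩ := hprim.eq_pow_of_pow_eq_one h1
    have ht' : ξ ^ t = ξβ := Subtype.ext ht
    -- the difference
    obtain ⟨f₂, hf₂, hbf₂⟩ : ∃ f₂ : G → G → Ω, Zo f₂ ∧ bc f₂ = bc β - t • bc (zf ζ f) := by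
      refine ⟨fun g h => β g h * (zf ζ f g h ^ t)⁻¹, Zu_mul hβ (Zu_inv (Zu_pow t hZf)), ?_⟩
      rw [bc_mul hβ0 (hf0.pow t).inv, bc_inv (hf0.pow t), bc_pow hf0, sub_eq_add_neg]
    have hw₂ : ri p G' Ω' (bqm μ (bc f₂)) = hB L (wβ - t • w) := by
      rw [hbf₂, map_sub, map_sub, map_nsmul, map_nsmul, hw, hwβ, map_sub, map_nsmul]
    have hgn : ∀ n : ℕ, (C.dat b hb).Good (n • z₁) := by
      intro n
      induction n with
      | zero =>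
        rw [zero_smul]
        exact (C.dat b hb).good_zero
      | succ n ih =>
        rw [succ_nsmul]
        exact Pool.Agent.MSX.Dat.Good.add ih hz₁
    have hz₃ : (C.dat b hb).Good (z₂ - t • z₁) := by
      rw [sub_eq_add_neg]
      exact Pool.Agent.MSX.Dat.Good.add hz₂ (Pool.Agent.MSX.Dat.Good.neg (hgn t))
    have hzw₃ : p ^ (s₁ + s₂) • (C.dat b hb).tmK (wβ - t • w) =
        (p ^ M * p ^ (s₁ + s₂)) • (z₂ - t • z₁) := by
      have e1 : p ^ (s₁ + s₂) • (C.dat b hb).tmK w = (p ^ M * p ^ (s₁ + s₂)) • z₁ := by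
        rw [pow_add, mul_comm (p ^ s₁), mul_smul, hzw₁, smul_smul]
        congr 1
        ring
      have e2 : p ^ (s₁ + s₂) • (C.dat b hb).tmK wβ = (p ^ M * p ^ (s₁ + s₂)) • z₂ := by
        rw [pow_add, mul_smul, hzw₂, smul_smul]
        congr 1
        ring
      rw [map_sub, map_nsmul, nsmul_sub, nsmul_sub, e2, smul_comm _ t, e1, smul_comm _ t]
    have hcc : cc (0 : Fam p (fL G Ω p a)) = cc (z₂ - t • z₁) := by
      rw [Pool.Agent.MSX.cc_zero, sub_eq_add_neg, Pool.Agent.MSX.cc_add hz₂.fin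
        (Pool.Agent.MSX.Dat.Good.neg (hgn t)).fin, Pool.Agent.MSX.cc_neg (hgn t).fin,
        Pool.Agent.MSX.cc_nsmul hz₁.fin]
      have e1 : cc z₂ = t • cc z₁ := by
        apply Additive.toMul.injective
        apply Units.ext
        rw [toMul_nsmul, Units.val_pow_eq_pow_val, hcξ, hcξβ, ← ht', map_pow, map_pow]
      rw [e1, add_neg_cancel]
    have he : p ^ (i + 1) • bc f₂ = 0 := by
      have e1 : p ^ (i + 1) • bc β = 0 := by
        rw [pow_succ', mul_smul, hβi, ← bc_pow (nz_sb C.hz a (b : Ω)), ← bc_one]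
        congr 1
        funext g h
        exact zp_pow C.hz _
      have e2 : p ^ (i + 1) • bc (zf ζ f) = 0 := by
        rw [pow_succ, mul_smul, hpf, smul_zero]
      rw [hbf₂, smul_sub, e1, smul_comm _ t, e2, smul_zero, sub_zero]
    have hHD : HD p (fF G Ω).subtype (ri p G Ω (bc f₂)) :=
      s1 C hg hPS b hb h' μ hμ hN hf₂ he L hw₂ hz₃ hzw₃ (l := 0) (C.dat b hb).good_zero
        (smul_zero _) hcc
    have htw := twist hp C.ga hc (j := (fF G Ω).subtype) (fun g x => x.2 g) hf₂ hHD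
    apply hA
    obtain ⟨i', hi'⟩ : ∃ i', i = i' + 1 := ⟨i - 1, by have := hc.one_le; omega⟩
    have e3 : p ^ i • bc (zf ζ f) = 0 := by
      rw [hi', pow_succ, mul_smul, hpf, smul_zero]
    rw [← hβi, map_nsmul]
    rw [hbf₂, map_sub, map_nsmul, smul_sub, smul_comm _ t, ← map_nsmul _ (p ^ i) (bc (zf ζ f)), e3,
      map_zero, smul_zero, sub_zero] at htw
    exact htw

end MSN
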