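import Pool.Agent.MSN.Kum

/-! # MSN / Ce: realisation of a cyclic extension `K₁/K₀` inside `Ω`

`i : K₀ →+* K₁`, `σ` an automorphism of `K₁` with `σ^[p] = id` and fixed field `i K₀`, `α₁ ∈ K₁` with `σ α₁ = i ζ₀ * α₁`, `α₁ ^ p = i a₀`.  `(G, Ω, j)` a pair over `K₀`; `β ∈ Ω`, `β ^ p = j a₀`.

PROOFS.
* `exists_j1`.  Every `x` in `K₁` is `∑_(k < p) i (c_k) α₁ ^ k` (`c_k = p⁻¹ α₁⁻ᵏ ∑_l ζ₀^(-k l) σ^l x` is fixed by `σ`).  `K₁` is algebraic over `K₀` (`α₁` is), so `j` extends to `j' : K₁ →+* Ω`, `j' ∘ i = j` (`IsAlgClosed.lift`, algebra structure from `i`).  `j' α₁` and `β` have the same `p`-th power,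
  so `β = j' (i ζ₀) ^ u * j' α₁ = j' (σ^[u] α₁)`; `j₁ = j' ∘ σ^[u]`.
* `smul_j1`: both sides are ring homomorphisms in `x` (`g •`, `j₁ ∘ σ^[k]`), they agree on `i K₀` and on `α₁` (`g • β = zp (j ζ₀) (km ..) * β`: `km_root`), and `K₁` is generated by these.
* `ov_j1`: `ga`: open subgroup.  `fj`: `smul_j1` and `Cd.mem_kr` (or `km = 0`).  `pi`: `x` fixed by `kr G p (j a₀)`; if `km p (j ζ₀) (j a₀) g₀ = 1` for some `g₀` then `Cd.kum`: `x = ∑ c_k (rt) ^ k`, `c_k` fixed by `G`, `rt = (root of unity) * β`, `c_k ^ (q ^ n) = j n_k` for a common `n`, so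
  `x ^ (q ^ n) = ∑ j n_k * j₁ (..)`.  (Hypothesis `hg`.)
* `j1_unique`: two ring homomorphisms on `K₁` which agree on `i K₀` and on `α₁` are equal.
-/

set_option autoImplicit false
set_option linter.unusedVariables false

namespace MSN

universe u

open MSG

open Pool.Agent.MK (K2 S)

/-- a cyclic Kummer extension -/
structure Kx (p : ℕ) {K₀ K₁ : Type u} [Field K₀] [Field K₁] (i : K₀ →+* K₁) (σ : K₁ ≃+* K₁) (ζ₀ a₀ : K₀) (α₁ : K₁) : Prop where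
  hp : p.Prime
  hz : PZ p ζ₀
  per : ∀ x, σ^[p] x = x
  fx : ∀ x, σ x = x → ∃ y, i y = x
  fi : ∀ y, σ (i y) = i y
  sa : σ α₁ = i ζ₀ * α₁
  pa : α₁ ^ p = i a₀
  a0 : a₀ ≠ 0

variable {p : ℕ} {K₀ K₁ : Type u} [Field K₀] [Field K₁] {i : K₀ →+* K₁} {σ : K₁ ≃+* K₁} {ζ₀ a₀ : K₀} {α₁ : K₁}

private theorem pz_map_h75 {K L : Type u} [Field K] [Field L] {n : ℕ} {z : K} (hz : PZ n z) (f : K →+* L) : PZ n (f z) :=
  ⟨hz.odd, hz.one_lt, hz.prim.map_of_injective f.injective⟩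

private theorem kx_ne_h75 (X : Kx p i σ ζ₀ a₀ α₁) : α₁ ≠ 0 := by
  intro h
  have h1 := X.pa
  rw [h, zero_pow X.hp.ne_zero] at h1
  exact X.a0 ((map_eq_zero i).1 h1.symm)

private theorem kx_iter_h75 (X : Kx p i σ ζ₀ a₀ α₁) (l : ℕ) :
    (∀ y, σ^[l] (i y) = i y) ∧ σ^[l] α₁ = i (ζ₀ ^ l) * α₁ := by
  induction l with
  | zero => exact ⟨fun y => rfl, by rw [pow_zero, map_one, one_mul]; rfl⟩
  | succ l ih =>
    refine ⟨fun y => by rw [Function.iterate_succ_apply', ih.1, X.fi], ?_⟩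
    rw [Function.iterate_succ_apply', ih.2, map_mul, X.fi, X.sa, pow_succ, map_mul, mul_assoc]

private theorem kx_hom_h75 (σ : K₁ ≃+* K₁) (l : ℕ) : ∃ τ : K₁ →+* K₁, ∀ x, τ x = σ^[l] x := by
  induction l with
  | zero => exact ⟨RingHom.id K₁, fun x => rfl⟩
  | succ l ih =>
    obtain ⟨τ, hτ⟩ := ih
    exact ⟨(σ : K₁ →+* K₁).comp τ, fun x => by
      rw [RingHom.comp_apply, hτ, Function.iterate_succ_apply']
      rfl⟩

private theorem geo_h75 {K : Type u} [Field K] {n : ℕ} {y : K} (h : y ^ n = 1) (h1 : y ≠ 1) :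
    ∑ k ∈ Finset.range n, y ^ k = 0 := by
  have h2 := geom_sum_mul y n
  rw [h, sub_self] at h2
  exact (mul_eq_zero.1 h2).resolve_right (sub_ne_zero.2 h1)

private theorem shift_h75 {K : Type u} [Field K] {n : ℕ} {f : ℕ → K} (h : f n = f 0) :
    ∑ l ∈ Finset.range n, f (l + 1) = ∑ l ∈ Finset.range n, f l := by
  have h1 := Finset.sum_range_succ' f n
  rw [Finset.sum_range_succ, h] at h1
  exact (add_right_cancel h1).symm

theorem Kx.gen (X : Kx p i σ ζ₀ a₀ α₁) (x : K₁) : ∃ c : Fin p → K₀, x = ∑ k, i (c k) * α₁ ^ k.val := by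
  have hz := pz_map_h75 X.hz i
  have ha := kx_ne_h75 X
  have hpK : (p : K₁) ≠ 0 := hz.cast_ne
  have hz0 : i ζ₀ ≠ 0 := hz.prim.ne_zero X.hp.ne_zero
  have hu1 : ((i ζ₀)⁻¹) ^ p = 1 := by rw [inv_pow, hz.prim.pow_eq_one, inv_one]
  let f : ℕ → ℕ → K₁ := fun k l => ((i ζ₀)⁻¹) ^ (k * l) * σ^[l] x
  let c' : ℕ → K₁ := fun k => (p : K₁)⁻¹ * (α₁ ^ k)⁻¹ * ∑ l ∈ Finset.range p, f k l
  have hc' : ∀ k, σ (c' k) = c' k := by
    intro k
    have e1 : σ (∑ l ∈ Finset.range p, f k l) = (i ζ₀) ^ k * ∑ l ∈ Finset.range p, f k l := by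
      rw [map_sum, ← shift_h75 (f := f k) (by
        show ((i ζ₀)⁻¹) ^ (k * p) * σ^[p] x = ((i ζ₀)⁻¹) ^ (k * 0) * σ^[0] x
        rw [X.per, mul_comm k p, pow_mul, hu1, one_pow, mul_zero, pow_zero]
        rfl), Finset.mul_sum]
      refine Finset.sum_congr rfl fun l _ => ?_
      show σ (((i ζ₀)⁻¹) ^ (k * l) * σ^[l] x) = (i ζ₀) ^ k * (((i ζ₀)⁻¹) ^ (k * (l + 1)) * σ^[l + 1] x)
      rw [map_mul, map_pow, map_inv₀, X.fi, Function.iterate_succ_apply', mul_add, pow_add, mul_one, inv_pow,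
        inv_pow]
      field_simp
    show σ ((p : K₁)⁻¹ * (α₁ ^ k)⁻¹ * ∑ l ∈ Finset.range p, f k l) = _
    rw [map_mul, e1, map_mul, map_inv₀, map_inv₀, map_pow, X.sa, map_natCast]
    show _ = (p : K₁)⁻¹ * (α₁ ^ k)⁻¹ * ∑ l ∈ Finset.range p, f k l
    rw [mul_pow]
    field_simp
  choose c hc using fun k => X.fx (c' k) (hc' k)
  refine ⟨fun k => c k.val, ?_⟩
  rw [Fin.sum_univ_eq_sum_range (fun k => i (c k) * α₁ ^ k) p]
  have e2 : ∀ k ∈ Finset.range p, i (c k) * α₁ ^ k = (p : K₁)⁻¹ * ∑ l ∈ Finset.range p, f k l := by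
    intro k _
    rw [hc]
    show (p : K₁)⁻¹ * (α₁ ^ k)⁻¹ * (∑ l ∈ Finset.range p, f k l) * α₁ ^ k = _
    field_simp
  rw [Finset.sum_congr rfl e2, ← Finset.mul_sum, Finset.sum_comm, Finset.sum_eq_single 0]
  · have e3 : ∀ k ∈ Finset.range p, f k 0 = x := by
      intro k _
      show ((i ζ₀)⁻¹) ^ (k * 0) * σ^[0] x = x
      rw [mul_zero, pow_zero, one_mul]
      rfl
    rw [Finset.sum_congr rfl e3, Finset.sum_const, Finset.card_range, nsmul_eq_mul, ← mul_assoc,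
      inv_mul_cancel₀ hpK, one_mul]
  · intro l hl hl0
    have e4 : ∀ k ∈ Finset.range p, f k l = (((i ζ₀)⁻¹) ^ l) ^ k * σ^[l] x := by
      intro k _
      show ((i ζ₀)⁻¹) ^ (k * l) * σ^[l] x = _
      rw [mul_comm k l, pow_mul]
    rw [Finset.sum_congr rfl e4, ← Finset.sum_mul, geo_h75, zero_mul]
    · rw [← pow_mul, mul_comm, pow_mul, hu1, one_pow]
    · rw [inv_pow, Ne, inv_eq_one]
      exact hz.prim.pow_ne_one_of_pos_of_lt hl0 (Finset.mem_range.1 hl)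
  · intro h
    exact absurd (Finset.mem_range.2 X.hp.pos) h

theorem Kx.unique (X : Kx p i σ ζ₀ a₀ α₁) {R : Type u} [Field R] (φ ψ : K₁ →+* R) (h : ∀ y, φ (i y) = ψ (i y)) (h' : φ α₁ = ψ α₁)
    (x : K₁) : φ x = ψ x := by
  obtain ⟨c, rfl⟩ := X.gen x
  rw [map_sum, map_sum]
  refine Finset.sum_congr rfl fun k _ => ?_
  rw [map_mul, map_mul, map_pow, map_pow, h, h']

variable {G Ω : Type u} [Group G] [TopologicalSpace G] [Field Ω] [MulSemiringAction G Ω] {j : K₀ →+* Ω}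

private theorem root_h75 {K : Type u} [Field K] {z x y : K} (hz : PZ p z) (hy : y ≠ 0) (h : x ^ p = y ^ p) :
    ∃ u : ℕ, x = z ^ u * y := by
  have hne := hz.neZero
  have h1 : (x / y) ^ p = 1 := by rw [div_pow, h, div_self (pow_ne_zero p hy)]
  obtain ⟨u, -, hu⟩ := hz.prim.eq_pow_of_pow_eq_one h1
  exact ⟨u, by rw [hu, div_mul_cancel₀ _ hy]⟩

theorem Kx.exists_j1 (X : Kx p i σ ζ₀ a₀ α₁) (h : Ov K₀ G j) {β : Ω} (hβ : β ^ p = j a₀) :
    ∃ j₁ : K₁ →+* Ω, (∀ y, j₁ (i y) = j y) ∧ j₁ α₁ = β := by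
  have hac := h.ga.alg
  obtain ⟨j', hj'⟩ : ∃ j' : K₁ →+* Ω, ∀ y, j' (i y) = j y := by
    let _ : Algebra K₀ K₁ := i.toAlgebra
    let _ : Algebra K₀ Ω := j.toAlgebra
    have hfin : Module.Finite K₀ K₁ := by
      refine Module.Finite.of_surjective (Fintype.linearCombination K₀ (fun k : Fin p => α₁ ^ k.val)) ?_
      intro x
      obtain ⟨c, hc⟩ := X.gen x
      refine ⟨c, ?_⟩
      rw [Fintype.linearCombination_apply, hc]
      rfl
    have halg : Algebra.IsAlgebraic K₀ K₁ := Algebra.IsAlgebraic.of_finite K₀ K₁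
    let l : K₁ →ₐ[K₀] Ω := IsAlgClosed.lift
    exact ⟨l.toRingHom, fun y => l.commutes y⟩
  obtain ⟨u, hu⟩ := root_h75 (pz_map_h75 X.hz j) (x := β) (y := j' α₁)
    ((map_ne_zero j').2 (kx_ne_h75 X)) (by rw [hβ, ← map_pow, X.pa, hj'])
  obtain ⟨τ, hτ⟩ := kx_hom_h75 σ u
  refine ⟨j'.comp τ, fun y => ?_, ?_⟩
  · rw [RingHom.comp_apply, hτ, (kx_iter_h75 X u).1, hj']
  · rw [RingHom.comp_apply, hτ, (kx_iter_h75 X u).2, map_mul, hj', map_pow, hu]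

theorem Kx.smul_j1 (X : Kx p i σ ζ₀ a₀ α₁) (h : Ov K₀ G j) {j₁ : K₁ →+* Ω} (h1 : ∀ y, j₁ (i y) = j y) (g : G) (x : K₁) :
    g • j₁ x = j₁ (σ^[(km p (j ζ₀) (j a₀) g).val] x) := by
  have hac := h.ga.alg
  obtain ⟨τ, hτ⟩ := kx_hom_h75 σ (km p (j ζ₀) (j a₀) g).val
  have key := X.unique ((MulSemiringAction.toRingHom G Ω g).comp j₁) (j₁.comp τ) (fun y => by
    rw [RingHom.comp_apply, RingHom.comp_apply, hτ, (kx_iter_h75 X _).1, h1]
    exact h.fj g y) (by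
    rw [RingHom.comp_apply, RingHom.comp_apply, hτ, (kx_iter_h75 X _).2, map_mul, h1, map_pow]
    exact km_root (pz_map_h75 X.hz j) ((map_ne_zero j).2 X.a0) (by rw [← map_pow, X.pa, h1]) (h.fj g ζ₀) (h.fj g a₀)) x
  rw [RingHom.comp_apply, RingHom.comp_apply, hτ] at key
  exact key

theorem Kx.ov_j1 (X : Kx p i σ ζ₀ a₀ α₁) (h : Ov K₀ G j) {j₁ : K₁ →+* Ω} (h1 : ∀ y, j₁ (i y) = j y) {g₀ : G}
    (hg : km p (j ζ₀) (j a₀) g₀ = 1) : Ov K₁ (kr G p (j a₀)) j₁ := by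
  have hac := h.ga.alg
  have hzΩ := pz_map_h75 X.hz j
  have hne := hzΩ.neZero
  have hj0 : j a₀ ≠ 0 := (map_ne_zero j).2 X.a0
  have C : Cd p G (j ζ₀) (j a₀) g₀ := ⟨X.hp, h.ga, hzΩ, fun g => h.fj g ζ₀, ⟨hj0, fun g => h.fj g a₀⟩, hg⟩
  refine ⟨ga_kr C, ?_, ?_⟩
  · rintro ⟨g, hgk⟩ x
    show g • j₁ x = j₁ x
    rw [X.smul_j1 h h1, (C.mem_kr).1 hgk, ZMod.val_zero]
    rfl
  · intro x hx
    obtain ⟨c, hc, hxc⟩ := C.kum (x := x) (fun g hg => hx ⟨g, hg⟩)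
    have hpi : ∀ k, ∃ (n : ℕ) (y : K₀), c k ^ (ringExpChar Ω ^ n) = j y := fun k => h.pi (c k) (hc k)
    choose n y hy using hpi
    have hq : ExpChar Ω (ringExpChar Ω) := inferInstance
    obtain ⟨u, hu⟩ := root_h75 hzΩ (x := rt p (j a₀)) (y := j₁ α₁) ((map_ne_zero j₁).2 (kx_ne_h75 X))
      (by rw [C.pow_rt, ← map_pow, X.pa, h1])
    have hρ : rt p (j a₀) = j₁ (i (ζ₀ ^ u) * α₁) := by rw [hu, map_mul, h1, map_pow]
    let N := ∑ k, n k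
    have hN : ∀ k, n k ≤ N := fun k => Finset.single_le_sum (fun _ _ => Nat.zero_le _) (Finset.mem_univ k)
    have hck : ∀ k, c k ^ (ringExpChar Ω ^ N) = j (y k ^ (ringExpChar Ω ^ (N - n k))) := by
      intro k
      rw [map_pow, ← hy k, ← pow_mul, ← pow_add, Nat.add_sub_cancel' (hN k)]
    refine ⟨N, ∑ k, i (y k ^ (ringExpChar Ω ^ (N - n k))) * ((i (ζ₀ ^ u) * α₁) ^ (ringExpChar Ω ^ N)) ^ k.val, ?_⟩
    rw [← iterateFrobenius_def, hxc, map_sum, map_sum]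
    refine Finset.sum_congr rfl fun k _ => ?_
    rw [map_mul (iterateFrobenius Ω (ringExpChar Ω) N), map_pow (iterateFrobenius Ω (ringExpChar Ω) N),
      iterateFrobenius_def, iterateFrobenius_def, hck, map_mul j₁, h1, map_pow j₁, map_pow j₁, hρ]

end MSN
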