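import Pool.Agent.MSG.Mox
import Pool.Agent.MSG.Uc

/-! # MSN / Df: 2-cochains with values in `Ωˣ` modulo coboundaries

`H` acts on the field `Ω`.  Cochains are functions `f : H → H → Ω`, nowhere zero.  `Bo f f'` (the same as `MSG.Cu f f'`): they
differ by the coboundary `(g, h) ↦ u g * (g • u h) / u (g h)` of a locally constant nowhere zero `u : H → Ω`.  `Bq H Ω` is the (additively written) group of all nowhere
zero 2-cochains modulo coboundaries (it contains the Brauer group of the fixed field), `bc f` the class of `f`.  `Zo f` is `MSG.Zu H f`: `f` is a locally constant nowhere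
zero 2-cocycle. -/

set_option autoImplicit false
set_option linter.unusedSectionVars false

namespace MSN

universe u v w

open MSG

noncomputable section

section

variable (H : Type u) (Ω : Type v) [Group H] [TopologicalSpace H] [Field Ω] [MulSemiringAction H Ω]

/-- the coboundaries of the locally constant 1-cochains with values in `Ωˣ` -/
def Bd : Subgroup (H → H → Ωˣ) where
  carrier := {f | ∃ u : H → Ωˣ, IsLocallyConstant u ∧
    ∀ g h, (f g h : Ω) * (u (g * h) : Ω) = (u g : Ω) * g • (u h : Ω)}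
  mul_mem' := by
    rintro f f' ⟨u, hu, h⟩ ⟨u', hu', h'⟩
    refine ⟨fun g => u g * u' g, hu.mul hu', fun g k => ?_⟩
    have e1 := h g k
    have e2 := h' g k
    simp only [Pi.mul_apply, Units.val_mul, smul_mul']
    calc (f g k : Ω) * (f' g k : Ω) * ((u (g * k) : Ω) * (u' (g * k) : Ω)) =
        ((f g k : Ω) * (u (g * k) : Ω)) * ((f' g k : Ω) * (u' (g * k) : Ω)) := by ring
      _ = _ := by rw [e1, e2]; ring
  one_mem' := ⟨fun _ => 1, IsLocallyConstant.const 1, fun g h => by simp⟩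
  inv_mem' := by
    rintro f ⟨u, hu, h⟩
    refine ⟨fun g => (u g)⁻¹, hu.inv, fun g k => ?_⟩
    have e1 := h g k
    simp only [Pi.inv_apply, Units.val_inv_eq_inv_val, smul_inv'']
    rw [← mul_inv, ← mul_inv, e1]

/-- nowhere zero 2-cochains modulo coboundaries, written additively -/
def Bq : Type (max u v) := Additive ((H → H → Ωˣ) ⧸ Bd H Ω)

instance : AddCommGroup (Bq H Ω) := inferInstanceAs (AddCommGroup (Additive ((H → H → Ωˣ) ⧸ Bd H Ω)))

end

section

variable {H : Type u} {Ω : Type v} [Group H] [TopologicalSpace H] [Field Ω] [MulSemiringAction H Ω]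

/-- `f` is nowhere zero -/
def Nz (f : H → H → Ω) : Prop := ∀ g h, f g h ≠ 0

/-- `f` and `f'` differ by a coboundary -/
def Bo (f f' : H → H → Ω) : Prop :=
  ∃ u : H → Ω, (∀ g, u g ≠ 0) ∧ IsLocallyConstant u ∧ ∀ g h, f g h * u (g * h) = f' g h * (u g * g • u h)

/-- `f` is a locally constant nowhere zero 2-cocycle -/
abbrev Zo (f : H → H → Ω) : Prop := Zu H f

open Classical in
/-- `f` as a cochain with values in the units (`1` instead of the value `0`) -/
def uc (f : H → H → Ω) (g h : H) : Ωˣ := if hf : f g h ≠ 0 then Units.mk0 (f g h) hf else 1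

/-- the class of a cochain given by a function with values in the units -/
def bu (f : H → H → Ωˣ) : Bq H Ω := Additive.ofMul (QuotientGroup.mk f : (H → H → Ωˣ) ⧸ Bd H Ω)

/-- the class of the cochain `f` -/
def bc (f : H → H → Ω) : Bq H Ω := bu (uc f)

theorem uc_val {f : H → H → Ω} (hf : Nz f) (g h : H) : (uc f g h : Ω) = f g h := by
  unfold uc
  rw [dif_pos (hf g h)]
  rfl

theorem bu_surj (x : Bq H Ω) : ∃ f : H → H → Ωˣ, x = bu f := by
  obtain ⟨f, hf⟩ := QuotientGroup.mk_surjective (Additive.toMul x)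
  exact ⟨f, by rw [bu, hf]; rfl⟩

theorem bc_surj (x : Bq H Ω) : ∃ f : H → H → Ω, Nz f ∧ x = bc f := by
  obtain ⟨f, rfl⟩ := bu_surj x
  refine ⟨fun g h => (f g h : Ω), fun g h => (f g h).ne_zero, ?_⟩
  rw [bc]
  congr 1
  funext g h
  apply Units.ext
  rw [uc_val (fun g h => (f g h).ne_zero)]

theorem bu_mul (f f' : H → H → Ωˣ) : bu (f * f') = bu f + bu f' := rfl

theorem bu_eq_zero {f : H → H → Ωˣ} : bu f = 0 ↔ f ∈ Bd H Ω := by
  rw [← QuotientGroup.eq_one_iff]
  exact Iff.rfl

theorem Nz.mul {f f' : H → H → Ω} (hf : Nz f) (hf' : Nz f') : Nz (fun g h => f g h * f' g h) :=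
  fun g h => mul_ne_zero (hf g h) (hf' g h)

theorem Nz.inv {f : H → H → Ω} (hf : Nz f) : Nz (fun g h => (f g h)⁻¹) :=
  fun g h => inv_ne_zero (hf g h)

theorem Nz.pow {f : H → H → Ω} (hf : Nz f) (n : ℕ) : Nz (fun g h => f g h ^ n) :=
  fun g h => pow_ne_zero n (hf g h)

theorem Nz.one : Nz (fun _ _ : H => (1 : Ω)) := fun _ _ => one_ne_zero

theorem bc_mul {f f' : H → H → Ω} (hf : Nz f) (hf' : Nz f') :
    bc (fun g h => f g h * f' g h) = bc f + bc f' := by
  rw [bc, bc, bc, ← bu_mul]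
  congr 1
  funext g h
  apply Units.ext
  rw [Pi.mul_apply, Pi.mul_apply, Units.val_mul, uc_val hf, uc_val hf', uc_val (hf.mul hf')]

theorem bc_one : bc (fun _ _ : H => (1 : Ω)) = 0 := by
  rw [bc, bu_eq_zero]
  have h : uc (fun _ _ : H => (1 : Ω)) = 1 := by
    funext g h
    apply Units.ext
    rw [uc_val Nz.one]
    rfl
  rw [h]
  exact one_mem _

theorem bc_inv {f : H → H → Ω} (hf : Nz f) : bc (fun g h => (f g h)⁻¹) = - bc f := by
  rw [eq_neg_iff_add_eq_zero, ← bc_mul hf.inv hf, ← bc_one]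
  congr 1
  funext g h
  exact inv_mul_cancel₀ (hf g h)

theorem bc_pow {f : H → H → Ω} (hf : Nz f) (n : ℕ) : bc (fun g h => f g h ^ n) = n • bc f := by
  induction n with
  | zero => simpa using bc_one
  | succ n ih =>
    rw [succ_nsmul, ← ih, ← bc_mul (hf.pow n) hf]
    congr 1
    funext g h
    exact pow_succ _ _

theorem bc_zpow {f : H → H → Ω} (hf : Nz f) (n : ℤ) : bc (fun g h => f g h ^ n) = n • bc f := by
  cases n with
  | ofNat n =>
    simp only [Int.ofNat_eq_natCast, zpow_natCast, natCast_zsmul]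
    exact bc_pow hf n
  | negSucc n =>
    simp only [zpow_negSucc, negSucc_zsmul]
    rw [bc_inv (hf.pow (n + 1)), bc_pow hf]

theorem bc_prod {κ : Type*} (s : Finset κ) (F : κ → H → H → Ω) (hF : ∀ i ∈ s, Nz (F i)) :
    bc (fun g h => ∏ i ∈ s, F i g h) = ∑ i ∈ s, bc (F i) := by
  classical
  induction s using Finset.induction_on with
  | empty => simpa using bc_one
  | insert a s ha ih =>
    rw [Finset.sum_insert ha, ← ih (fun i hi => hF i (Finset.mem_insert_of_mem hi)),
      ← bc_mul (hF a (Finset.mem_insert_self a s))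
        (fun g h => Finset.prod_ne_zero_iff.2 fun i hi => hF i (Finset.mem_insert_of_mem hi) g h)]
    congr 1
    funext g h
    rw [Finset.prod_insert ha]

theorem bc_zero_iff {f : H → H → Ω} (hf : Nz f) : bc f = 0 ↔ Bo f (fun _ _ => 1) := by
  rw [bc, bu_eq_zero]
  constructor
  · rintro ⟨u, hu, h⟩
    refine ⟨fun g => (u g : Ω), fun g => (u g).ne_zero, hu.comp _, fun g k => ?_⟩
    rw [← uc_val hf, h, one_mul]
  · rintro ⟨u, hu0, hu, h⟩
    refine ⟨fun g => Units.mk0 (u g) (hu0 g), ?_, fun g k => ?_⟩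
    · rw [IsLocallyConstant.iff_exists_open] at hu ⊢
      intro x
      obtain ⟨U, hU, hx, hc⟩ := hu x
      exact ⟨U, hU, hx, fun y hy => Units.ext (hc y hy)⟩
    · rw [uc_val hf]
      have e := h g k
      rw [one_mul] at e
      exact e

theorem bc_eq_iff {f f' : H → H → Ω} (hf : Nz f) (hf' : Nz f') : bc f = bc f' ↔ Bo f f' := by
  rw [← sub_eq_zero, sub_eq_add_neg, ← bc_inv hf', ← bc_mul hf hf'.inv, bc_zero_iff (hf.mul hf'.inv)]
  constructor
  · rintro ⟨u, hu0, hu, h⟩
    refine ⟨u, hu0, hu, fun g k => ?_⟩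
    have e := h g k
    rw [one_mul] at e
    rw [← e]
    have := hf' g k
    field_simp
  · rintro ⟨u, hu0, hu, h⟩
    refine ⟨u, hu0, hu, fun g k => ?_⟩
    have e := h g k
    have := hf' g k
    rw [one_mul]
    field_simp
    rw [e]
    ring

theorem Bo.bc {f f' : H → H → Ω} (h : Bo f f') (hf : Nz f) (hf' : Nz f') : MSN.bc f = MSN.bc f' :=
  (bc_eq_iff hf hf').2 h

theorem bo_iff_cu {f f' : H → H → Ω} : Bo f f' ↔ Cu f f' := by
  constructor
  · rintro ⟨u, hu0, hu, h⟩
    refine ⟨u, hu0, hu, fun g k => ?_⟩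
    have h1 := hu0 (g * k)
    have e := h g k
    rw [eq_comm, mul_div_assoc', div_eq_iff h1, ← e]
  · rintro ⟨u, hu0, hu, h⟩
    refine ⟨u, hu0, hu, fun g k => ?_⟩
    have h1 := hu0 (g * k)
    rw [h, mul_assoc, div_mul_cancel₀ _ h1]

theorem bc_eq_cu {f f' : H → H → Ω} (hf : Nz f) (hf' : Nz f') : bc f = bc f' ↔ Cu f f' := by
  rw [bc_eq_iff hf hf', bo_iff_cu]

end

end

end MSN
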