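import Pool.Agent.MSN.Kf
import Pool.Agent.MSX.TGood
import Pool.Agent.MSX.Ctm
import Pool.Agent.MSX.AnB
import Pool.Agent.MSX.Ami
import Pool.Agent.MSX.Alg
import Pool.Agent.MSX.Bc
import Pool.Agent.MSX.ResG
import Pool.Agent.MSX.Ems
import Pool.Agent.MSX.Glue
import Pool.Agent.MSX.H0
import Pool.Agent.MSV.CoreB

/-! # MSN / Gx: geometric facts on `D.K` in the form used in part B (glue to MSX)

PROOFS: from the MSX modules Ami, Alg, Hn, Bc, H0, Glue, Ems, Core (translation of the notations `cL`, `cF`, `iK`, `sK` of MSN/Kf).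

* `res_glue`: for every point `P` take `k, psi, j` from Ems; `H` gives `ε, v` in `k`, `ε ^ (p ^ l) = 1`, `j (tm P w) = ε * v ^ (p ^ M)`; `v` is algebraic over `j (kx P)` (`v ^ (p ^ (M + l))` is in it), so `v = j v'`, and `ε = j ε'`; so `tm P w = ε' * v' ^ (p ^ M)` in `kx P`.
  Outside the finite support of `D.tmK w` take `v' = 1`, `ε' = 1`, `l = 0`; let `s` be the maximum of the `l`: `p ^ s • tm P w = (p ^ M * p ^ s) • v'`.  Glue with `k = p ^ s`, `n = p ^ M * p ^ s`.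
-/

set_option autoImplicit false
set_option linter.unusedVariables false

namespace MSN

universe u

open MSG

open Pool.Agent.MK (K2 S)

open Pool.Agent.MSX (KL Q Dat Fam tm cc cMb Mb lv)

noncomputable section

variable {p : ℕ} {F L : Type u} [Field F] [Field L] [Algebra F L] (D : Dat p F L)

theorem cL_eq : cL p L = Pool.Agent.MSX.cKL p L := rfl

theorem cF_eq : cF D = D.cK := rfl

theorem sK_eq (x : KL p L) : sK D x = D.sigKL x := by
  apply Subtype.ext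
  rw [sK_val, D.sigKL_coe]

theorem sK_iter_eq (k : ℕ) (x : KL p L) : (sK D)^[k] x = D.sigKL^[k] x := by
  apply Subtype.ext
  rw [sK_iter, D.sigKL_iter_coe]

theorem ami' {c : F} (hc : c ≠ 0) {Y : KL p L} (h : ∏ k ∈ Finset.range p, (sK D)^[k] Y = cL p L (algebraMap F L c)) :
    ∃ (m : ℤ) (e : L), e ≠ 0 ∧ algebraMap F L c = algebraMap F L D.b ^ m * D.N e := by
  refine D.amitsur hc Y.2 ?_
  have h1 := congrArg (fun x : KL p L => (x : Q p L)) h
  have h2 : ((∏ k ∈ Finset.range p, (sK D)^[k] Y : KL p L) : Q p L) = ∏ k ∈ Finset.range p, (D.sigQ)^[k] (Y : Q p L) := by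
    have e : ((∏ k ∈ Finset.range p, (sK D)^[k] Y : KL p L) : Q p L) = ∏ k ∈ Finset.range p, (((sK D)^[k] Y : KL p L) : Q p L) :=
      map_prod (KL p L).subtype _ _
    rw [e]
    exact Finset.prod_congr rfl fun k _ => sK_iter D Y k
  rw [← h2]
  exact h1

theorem gx_cK : cF D = D.cK := RingHom.ext fun _ => Subtype.ext rfl

theorem alg_cF (y : D.K) (P : Polynomial F) (hP : P ≠ 0) (h : P.eval₂ (cF D) y = 0) : ∃ c, cF D c = y := by
  obtain ⟨c, hc⟩ := D.alg_K y P hP h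
  exact ⟨c, hc.symm⟩

theorem hn' : ∃ Y : KL p L, Y ≠ 0 ∧ ∏ k ∈ Finset.range p, (sK D)^[k] Y = cL p L (algebraMap F L D.b) := by
  refine ⟨D.hn D.hp.one_lt, D.hn_ne D.hp.one_lt, ?_⟩
  rw [Finset.prod_congr rfl fun k _ => sK_iter_eq D k (D.hn D.hp.one_lt)]
  exact D.hn_norm D.hp.one_lt

theorem kmap {F' L' : Type u} [Field F'] [Field L'] [Algebra F' L'] (D' : Dat p F' L') (a : F →+* F') (c : L →+* L')
    (hac : ∀ x, c (algebraMap F L x) = algebraMap F' L' (a x)) (hs : ∀ x, c (D.s x) = D'.s (c x)) (hb : a D.b = D'.b) :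
    ∃ κ : D.K →+* D'.K, ∀ x, κ (cF D x) = cF D' (a x) := by
  obtain ⟨B, hBa⟩ : ∃ B : Pool.Agent.MSX.BC D D', B.a = a := ⟨⟨a, c, hac, hs, hb⟩, rfl⟩
  refine ⟨B.Kmap, fun x => ?_⟩
  rw [← hBa]
  exact B.Kmap_cK x

theorem unr (w : K2 (KL p L)) (h : ∀ P, tm P (K2.map (KL p L).subtype w) = 0) : ∃ κ : K2 L, K2.map (cL p L) κ = w := by
  rcases Nat.eq_zero_or_pos p with hp | hp
  · subst hp
    have hs : ∀ x : KL 0 L, ∃ c : L, cL 0 L c = x := by
      rintro ⟨x, n, f, g, hf, hg, h0, rfl⟩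
      refine ⟨f.coeff 0 / g.coeff 0, Subtype.ext ?_⟩
      have h1 : ∀ f : Pool.Agent.MSX.S 0 L, f = MvPolynomial.C (f.coeff 0) := fun f =>
        MvPolynomial.eq_C_of_isEmpty f
      change ((Pool.Agent.MSX.cQ 0 L) (f.coeff 0 / g.coeff 0) : Q 0 L) = _
      rw [map_div₀, Pool.Agent.MSX.cQ_apply, Pool.Agent.MSX.cQ_apply, ← h1 f, ← h1 g]
    clear h
    induction w using Pool.Agent.MK.K2_induction with
    | hS a b ha hb =>
      obtain ⟨a', rfl⟩ := hs a
      obtain ⟨b', rfl⟩ := hs b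
      exact ⟨S a' b', Pool.Agent.MK.K2.map_S _ _ _⟩
    | hz => exact ⟨0, map_zero _⟩
    | hadd x y hx hy =>
      obtain ⟨x', rfl⟩ := hx
      obtain ⟨y', rfl⟩ := hy
      exact ⟨x' + y', map_add _ _ _⟩
  · exact Pool.Agent.MSX.unr_h0 hp w h

theorem res_glue [PerfectField L] (hp : p.Prime) (w : K2 D.K) (M : ℕ)
    (H : ∀ (k : Type u) [Field k] (b : F →+* k) (φ : D.K →+* LaurentSeries k), (∀ x, φ (cF D x) = HahnSeries.C (b x)) →
      ∃ (ε v : kˣ) (l : ℕ), ε ^ p ^ l = 1 ∧ (lv k).tame (K2.map φ w) = Additive.ofMul (ε * v ^ p ^ M)) :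
    ∃ (s : ℕ) (z : Fam p L), D.Good z ∧ p ^ s • D.tmK w = (p ^ M * p ^ s) • z := by
  classical
  -- local statement
  have hloc : ∀ P, ∃ (l : ℕ) (x : Additive (Pool.Agent.MSX.kap P)ˣ), ((x.toMul : (Pool.Agent.MSX.kap P)ˣ) : Pool.Agent.MSX.kap P) ∈ D.kx P ∧
      p ^ l • D.tmK w P = (p ^ M * p ^ l) • x := by
    intro P
    obtain ⟨k, hk, psi, j, jF, h1, h2, h3, h4⟩ := D.exists_emb P
    obtain ⟨ε, v, l, hε, hv⟩ := H k jF psi h1
    obtain ⟨x, hx⟩ : ∃ x : D.kx P, (x : Pool.Agent.MSX.kap P) = ((D.tmK w P).toMul : Pool.Agent.MSX.kap P) := ⟨⟨_, D.tmK_kx w P⟩, rfl⟩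
    have h5 := h3 w x hx
    rw [hv, toMul_ofMul, Units.val_mul, Units.val_pow_eq_pow_val] at h5
    have hεk : (ε : k) ^ p ^ l = 1 := by
      rw [← Units.val_pow_eq_pow_val, hε, Units.val_one]
    have h6 : (v : k) ^ (p ^ M * p ^ l) = j (x ^ p ^ l) := by
      rw [map_pow, ← h5, mul_pow, hεk, one_mul, ← pow_mul]
    have hpos : 0 < p ^ M * p ^ l := Nat.mul_pos (pow_pos hp.pos _) (pow_pos hp.pos _)
    obtain ⟨v', hv'⟩ := h4 (v : k) (Polynomial.X ^ (p ^ M * p ^ l) - Polynomial.C (x ^ p ^ l))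
      (Polynomial.X_pow_sub_C_ne_zero hpos _) (by
        rw [Polynomial.eval₂_sub, Polynomial.eval₂_pow, Polynomial.eval₂_X, Polynomial.eval₂_C, h6, sub_self])
    have h7 : v' ^ (p ^ M * p ^ l) = x ^ p ^ l := by
      apply j.injective
      rw [map_pow, hv', h6]
    have hv0 : v' ≠ 0 := by
      rintro rfl
      rw [map_zero] at hv'
      exact v.ne_zero hv'.symm
    have hv1 : (v' : Pool.Agent.MSX.kap P) ≠ 0 := by
      intro h0
      exact hv0 (Subtype.ext h0)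
    refine ⟨l, Additive.ofMul (Units.mk0 (v' : Pool.Agent.MSX.kap P) hv1), ?_, ?_⟩
    · rw [toMul_ofMul, Units.val_mk0]
      exact v'.2
    · apply Additive.toMul.injective
      apply Units.ext
      rw [toMul_nsmul, toMul_nsmul, Units.val_pow_eq_pow_val, Units.val_pow_eq_pow_val, toMul_ofMul, Units.val_mk0, ← hx]
      have h8 := congrArg (fun t : D.kx P => (t : Pool.Agent.MSX.kap P)) h7
      exact h8.symm
  choose l x hx hlx using hloc
  have hfin : {P | D.tmK w P ≠ 0}.Finite := (D.good_tmK w).fin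
  obtain ⟨s, hs⟩ : ∃ s, ∀ P, D.tmK w P ≠ 0 → l P ≤ s :=
    ⟨hfin.toFinset.sup l, fun P hP => Finset.le_sup (f := l) (hfin.mem_toFinset.2 hP)⟩
  obtain ⟨z, hz, hz2⟩ := D.glue (D.good_tmK w) (p ^ s) (p ^ M * p ^ s) (fun P => by
    by_cases h0 : D.tmK w P = 0
    · refine ⟨0, ?_, ?_⟩
      · rw [toMul_zero, Units.val_one]
        exact one_mem _
      · rw [h0, smul_zero, smul_zero]
    · refine ⟨x P, hx P, ?_⟩
      have h1 := congrArg (fun t => p ^ (s - l P) • t) (hlx P)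
      have h2 : s - l P + l P = s := Nat.sub_add_cancel (hs P h0)
      rw [smul_smul, smul_smul, ← pow_add, h2, mul_left_comm, ← pow_add, h2] at h1
      exact h1)
  exact ⟨s, z, hz, hz2⟩

/-- core I -/
def CoreI (N : ℕ) : Prop :=
  N.Coprime p ∧ ∀ (w : K2 D.K) (n : ℕ) (z : Fam p L), 1 ≤ n → D.Good z → n • z = D.tmK w →
    (cc z = 0 → ∃ v : K2 D.K, D.tmK v = N • z) ∧
      ∃ g ∈ D.An 1, ((N • cc z).toMul : Mb p L) = cMb p L g.det

theorem core' [PerfectField F] [PerfectField L] (hp2 : p ≠ 2) (hD : D.Div) (hF : Pool.Agent.MSX.PS p F) (hL : Pool.Agent.MSX.PS p L)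
    {ζ : F} (hz : IsPrimitiveRoot ζ p) : ∃ N : ℕ, CoreI D N := by
  have : NeZero p := ⟨D.hp.pos.ne'⟩
  exact MSV.core_final D hp2 hD hF hL hz.neZero'.out

end

end MSN
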