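import Pool.Agent.MSN.Gz
import Pool.Agent.MSG.KP

/-! # MSN / Gz2: characters trivial on `Gi`

PROOFS.
* `cyx_gen`: let `z` be a primitive root of order `p ^ m`, `g • z = z ^ χ(g)`.  `χ(g) ≡ 1` modulo `p ^ (min i m)` because the roots of order `p ^ i` are fixed (`ξ₁ ^ p` is a primitive root of order `p ^ i`), `χ(c) = 1 + p ^ i v`, `p ∤ v` if `m > i` (`c • ξ₁ ≠ ξ₁`).  The residues `≡ 1` modulo `p ^ i` in `(ZMod (p ^ m))ˣ`
  form a cyclic group of order `p ^ (m - i)` generated by `χ(c)` (`p` odd, `i ≥ 1`: the order of `1 + p ^ i v` is exactly `p ^ (m - i)`, e.g. `Int.emultiplicity_pow_sub_pow` / LTE: `v_p ((1 + p ^ i v) ^ k - 1) = i + v_p k`, and the group has `p ^ (m - i)` elements).  So `χ(g) = χ(c) ^ k`, i.e. `(c ^ k)⁻¹ * g ∈ Gn p G Ω m`.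
* `chi_eq`: `χ, χ' : G → ZMod p` continuous homomorphisms trivial on `Gi`: the kernel of the pair contains some `Gn m` (`gi_le_open`), so with `cyx_gen` `χ g = k χ c`, `χ' g = k χ' c`.
* `kk_gi`: `km a`, `km b` trivial on `Gi`.  `cyc`: if all roots are fixed then `Gi = ⊤` and `km a = 0`, `kk = 0`.  Otherwise `km a g = k (km a c)`, `km b g = k (km b c)` with the same `k` (depending on `g`); if `km a c = 0` then `km a = 0`; otherwise `km b = t • km a`, `t = km b c / km a c`, and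
  `kk a b g h = t χ(g) χ(h)`, `χ = km a`, and `χ(g) χ(h) = (χ(g h) ^ 2 - χ(g) ^ 2 - χ(h) ^ 2) / 2` (`2` invertible in `ZMod p`, `p` odd), a coboundary.
* `choose_ab`: if `km p ζ a` is not zero on `Gi` there is `g ∈ Gi` with `km a g = u ≠ 0`, `g₀ = g ^ v` with `v u = 1`; `a' = a, b' = b`.  Otherwise if `km p ζ b` is not zero on `Gi`: `a' = b`, `b' = a⁻¹`: `kk a b ~ - kk b a = kk b a⁻¹` (antisymmetry: `χ g = km a g * km b g`; `km_inv` or `km_mul`).
  Otherwise `kk_gi`.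
-/

set_option autoImplicit false
set_option linter.unusedVariables false

namespace MSN

universe u

open MSG

section

variable {p : ℕ} {G Ω : Type u} [Group G] [TopologicalSpace G] [Field Ω] [MulSemiringAction G Ω] {ζ : Ω}

omit [TopologicalSpace G] in
private theorem fx_i42 (hp : p.Prime) {i : ℕ} {ξ₁ : Ω} {c : G} (hc : Cyx p G i ξ₁ c) {x : Ω}
    (hx : x ^ (p ^ i) = 1) (g : G) : g • x = x := by
  have h1 : IsPrimitiveRoot (ξ₁ ^ p) (p ^ i) :=
    hc.prim.pow (pow_pos hp.pos _) (by rw [pow_succ, mul_comm])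
  have := NeZero.of_pos (pow_pos hp.pos i)
  obtain ⟨a, _, ha⟩ := h1.eq_pow_of_pow_eq_one hx
  rw [← ha, smul_pow', hc.fx]

omit [TopologicalSpace G] in
private theorem fx_p42 (hp : p.Prime) {i : ℕ} {ξ₁ : Ω} {c : G} (hc : Cyx p G i ξ₁ c) {x : Ω}
    (hx : x ^ p = 1) (g : G) : g • x = x := by
  refine fx_i42 hp hc ?_ g
  obtain ⟨j, rfl⟩ : ∃ j, i = j + 1 := ⟨i - 1, by have := hc.one_le; omega⟩
  rw [pow_succ', pow_mul, hx, one_pow]

omit [TopologicalSpace G] in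
private theorem act_n42 {g : G} {y ω : Ω} (h : g • y = ω * y) (h' : g • ω = ω) (n : ℕ) :
    g ^ n • y = ω ^ n * y := by
  induction n with
  | zero => rw [pow_zero, pow_zero, one_smul, one_mul]
  | succ n ih =>
    rw [pow_succ', mul_smul, ih, smul_mul', smul_pow', h', h]
    ring

omit [TopologicalSpace G] in
private theorem act_c42 {g : G} {y u w : Ω} (h : g • y = u * y) (h' : g • u = w * u)
    (h'' : g • w = w) (n : ℕ) : g ^ n • y = u ^ n * w ^ (n.choose 2) * y := by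
  induction n with
  | zero => rw [pow_zero, pow_zero, one_smul, one_mul, Nat.choose_zero_succ, pow_zero, one_mul]
  | succ n ih =>
    have h1 : (n + 1).choose 2 = n + n.choose 2 := by
      rw [Nat.choose_succ_succ' n 1, Nat.choose_one_right]
    rw [pow_succ', mul_smul, ih, smul_mul', smul_mul', smul_pow', smul_pow', h', h'', h, h1]
    ring

omit [TopologicalSpace G] in
private theorem lift_n42 (hp : p.Prime) {m : ℕ} {y : Ω} (hy : IsPrimitiveRoot y (p ^ m)) {x : Ω}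
    (hx : x ^ (p ^ m) = 1) {g : G} (hg : g • y = y) : g • x = x := by
  have := NeZero.of_pos (pow_pos hp.pos m)
  obtain ⟨a, _, ha⟩ := hy.eq_pow_of_pow_eq_one hx
  rw [← ha, smul_pow', hg]

omit [TopologicalSpace G] in
/-- the quotient `g y / y` is a `p`-th root of unity if `y ^ p` is fixed -/
private theorem quo42 {g : G} {y : Ω} (hy0 : y ≠ 0) (h : g • y ^ p = y ^ p) :
    ∃ ω : Ω, ω ^ p = 1 ∧ g • y = ω * y := by
  refine ⟨g • y / y, ?_, by rw [div_mul_cancel₀ _ hy0]⟩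
  rw [div_pow, ← smul_pow', h, div_self (pow_ne_zero _ hy0)]

omit [TopologicalSpace G] in
private theorem key42 (hp : p.Prime) (hp2 : p ≠ 2) {i : ℕ} {ξ₁ : Ω} {c : G} (hc : Cyx p G i ξ₁ c)
    (j : ℕ) : c ^ (p ^ j) ∈ Gn p G Ω (i + j) ∧ ∀ y : Ω, IsPrimitiveRoot y (p ^ (i + j + 1)) →
      ∃ ω : Ω, ω ^ p = 1 ∧ ω ≠ 1 ∧ c ^ (p ^ j) • y = ω * y := by
  induction j with
  | zero =>
    rw [pow_zero, pow_one]
    refine ⟨fun x hx => fx_i42 hp hc hx c, fun y hy => ?_⟩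
    have hy0 : y ≠ 0 := hy.ne_zero (pow_ne_zero _ hp.ne_zero)
    obtain ⟨ω, h1, h2⟩ := quo42 (g := c) (p := p) hy0 (fx_i42 hp hc (by
      rw [← pow_mul, ← pow_succ']
      exact hy.pow_eq_one) c)
    refine ⟨ω, h1, ?_, h2⟩
    rintro rfl
    rw [one_mul] at h2
    exact hc.mv (lift_n42 hp hy hc.prim.pow_eq_one h2)
  | succ j ih =>
    obtain ⟨ih1, ih2⟩ := ih
    obtain ⟨e, he⟩ : ∃ e : G, e = c ^ (p ^ j) := ⟨_, rfl⟩
    rw [← he] at ih1 ih2
    have he' : c ^ (p ^ (j + 1)) = e ^ p := by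
      rw [he, ← pow_mul, pow_succ]
    rw [he']
    constructor
    · intro x hx
      have hx0 : x ≠ 0 := by
        rintro rfl
        rw [zero_pow (pow_ne_zero _ hp.ne_zero)] at hx
        exact zero_ne_one hx
      obtain ⟨ω, h1, h2⟩ := quo42 (g := e) (p := p) hx0 (ih1 (x ^ p) (by
        rw [← pow_mul, ← pow_succ', ← hx]
        rfl))
      rw [act_n42 h2 (fx_p42 hp hc h1 e) p, h1, one_mul]
    · intro y hy
      have hy0 : y ≠ 0 := hy.ne_zero (pow_ne_zero _ hp.ne_zero)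
      have hyp : IsPrimitiveRoot (y ^ p) (p ^ (i + j + 1)) :=
        hy.pow (pow_pos hp.pos _) (by
          rw [← pow_succ']
          rfl)
      obtain ⟨ω, h1, h2, h3⟩ := ih2 (y ^ p) hyp
      refine ⟨ω, h1, h2, ?_⟩
      obtain ⟨u, hu⟩ : ∃ u : Ω, u = e • y / y := ⟨_, rfl⟩
      have hu1 : e • y = u * y := by rw [hu, div_mul_cancel₀ _ hy0]
      have hup : u ^ p = ω := by
        rw [hu, div_pow, ← smul_pow', h3, mul_div_assoc, div_self (pow_ne_zero _ hy0), mul_one]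
      have hu0 : u ≠ 0 := by
        rintro rfl
        rw [zero_pow hp.ne_zero] at hup
        rw [← hup, zero_pow hp.ne_zero] at h1
        exact zero_ne_one h1
      obtain ⟨w, hw1, hw2⟩ := quo42 (g := e) (p := p) hu0 (by
        rw [hup]
        exact fx_p42 hp hc h1 e)
      have h4 : p ∣ p.choose 2 := hp.dvd_choose_self (by norm_num)
        (lt_of_le_of_ne hp.two_le (Ne.symm hp2))
      have h5 : w ^ (p.choose 2) = 1 := by
        obtain ⟨a, ha⟩ := h4
        rw [ha, pow_mul, hw1, one_pow]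
      rw [act_c42 hu1 hw2 (fx_p42 hp hc hw1 e) p, hup, h5, mul_one]

omit [Group G] [TopologicalSpace G] [MulSemiringAction G Ω] in
private theorem prim42 (hp : p.Prime) [IsAlgClosed Ω] {i : ℕ} {ξ₁ : Ω}
    (hξ : IsPrimitiveRoot ξ₁ (p ^ (i + 1))) (j : ℕ) :
    ∃ y : Ω, IsPrimitiveRoot y (p ^ (i + j + 1)) := by
  induction j with
  | zero => exact ⟨ξ₁, hξ⟩
  | succ j ih =>
    obtain ⟨z, hz⟩ := ih
    obtain ⟨y, hy⟩ := IsAlgClosed.exists_pow_nat_eq z hp.pos
    refine ⟨y, ?_⟩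
    have := Fact.mk hp
    rw [IsPrimitiveRoot.iff_orderOf]
    refine orderOf_eq_prime_pow ?_ ?_
    · intro h1
      have h2 : z ^ (p ^ (i + j)) = 1 := by
        rw [← hy, ← pow_mul, ← pow_succ']
        exact h1
      have h3 := hz.dvd_of_pow_eq_one _ h2
      rw [Nat.pow_dvd_pow_iff_le_right hp.one_lt] at h3
      omega
    · have h1 : y ^ (p ^ (i + j + 1 + 1)) = 1 := by
        rw [pow_succ', pow_mul, hy]
        exact hz.pow_eq_one
      exact h1

theorem cyx_gen (hp : p.Prime) (hG : GA G Ω) (hz : PZ p ζ) {i : ℕ} {ξ₁ : Ω} {c : G} (hc : Cyx p G i ξ₁ c) (m : ℕ) (g : G) :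
    ∃ k : ℕ, (c ^ k)⁻¹ * g ∈ Gn p G Ω m := by
  have halg := hG.alg
  have hp2 : p ≠ 2 := by
    rintro rfl
    have := hz.odd
    revert this
    decide
  rcases le_total m i with hmi | hmi
  · refine ⟨0, fun x hx => ?_⟩
    rw [pow_zero, inv_one, one_mul]
    refine fx_i42 hp hc ?_ g
    obtain ⟨d, rfl⟩ := Nat.exists_eq_add_of_le hmi
    rw [pow_add, pow_mul, hx, one_pow]
  · obtain ⟨j, rfl⟩ := Nat.exists_eq_add_of_le hmi
    clear hmi
    induction j with
    | zero =>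
      refine ⟨0, fun x hx => ?_⟩
      rw [pow_zero, inv_one, one_mul]
      exact fx_i42 hp hc hx g
    | succ j ih =>
      obtain ⟨k, hk⟩ := ih
      obtain ⟨h, hh⟩ : ∃ h : G, h = (c ^ k)⁻¹ * g := ⟨_, rfl⟩
      rw [← hh] at hk
      obtain ⟨y, hy⟩ := prim42 (Ω := Ω) hp hc.prim j
      have hy0 : y ≠ 0 := hy.ne_zero (pow_ne_zero _ hp.ne_zero)
      obtain ⟨h1, h2⟩ := key42 hp hp2 hc j
      obtain ⟨ω, w1, w2, w3⟩ := h2 y hy
      obtain ⟨ω', v1, v2⟩ := quo42 (g := h) (p := p) hy0 (hk (y ^ p) (by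
        rw [← pow_mul, ← pow_succ']
        exact hy.pow_eq_one))
      have hωp : IsPrimitiveRoot ω p := by
        have i5 := Fact.mk hp
        rw [IsPrimitiveRoot.iff_orderOf]
        exact orderOf_eq_prime w1 w2
      have := NeZero.of_pos hp.pos
      obtain ⟨l, _, hl⟩ := hωp.eq_pow_of_pow_eq_one v1
      have hω0 : ω ≠ 0 := hωp.ne_zero hp.ne_zero
      refine ⟨k + p ^ j * l, fun x hx => ?_⟩
      refine lift_n42 hp hy hx ?_
      have e1 : (c ^ (k + p ^ j * l))⁻¹ * g = ((c ^ (p ^ j)) ^ l)⁻¹ * h := by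
        rw [hh, add_comm, pow_add, pow_mul, ← pow_mul, ← mul_assoc, ← mul_inv_rev, ← pow_add,
          ← pow_add, add_comm]
      have e2 : ((c ^ (p ^ j)) ^ l) • y = ω ^ l * y := act_n42 w3 (fx_p42 hp hc w1 _) l
      rw [e1, mul_smul, v2, ← hl, inv_smul_eq_iff, ← e2]

theorem chi_eq (hp : p.Prime) (hG : GA G Ω) (hz : PZ p ζ) {i : ℕ} {ξ₁ : Ω} {c : G} (hc : Cyx p G i ξ₁ c) {χ χ' : G → ZMod p}
    (h : Continuous χ) (h' : Continuous χ') (ha : ∀ g h, χ (g * h) = χ g + χ h) (ha' : ∀ g h, χ' (g * h) = χ' g + χ' h)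
    (h0 : ∀ g ∈ Gi p G Ω, χ g = 0) (h0' : ∀ g ∈ Gi p G Ω, χ' g = 0) (g : G) : ∃ k : ℕ, χ g = k * χ c ∧ χ' g = k * χ' c := by
  have htop := hG.top
  have z1 : χ 1 = 0 := by
    have := ha 1 1
    rw [mul_one] at this
    simpa using this
  have z1' : χ' 1 = 0 := by
    have := ha' 1 1
    rw [mul_one] at this
    simpa using this
  have zi : ∀ g, χ g⁻¹ = - χ g := fun g => by
    have := ha g⁻¹ g
    rw [inv_mul_cancel, z1] at this
    exact eq_neg_of_add_eq_zero_left this.symm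
  have zi' : ∀ g, χ' g⁻¹ = - χ' g := fun g => by
    have := ha' g⁻¹ g
    rw [inv_mul_cancel, z1'] at this
    exact eq_neg_of_add_eq_zero_left this.symm
  let U : Subgroup G :=
    { carrier := {g | χ g = 0 ∧ χ' g = 0}
      mul_mem' := by
        rintro a b ⟨h1, h2⟩ ⟨h3, h4⟩
        exact ⟨by rw [ha, h1, h3, add_zero], by rw [ha', h2, h4, add_zero]⟩
      one_mem' := ⟨z1, z1'⟩
      inv_mem' := by
        rintro a ⟨h1, h2⟩
        exact ⟨by rw [zi, h1, neg_zero], by rw [zi', h2, neg_zero]⟩ }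
  have hU : IsOpen (U : Set G) := by
    have h1 : IsOpen (χ ⁻¹' {0}) := (isOpen_discrete _).preimage h
    have h2 : IsOpen (χ' ⁻¹' {0}) := (isOpen_discrete _).preimage h'
    exact h1.inter h2
  obtain ⟨m, hm⟩ := gi_le_open hp hG hU (fun g hg => ⟨h0 g hg, h0' g hg⟩)
  obtain ⟨k, hk⟩ := cyx_gen hp hG hz hc m g
  obtain ⟨h1, h2⟩ := hm hk
  have p1 : ∀ k : ℕ, χ (c ^ k) = k * χ c := by
    intro k
    induction k with
    | zero => rw [pow_zero, z1, Nat.cast_zero, zero_mul]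
    | succ k ih => rw [pow_succ, ha, ih, Nat.cast_succ, add_mul, one_mul]
  have p2 : ∀ k : ℕ, χ' (c ^ k) = k * χ' c := by
    intro k
    induction k with
    | zero => rw [pow_zero, z1', Nat.cast_zero, zero_mul]
    | succ k ih => rw [pow_succ, ha', ih, Nat.cast_succ, add_mul, one_mul]
  rw [ha, zi, p1, neg_add_eq_zero] at h1
  rw [ha', zi', p2, neg_add_eq_zero] at h2
  exact ⟨k, h1.symm, h2.symm⟩

theorem kk_gi (hp : p.Prime) (hG : GA G Ω) (hz : PZ p ζ) (hζ : ∀ g : G, g • ζ = ζ) {a b : Ω} (ha : Fx G a) (hb : Fx G b)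
    (h : ∀ g ∈ Gi p G Ω, km p ζ a g = 0) (h' : ∀ g ∈ Gi p G Ω, km p ζ b g = 0) : Co (kk (G := G) p ζ a b) (fun _ _ => 0) := by
  have i5 := Fact.mk hp
  have halg := hG.alg
  have hadd : ∀ {x : Ω}, Fx G x → ∀ g h : G, km p ζ x (g * h) = km p ζ x g + km p ζ x h :=
    fun hx g h => km_hom hz hx.1 (hζ g) (hζ h) (hx.2 g) (hx.2 h)
  have hzero : (∀ g : G, km p ζ a g = 0) → Co (kk (G := G) p ζ a b) (fun _ _ => 0) := by
    intro h0
    refine ⟨fun _ => 0, continuous_const, fun g h => ?_⟩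
    rw [kk, h0]
    ring
  rcases cyc hp hG hz hζ with hM | ⟨i, ξ, c, hc⟩
  · exact hzero fun g => h g fun x k hx => hM g x k hx
  · have hk : ∀ g : G, ∃ k : ℕ, km p ζ a g = k * km p ζ a c ∧ km p ζ b g = k * km p ζ b c :=
      fun g => chi_eq hp hG hz hc (km_cont hG p ζ a) (km_cont hG p ζ b) (hadd ha) (hadd hb) h h' g
    by_cases hac : km p ζ a c = 0
    · refine hzero fun g => ?_
      obtain ⟨k, h1, -⟩ := hk g
      rw [h1, hac, mul_zero]
    · obtain ⟨t, ht⟩ : ∃ t : ZMod p, t = km p ζ b c * (km p ζ a c)⁻¹ := ⟨_, rfl⟩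
      have hb' : ∀ g : G, km p ζ b g = t * km p ζ a g := by
        intro g
        obtain ⟨k, h1, h2⟩ := hk g
        rw [h1, h2, ht]
        field_simp
      have h2 : (2 : ZMod p) ≠ 0 := by
        intro h0
        have h1 : ((2 : ℕ) : ZMod p) = 0 := by exact_mod_cast h0
        rw [ZMod.natCast_eq_zero_iff] at h1
        have h3 := (Nat.prime_dvd_prime_iff_eq hp Nat.prime_two).1 h1
        subst h3
        have := hz.odd
        revert this
        decide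
      refine ⟨fun g => -(t / 2) * km p ζ a g ^ 2,
        (continuous_of_discreteTopology (f := fun x : ZMod p => -(t / 2) * x ^ 2)).comp
          (km_cont hG p ζ a), fun g h => ?_⟩
      rw [kk, hb' h]
      beta_reduce
      rw [hadd ha]
      field_simp
      ring

theorem choose_ab (hp : p.Prime) (hG : GA G Ω) (hz : PZ p ζ) (hζ : ∀ g : G, g • ζ = ζ) {a b : Ω} (ha : Fx G a) (hb : Fx G b)
    (h : ¬ Co (kk (G := G) p ζ a b) (fun _ _ => 0)) :
    ∃ (a' b' : Ω) (g₀ : G), Fx G a' ∧ Fx G b' ∧ g₀ ∈ Gi p G Ω ∧ km p ζ a' g₀ = 1 ∧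
      Co (kk (G := G) p ζ a b) (kk (G := G) p ζ a' b') := by
  have i5 := Fact.mk hp
  have halg := hG.alg
  have hadd : ∀ {x : Ω}, Fx G x → ∀ g h : G, km p ζ x (g * h) = km p ζ x g + km p ζ x h :=
    fun hx g h => km_hom hz hx.1 (hζ g) (hζ h) (hx.2 g) (hx.2 h)
  have hpow : ∀ {x : Ω}, Fx G x → ∀ (g : G) (k : ℕ), km p ζ x (g ^ k) = k * km p ζ x g := by
    intro x hx g k
    induction k with
    | zero =>
      have := hadd hx 1 1
      rw [mul_one] at this
      rw [pow_zero, Nat.cast_zero, zero_mul]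
      simpa using this
    | succ k ih => rw [pow_succ, hadd hx, ih, Nat.cast_succ, add_mul, one_mul]
  have hg0 : ∀ {x : Ω}, Fx G x → (∃ g ∈ Gi p G Ω, km p ζ x g ≠ 0) →
      ∃ g₀ ∈ Gi p G Ω, km p ζ x g₀ = 1 := by
    rintro x hx ⟨g, hg, hne⟩
    refine ⟨g ^ ((km p ζ x g)⁻¹).val, (Gi p G Ω).pow_mem hg _, ?_⟩
    rw [hpow hx, ZMod.natCast_zmod_val, inv_mul_cancel₀ hne]
  by_cases h1 : ∃ g ∈ Gi p G Ω, km p ζ a g ≠ 0
  · obtain ⟨g₀, hg, h2⟩ := hg0 ha h1
    exact ⟨a, b, g₀, ha, hb, hg, h2, fun _ => 0, continuous_const, fun g h => by ring⟩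
  · by_cases h1' : ∃ g ∈ Gi p G Ω, km p ζ b g ≠ 0
    · obtain ⟨g₀, hg, h2⟩ := hg0 hb h1'
      refine ⟨b, a⁻¹, g₀, hb, ⟨inv_ne_zero ha.1, fun g => by rw [smul_inv'', ha.2]⟩, hg, h2,
        fun g => -(km p ζ a g * km p ζ b g), ?_, fun g h => ?_⟩
      · exact (continuous_of_discreteTopology (f := fun x : ZMod p × ZMod p => -(x.1 * x.2))).comp
          ((km_cont hG p ζ a).prodMk (km_cont hG p ζ b))
      · rw [kk, kk, km_inv hz ha.1 (hζ h) (ha.2 h)]
        beta_reduce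
        rw [hadd ha, hadd hb]
        ring
    · push Not at h1 h1'
      exact absurd (kk_gi hp hG hz hζ ha hb h1 h1') h

end

end MSN
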