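import Pool.Agent.MSC.Brg

/-! # MSN / Hd: norm residue classes of all levels `p ^ (m + 1)`

`Mu p H Ω`: `H` fixes all roots of unity of `p`-power order.  `HD p j x`: the class `x ∈ Bq H Ω` is `hB κ` for some `κ ∈ K₂(F)`, `j : F →+* Ω`, at some level `p ^ (m + 1)`.

PROOFS.
* `exists_prim`: `Ω` is algebraically closed and `(p : Ω) ≠ 0` (`hz`), so primitive roots of unity of order `p ^ (m + 1)` exist (`HasEnoughRootsOfUnity`, or choose successive `p`-th roots of `ζ`: if `y ^ p = x` and `x` has order `p ^ k`, `k ≥ 1`, then `y` has order `p ^ (k + 1)`).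
  `PZ`: odd and `> 1`.
* `HD.lift`: `x = hB L₀ κ₀` with level `p ^ (m₀ + 1)`, root `z₀`.  For `m ≥ m₀` and a root `z` of order `p ^ (m + 1)`: `z₁ = z ^ (p ^ (m - m₀))` is primitive of order `p ^ (m₀ + 1)`, `z₀ = z₁ ^ u` with `u` prime to `p`.  `MSC.hB_zeta`: `u • hB (z₀) κ₀ = hB (z₁) κ₀`; choose `v` with
  `u v ≡ 1` modulo `p ^ (m₀ + 1)`: `hB (z₀) κ₀ = hB (z₁) (v • κ₀)` (`MSC.tors_hB`), and `MSC.hB_level` (`N = p ^ (m + 1) = p ^ (m₀ + 1) * p ^ (m - m₀)`): `hB (z₁) y = p ^ (m - m₀) • hB (z) y = hB (z) (p ^ (m - m₀) • y)`.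
  All `Lv` for given data are equal (proof irrelevance).
* `HD.add`: `HD.lift` for a common level.  `HD.neg`, `HD.nsmul`: same level.  `HD.tors`: `MSC.tors_hB`.
* `HD.cop`: `N a ≡ 1` modulo `p ^ e`: `x = a • (N • x)`.
* `HD.pull`: `bqm_hB` and `Lv.pull`.  `HD.map`: `hB_map`.
* `HD.zo`: `K2_induction`-free: by `MSC.sum_sym` and `MSC.hB_sum` the class is `bc (zf z F)` with `F = ∑ km ∪ km` a continuous 2-cocycle (`MSG`: `km` are continuous homomorphisms), `Zu_zp`.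
* `HD.sb`: `m = 0`: `hB_S` (`hS : x = bc (sb p ζ (j a) (j b))`), `p ^ (0 + 1) = p`: use `HD.mk'`, or rewrite the level with `pow_one`.
* `HD.perf`: `x = hB L κ`, `κ ∈ K₂(Ω^G)`; `N • κ = K2.map h.toFix κ'` (`Ov.k2`), `N` prime to `p`; `N a ≡ 1` modulo the level, `x = a • N • x = hB L (a • K2.map h.toFix κ') = hB L' (a • κ')` (`hB_map`; `subtype.comp h.toFix = j`).
-/

set_option autoImplicit false
set_option linter.unusedVariables false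

namespace MSN

universe u

open MSG Pool.Agent.Helper14.Massey

open Pool.Agent.MK (K2 S)

section

variable {H Ω F : Type u} [Group H] [TopologicalSpace H] [Field Ω] [MulSemiringAction H Ω] [Field F]

/-- `H` fixes all roots of unity of `p`-power order -/
def Mu (p : ℕ) (H Ω : Type u) [Group H] [Field Ω] [MulSemiringAction H Ω] : Prop :=
  ∀ (g : H) (x : Ω) (k : ℕ), x ^ (p ^ k) = 1 → g • x = x

/-- norm residue classes of all levels -/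
def HD (p : ℕ) (j : F →+* Ω) (x : Bq H Ω) : Prop :=
  ∃ (m : ℕ) (z : Ω) (L : Lv (p ^ (m + 1)) H z j) (κ : K2 F), x = hB L κ

variable {p : ℕ} {ζ : Ω} {j : F →+* Ω} {x y : Bq H Ω}

theorem exists_prim [IsAlgClosed Ω] (hp : p.Prime) (hz : PZ p ζ) (m : ℕ) : ∃ z : Ω, PZ (p ^ (m + 1)) z ∧ z ^ p ^ m = ζ := by
  induction m with
  | zero =>
    refine ⟨ζ, ?_, by rw [pow_zero, pow_one]⟩
    rw [zero_add, pow_one]
    exact hz
  | succ m ih =>
    obtain ⟨z, hz', e⟩ := ih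
    obtain ⟨y, hy⟩ := IsAlgClosed.exists_pow_nat_eq z hp.pos
    have h1 : y ^ p ^ (m + 1) = ζ := by rw [pow_succ', pow_mul, hy, e]
    refine ⟨y, ⟨hz.odd.pow, Nat.one_lt_pow (by omega) hp.one_lt, ?_⟩, h1⟩
    have h2 : y ^ p ^ (m + 1 + 1) = 1 := by rw [pow_succ, pow_mul, h1, hz.prim.pow_eq_one]
    have h3 : ¬ y ^ p ^ (m + 1) = 1 := by
      rw [h1]
      exact hz.prim.ne_one hz.one_lt
    have := Fact.mk hp
    rw [IsPrimitiveRoot.iff_orderOf]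
    exact orderOf_eq_prime_pow h3 h2

private theorem hd_inv {n u : ℕ} (hn : 1 < n) (h : u.Coprime n) : ∃ (v q : ℕ), u * v = q * n + 1 := by
  obtain ⟨v, hv⟩ := Nat.exists_mul_mod_eq_one_of_coprime h hn
  refine ⟨v, u * v / n, ?_⟩
  have h1 := Nat.div_add_mod (u * v) n
  rw [hv.2, mul_comm] at h1
  exact h1.symm

theorem HD.lift (hp : p.Prime) (hH : GA H Ω) (hm : Mu p H Ω) (hj : ∀ (g : H) (x : F), g • j x = j x) (h : HD p j x) :
    ∃ m₀ : ℕ, ∀ m, m₀ ≤ m → ∀ z : Ω, PZ (p ^ (m + 1)) z → ∃ κ : K2 F, ∀ L : Lv (p ^ (m + 1)) H z j, x = hB L κ := by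
  obtain ⟨m₀, z₀, L₀, κ₀, rfl⟩ := h
  refine ⟨m₀, fun m hmm z hz => ?_⟩
  have hN : p ^ (m + 1) = p ^ (m₀ + 1) * p ^ (m - m₀) := by
    rw [← pow_add]
    congr 1
    omega
  have hpos : 0 < p ^ (m + 1) := pow_pos hp.pos _
  have hpos₀ : 0 < p ^ (m₀ + 1) := pow_pos hp.pos _
  have hone : 1 < p ^ (m₀ + 1) := Nat.one_lt_pow (by omega) hp.one_lt
  have h1 : IsPrimitiveRoot (z ^ p ^ (m - m₀)) (p ^ (m₀ + 1)) := hz.prim.pow hpos (by rw [hN, mul_comm])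
  have L₁ : Lv (p ^ (m₀ + 1)) H (z ^ p ^ (m - m₀)) j :=
    ⟨hH, ⟨L₀.pz.odd, hone, h1⟩, fun g => hm g _ _ h1.pow_eq_one, hj⟩
  have := NeZero.of_pos hpos₀
  obtain ⟨u, _, hu⟩ := h1.eq_pow_of_pow_eq_one L₀.pz.prim.pow_eq_one
  have h2 : u.Coprime (p ^ (m₀ + 1)) := by
    rw [← h1.pow_iff_coprime hpos₀, hu]
    exact L₀.pz.prim
  obtain ⟨v, q, hv⟩ := hd_inv hone h2
  subst hu
  refine ⟨p ^ (m - m₀) • v • κ₀, fun L => ?_⟩
  have e1 := MSC.hB_zeta h2.symm L₁ L₀ κ₀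
  have e2 : hB L₀ κ₀ = v • u • hB L₀ κ₀ := by
    rw [smul_smul, mul_comm, hv, add_smul, mul_smul, MSC.tors_hB, smul_zero, zero_add, one_smul]
  rw [e2, e1, ← map_nsmul, MSC.hB_level hN L L₁, ← map_nsmul]

theorem HD.add (hp : p.Prime) (hH : GA H Ω) (hz : PZ p ζ) (hm : Mu p H Ω) (hj : ∀ (g : H) (x : F), g • j x = j x) (h : HD p j x)
    (h' : HD p j y) : HD p j (x + y) := by
  have := hH.alg
  obtain ⟨m₀, h0⟩ := HD.lift hp hH hm hj h
  obtain ⟨m₁, h1⟩ := HD.lift hp hH hm hj h'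
  obtain ⟨z, hz', _⟩ := exists_prim hp hz (max m₀ m₁)
  obtain ⟨κ, hκ⟩ := h0 _ (le_max_left _ _) z hz'
  obtain ⟨κ', hκ'⟩ := h1 _ (le_max_right _ _) z hz'
  have L : Lv (p ^ (max m₀ m₁ + 1)) H z j := ⟨hH, hz', fun g => hm g _ _ hz'.prim.pow_eq_one, hj⟩
  exact ⟨_, z, L, κ + κ', by rw [map_add, hκ L, hκ' L]⟩

theorem HD.neg (h : HD p j x) : HD p j (-x) := by
  obtain ⟨m, z, L, κ, rfl⟩ := h
  exact ⟨m, z, L, -κ, by rw [map_neg]⟩

theorem HD.nsmul (h : HD p j x) (n : ℕ) : HD p j (n • x) := by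
  obtain ⟨m, z, L, κ, rfl⟩ := h
  exact ⟨m, z, L, n • κ, by rw [map_nsmul]⟩

theorem HD.tors (h : HD p j x) : ∃ e : ℕ, p ^ e • x = 0 := by
  obtain ⟨m, z, L, κ, rfl⟩ := h
  exact ⟨m + 1, MSC.tors_hB L κ⟩

theorem HD.cop {N e : ℕ} (hN : N.Coprime p) (hx : p ^ e • x = 0) (h : HD p j (N • x)) : HD p j x := by
  by_cases h1 : 1 < p ^ e
  · obtain ⟨v, q, hv⟩ := hd_inv h1 (hN.pow_right e)
    have e1 : x = v • N • x := by
      rw [smul_smul, mul_comm, hv, add_smul, mul_smul, hx, smul_zero, zero_add, one_smul]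
    rw [e1]
    exact h.nsmul v
  · have hx0 : x = 0 := by
      obtain ⟨m, z, L, κ, _⟩ := h
      have h2 := L.pz.one_lt
      have h3 : p ≠ 0 := by
        rintro rfl
        rw [zero_pow (Nat.succ_ne_zero m)] at h2
        omega
      have h4 : 0 < p ^ e := pow_pos (Nat.pos_of_ne_zero h3) e
      have h5 : p ^ e = 1 := by omega
      rw [h5, one_smul] at hx
      exact hx
    rw [hx0, smul_zero] at h
    rw [hx0]
    exact h

theorem HD.zo (h : HD p j x) : ∃ f : H → H → Ω, Zo f ∧ x = bc f := by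
  obtain ⟨m, z, L, κ, rfl⟩ := h
  obtain ⟨r, a, b, ha, hb, rfl⟩ := MSC.sum_sym κ
  have := L.ga.alg
  refine ⟨_, ?_, MSC.hB_sum L ha hb⟩
  have hk : ∀ {x : F}, x ≠ 0 → (fun g : H => km (p ^ (m + 1)) z (j x) g) ∈ H1 (p ^ (m + 1)) H := by
    intro x hx
    refine ⟨km_cont L.ga _ z _, fun σ τ => ?_⟩
    exact km_hom L.pz (L.fx hx).1 (L.fz σ) (L.fz τ) ((L.fx hx).2 _) ((L.fx hx).2 _)
  have e : (fun g h : H => ∑ i, km (p ^ (m + 1)) z (j (a i)) g * km (p ^ (m + 1)) z (j (b i)) h) =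
      ∑ i, cup (fun g : H => km (p ^ (m + 1)) z (j (a i)) g) (fun g : H => km (p ^ (m + 1)) z (j (b i)) g) := by
    funext g h
    rw [Finset.sum_apply, Finset.sum_apply]
    rfl
  refine Zu_zp L.ga L.pz L.fz ?_
  rw [e]
  refine AddSubgroup.sum_mem _ fun i _ => ?_
  exact cup_mem_Z2 ⟨_, hk (ha i)⟩ ⟨_, hk (hb i)⟩

theorem HD.map {F' : Type u} [Field F'] (φ : F →+* F') {j' : F' →+* Ω} (hj : ∀ x, j' (φ x) = j x)
    (hj' : ∀ (g : H) (x : F'), g • j' x = j' x) (h : HD p j x) : HD p j' x := by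
  have e : j = j'.comp φ := RingHom.ext fun x => (hj x).symm
  subst e
  obtain ⟨m, z, L, κ, rfl⟩ := h
  exact ⟨m, z, ⟨L.ga, L.pz, L.fz, hj'⟩, K2.map φ κ, (hB_map φ _ L κ).symm⟩

theorem HD.sb (hH : GA H Ω) (hp : p.Prime) (hz : PZ p ζ) (hζ : ∀ g : H, g • ζ = ζ) (hj : ∀ (g : H) (x : F), g • j x = j x) {a b : F}
    (ha : a ≠ 0) (hb : b ≠ 0) : HD p j (bc (sb (H := H) p ζ (j a) (j b))) := by
  have e : ∀ n : ℕ, n = p → ∃ L : Lv n H ζ j, bc (MSN.sb (H := H) p ζ (j a) (j b)) = hB L (S a b) := by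
    rintro n rfl
    have L : Lv n H ζ j := ⟨hH, hz, hζ, hj⟩
    exact ⟨L, (hB_S L ha hb).symm⟩
  obtain ⟨L, hL⟩ := e (p ^ (0 + 1)) (by rw [zero_add, pow_one])
  exact ⟨0, ζ, L, _, hL⟩

theorem HD.pull {H' Ω' : Type u} [Group H'] [TopologicalSpace H'] [Field Ω'] [MulSemiringAction H' Ω'] (m : Mo H Ω H' Ω')
    (hH' : GA H' Ω') (h : HD p j x) : HD p (m.ψ.comp j) (bqm m x) := by
  obtain ⟨k, z, L, κ, rfl⟩ := h
  exact ⟨k, m.ψ z, L.pull m hH', κ, bqm_hB m L _ κ⟩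

end

section

variable {p : ℕ} {G Ω F : Type u} [Group G] [TopologicalSpace G] [Field Ω] [MulSemiringAction G Ω] [Field F] {j : F →+* Ω}

theorem mu_gi : Mu p (Gi p G Ω) Ω := fun g x k hx => gi_fix g hx

theorem HD.perf (h : Ov F G j) (hp : p.Prime) (hpΩ : (p : Ω) ≠ 0) {x : Bq (Gi p G Ω) Ω}
    (hx : HD p (FixedPoints.subfield G Ω).subtype x) : HD p j x := by
  obtain ⟨m, z, L, κ, rfl⟩ := hx
  obtain ⟨N, κ', hN, e⟩ := h.k2 hp hpΩ κ
  have L' : Lv (p ^ (m + 1)) (Gi p G Ω) z j := ⟨L.ga, L.pz, L.fz, fun g x => h.fj g x⟩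
  have e0 : (FixedPoints.subfield G Ω).subtype.comp h.toFix = j := RingHom.ext fun x => rfl
  have e1 : ∀ (j' : F →+* Ω), j' = j → ∀ L'' : Lv (p ^ (m + 1)) (Gi p G Ω) z j', hB L'' κ' = hB L' κ' := by
    rintro _ rfl L''
    rfl
  have e2 : N • hB L κ = hB L' κ' := by
    rw [← map_nsmul, e, hB_map h.toFix L (L.comp h.toFix), e1 _ e0]
  refine HD.cop hN (MSC.tors_hB L κ) ?_
  rw [e2]
  exact ⟨m, z, L', κ', rfl⟩

end

end MSN
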