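import Pool.Agent.MSN.Ov
import Pool.Agent.MSG.H0
import Pool.Agent.MSG.Uf

/-! # MSN / Ir: coboundaries of inflated cocycles

`W` an open normal subgroup of `G`, `F` a 2-cocycle which factors through `G / W` and has values fixed by `W`.  If `F` is a coboundary then it is the coboundary of a function which factors
through `G / W` and has values fixed by `W`.

PROOF.  `F = dΞ`, i.e. `F g h * Ξ (g * h) = Ξ g * g • Ξ h` (`Ξ` locally constant, nowhere zero: unfold `Cu`).  Let `c₀ = F 1 1`; `F w w' = F 1 1 = c₀` for `w, w' ∈ W` and `c₀` is fixed by `W`.  So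
`Ξ' w = Ξ w / c₀` is a locally constant 1-cocycle on `W` (`c₀ * Ξ (w w') = Ξ w * w • Ξ w'`), `W` is closed (open), `GA W Ω` (`GA.sub`), so by `h90cont` (see MSG/H0.lean; used in MSG/Um.lean)
there is `y ≠ 0` with `Ξ w / c₀ = w • y / y` on `W`.  Put `Ξ₁ g = Ξ g * y / g • y`: again `F = dΞ₁`, and `Ξ₁ w = c₀` for `w ∈ W`.
* `Ξ₁ (g * w) = Ξ₁ g`: `F g w * Ξ₁ (g w) = Ξ₁ g * g • c₀`, `F g w = F g 1`, and the cocycle identity for `(g, 1, 1)` gives `g • F 1 1 * F g 1 = F g 1 * F g 1`, so `F g 1 = g • c₀`.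
* `w • Ξ₁ g = Ξ₁ g`: `F w g * Ξ₁ (w g) = Ξ₁ w * w • Ξ₁ g = c₀ * w • Ξ₁ g`; `F w g = F 1 g` (`h1` with `g = 1`: `F (1 * w) g = F 1 g`) `= F 1 1` by the cocycle identity for `(1, 1, g)`; `w g = g (g⁻¹ w g)`, so
  `Ξ₁ (w g) = Ξ₁ g`.
-/

set_option autoImplicit false
set_option linter.unusedVariables false

namespace MSN

universe u

open MSG

theorem ir {G Ω : Type u} [Group G] [TopologicalSpace G] [Field Ω] [MulSemiringAction G Ω] (hG : GA G Ω)
    (W : Subgroup G) [W.Normal] (hW : IsOpen (W : Set G)) {F : G → G → Ω} (hF : Zu G F)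
    (h1 : ∀ g h w : G, w ∈ W → F (g * w) h = F g h) (h2 : ∀ g h w : G, w ∈ W → F g (h * w) = F g h)
    (h3 : ∀ g h w : G, w ∈ W → w • F g h = F g h) (hc : Cu F (fun _ _ => 1)) :
    ∃ Ξ : G → Ω, (∀ g, Ξ g ≠ 0) ∧ (∀ g w : G, w ∈ W → Ξ (g * w) = Ξ g) ∧ (∀ g w : G, w ∈ W → w • Ξ g = Ξ g) ∧
      ∀ g h, F g h * Ξ (g * h) = Ξ g * g • Ξ h := by
  obtain ⟨Ξ, h0, hl, he⟩ := hc
  have e : ∀ g h, F g h * Ξ (g * h) = Ξ g * g • Ξ h := by
    intro g h
    rw [he g h, one_mul, div_mul_cancel₀ _ (h0 _)]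
  have hc0 : F 1 1 ≠ 0 := hF.ne 1 1
  have hW1 : ∀ w h : G, w ∈ W → F w h = F 1 h := fun w h hw => by
    have := h1 1 h w hw
    rwa [one_mul] at this
  have hW2 : ∀ g w : G, w ∈ W → F g w = F g 1 := fun g w hw => by
    have := h2 g 1 w hw
    rwa [one_mul] at this
  obtain ⟨y, hy0, hy⟩ := h90cont (hG.sub W (by
    have := hG.top
    exact Subgroup.isClosed_of_isOpen W hW)) (fun w : W => Ξ w / F 1 1)
    (fun w => div_ne_zero (h0 _) hc0)
    ((hl.comp_continuous continuous_subtype_val).comp (fun x => x / F 1 1))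
    (fun w w' => by
      have e1 := e w w'
      rw [hW1 w _ w.2, hW2 1 _ w'.2] at e1
      show Ξ (w * w' : G) / F 1 1 = Ξ w / F 1 1 * (w : G) • (Ξ w' / F 1 1)
      rw [smul_div_z, h3 1 1 w w.2, div_mul_div_comm, ← e1, mul_div_mul_left _ _ hc0])
  have hy' : ∀ w : G, w ∈ W → Ξ w * y = F 1 1 * w • y := by
    intro w hw
    have e2 := hy ⟨w, hw⟩
    have e3 : Ξ w / F 1 1 = w • y / y := e2
    rw [div_eq_div_iff hc0 hy0] at e3
    rw [e3, mul_comm]
  have hgy : ∀ g : G, g • y ≠ 0 := fun g => smul_ne_z g hy0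
  -- the corrected cochain
  obtain ⟨Θ, hΘ⟩ : ∃ Θ : G → Ω, Θ = fun g => Ξ g * y / (g • y) := ⟨_, rfl⟩
  have hΘ' : ∀ g, Θ g = Ξ g * y / (g • y) := fun g => by rw [hΘ]
  have hΘ0 : ∀ g, Θ g ≠ 0 := fun g => by
    rw [hΘ']
    exact div_ne_zero (mul_ne_zero (h0 g) hy0) (hgy g)
  have e1 : ∀ g h, F g h * Θ (g * h) = Θ g * g • Θ h := by
    intro g h
    rw [hΘ', hΘ', hΘ', smul_div_z, smul_mul', ← mul_smul, ← mul_div_assoc, ← mul_assoc, e g h,
      div_mul_div_comm, eq_comm, div_eq_div_iff (mul_ne_zero (hgy _) (hgy _)) (hgy _)]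
    ring
  have hΘw : ∀ w : G, w ∈ W → Θ w = F 1 1 := by
    intro w hw
    rw [hΘ', hy' w hw, mul_div_assoc, div_self (hgy w), mul_one]
  have ha : ∀ g w : G, w ∈ W → Θ (g * w) = Θ g := by
    intro g w hw
    have e2 := e1 g w
    have e3 := hF.co g 1 1
    rw [mul_one, mul_one] at e3
    have e4 : g • F 1 1 = F g 1 := mul_right_cancel₀ (hF.ne g 1) e3
    rw [hW2 g w hw, hΘw w hw, e4, mul_comm (Θ g)] at e2
    exact mul_left_cancel₀ (hF.ne g 1) e2
  refine ⟨Θ, hΘ0, ha, fun g w hw => ?_, e1⟩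
  have e2 := e1 w g
  have e3 := hF.co 1 1 g
  rw [one_smul, one_mul, one_mul] at e3
  have e4 : F 1 g = F 1 1 := by
    have := mul_left_cancel₀ (hF.ne 1 g) e3
    exact this
  have e5 : w * g = g * (g⁻¹ * w * g) := by group
  have e6 : g⁻¹ * w * g ∈ W := by
    have := (inferInstance : W.Normal).conj_mem w hw g⁻¹
    rwa [inv_inv] at this
  rw [hW1 w g hw, e4, e5, ha g _ e6, hΘw w hw] at e2
  exact (mul_left_cancel₀ hc0 e2).symm

/-- a locally constant function on `G` with values in a set factors through `G / V` for an open normal subgroup `V` which also fixes finitely many given elements -/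
theorem exists_V {G Ω : Type u} [Group G] [TopologicalSpace G] [Field Ω] [MulSemiringAction G Ω] (hG : GA G Ω)
    {X Y : Type*} {f : G → G → X} (hf : IsLocallyConstant (fun q : G × G => f q.1 q.2)) {e : G → G → Ω}
    (he : IsLocallyConstant (fun q : G × G => e q.1 q.2)) :
    ∃ V : Subgroup G, V.Normal ∧ IsOpen (V : Set G) ∧ (∀ g h v : G, v ∈ V → f (g * v) h = f g h) ∧
      (∀ g h v : G, v ∈ V → f g (h * v) = f g h) ∧ (∀ g h v : G, v ∈ V → e (g * v) h = e g h) ∧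
      (∀ g h v : G, v ∈ V → e g (h * v) = e g h) ∧ ∀ g h v : G, v ∈ V → v • e g h = e g h := by
  have i1 := hG.top
  have i2 := hG.cpt
  have hfe : IsLocallyConstant (fun q : G × G => (f q.1 q.2, e q.1 q.2)) := hf.prodMk he
  obtain ⟨W, hWn, hWo, hW⟩ := open_invariant hG (f := fun g h => (f g h, e g h)) hfe
  have hfin : (Set.range fun q : G × G => e q.1 q.2).Finite := he.range_finite
  obtain ⟨W', hWn', hWo', hW'⟩ := Uf_exists_normal hG
    (V := ⋂ ω ∈ Set.range fun q : G × G => e q.1 q.2, {g : G | g • ω = ω})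
    (hfin.isOpen_biInter fun ω _ => hG.stab ω) (by simp)
  have k1 : ∀ g h w : G, w ∈ W ⊓ W' → (f (g * w) h, e (g * w) h) = (f g h, e g h) := by
    intro g h w hw
    have := hW g h w hw.1 1 W.one_mem
    rwa [mul_one] at this
  have k2 : ∀ g h w : G, w ∈ W ⊓ W' → (f g (h * w), e g (h * w)) = (f g h, e g h) := by
    intro g h w hw
    have := hW g h 1 W.one_mem w hw.1
    rwa [mul_one] at this
  refine ⟨W ⊓ W', inferInstance, hWo.inter hWo',
    fun g h w hw => congrArg Prod.fst (k1 g h w hw), fun g h w hw => congrArg Prod.fst (k2 g h w hw),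
    fun g h w hw => congrArg Prod.snd (k1 g h w hw), fun g h w hw => congrArg Prod.snd (k2 g h w hw),
    fun g h w hw => ?_⟩
  have h4 := hW' hw.2
  rw [Set.mem_iInter₂] at h4
  exact h4 (e g h) ⟨(g, h), rfl⟩

end MSN
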