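import Pool.Agent.MSN.Ce
import Pool.Agent.MSN.Bi
import Pool.Agent.MSX.Fam
import Pool.Agent.MSX.Cst

/-! # MSN / Kf: the function field `D.K` and `KL p L` as a cyclic Kummer extension

`cL : L →+* KL p L`, `cF D : F →+* D.K` the constants, `iK D : D.K →+* KL p L` the inclusion, `sK D` the restriction of `D.sigQ` to `KL p L`.

PROOFS.
* `sK`: `D.sigQ` maps `KL p L` onto itself (`sigQ_alg`, `sig_hom`; the inverse is given by `gis`, `gis_hom`; or use `sigQ_iter`: `σ^[p] = id` on `KL`, so `σ^[p-1]` is the inverse).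
* `sK_cL`: `sigQ_alg`, `sig_C`.  `iK_cF`: by definition.
* `kx_KL`: `per`: `sigQ_iter`.  `fx`: definition of `D.K`.  `sa`: `sK_cL` and `hs`.
* `bi_cL`: `bi_Q` and `BI.of_comp` (`L → KL p L → Q p L`).
* `mo_surj`: `μ.r` has closed image; if it is not everything there is `x` in `Ω₀` fixed by all `μ.r g` and not by some `g₀` (`GA.sep`).  `μ.ψ x` is fixed by `G`, `μ.ψ x ^ (q ^ n) = j y` (`Ov.pi`).  `x ^ (q ^ n)` is algebraic over `j₀ k`: it is algebraic over the fixed field of `G₀`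
  (`GA.algebraic`) whose elements have a power in `j₀ k`; so there is a nonzero polynomial over `k` which kills `x ^ (q ^ n)`, so its image under `φ` kills `y` (`j`, `μ.ψ` injective, `μ.ψ (j₀ c) = j (φ c)`).  By `hac` `y = φ c`, so `μ.ψ (x ^ (q ^ n)) = μ.ψ (j₀ c)`, `x ^ (q ^ n) = j₀ c` is fixed by `g₀`, and
  so is `x` (Frobenius injective).
-/

set_option autoImplicit false
set_option linter.unusedVariables false

namespace MSN

universe u

open MSG

open Pool.Agent.MK (K2 S)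

open Pool.Agent.MSX (KL Q Dat)

noncomputable section

variable {p : ℕ} {F L : Type u} [Field F] [Field L] [Algebra F L]

variable (p) in
/-- the constants in `KL p L` -/
def cL (L : Type u) [Field L] : L →+* KL p L :=
  ((algebraMap (Pool.Agent.MSX.S p L) (Q p L)).comp (MvPolynomial.C : L →+* Pool.Agent.MSX.S p L)).codRestrict (KL p L).toSubring (fun c =>
    ⟨0, MvPolynomial.C c, 1, MvPolynomial.isHomogeneous_C _ _, MvPolynomial.isHomogeneous_one _ _, one_ne_zero, by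
      rw [map_one, div_one]
      rfl⟩)

theorem cL_val (c : L) : ((cL p L c : KL p L) : Q p L) = algebraMap (Pool.Agent.MSX.S p L) (Q p L) (MvPolynomial.C c) := rfl

variable (D : Dat p F L)

/-- the constants in `D.K` -/
def cF : F →+* D.K :=
  (((algebraMap (Pool.Agent.MSX.S p L) (Q p L)).comp (MvPolynomial.C : L →+* Pool.Agent.MSX.S p L)).comp (algebraMap F L)).codRestrict D.K.toSubring (fun c =>
    ⟨(cL p L (algebraMap F L c)).2, (D.F_mem_K c).2⟩)

/-- the inclusion -/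
def iK : D.K →+* KL p L := Subfield.inclusion D.K_le_KL

theorem iK_val (x : D.K) : ((iK D x : KL p L) : Q p L) = x := rfl

theorem iK_cF (c : F) : iK D (cF D c) = cL p L (algebraMap F L c) := rfl

theorem exists_sK : ∃ σ : KL p L ≃+* KL p L, ∀ x, ((σ x : KL p L) : Q p L) = D.sigQ x := by
  have hs : Function.Surjective D.sigKL := by
    intro x
    obtain ⟨m, hm⟩ : ∃ m, m + 1 = p := ⟨p - 1, by have := D.hp.pos; omega⟩
    refine ⟨D.sigKL^[m] x, ?_⟩
    have h2 := Function.iterate_succ_apply' D.sigKL m x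
    have h3 : D.sigKL^[m + 1] x = D.sigKL^[p] x := congrArg (fun k => D.sigKL^[k] x) hm
    rw [← h2]
    exact h3.trans (D.sigKL_iter x)
  exact ⟨RingEquiv.ofBijective D.sigKL ⟨D.sigKL.injective, hs⟩, fun x => rfl⟩

/-- the semilinear automorphism of `KL p L` -/
def sK : KL p L ≃+* KL p L := (exists_sK D).choose

theorem sK_val (x : KL p L) : ((sK D x : KL p L) : Q p L) = D.sigQ x := (exists_sK D).choose_spec x

theorem sK_iter (x : KL p L) (k : ℕ) : (((sK D)^[k] x : KL p L) : Q p L) = (D.sigQ)^[k] x := by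
  induction k with
  | zero => rfl
  | succ k ih => rw [Function.iterate_succ_apply', Function.iterate_succ_apply', sK_val, ih]

theorem sK_cL (c : L) : sK D (cL p L c) = cL p L (D.s c) := by
  apply Subtype.ext
  rw [sK_val, cL_val, cL_val, D.sigQ_alg, D.sig_C]

private theorem kf_pz {K K' : Type u} [Field K] [Field K'] {n : ℕ} {z : K} (hz : PZ n z) (f : K →+* K') : PZ n (f z) :=
  ⟨hz.odd, hz.one_lt, hz.prim.map_of_injective f.injective⟩

theorem kx_KL {ζ₀ a₀ : F} {α : L} (hz : PZ p ζ₀) (hs : D.s α = algebraMap F L ζ₀ * α) (hα : α ^ p = algebraMap F L a₀) (ha : a₀ ≠ 0) :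
    Kx p (iK D) (sK D) (cF D ζ₀) (cF D a₀) (cL p L α) := by
  refine ⟨D.hp, kf_pz hz (cF D), fun x => ?_, fun x hx => ?_, fun y => ?_, ?_, ?_, ?_⟩
  · apply Subtype.ext
    rw [sK_iter, D.sigQ_iter x.2]
  · refine ⟨⟨x, x.2, ?_⟩, ?_⟩
    · rw [← sK_val, hx]
    · apply Subtype.ext
      rfl
  · apply Subtype.ext
    rw [sK_val, iK_val]
    exact y.2.2
  · rw [sK_cL, hs, iK_cF, map_mul]
  · rw [iK_cF, ← map_pow, hα]
  · exact (map_ne_zero (cF D)).2 ha

theorem bi_cL (hp : p.Prime) (hpL : (p : L) ≠ 0) : BI p (cL p L) :=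
  BI.of_comp (ψ := (KL p L).subtype) (bi_Q hp hpL)

end

theorem mo_surj {k K G₀ Ω₀ G Ω : Type u} [Field k] [Field K] [Group G₀] [TopologicalSpace G₀] [Field Ω₀] [MulSemiringAction G₀ Ω₀]
    [Group G] [TopologicalSpace G] [Field Ω] [MulSemiringAction G Ω] {j₀ : k →+* Ω₀} {j : K →+* Ω}
    (h₀ : Ov k G₀ j₀) (h : Ov K G j) {φ : k →+* K} (hac : ∀ (y : K) (P : Polynomial k), P ≠ 0 → P.eval₂ φ y = 0 → ∃ c, φ c = y)
    (μ : Mo G₀ Ω₀ G Ω) (hμ : ∀ x, μ.ψ (j₀ x) = j (φ x)) : Function.Surjective μ.r := by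
  by_contra hns
  have hc := h.ga.cpt
  have ht := h₀.ga.t2
  have hcl : IsClosed ((μ.r.range : Subgroup G₀) : Set G₀) := by
    rw [MonoidHom.coe_range]
    exact (isCompact_range μ.cont).isClosed
  obtain ⟨g₀, hg₀⟩ : ∃ g₀, g₀ ∉ μ.r.range := by
    by_contra hall
    push Not at hall
    exact hns fun g => hall g
  obtain ⟨x, hx, hgx⟩ := h₀.ga.sep μ.r.range hcl g₀ hg₀
  have hψx : ∀ g : G, g • μ.ψ x = μ.ψ x := by
    intro g
    rw [← μ.comp, hx (μ.r g) ⟨g, rfl⟩]
  obtain ⟨n, y, hy⟩ := h.pi (μ.ψ x) hψx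
  have hq : ExpChar Ω₀ (ringExpChar Ω) :=
    (μ.ψ.expChar_iff μ.ψ.injective (ringExpChar Ω)).2 inferInstance
  -- algebraicity
  have halg : ∃ P : Polynomial k, P ≠ 0 ∧ P.eval₂ j₀ (x ^ (ringExpChar Ω ^ n)) = 0 := by
    let _ : Algebra k Ω₀ := j₀.toAlgebra
    let _ : Algebra k (FixedPoints.subfield G₀ Ω₀) := h₀.toFix.toAlgebra
    have _ : IsScalarTower k (FixedPoints.subfield G₀ Ω₀) Ω₀ :=
      IsScalarTower.of_algebraMap_eq (fun c => (h₀.toFix_val c).symm)
    have h1 : Algebra.IsAlgebraic k (FixedPoints.subfield G₀ Ω₀) := by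
      refine ⟨fun z => ?_⟩
      obtain ⟨m, c, hc⟩ := h₀.pi z z.2
      have hpos : 0 < ringExpChar Ω₀ ^ m := pow_pos (expChar_pos Ω₀ (ringExpChar Ω₀)) m
      refine ⟨Polynomial.X ^ (ringExpChar Ω₀ ^ m) - Polynomial.C c,
        Polynomial.X_pow_sub_C_ne_zero hpos c, ?_⟩
      rw [map_sub, map_pow, Polynomial.aeval_X, Polynomial.aeval_C, sub_eq_zero]
      apply Subtype.ext
      exact hc
    have h2 := h₀.ga.algebraic
    have h3 : Algebra.IsAlgebraic k Ω₀ :=
      Algebra.IsAlgebraic.trans k (FixedPoints.subfield G₀ Ω₀) Ω₀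
    obtain ⟨P, hP, hP0⟩ := h3.isAlgebraic (x ^ (ringExpChar Ω ^ n))
    exact ⟨P, hP, hP0⟩
  obtain ⟨P, hP, hP0⟩ := halg
  have h4 : P.eval₂ φ y = 0 := by
    apply j.injective
    have h5 := congrArg μ.ψ hP0
    have h6 : μ.ψ.comp j₀ = j.comp φ := RingHom.ext hμ
    rw [Polynomial.hom_eval₂, map_zero, h6, map_pow, hy] at h5
    rw [Polynomial.hom_eval₂, map_zero]
    exact h5
  obtain ⟨c, hc⟩ := hac y P hP h4
  have h7 : x ^ (ringExpChar Ω ^ n) = j₀ c := by
    apply μ.ψ.injective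
    rw [map_pow, hy, hμ, hc]
  apply hgx
  apply iterateFrobenius_inj Ω₀ (ringExpChar Ω) n
  rw [iterateFrobenius_def, iterateFrobenius_def, ← smul_pow', h7, h₀.fj]

end MSN
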