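import Pool.Agent.MSN.Hd
import Pool.Agent.MSG.Bt
import Pool.Agent.MSG.Sub
import Pool.Agent.MSX.Defs
import Pool.Agent.MSX.Ps

/-! # MSN / Kum: cyclic extensions of degree `p` inside `Ω` and the data `Dat`

`C : Cd p H ζ a g₀`: `(H, Ω)` a Galois pair, `ζ` a primitive `p`-th root of unity and `a ≠ 0` fixed by `H`, `km p ζ a g₀ = 1`, i.e. `g₀ • α = ζ * α` for `α = rt p a`.  `fF H Ω = Ω^H`, `fL H Ω p a = Ω^(kr H p a)`.

PROOFS.
* `Cd.smul_rt`: `km_root`.  `Cd.mem_kr`: `g • rt p a = zp ζ (km p ζ a g) * rt p a` (`km_root`), `zp ζ j = 1` iff `j = 0`.  `Cd.normal`: kernel of the homomorphism `km` (`km_hom`).  `Cd.open'`: `GA.stab`.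
* `Cd.dec`: `g = g₀ ^ (km p ζ a g).val * m`, `m ∈ kr`.  `Cd.fixed`: from `Cd.dec`.  `Cd.index`: `H / kr ≃ ZMod p`.
* `Cd.kum`: `c_i = p⁻¹ * α⁻¹ ^ i * ∑_(k < p) ζ⁻¹ ^ (i k) * g₀ ^ k • x`: fixed by `g₀` (reindex `k`, `g₀ ^ p ∈ kr` fixes `x`) and by `kr` (normal), so by `H`; `∑_i c_i α ^ i = p⁻¹ ∑_k (∑_i ζ⁻¹ ^ (i k)) g₀ ^ k • x = x`.
* `bt_k2`: the same argument as `bt_sym` in MSG/Bt.lean but in `K₂(L)`: by `K2_induction` it is enough to treat `S l l'`; `bt_gen`: `l = c * ∏ (α - r_i)`, `c, r_i` fixed by `H`.  By bilinearity it is enough to treat `S u u'` with `u, u'` each of the form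
  `c` or `α - r`.  `S c u = - S u c = S u⁻¹ c`.  `S (α - r) (α - r)  = S (α - r) (-1)`.  For `r ≠ r'`, `x = (α - r)/(r' - r)`, `y = (α - r')/(r - r')`: `x + y = 1`, `S x y = 0`, expand.
* `Cd.dat`: `s x = g₀ • x` (`kr` is normal), `s ^ p` is the action of `g₀ ^ p ∈ kr`; `s ≠ 1` because `s α = ζ α ≠ α`; fixed elements: `Cd.fixed`.
* `Cd.dat_div`: if `D.N z = b` then `b = nL p g₀ z` and `nc_of_norm` gives `Co (kk p ζ a b) 0`; `z ≠ 0`.
* `perfect`: the fixed field of a group acting on an algebraically closed field is perfect (Frobenius surjective: the root in `Ω` is unique, so fixed).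
* `ps_F`: an irreducible polynomial over `Ω^H` has a root `r` in `Ω`, its degree is the number of conjugates = index of the open subgroup `stab r` (the polynomial `∏_(y ∈ H r) (X - y)` is over `Ω^H`, MSG/Art.lean), a power of `p`.  `ps_kr`: an open subgroup `U` of `kr` is open in `H` and
  `[H : U] = p * [kr : U]`.
-/

set_option autoImplicit false
set_option linter.unusedVariables false

namespace MSN

universe u

open MSG

open Pool.Agent.MK (K2 S)

noncomputable section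

/-- the fixed field -/
abbrev fF (H Ω : Type u) [Group H] [Field Ω] [MulSemiringAction H Ω] : Subfield Ω := FixedPoints.subfield H Ω

/-- the fixed field of `kr H p a` -/
abbrev fL (H Ω : Type u) [Group H] [Field Ω] [MulSemiringAction H Ω] (p : ℕ) (a : Ω) : Subfield Ω :=
  FixedPoints.subfield (kr H p a) Ω

theorem fF_le (H Ω : Type u) [Group H] [Field Ω] [MulSemiringAction H Ω] (N : Subgroup H) :
    FixedPoints.subfield H Ω ≤ FixedPoints.subfield N Ω := fun x hx g => hx (g : H)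

instance algFL (H Ω : Type u) [Group H] [Field Ω] [MulSemiringAction H Ω] (N : Subgroup H) :
    Algebra (FixedPoints.subfield H Ω) (FixedPoints.subfield N Ω) := (Subfield.inclusion (fF_le H Ω N)).toAlgebra

theorem algFL_val (H Ω : Type u) [Group H] [Field Ω] [MulSemiringAction H Ω] (N : Subgroup H) (x : FixedPoints.subfield H Ω) :
    ((algebraMap (FixedPoints.subfield H Ω) (FixedPoints.subfield N Ω) x : FixedPoints.subfield N Ω) : Ω) = x := rfl

variable {p : ℕ} {H Ω : Type u} [Group H] [TopologicalSpace H] [Field Ω] [MulSemiringAction H Ω] {ζ a : Ω} {g₀ : H}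

/-- data of a cyclic extension of degree `p` -/
structure Cd (p : ℕ) (H : Type u) {Ω : Type u} [Group H] [TopologicalSpace H] [Field Ω] [MulSemiringAction H Ω]
    (ζ a : Ω) (g₀ : H) : Prop where
  hp : p.Prime
  ga : GA H Ω
  hz : PZ p ζ
  fz : ∀ g : H, g • ζ = ζ
  fa : Fx H a
  g1 : km p ζ a g₀ = 1

theorem Cd.pow_rt (C : Cd p H ζ a g₀) : rt p a ^ p = a := by
  haveI := C.ga.alg
  exact rt_pow C.hz a

theorem Cd.smul_rt (C : Cd p H ζ a g₀) (g : H) : g • rt p a = zp ζ (km p ζ a g) * rt p a := by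
  haveI := C.ga.alg
  exact km_root C.hz C.fa.1 (rt_pow C.hz a) (C.fz g) (C.fa.2 g)

theorem Cd.rt_mem (C : Cd p H ζ a g₀) (g : kr H p a) : g • rt p a = rt p a := g.2

theorem Cd.mem_kr (C : Cd p H ζ a g₀) {g : H} : g ∈ kr H p a ↔ km p ζ a g = 0 := by
  exact MSG.mem_kr C.ga C.hz C.fz C.fa

theorem Cd.normal (C : Cd p H ζ a g₀) : (kr H p a).Normal := by
  refine ⟨fun n hn g => ?_⟩
  rw [MSG.kr_conj C.ga C.hz C.fz C.fa g]
  have e : g⁻¹ * (g * n * g⁻¹) * g = n := by group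
  rw [e]
  exact hn

theorem Cd.open' (C : Cd p H ζ a g₀) : IsOpen (kr H p a : Set H) := by
  exact MSG.kr_open C.ga a

theorem Cd.index (C : Cd p H ζ a g₀) : (kr H p a).index = p := by
  haveI := C.hz.neZero
  haveI := C.ga.alg
  obtain ⟨f, hf⟩ : ∃ f : H →* Multiplicative (ZMod p), ∀ g, f g = Multiplicative.ofAdd (km p ζ a g) :=
    ⟨MonoidHom.mk' (fun g => Multiplicative.ofAdd (km p ζ a g)) (fun g h => by
      rw [km_hom C.hz C.fa.1 (C.fz g) (C.fz h) (C.fa.2 g) (C.fa.2 h)]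
      rfl), fun g => rfl⟩
  have h1 : kr H p a = f.ker := by
    ext g
    rw [C.mem_kr, MonoidHom.mem_ker, hf, ofAdd_eq_one]
  have h2 : Function.Surjective f := by
    intro x
    refine ⟨g₀ ^ (Multiplicative.toAdd x).val, ?_⟩
    rw [map_pow, hf, C.g1, ← ofAdd_nsmul, nsmul_eq_mul, mul_one, ZMod.natCast_zmod_val, ofAdd_toAdd]
  have h3 : Nat.card (Multiplicative (ZMod p)) = p := (Nat.card_congr Multiplicative.toAdd).trans (Nat.card_zmod p)
  rw [h1, Subgroup.index_ker, MonoidHom.range_eq_top.2 h2, Subgroup.card_top, h3]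

theorem Cd.dec (C : Cd p H ζ a g₀) (g : H) : ∃ m ∈ kr H p a, g = g₀ ^ (km p ζ a g).val * m := by
  refine ⟨(g₀ ^ (km p ζ a g).val)⁻¹ * g, MSG.kr_dec C.ga C.hz C.fz C.fa C.g1 g, ?_⟩
  rw [mul_inv_cancel_left]

theorem Cd.fixed (C : Cd p H ζ a g₀) {x : Ω} (hx : ∀ g ∈ kr H p a, g • x = x) (hx' : g₀ • x = x) (g : H) : g • x = x := by
  obtain ⟨m, hm, e⟩ := C.dec g
  have h : ∀ k : ℕ, g₀ ^ k • x = x := by
    intro k
    induction k with
    | zero => rw [pow_zero, one_smul]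
    | succ k ih => rw [pow_succ, mul_smul, hx', ih]
  rw [e, mul_smul, hx m hm, h]

private theorem kum_pow_smul (C : Cd p H ζ a g₀) (i : ℕ) : g₀ ^ i • rt p a = ζ ^ i * rt p a := by
  have h0 : g₀ • rt p a = ζ * rt p a := by
    have h := C.smul_rt g₀
    have h1 := zp_nat C.hz 1
    rw [Nat.cast_one, pow_one] at h1
    rw [C.g1, h1] at h
    exact h
  induction i with
  | zero => rw [pow_zero, one_smul, pow_zero, one_mul]
  | succ i ih =>
    rw [pow_succ, mul_smul, h0, smul_mul', C.fz, ih, pow_succ]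
    ring

/-- the equivariant interpolation polynomial -/
private theorem kum_poly (C : Cd p H ζ a g₀) {l : Ω} (hl : ∀ g ∈ kr H p a, g • l = l) :
    ∃ P : Polynomial Ω, P.degree < p ∧ (∀ g : H, P.eval (g • rt p a) = g • l) ∧ ∀ g : H, g • P = P := by
  haveI := C.ga.alg
  haveI := C.hz.neZero
  have hvs : Set.InjOn (fun i : ℕ => ζ ^ i * rt p a) (Finset.range p) := by
    intro i hi j hj hij
    rw [Finset.mem_coe, Finset.mem_range] at hi hj
    exact C.hz.prim.pow_inj hi hj (mul_right_cancel₀ (rt_ne C.hz C.fa.1) hij)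
  obtain ⟨P, hP⟩ : ∃ P : Polynomial Ω, P = Lagrange.interpolate (Finset.range p)
    (fun i : ℕ => ζ ^ i * rt p a) (fun i => g₀ ^ i • l) := ⟨_, rfl⟩
  have hdeg : P.degree < p := by
    have h := Lagrange.degree_interpolate_lt (fun i => g₀ ^ i • l) hvs
    rw [Finset.card_range] at h
    rw [hP]
    exact h
  have hnode : ∀ i < p, P.eval (ζ ^ i * rt p a) = g₀ ^ i • l := by
    intro i hi
    rw [hP]
    exact Lagrange.eval_interpolate_at_node (fun i => g₀ ^ i • l) hvs (Finset.mem_range.2 hi)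
  have heval : ∀ g : H, P.eval (g • rt p a) = g • l := by
    intro g
    have h1 : g • rt p a = ζ ^ (km p ζ a g).val * rt p a := C.smul_rt g
    rw [h1, hnode _ (ZMod.val_lt _)]
    have h2 := hl _ (MSG.kr_dec C.ga C.hz C.fz C.fa C.g1 g)
    rw [mul_smul, inv_smul_eq_iff] at h2
    exact h2.symm
  refine ⟨P, hdeg, heval, fun g => ?_⟩
  refine Polynomial.eq_of_degrees_lt_of_eval_index_eq (v := fun i : ℕ => ζ ^ i * rt p a)
    (Finset.range p) hvs ?_ ?_ fun i hi => ?_
  · rw [Finset.card_range]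
    refine lt_of_le_of_lt ?_ hdeg
    have h1 : g • P = P.map (MulSemiringAction.toRingHom H Ω g) :=
      congrFun (Polynomial.smul_eq_map Ω g) P
    rw [h1]
    exact Polynomial.degree_map_le
  · rw [Finset.card_range]
    exact hdeg
  · show (g • P).eval (ζ ^ i * rt p a) = P.eval (ζ ^ i * rt p a)
    rw [← kum_pow_smul C i, Polynomial.smul_eval, ← mul_smul, heval, heval, ← mul_smul,
      mul_inv_cancel_left]

theorem Cd.kum (C : Cd p H ζ a g₀) {x : Ω} (hx : ∀ g ∈ kr H p a, g • x = x) :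
    ∃ c : Fin p → Ω, (∀ i, ∀ g : H, g • c i = c i) ∧ x = ∑ i, c i * rt p a ^ i.val := by
  obtain ⟨P, hPd, hPe, hPi⟩ := kum_poly C hx
  have hPx : P.eval (rt p a) = x := by
    have h := hPe 1
    rwa [one_smul, one_smul] at h
  refine ⟨fun i => P.coeff i.val, fun i g => ?_, ?_⟩
  · have h := Polynomial.coeff_smul g P i.val
    rw [hPi] at h
    exact h.symm
  · have h1 : P.natDegree < p := by
      by_cases h0 : P = 0
      · rw [h0, Polynomial.natDegree_zero]
        exact C.hp.pos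
      · exact (Polynomial.natDegree_lt_iff_degree_lt h0).2 hPd
    rw [← hPx, Polynomial.eval_eq_sum_range' h1]
    exact (Fin.sum_univ_eq_sum_range (fun i => P.coeff i * rt p a ^ i) p).symm

private def TL (H : Type u) {Ω : Type u} [Group H] [Field Ω] [MulSemiringAction H Ω] (p : ℕ) (a : Ω) :
    AddSubgroup (K2 (fL H Ω p a)) :=
  AddSubgroup.closure {t | ∃ (l : fL H Ω p a) (c : fF H Ω), l ≠ 0 ∧ c ≠ 0 ∧
    t = S l (algebraMap (fF H Ω) (fL H Ω p a) c)}

private theorem TL_mem {l : fL H Ω p a} {c : fF H Ω} (hl : l ≠ 0) (hc : c ≠ 0) :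
    S l (algebraMap (fF H Ω) (fL H Ω p a) c) ∈ TL H p a :=
  AddSubgroup.subset_closure ⟨l, c, hl, hc, rfl⟩

private theorem TL_mem' {l : fL H Ω p a} {c : fF H Ω} (hl : l ≠ 0) (hc : c ≠ 0) :
    S (algebraMap (fF H Ω) (fL H Ω p a) c) l ∈ TL H p a := by
  rw [Pool.Agent.MK.S_comm]
  exact neg_mem (TL_mem hl hc)

/-- the elements `c` and `α - r` -/
private def TYL (α : fL H Ω p a) (x : fL H Ω p a) : Prop :=
  (∃ c : fF H Ω, c ≠ 0 ∧ x = algebraMap (fF H Ω) (fL H Ω p a) c) ∨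
    ∃ r : fF H Ω, x = α - algebraMap (fF H Ω) (fL H Ω p a) r

private theorem TL_pair (α : fL H Ω p a) {x y : fL H Ω p a} (hx : TYL α x) (hy : TYL α y) (hx0 : x ≠ 0)
    (hy0 : y ≠ 0) : S x y ∈ TL H p a := by
  rcases hy with ⟨c, hc, rfl⟩ | ⟨r', rfl⟩
  · exact TL_mem hx0 hc
  · rcases hx with ⟨c, hc, rfl⟩ | ⟨r, rfl⟩
    · exact TL_mem' hy0 hc
    · by_cases hrr : r = r'
      · subst hrr
        have h := TL_mem (p := p) (a := a) (c := (-1 : fF H Ω)) hx0 (neg_ne_zero.2 one_ne_zero)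
        rw [map_neg, map_one] at h
        rw [Pool.Agent.MK.S_self]
        exact h
      · have hi := (algebraMap (fF H Ω) (fL H Ω p a)).injective
        have hd : r' - r ≠ 0 := sub_ne_zero.2 (Ne.symm hrr)
        have hd' : r - r' ≠ 0 := sub_ne_zero.2 hrr
        obtain ⟨e, he⟩ : ∃ e : fL H Ω p a, e = algebraMap (fF H Ω) (fL H Ω p a) (r' - r) := ⟨_, rfl⟩
        obtain ⟨e', he'⟩ : ∃ e' : fL H Ω p a, e' = algebraMap (fF H Ω) (fL H Ω p a) (r - r') := ⟨_, rfl⟩
        have e0 : e ≠ 0 := by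
          rw [he]
          exact (map_ne_zero_iff _ hi).2 hd
        have e0' : e' ≠ 0 := by
          rw [he']
          exact (map_ne_zero_iff _ hi).2 hd'
        obtain ⟨x, hx⟩ : ∃ x : fL H Ω p a, x = α - algebraMap (fF H Ω) (fL H Ω p a) r := ⟨_, rfl⟩
        obtain ⟨y, hy⟩ : ∃ y : fL H Ω p a, y = α - algebraMap (fF H Ω) (fL H Ω p a) r' := ⟨_, rfl⟩
        rw [← hx] at hx0
        rw [← hy] at hy0
        rw [← hx, ← hy]
        have hee : e' = - e := by
          rw [he, he', ← map_neg]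
          congr 1
          ring
        have hxy : x - y = e := by
          rw [he, hx, hy, map_sub]
          ring
        have hXY : x / e + y / e' = 1 := by
          rw [hee, div_neg, ← sub_eq_add_neg, ← sub_div, hxy, div_self e0]
        have hX0 : x / e ≠ 0 := div_ne_zero hx0 e0
        have hY0 : y / e' ≠ 0 := div_ne_zero hy0 e0'
        have h1 : S x y = S (x / e) (y / e') + S (x / e) e' + (S e (y / e') + S e e') := by
          rw [← Pool.Agent.MK.S_mul_right hY0 e0', ← Pool.Agent.MK.S_mul_right hY0 e0',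
            div_mul_cancel₀ _ e0', ← Pool.Agent.MK.S_mul_left hX0 e0, div_mul_cancel₀ _ e0]
        rw [h1, Pool.Agent.MK.S_of_add_eq_one hXY, zero_add]
        refine add_mem ?_ (add_mem ?_ ?_)
        · rw [he']
          exact TL_mem hX0 hd'
        · rw [he]
          exact TL_mem' hY0 hd
        · rw [he']
          exact TL_mem e0 hd'

private theorem TYL_gen (C : Cd p H ζ a g₀) (hPS : PS p H) (α : fL H Ω p a) (hα : (α : Ω) = rt p a)
    (Q : fL H Ω p a → Prop) (h1 : ∀ x, TYL α x → x ≠ 0 → Q x)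
    (h2 : ∀ x y, x ≠ 0 → y ≠ 0 → Q x → Q y → Q (x * y)) (l : fL H Ω p a) (hl : l ≠ 0) : Q l := by
  classical
  have hl' : FxM (kr H p a) (l : Ω) := ⟨fun h => hl (Subtype.ext h), fun g hg => l.2 ⟨g, hg⟩⟩
  obtain ⟨c, m, r, hc, hr, e⟩ := bt_gen C.ga C.hp C.hz C.fz hPS C.fa C.g1 hl'
  obtain ⟨c', hc'⟩ : ∃ c' : fF H Ω, (c' : Ω) = c := ⟨⟨c, hc.2⟩, rfl⟩
  obtain ⟨r', hr'⟩ : ∃ r' : Fin m → fF H Ω, ∀ i, (r' i : Ω) = r i := ⟨fun i => ⟨r i, hr i⟩, fun i => rfl⟩
  have hc0 : c' ≠ 0 := by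
    intro h
    apply hc.1
    rw [← hc', h]
    rfl
  have el : l = algebraMap (fF H Ω) (fL H Ω p a) c' *
      ∏ i, (α - algebraMap (fF H Ω) (fL H Ω p a) (r' i)) := by
    apply Subtype.ext
    have h3 : ((algebraMap (fF H Ω) (fL H Ω p a) c' *
      ∏ i, (α - algebraMap (fF H Ω) (fL H Ω p a) (r' i)) : fL H Ω p a) : Ω) =
      c * ∏ i, (rt p a - r i) := by
      rw [Subfield.coe_mul, algFL_val, hc']
      congr 1
      have h4 : ((∏ i, (α - algebraMap (fF H Ω) (fL H Ω p a) (r' i)) : fL H Ω p a) : Ω) =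
          ∏ i, ((α - algebraMap (fF H Ω) (fL H Ω p a) (r' i) : fL H Ω p a) : Ω) :=
        map_prod (fL H Ω p a).subtype _ _
      rw [h4]
      refine Finset.prod_congr rfl fun i _ => ?_
      rw [Subfield.coe_sub, algFL_val, hα, hr']
    rw [h3]
    exact e
  have hne : ∀ i, α - algebraMap (fF H Ω) (fL H Ω p a) (r' i) ≠ 0 := by
    rw [el] at hl
    exact fun i => Finset.prod_ne_zero_iff.1 (right_ne_zero_of_mul hl) i (Finset.mem_univ i)
  have hcL : algebraMap (fF H Ω) (fL H Ω p a) c' ≠ 0 := by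
    rw [el] at hl
    exact left_ne_zero_of_mul hl
  have key : ∀ s : Finset (Fin m), Q (algebraMap (fF H Ω) (fL H Ω p a) c' *
      ∏ i ∈ s, (α - algebraMap (fF H Ω) (fL H Ω p a) (r' i))) := by
    intro s
    induction s using Finset.induction_on with
    | empty =>
      rw [Finset.prod_empty, mul_one]
      exact h1 _ (Or.inl ⟨c', hc0, rfl⟩) hcL
    | insert i s hi ih =>
      rw [Finset.prod_insert hi, mul_left_comm]
      exact h2 _ _ (hne i) (mul_ne_zero hcL (Finset.prod_ne_zero_iff.2 fun j _ => hne j))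
        (h1 _ (Or.inr ⟨r' i, rfl⟩) (hne i)) ih
  rw [el]
  exact key Finset.univ

private theorem TL_all (C : Cd p H ζ a g₀) (hPS : PS p H) {l l' : fL H Ω p a} (hl : l ≠ 0) (hl' : l' ≠ 0) :
    S l l' ∈ TL H p a := by
  obtain ⟨α, hα⟩ : ∃ α : fL H Ω p a, (α : Ω) = rt p a := ⟨⟨rt p a, fun g => g.2⟩, rfl⟩
  refine TYL_gen C hPS α hα (fun x => S x l' ∈ TL H p a) (fun x hx hx0 => ?_) (fun x y hx hy h h' => ?_) l hl
  · refine TYL_gen C hPS α hα (fun y => S x y ∈ TL H p a) (fun y hy hy0 => ?_) (fun y z hy hz h h' => ?_) l' hl'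
    · exact TL_pair α hx hy hx0 hy0
    · show S x (y * z) ∈ TL H p a
      rw [Pool.Agent.MK.S_mul_right hy hz]
      exact add_mem h h'
  · show S (x * y) l' ∈ TL H p a
    rw [Pool.Agent.MK.S_mul_left hx hy]
    exact add_mem h h'

theorem bt_k2 (C : Cd p H ζ a g₀) (hPS : PS p H) (κ : K2 (fL H Ω p a)) :
    ∃ (m : ℕ) (x : Fin m → fL H Ω p a) (y : Fin m → fF H Ω), (∀ i, x i ≠ 0) ∧ (∀ i, y i ≠ 0) ∧
      κ = ∑ i, S (x i) (algebraMap (fF H Ω) (fL H Ω p a) (y i)) := by
  have hmem : κ ∈ TL H p a := by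
    induction κ using Pool.Agent.MK.K2_induction with
    | hS l l' hl hl' => exact TL_all C hPS hl hl'
    | hz => exact zero_mem _
    | hadd x y hx hy => exact add_mem hx hy
  unfold TL at hmem
  induction hmem using AddSubgroup.closure_induction with
  | mem t ht =>
    obtain ⟨l, c, hl, hc, rfl⟩ := ht
    refine ⟨1, fun _ => l, fun _ => c, fun _ => hl, fun _ => hc, ?_⟩
    rw [Fin.sum_univ_one]
  | zero =>
    refine ⟨0, Fin.elim0, Fin.elim0, fun i => i.elim0, fun i => i.elim0, ?_⟩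
    rw [Fin.sum_univ_zero]
  | add t t' _ _ h h' =>
    obtain ⟨m, x, y, hx, hy, e⟩ := h
    obtain ⟨m', x', y', hx', hy', e'⟩ := h'
    refine ⟨m + m', Fin.append x x', Fin.append y y', ?_, ?_, ?_⟩
    · refine Fin.addCases (fun i => ?_) (fun i => ?_)
      · rw [Fin.append_left]
        exact hx i
      · rw [Fin.append_right]
        exact hx' i
    · refine Fin.addCases (fun i => ?_) (fun i => ?_)
      · rw [Fin.append_left]
        exact hy i
      · rw [Fin.append_right]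
        exact hy' i
    · rw [Fin.sum_univ_add, e, e']
      simp only [Fin.append_left, Fin.append_right]
  | neg t _ h =>
    obtain ⟨m, x, y, hx, hy, e⟩ := h
    refine ⟨m, fun i => (x i)⁻¹, y, fun i => inv_ne_zero (hx i), hy, ?_⟩
    rw [e, ← Finset.sum_neg_distrib]
    refine Finset.sum_congr rfl fun i _ => ?_
    rw [Pool.Agent.MK.S_inv_left]

private theorem kr_smul_mem (C : Cd p H ζ a g₀) (c : H) (x : fL H Ω p a) (g : kr H p a) :
    g • c • (x : Ω) = c • (x : Ω) := by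
  have h : c⁻¹ * (g : H) * c ∈ kr H p a := (MSG.kr_conj C.ga C.hz C.fz C.fa c g).1 g.2
  have h1 : (c⁻¹ * (g : H) * c) • (x : Ω) = x := x.2 ⟨_, h⟩
  have h2 : (g : H) • c • (x : Ω) = c • (c⁻¹ * (g : H) * c) • (x : Ω) := by
    rw [← mul_smul, ← mul_smul]
    congr 1
    group
  show (g : H) • c • (x : Ω) = c • (x : Ω)
  rw [h2, h1]

private theorem exists_smL (C : Cd p H ζ a g₀) (c : H) : ∃ f : fL H Ω p a →ₐ[fF H Ω] fL H Ω p a,
    ∀ x, ((f x : fL H Ω p a) : Ω) = c • (x : Ω) :=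
  ⟨{ toFun := fun x => ⟨c • (x : Ω), kr_smul_mem C c x⟩
     map_one' := Subtype.ext (smul_one c)
     map_mul' := fun x y => Subtype.ext (smul_mul' c (x : Ω) (y : Ω))
     map_zero' := Subtype.ext (smul_zero c)
     map_add' := fun x y => Subtype.ext (smul_add c (x : Ω) (y : Ω))
     commutes' := fun r => Subtype.ext (r.2 c) }, fun x => rfl⟩

/-- the cyclic extension as a `Dat` -/
theorem Cd.exists_dat (C : Cd p H ζ a g₀) (b : fF H Ω) (hb : b ≠ 0) :
    ∃ D : Pool.Agent.MSX.Dat p (fF H Ω) (fL H Ω p a), D.b = b ∧ ∀ x : fL H Ω p a, ((D.s x : fL H Ω p a) : Ω) = g₀ • (x : Ω) := by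
  obtain ⟨f, hf⟩ := exists_smL C g₀
  obtain ⟨f', hf'⟩ := exists_smL C g₀⁻¹
  obtain ⟨s, hs⟩ : ∃ s : fL H Ω p a ≃ₐ[fF H Ω] fL H Ω p a, ∀ x, ((s x : fL H Ω p a) : Ω) = g₀ • (x : Ω) :=
    ⟨AlgEquiv.ofAlgHom f f'
      (AlgHom.ext fun x => Subtype.ext (by
        show ((f (f' x) : fL H Ω p a) : Ω) = (x : Ω)
        rw [hf, hf', smul_inv_smul]))
      (AlgHom.ext fun x => Subtype.ext (by
        show ((f' (f x) : fL H Ω p a) : Ω) = (x : Ω)
        rw [hf', hf, inv_smul_smul])), hf⟩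
  have hpow : ∀ (k : ℕ) (x : fL H Ω p a), (((s ^ k) x : fL H Ω p a) : Ω) = g₀ ^ k • (x : Ω) := by
    intro k
    induction k with
    | zero =>
      intro x
      rw [pow_zero, pow_zero, one_smul]
      rfl
    | succ k ih =>
      intro x
      rw [pow_succ, pow_succ, mul_smul, ← hs, ← ih]
      rfl
  refine ⟨{ hp := C.hp
            s := s
            s_pow := fun x => Subtype.ext ?_
            s_ne := ?_
            fix := fun x hx => ?_
            b := b
            b_ne := hb }, rfl, hs⟩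
  · rw [hpow]
    exact x.2 ⟨_, MSG.kr_pow C.ga C.hz C.fz C.fa g₀⟩
  · intro h
    have h1 : g₀ • rt p a = rt p a := by
      have h2 := hs ⟨rt p a, fun g => g.2⟩
      rw [h] at h2
      exact h2.symm
    have h3 : km p ζ a g₀ = 0 := C.mem_kr.1 h1
    rw [C.g1] at h3
    haveI : Fact (1 < p) := ⟨C.hz.one_lt⟩
    exact one_ne_zero h3
  · refine ⟨⟨(x : Ω), fun g => ?_⟩, Subtype.ext rfl⟩
    refine C.fixed (fun g hg => x.2 ⟨g, hg⟩) ?_ g
    rw [← hs, hx]

/-- the cyclic extension as a `Dat` -/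
def Cd.dat (C : Cd p H ζ a g₀) (b : fF H Ω) (hb : b ≠ 0) : Pool.Agent.MSX.Dat p (fF H Ω) (fL H Ω p a) :=
  (C.exists_dat b hb).choose

theorem Cd.dat_b (C : Cd p H ζ a g₀) (b : fF H Ω) (hb : b ≠ 0) : (C.dat b hb).b = b := (C.exists_dat b hb).choose_spec.1

theorem Cd.dat_s (C : Cd p H ζ a g₀) (b : fF H Ω) (hb : b ≠ 0) (x : fL H Ω p a) :
    (((C.dat b hb).s x : fL H Ω p a) : Ω) = g₀ • (x : Ω) := (C.exists_dat b hb).choose_spec.2 x

theorem Cd.dat_div (C : Cd p H ζ a g₀) (b : fF H Ω) (hb : b ≠ 0) (h : ¬ Co (kk (G := H) p ζ a (b : Ω)) (fun _ _ => 0)) :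
    (C.dat b hb).Div := by
  intro z hz
  apply h
  have hpow : ∀ (k : ℕ) (x : fL H Ω p a), ((((C.dat b hb).s ^ k) x : fL H Ω p a) : Ω) = g₀ ^ k • (x : Ω) := by
    intro k
    induction k with
    | zero =>
      intro x
      rw [pow_zero, pow_zero, one_smul]
      rfl
    | succ k ih =>
      intro x
      rw [pow_succ, pow_succ, mul_smul, ← C.dat_s b hb, ← ih]
      rfl
  have h1 : (((C.dat b hb).N z : fL H Ω p a) : Ω) = nL p g₀ (z : Ω) := by
    have h2 : (((C.dat b hb).N z : fL H Ω p a) : Ω) =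
        ∏ i ∈ Finset.range p, ((((C.dat b hb).s ^ i) z : fL H Ω p a) : Ω) :=
      map_prod (fL H Ω p a).subtype _ _
    rw [h2]
    exact Finset.prod_congr rfl fun i _ => hpow i z
  have h2 : (((C.dat b hb).bL : fL H Ω p a) : Ω) = (b : Ω) := by
    unfold Pool.Agent.MSX.Dat.bL
    rw [algFL_val, C.dat_b]
  rw [hz, h2] at h1
  have hz0 : (z : Ω) ≠ 0 := by
    intro h0
    apply hb
    apply Subtype.ext
    rw [h1, h0]
    unfold nL
    exact Finset.prod_eq_zero (Finset.mem_range.2 C.hp.pos) (smul_zero _)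
  rw [h1]
  exact nc_of_norm C.ga C.hp C.hz C.fz C.fa C.g1 ⟨hz0, fun g hg => z.2 ⟨g, hg⟩⟩

theorem perfect (H : Type u) {Ω : Type u} [Group H] [Field Ω] [MulSemiringAction H Ω] [IsAlgClosed Ω] : PerfectField (FixedPoints.subfield H Ω) := by
  obtain ⟨q, hq⟩ := ExpChar.exists (FixedPoints.subfield H Ω)
  haveI : ExpChar Ω q := expChar_of_injective_ringHom (FixedPoints.subfield H Ω).subtype.injective q
  have hsur : Function.Surjective (frobenius (FixedPoints.subfield H Ω) q) := by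
    intro x
    obtain ⟨y, hy⟩ := IsAlgClosed.exists_pow_nat_eq (x : Ω) (expChar_pos Ω q)
    refine ⟨⟨y, fun g => ?_⟩, Subtype.ext hy⟩
    apply frobenius_inj Ω q
    show (g • y) ^ q = y ^ q
    rw [← smul_pow', hy]
    exact x.2 g
  haveI := PerfectRing.ofSurjective (FixedPoints.subfield H Ω) q hsur
  exact PerfectRing.toPerfectField (FixedPoints.subfield H Ω) q

open Polynomial in
private theorem orb_poly (hG : GA H Ω) (x : Ω) :
    ∃ q : Polynomial (FixedPoints.subfield H Ω), q.Monic ∧ aeval x q = 0 ∧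
      q.natDegree = (MulAction.orbit H x).ncard := by
  classical
  have hfin := hG.orbit_finite x
  obtain ⟨s, hs⟩ : ∃ s : Finset Ω, s = hfin.toFinset := ⟨_, rfl⟩
  obtain ⟨P, hP⟩ : ∃ P : Polynomial Ω, P = ∏ y ∈ s, (X - C y) := ⟨_, rfl⟩
  have hPm : P.Monic := by
    rw [hP]
    exact monic_prod_of_monic _ _ fun y _ => monic_X_sub_C y
  have hmem : ∀ y, y ∈ s ↔ y ∈ MulAction.orbit H x := fun y => by
    rw [hs]
    exact hfin.mem_toFinset
  have hinv : ∀ g : H, P.map (MulSemiringAction.toRingHom H Ω g) = P := by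
    intro g
    rw [hP, Polynomial.map_prod]
    refine Finset.prod_bij (fun y _ => g • y) ?_ ?_ ?_ ?_
    · intro y hy
      rw [hmem] at hy ⊢
      exact MulAction.mem_orbit_of_mem_orbit g hy
    · intro y _ z _ h
      exact smul_left_cancel g h
    · intro y hy
      refine ⟨g⁻¹ • y, ?_, smul_inv_smul g y⟩
      rw [hmem] at hy ⊢
      exact MulAction.mem_orbit_of_mem_orbit g⁻¹ hy
    · intro y _
      rw [Polynomial.map_sub, map_X, map_C]
      rfl
  have hlift : P ∈ Polynomial.lifts (algebraMap (FixedPoints.subfield H Ω) Ω) := by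
    rw [lifts_iff_coeff_lifts]
    intro n
    refine ⟨⟨P.coeff n, fun g => ?_⟩, rfl⟩
    have h := congrArg (fun Q => coeff Q n) (hinv g)
    simpa [coeff_map] using h
  obtain ⟨q, hq, hqd, hqm⟩ := lifts_and_natDegree_eq_and_monic hlift hPm
  refine ⟨q, hqm, ?_, ?_⟩
  · rw [aeval_def, ← eval_map, hq, hP, eval_prod]
    exact Finset.prod_eq_zero ((hmem x).2 (MulAction.mem_orbit_self x)) (by simp)
  · rw [hqd, hP, natDegree_prod_of_monic _ _ fun y _ => monic_X_sub_C y, hs,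
      Set.ncard_eq_toFinset_card _ hfin]
    simp

theorem ps_F (hH : GA H Ω) (hPS : PS p H) : Pool.Agent.MSX.PS p (FixedPoints.subfield H Ω) := by
  classical
  haveI := hH.alg
  intro f hf
  have hf0 : f ≠ 0 := hf.ne_zero
  have hd : f.degree ≠ 0 := by
    intro h
    exact hf.not_isUnit (Polynomial.isUnit_iff_degree_eq_zero.2 h)
  obtain ⟨r, hr⟩ := IsAlgClosed.exists_aeval_eq_zero Ω f hd
  obtain ⟨q, hqm, hq, hqd⟩ := orb_poly hH r
  have hfq : f ∣ q := by
    have h1 := minpoly.eq_of_irreducible hf hr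
    have h2 : minpoly (FixedPoints.subfield H Ω) r ∣ q := minpoly.dvd _ r hq
    rw [← h1] at h2
    exact (dvd_mul_right _ _).trans h2
  have h1 : f.natDegree ≤ (MulAction.orbit H r).ncard := by
    rw [← hqd]
    exact Polynomial.natDegree_le_of_dvd hfq hqm.ne_zero
  have h2 : (MulAction.orbit H r).ncard ≤ f.natDegree := by
    have horb : MulAction.orbit H r ⊆ (f.rootSet Ω : Set Ω) := by
      rintro _ ⟨h, rfl⟩
      rw [Polynomial.mem_rootSet]
      refine ⟨hf0, ?_⟩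
      have h3 : Polynomial.aeval (h • r) f = h • Polynomial.aeval r f := by
        rw [Polynomial.aeval_def, Polynomial.aeval_def]
        have h4 := Polynomial.hom_eval₂ f (algebraMap (FixedPoints.subfield H Ω) Ω)
          (MulSemiringAction.toRingHom H Ω h) r
        have h5 : (MulSemiringAction.toRingHom H Ω h).comp (algebraMap (FixedPoints.subfield H Ω) Ω) =
            algebraMap (FixedPoints.subfield H Ω) Ω := RingHom.ext fun x => x.2 h
        rw [h5] at h4
        exact h4.symm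
      rw [h3, hr, smul_zero]
    exact (Set.ncard_le_ncard horb (Polynomial.rootSet_finite f Ω)).trans (Polynomial.ncard_rootSet_le f Ω)
  obtain ⟨k, hk⟩ := hPS (MulAction.stabilizer H r) (hH.stab r)
  rw [MulAction.index_stabilizer] at hk
  exact ⟨k, (le_antisymm h1 h2).trans hk⟩

theorem ps_kr (C : Cd p H ζ a g₀) (hPS : PS p H) : PS p (kr H p a) := by
  intro U hU
  have hop : IsOpen ((U.map (kr H p a).subtype : Subgroup H) : Set H) := by
    rw [Subgroup.coe_map]
    exact C.open'.isOpenMap_subtype_val _ hU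
  obtain ⟨k, hk⟩ := hPS _ hop
  rw [Subgroup.index_map_subtype] at hk
  obtain ⟨m, _, hm⟩ := (Nat.dvd_prime_pow C.hp).1 (Dvd.intro _ hk)
  exact ⟨m, hm⟩

theorem ga_kr (C : Cd p H ζ a g₀) : GA (kr H p a) Ω := by
  haveI := C.ga.top
  exact C.ga.sub _ (Subgroup.isClosed_of_isOpen _ C.open')

end

end MSN
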