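import Pool.Agent.MSN.Pb
import Pool.Agent.MSG.Dsp

/-! # MSN / Ov: pairs `(G, Ω)` over a field `F` (imperfect allowed)

`Ov F G Ω j`: `(G, Ω)` is a Galois pair (`GA`), `j : F →+* Ω` has image fixed by `G`, and every element fixed by `G` has a power
`x ^ (q ^ n)` in `j F`, `q = ringExpChar Ω`: `Ω^G` is the perfect closure of `j F`.

PROOFS.
* `exists_ov`: `Ω = AlgebraicClosure F`, `E = perfectClosure F Ω` (Mathlib; `mem_perfectClosure_iff_pow_mem`), a perfect field, `Ω/E` is Galois, `G = Gal(Ω/E)`, `GA.gal`; `j` is the structure map; elements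
  fixed by `G` lie in `E` (`InfiniteGalois.mem_range_algebraMap_iff_fixed` or `IsGalois`...).  See the proof of `exists_pair` in MSG/Dsp.lean.
* `Ov.mo`: `φ : F →+* Ω'` with image fixed by `G'`.  For `x` in the fixed field `E₀ = FixedPoints.subfield G Ω` choose `x ^ (q ^ n) = j y`; in the algebraically closed `Ω'`, which has the same exponential
  characteristic (`ringExpChar` : `φ` is a field homomorphism), there is a unique `z` with `z ^ (q ^ n) = φ y` (`IsAlgClosed.exists_pow_nat_eq`, `iterateFrobenius_inj`), independent of the choices.  `x ↦ z` is a ring homomorphism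
  `E₀ → Ω'` (uniqueness), with image fixed by `G'` (uniqueness), extending `φ`.  Alternative: `Ω` is algebraic over `F` (via `j`): `E₀` is algebraic over `j F` by `pi`; so `φ` extends to `Ψ : Ω →+* Ω'`
  (`IsAlgClosed.lift`), restrict `Ψ` to `E₀`: `g • Ψ x` and `Ψ x` have the same `q ^ n`-th power.  Then `exists_Mo`.
* `Ov.agree`: if `m.ψ (j y) = m'.ψ (j y)` for all `y` and `x` is fixed by `G`: the `q ^ n`-th powers of `m.ψ x` and `m'.ψ x` agree, so `m.ψ x = m'.ψ x`.
* `Ov.conj`: `Ov.agree` and `bqm_conj`.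
* `Ov.self`: `n = 0`.
* `Ov.k2`: for `κ ∈ K₂(Ω^G)` write `κ` as a sum of symbols `{x, y}`; `x ^ (q ^ n), y ^ (q ^ n)` in the image of `F` for a common `n`, and
  `q ^ n * q ^ n • {x, y} = {x ^ (q ^ n), y ^ (q ^ n)}`; `N = q ^ (2 n)`; sums: multiply the `N`'s.  (`K2_induction`.)
* `Ov.tr`: if `Ov F G Ω j` and `Ω^G = Ω^G` for `F → F'` purely inseparable: not needed.
-/

set_option autoImplicit false
set_option linter.unusedSectionVars false
set_option linter.unusedVariables false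

namespace MSN

universe u

open MSG

open Pool.Agent.MK (K2 S)

noncomputable section

/-- the pair `(G, Ω)` is a Galois pair over the field `F` (up to purely inseparable extensions) -/
structure Ov (F G : Type u) {Ω : Type u} [Field F] [Group G] [TopologicalSpace G] [Field Ω] [MulSemiringAction G Ω]
    (j : F →+* Ω) : Prop where
  /-- Galois pair -/
  ga : GA G Ω
  /-- `j F` is fixed -/
  fj : ∀ (g : G) (x : F), g • j x = j x
  /-- fixed elements are purely inseparable over `j F` -/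
  pi : ∀ x : Ω, (∀ g : G, g • x = x) → ∃ (n : ℕ) (y : F), x ^ (ringExpChar Ω ^ n) = j y

private theorem ov_frob {K : Type u} [Field K] (q : ℕ) [ExpChar K q] (n : ℕ) {x y : K}
    (h : x ^ (q ^ n) = y ^ (q ^ n)) : x = y :=
  iterateFrobenius_inj K q n (by rw [iterateFrobenius_def, iterateFrobenius_def, h])

private theorem ov_exp {K L : Type u} [Field K] [Field L] (ψ : K →+* L) : ExpChar L (ringExpChar K) :=
  expChar_of_injective_ringHom ψ.injective (ringExpChar K)

private theorem ov_cop {K : Type u} [Field K] (q : ℕ) [hq : ExpChar K q] {p : ℕ} (hp : p.Prime)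
    (h : (p : K) ≠ 0) : q.Coprime p := by
  rcases hq with _ | hq'
  · exact Nat.coprime_one_left p
  · rw [Nat.coprime_primes hq' hp]
    intro e
    apply h
    rw [← e]
    exact CharP.cast_eq_zero K q

theorem exists_ov (F : Type u) [Field F] : ∃ (G Ω : Type u) (_ : Group G) (_ : TopologicalSpace G) (_ : Field Ω)
    (_ : MulSemiringAction G Ω) (j : F →+* Ω), Ov F G j := by
  have hgal : IsGalois (perfectClosure F (AlgebraicClosure F)) (AlgebraicClosure F) := IsGalois.mk
  have hGA := GA.gal (perfectClosure F (AlgebraicClosure F)) (AlgebraicClosure F)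
  have hq : ExpChar F (ringExpChar (AlgebraicClosure F)) :=
    ((algebraMap F (AlgebraicClosure F)).expChar_iff (algebraMap F (AlgebraicClosure F)).injective _).2
      inferInstance
  refine ⟨Gal(AlgebraicClosure F/perfectClosure F (AlgebraicClosure F)), AlgebraicClosure F,
    inferInstance, inferInstance, inferInstance, inferInstance, algebraMap F (AlgebraicClosure F),
    hGA, fun g x => ?_, fun x hx => ?_⟩
  · rw [AlgEquiv.smul_def,
      IsScalarTower.algebraMap_apply F (perfectClosure F (AlgebraicClosure F)) (AlgebraicClosure F)]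
    exact g.commutes _
  · obtain ⟨y, hy⟩ := (InfiniteGalois.mem_range_algebraMap_iff_fixed x).2 hx
    have h1 : x ∈ perfectClosure F (AlgebraicClosure F) := by
      rw [← hy]
      exact y.2
    obtain ⟨n, z, hz⟩ := (mem_perfectClosure_iff_pow_mem (ringExpChar (AlgebraicClosure F))).1 h1
    exact ⟨n, z, hz.symm⟩

variable {F G Ω G' Ω' : Type u} [Field F] [Group G] [TopologicalSpace G] [Field Ω] [MulSemiringAction G Ω]
  [Group G'] [TopologicalSpace G'] [Field Ω'] [MulSemiringAction G' Ω'] {j : F →+* Ω}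

private theorem ov_ext (h : Ov F G j) (h' : IsAlgClosed Ω') (φ : F →+* Ω') :
    ∃ Ψ : Ω →+* Ω', ∀ x : F, Ψ (j x) = φ x := by
  let i0 : F →+* FixedPoints.subfield G Ω :=
    j.codRestrict (FixedPoints.subfield G Ω).toSubring (fun x g => h.fj g x)
  let _ : Algebra F Ω := j.toAlgebra
  let _ : Algebra F (FixedPoints.subfield G Ω) := i0.toAlgebra
  let _ : Algebra F Ω' := φ.toAlgebra
  have ht : IsScalarTower F (FixedPoints.subfield G Ω) Ω := IsScalarTower.of_algebraMap_eq fun x => rfl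
  have h1 := h.ga.algebraic
  have h2 : Algebra.IsAlgebraic F (FixedPoints.subfield G Ω) := by
    refine ⟨fun x => ?_⟩
    obtain ⟨n, y, hy⟩ := h.pi x x.2
    have hq : 0 < ringExpChar Ω ^ n := pow_pos (expChar_pos Ω (ringExpChar Ω)) n
    refine ⟨Polynomial.X ^ (ringExpChar Ω ^ n) - Polynomial.C y,
      Polynomial.X_pow_sub_C_ne_zero hq y, ?_⟩
    rw [map_sub, map_pow, Polynomial.aeval_X, Polynomial.aeval_C, sub_eq_zero]
    exact Subtype.ext hy
  have h3 : Algebra.IsAlgebraic F Ω := Algebra.IsAlgebraic.trans F (FixedPoints.subfield G Ω) Ω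
  let l : Ω →ₐ[F] Ω' := IsAlgClosed.lift
  exact ⟨l.toRingHom, fun x => l.commutes x⟩

theorem Ov.mo (h : Ov F G j) (h' : GA G' Ω') (φ : F →+* Ω') (hφ : ∀ (g : G') (x : F), g • φ x = φ x) :
    ∃ m : Mo G Ω G' Ω', ∀ x : F, m.ψ (j x) = φ x := by
  obtain ⟨Ψ, hΨ⟩ := ov_ext h h'.alg φ
  have he := ov_exp Ψ
  obtain ⟨m, hm⟩ := exists_Mo h.ga h' (Ψ.comp (FixedPoints.subfield G Ω).subtype) (fun x g => by
    obtain ⟨n, y, hy⟩ := h.pi x x.2
    have h1 : Ψ (x : Ω) ^ (ringExpChar Ω ^ n) = φ y := by rw [← map_pow, hy, hΨ]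
    refine ov_frob (ringExpChar Ω) n ?_
    show (g • Ψ (x : Ω)) ^ (ringExpChar Ω ^ n) = Ψ (x : Ω) ^ (ringExpChar Ω ^ n)
    rw [← smul_pow', h1, hφ])
  refine ⟨m, fun x => ?_⟩
  have h2 := hm ⟨j x, fun g => h.fj g x⟩
  exact h2.trans (hΨ x)

theorem Ov.agree (h : Ov F G j) (m m' : Mo G Ω G' Ω') (hm : ∀ y : F, m.ψ (j y) = m'.ψ (j y)) {x : Ω}
    (hx : ∀ g : G, g • x = x) : m.ψ x = m'.ψ x := by
  have he := ov_exp m.ψ
  obtain ⟨n, y, hy⟩ := h.pi x hx
  refine ov_frob (ringExpChar Ω) n ?_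
  rw [← map_pow, ← map_pow, hy, hm]

theorem Ov.conj (h : Ov F G j) (m m' : Mo G Ω G' Ω') (hm : ∀ y : F, m.ψ (j y) = m'.ψ (j y)) {f : G → G → Ω}
    (hf : Zo f) : bqm m' (bc f) = bqm m (bc f) :=
  bqm_conj h.ga m m' (fun x hx => h.agree m m' hm hx) hf

theorem Ov.self (h : GA G Ω) : Ov (FixedPoints.subfield G Ω) G (FixedPoints.subfield G Ω).subtype :=
  ⟨h, fun g x => x.2 g, fun x hx => ⟨0, ⟨x, hx⟩, by
    rw [pow_zero, pow_one]
    rfl⟩⟩

/-- `F → Ω^G` -/
def Ov.toFix (h : Ov F G j) : F →+* FixedPoints.subfield G Ω :=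
  j.codRestrict (FixedPoints.subfield G Ω).toSubring (fun x g => h.fj g x)

theorem Ov.toFix_val (h : Ov F G j) (x : F) : ((h.toFix x : FixedPoints.subfield G Ω) : Ω) = j x := rfl

/-- `K₂` of the perfect closure -/
theorem Ov.k2 (h : Ov F G j) {p : ℕ} (hp : p.Prime) (hpΩ : (p : Ω) ≠ 0) (κ : K2 (FixedPoints.subfield G Ω)) :
    ∃ (N : ℕ) (κ' : K2 F), N.Coprime p ∧ N • κ = K2.map h.toFix κ' := by
  have hc : (ringExpChar Ω).Coprime p := ov_cop (ringExpChar Ω) hp hpΩ
  induction κ using Pool.Agent.MK.K2_induction with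
  | hS a b ha hb =>
    obtain ⟨n, y, hy⟩ := h.pi a a.2
    obtain ⟨m, z, hz⟩ := h.pi b b.2
    refine ⟨ringExpChar Ω ^ n * ringExpChar Ω ^ m, S y z,
      Nat.Coprime.mul_left (hc.pow_left n) (hc.pow_left m), ?_⟩
    have e1 : h.toFix y = a ^ (ringExpChar Ω ^ n) := Subtype.ext hy.symm
    have e2 : h.toFix z = b ^ (ringExpChar Ω ^ m) := Subtype.ext hz.symm
    rw [Pool.Agent.MK.K2.map_S, e1, e2, Pool.Agent.MK.S_pow_left, Pool.Agent.MK.S_pow_right,
      mul_smul]
  | hz => exact ⟨1, 0, Nat.coprime_one_left p, by rw [map_zero, smul_zero]⟩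
  | hadd x y hx hy =>
    obtain ⟨N, κ, hN, hκ⟩ := hx
    obtain ⟨M, ν, hM, hν⟩ := hy
    refine ⟨N * M, M • κ + N • ν, Nat.Coprime.mul_left hN hM, ?_⟩
    rw [map_add, map_nsmul, map_nsmul, ← hκ, ← hν, smul_add, smul_smul, smul_smul, mul_comm M N]

/-- the subgroup `Gi` is everything if all roots of unity of p-power order come from `F` -/
theorem Ov.all (h : Ov F G j) {p : ℕ} (hF : ∀ (x : Ω) (k : ℕ), x ^ (p ^ k) = 1 → ∃ y : F, j y = x) (g : G) (x : Ω) (k : ℕ)
    (hx : x ^ (p ^ k) = 1) : g • x = x := by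
  obtain ⟨y, rfl⟩ := hF x k hx
  exact h.fj g y

end

end MSN
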