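import Pool.Agent.MSX.Laur
import Pool.Agent.MSN.Ov

/-! # MSN / Lm: Laurent series: change of coefficients

`lm φ : LaurentSeries k →+* LaurentSeries k'` applies `φ : k →+* k'` to the coefficients.

PROOFS.  `HahnSeries.map` is the underlying function (`HahnSeries.map_coeff`); additivity: coefficients; multiplicativity: `HahnSeries.coeff_mul` : the sum over `addAntidiagonal` of the supports; the support of
`lm φ x` is the support of `x` because `φ` is injective.  `lm_C`: `HahnSeries.map_C` or coefficients.  `lm_X`: `HahnSeries.map_single`.  `lm_order`, `lm_lc`: same support.  `lm_comp`, `lm_id`: coefficients.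
`lm_inj`: field homomorphism.  `lm_fix`: `lm_comp`.
-/

set_option autoImplicit false

namespace MSN

universe u v w

noncomputable section

variable {k : Type u} {k' : Type v} {k'' : Type w} [Field k] [Field k'] [Field k'']

/-- change of coefficients -/
def lm (φ : k →+* k') : LaurentSeries k →+* LaurentSeries k' where
  toFun x := HahnSeries.map x φ
  map_one' := by
    have h := HahnSeries.map_C (Γ := ℤ) (1 : k) φ
    rw [map_one, map_one, map_one] at h
    exact h
  map_zero' := by
    ext n
    exact map_zero φ
  map_add' x y := by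
    ext n
    exact map_add φ _ _
  map_mul' x y := HahnSeries.map_mul (φ : k →ₙ+* k')

theorem lm_coeff (φ : k →+* k') (x : LaurentSeries k) (n : ℤ) : (lm φ x).coeff n = φ (x.coeff n) := rfl

theorem lm_C (φ : k →+* k') (c : k) : lm φ (HahnSeries.C c) = HahnSeries.C (φ c) := by
  exact HahnSeries.map_C c φ

/-- the variable -/
def lT (k : Type u) [Field k] : LaurentSeries k := HahnSeries.single 1 1

theorem lT_ne : lT k ≠ 0 := by
  exact HahnSeries.single_ne_zero one_ne_zero

theorem lm_T (φ : k →+* k') : lm φ (lT k) = lT k' := by
  ext n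
  rw [lm_coeff, lT, lT]
  by_cases h : n = 1
  · rw [h, HahnSeries.coeff_single_same, HahnSeries.coeff_single_same, map_one]
  · rw [HahnSeries.coeff_single_of_ne h, HahnSeries.coeff_single_of_ne h, map_zero]

theorem lm_order (φ : k →+* k') (x : LaurentSeries k) : (lm φ x).order = x.order := by
  by_cases hx : x = 0
  · rw [hx, map_zero, HahnSeries.order_zero, HahnSeries.order_zero]
  · have hx' : lm φ x ≠ 0 := (map_ne_zero (lm φ)).2 hx
    apply le_antisymm
    · apply HahnSeries.order_le_of_coeff_ne_zero
      rw [lm_coeff]
      exact (map_ne_zero φ).2 (mt HahnSeries.coeff_order_eq_zero.1 hx)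
    · apply HahnSeries.order_le_of_coeff_ne_zero
      intro h0
      have h1 := mt HahnSeries.coeff_order_eq_zero.1 hx'
      apply h1
      rw [lm_coeff, h0, map_zero]

theorem lm_lc (φ : k →+* k') (x : LaurentSeries k) : (lm φ x).leadingCoeff = φ x.leadingCoeff := by
  rw [HahnSeries.leadingCoeff_eq, HahnSeries.leadingCoeff_eq, lm_order, lm_coeff]

theorem lm_comp (φ : k →+* k') (ψ : k' →+* k'') (x : LaurentSeries k) : lm ψ (lm φ x) = lm (ψ.comp φ) x := rfl

theorem lT_order : (lT k).order = 1 := by
  exact HahnSeries.order_single one_ne_zero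

theorem lT_lc : (lT k).leadingCoeff = 1 := by
  exact HahnSeries.leadingCoeff_of_single

theorem lC_order (c : k) : (HahnSeries.C c : LaurentSeries k).order = 0 := by
  exact HahnSeries.order_C

theorem lC_lc (c : k) : (HahnSeries.C c : LaurentSeries k).leadingCoeff = c := by
  exact HahnSeries.leadingCoeff_of_single

end

end MSN
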