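import Pool.Agent.MSN.Sb
import Pool.Agent.MSG.Uo

/-! # MSN / Pb: pull back along morphisms of pairs; the subgroup `Gi` fixing all roots of unity of `p`-power order

`m.pf f g h = m.ψ (f (m.r g) (m.r h))`, `bqm m : Bq H Ω →+ Bq H' Ω'` the induced homomorphism.  `Gi p G Ω` is the (closed, normal) subgroup of `G` fixing all
`x` with `x ^ (p ^ k) = 1` for some `k`; `ri : Bq G Ω →+ Bq (Gi p G Ω) Ω` is the restriction, `cjm c : Mo N Ω N Ω` the conjugation by `c ∈ G` for a normal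
subgroup `N` (`x ↦ c • x`, `g ↦ c⁻¹ g c`).

-/

set_option autoImplicit false
set_option linter.unusedSectionVars false
set_option linter.unusedVariables false

namespace MSN

universe u v w

open MSG

open Pool.Agent.MK (K2 S)

noncomputable section

section

variable {H Ω H' Ω' H'' Ω'' : Type u} [Group H] [TopologicalSpace H] [Field Ω] [MulSemiringAction H Ω]
  [Group H'] [TopologicalSpace H'] [Field Ω'] [MulSemiringAction H' Ω']
  [Group H''] [TopologicalSpace H''] [Field Ω''] [MulSemiringAction H'' Ω'']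

/-- pull back of cochains -/
def pf (m : Mo H Ω H' Ω') (f : H → H → Ω) (g h : H') : Ω' := m.ψ (f (m.r g) (m.r h))

theorem Nz.pf {f : H → H → Ω} (hf : Nz f) (m : Mo H Ω H' Ω') : Nz (MSN.pf m f) :=
  fun g h => (map_ne_zero m.ψ).2 (hf _ _)

theorem zo_pf {f : H → H → Ω} (hf : Zo f) (m : Mo H Ω H' Ω') : Zo (MSN.pf m f) := pbu_Zu m hf

/-- pull back of unit valued cochains -/
def pfu (m : Mo H Ω H' Ω') : (H → H → Ωˣ) →* (H' → H' → Ω'ˣ) where
  toFun f := fun g h => Units.map (m.ψ : Ω →* Ω') (f (m.r g) (m.r h))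
  map_one' := by
    funext g h
    simp
  map_mul' f f' := by
    funext g h
    simp

theorem pfu_Bd (m : Mo H Ω H' Ω') : Bd H Ω ≤ (Bd H' Ω').comap (pfu m) := by
  rintro f ⟨u, hu, h⟩
  refine ⟨fun g => Units.map (m.ψ : Ω →* Ω') (u (m.r g)), ?_, fun g k => ?_⟩
  · exact (hu.comp_continuous m.cont).comp (Units.map (m.ψ : Ω →* Ω'))
  · show m.ψ (f (m.r g) (m.r k) : Ω) * m.ψ (u (m.r (g * k)) : Ω) = m.ψ (u (m.r g) : Ω) * g • m.ψ (u (m.r k) : Ω)
    rw [← m.comp, ← map_mul, ← map_mul, map_mul m.r, h]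

/-- pull back of classes -/
def bqm (m : Mo H Ω H' Ω') : Bq H Ω →+ Bq H' Ω' :=
  MonoidHom.toAdditive (QuotientGroup.map (Bd H Ω) (Bd H' Ω') (pfu m) (pfu_Bd m))

theorem bqm_bu (m : Mo H Ω H' Ω') (f : H → H → Ωˣ) : bqm m (bu f) = bu (pfu m f) := rfl

theorem bqm_bc (m : Mo H Ω H' Ω') {f : H → H → Ω} (hf : Nz f) : bqm m (bc f) = bc (pf m f) := by
  rw [bc, bc, bqm_bu]
  congr 1
  funext g h
  apply Units.ext
  rw [uc_val (hf.pf m)]
  show m.ψ (uc f (m.r g) (m.r h) : Ω) = _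
  rw [uc_val hf]
  rfl

theorem bqm_cmp (m : Mo H Ω H' Ω') (m' : Mo H' Ω' H'' Ω'') (x : Bq H Ω) : bqm (m.cmp m') x = bqm m' (bqm m x) := by
  obtain ⟨f, rfl⟩ := bu_surj x
  rfl

theorem bqm_idm (x : Bq H Ω) : bqm (Mo.idm H Ω) x = x := by
  obtain ⟨f, rfl⟩ := bu_surj x
  rw [bqm_bu]
  congr 1

variable {n : ℕ} {ζ : Ω}

theorem pf_zf (m : Mo H Ω H' Ω') (f : H → H → ZMod n) :
    pf m (zf ζ f) = zf (m.ψ ζ) (fun g h => f (m.r g) (m.r h)) := by
  funext g h
  show m.ψ (zp ζ _) = zp (m.ψ ζ) _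
  unfold zp
  rw [map_pow]

theorem Lv.pull (m : Mo H Ω H' Ω') (hH' : GA H' Ω') {F : Type u} [Field F] {j : F →+* Ω} (L : Lv n H ζ j) :
    Lv n H' (m.ψ ζ) (m.ψ.comp j) :=
  ⟨hH', m.pz L.pz, fun g => by rw [← m.comp, L.fz], fun g x => by
    show g • m.ψ (j x) = m.ψ (j x)
    rw [← m.comp, L.fj]⟩

theorem bqm_sb (m : Mo H Ω H' Ω') (hH : GA H Ω) (hH' : GA H' Ω') (hz : PZ n ζ) (hζ : ∀ g : H, g • ζ = ζ) {a b : Ω}
    (ha : Fx H a) (hb : Fx H b) : pf m (sb n ζ a b) = sb n (m.ψ ζ) (m.ψ a) (m.ψ b) := by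
  have := hH.alg
  have := hH'.alg
  funext g h
  show m.ψ (zp ζ _) = zp (m.ψ ζ) _
  rw [m.km hz ha.1 (hζ _) (ha.2 _), m.km hz hb.1 (hζ _) (hb.2 _)]
  unfold zp
  rw [map_pow]

theorem bqm_hB (m : Mo H Ω H' Ω') {F : Type u} [Field F] {j : F →+* Ω} (L : Lv n H ζ j)
    (L' : Lv n H' (m.ψ ζ) (m.ψ.comp j)) (x : K2 F) : bqm m (hB L x) = hB L' x := by
  induction x using Pool.Agent.MK.K2_induction with
  | hS a b ha hb =>
    rw [hB_S L ha hb, hB_S L' ha hb, bqm_bc m (nz_sb L.pz _ _), bqm_sb m L.ga L'.ga L.pz L.fz (L.fx ha) (L.fx hb)]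
    rfl
  | hz => simp
  | hadd x y hx hy => rw [map_add, map_add, hx, hy, map_add]

/-- a cocycle and its conjugate are cohomologous -/
theorem bo_cj (hH : GA H Ω) {f : H → H → Ω} (hf : Zo f) (c : H) : Cu (cju c f) f := Cu_conj hH hf c

/-- two morphisms which agree on the fixed field give the same pull back of cocycles -/
theorem bqm_conj (hH : GA H Ω) (m m' : Mo H Ω H' Ω') (h : ∀ x : Ω, (∀ g : H, g • x = x) → m.ψ x = m'.ψ x)
    {f : H → H → Ω} (hf : Zo f) : bqm m' (bc f) = bqm m (bc f) := by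
  have h0 : Nz f := hf.ne
  rw [bqm_bc m' h0, bqm_bc m h0, bc_eq_cu (h0.pf m') (h0.pf m)]
  exact pbu_conj hH m m' h hf

end

section gi

variable (p : ℕ) (G : Type u) (Ω : Type u) [Group G] [TopologicalSpace G] [Field Ω] [MulSemiringAction G Ω]

/-- the subgroup fixing the roots of unity of p-power order -/
def Gi : Subgroup G where
  carrier := {g | ∀ (x : Ω) (k : ℕ), x ^ (p ^ k) = 1 → g • x = x}
  mul_mem' := by
    intro a b ha hb x k hx
    rw [mul_smul, hb x k hx, ha x k hx]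
  one_mem' := fun x k _ => one_smul G x
  inv_mem' := by
    intro a ha x k hx
    rw [inv_smul_eq_iff, ha x k hx]

variable {p G Ω}

theorem gi_closed (hG : GA G Ω) : IsClosed (Gi p G Ω : Set G) := by
  have := hG.top
  have h : (Gi p G Ω : Set G) = ⋂ (x : Ω) (k : ℕ) (_ : x ^ (p ^ k) = 1), (MulAction.stabilizer G x : Set G) := by
    ext g
    simp only [Set.mem_iInter]
    exact Iff.rfl
  rw [h]
  exact isClosed_iInter fun x => isClosed_iInter fun k => isClosed_iInter fun _ =>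
    Subgroup.isClosed_of_isOpen _ (hG.stab x)

theorem gi_normal : (Gi p G Ω).Normal := by
  refine ⟨fun n hn g x k hx => ?_⟩
  have h1 : n • (g⁻¹ • x) = g⁻¹ • x := hn (g⁻¹ • x) k (by rw [← smul_pow', hx, smul_one])
  rw [mul_smul, mul_smul, h1, smul_inv_smul]

theorem gi_ga (hG : GA G Ω) : GA (Gi p G Ω) Ω := hG.sub _ (gi_closed hG)

theorem gi_fix (g : Gi p G Ω) {x : Ω} {k : ℕ} (hx : x ^ (p ^ k) = 1) : g • x = x := g.2 x k hx

variable (p G Ω)

/-- restriction of classes to the subgroup `Gi` -/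
def ri : Bq G Ω →+ Bq (Gi p G Ω) Ω := bqm (Mo.incl G Ω (Gi p G Ω))

variable {p G Ω}

/-- restriction of a cochain to a subgroup -/
def rs (N : Subgroup G) (f : G → G → Ω) (g h : N) : Ω := f g h

theorem ri_bc {f : G → G → Ω} (hf : Nz f) : ri p G Ω (bc f) = bc (rs (Gi p G Ω) f) := bqm_bc _ hf

variable {G' Ω' : Type u} [Group G'] [TopologicalSpace G'] [Field Ω'] [MulSemiringAction G' Ω']

/-- a morphism induces a morphism of the subgroups `Gi` -/
def gim (p : ℕ) (m : Mo G Ω G' Ω') : Mo (Gi p G Ω) Ω (Gi p G' Ω') Ω' where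
  ψ := m.ψ
  r := (m.r.comp (Gi p G' Ω').subtype).codRestrict (Gi p G Ω) (fun g x k hx => by
    apply m.ψ.injective
    show m.ψ (m.r g • x) = m.ψ x
    rw [m.comp]
    exact g.2 (m.ψ x) k (by rw [← map_pow, hx, map_one]))
  cont := (m.cont.comp continuous_subtype_val).subtype_mk _
  comp g x := m.comp g x

theorem gim_ri (p : ℕ) (m : Mo G Ω G' Ω') (x : Bq G Ω) : bqm (gim p m) (ri p G Ω x) = ri p G' Ω' (bqm m x) := by
  rw [ri, ri, ← bqm_cmp, ← bqm_cmp]
  rfl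

/-- if `G'` fixes all roots of unity of p-power order then `m` factors through `Gi` -/
def toGi (p : ℕ) (m : Mo G Ω G' Ω') (h : ∀ (g : G') (x : Ω') (k : ℕ), x ^ (p ^ k) = 1 → g • x = x) :
    Mo (Gi p G Ω) Ω G' Ω' where
  ψ := m.ψ
  r := m.r.codRestrict (Gi p G Ω) (fun g x k hx => by
    apply m.ψ.injective
    rw [m.comp]
    exact h g (m.ψ x) k (by rw [← map_pow, hx, map_one]))
  cont := m.cont.subtype_mk _
  comp g x := m.comp g x

theorem toGi_ri (p : ℕ) (m : Mo G Ω G' Ω') (h : ∀ (g : G') (x : Ω') (k : ℕ), x ^ (p ^ k) = 1 → g • x = x) (x : Bq G Ω) :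
    bqm (toGi p m h) (ri p G Ω x) = bqm m x := by
  rw [ri, ← bqm_cmp]
  rfl

/-- conjugation by `c` on a normal subgroup -/
def cjm [IsTopologicalGroup G] (N : Subgroup G) [hN : N.Normal] (c : G) : Mo N Ω N Ω where
  ψ := MulSemiringAction.toRingHom G Ω c
  r := (MulAut.conjNormal c⁻¹ : MulAut N).toMonoidHom
  cont := by
    refine Continuous.subtype_mk ?_ _
    fun_prop
  comp g x := by
    show c • ((MulAut.conjNormal c⁻¹ g : N) : G) • x = (g : G) • c • x
    rw [MulAut.conjNormal_apply, inv_inv, ← mul_smul, ← mul_smul]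
    congr 1
    group

end gi

end

end MSN
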