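import Pool.Agent.MSN.Lm

/-! # MSN / Ph: pairs over `k` and over `k((t))`: the comparison with `Ω₀((t))`

`(G₀, Ω₀, j₀)` a pair over `k`, `(G, Ω, j)` a pair over `k((t))`, `μ` a morphism of pairs over `k → k((t))`.  `Ωh = AlgebraicClosure (LaurentSeries Ω₀)`.

PROOFS.
* `exists_phi`.  Let `ι = algebraMap (LaurentSeries Ω₀) Ωh`.  `Ω` is algebraic over `j (k((t)))` (`Ov.pi` and `GA.algebraic`: every `x` in `Ω` is algebraic over the fixed field, whose elements have a power in the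
  image of `j`), `Ωh` is algebraically closed, so `ι ∘ lm j₀ : k((t)) → Ωh` extends to `Φ₀ : Ω →+* Ωh`, `Φ₀ (j x) = ι (lm j₀ x)` (`IsAlgClosed.lift`).  Both `α ↦ Φ₀ (μ.ψ α)` and
  `α ↦ ι (C α)` are embeddings `Ω₀ → Ωh` which agree on `j₀ k`; their images are both the set of elements algebraic over `ι (C (j₀ k))` (`Ω₀` is algebraically closed and algebraic over `j₀ k`), so there is a ring automorphism
  `σ` of `Ω₀` with `Φ₀ (μ.ψ α) = ι (C (σ α))`, `σ` fixes `j₀ k`, hence the elements fixed by `G₀` (`Ov.pi`, Frobenius injective), hence `σ α = g₀ • α` for some `g₀ : G₀` (`GA.exists_smul`, MSG/Art.lean).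
  `lm (g₀ • ·)` is an automorphism of `LaurentSeries Ω₀`, it extends to an automorphism `τ` of `Ωh` (`IsAlgClosure.equivOfEquiv` or similar); `Φ = τ⁻¹ ∘ Φ₀`.  (`lm (g₀ •)` fixes `lm j₀ x`.)
* `mu_surj`.  `μ.r` has closed image (compact, Hausdorff).  If it is not everything there is `x` in `Ω₀` fixed by `μ.r g` for all `g`, not fixed by some `g₀` (`GA.sep`).  `μ.ψ x` is fixed by `G` (`μ.comp`), so
  `μ.ψ x ^ (q ^ n) = j y`; apply `Φ`: `ι (C (x ^ (q ^ n))) = ι (lm j₀ y)`, so `C (x ^ (q ^ n)) = lm j₀ y` and the coefficient at `0` gives `x ^ (q ^ n) = j₀ y₀`, fixed by `g₀`; Frobenius is injective: `g₀ • x = x`.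
  (`ringExpChar Ω = ringExpChar Ω₀` because of `μ.ψ`.)
* `fl`.  Choose `α` in `Ω₀` with `stab α ⊆ V` (`GA.basis`).  Let `O = {μ.r g • α | g : G}`, finite (contained in the orbit of `α`; open stabilizer, compact).  For `β = μ.r g • α` in `O` put `x_β = g • x`: well defined,
  because `μ.r g • α = μ.r g' • α` implies `μ.r (g⁻¹ * g') ∈ stab α ⊆ V`, so `g⁻¹ * g'` fixes `x`.  The interpolation polynomial `P = ∑_β C x_β * ∏_(γ ≠ β) (X - C (ψ γ)) * C (∏_(γ ≠ β) (ψ β - ψ γ))⁻¹` (`ψ = μ.ψ`; `Lagrange.interpolate`) satisfies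
  `P (ψ (μ.r g • α)) = g • x` and is fixed by `G` (`g` permutes the data), so its coefficients `c_i` are fixed by `G`: for a common `s`, `c_i ^ (q ^ s) = j (n_i)` (`Ov.pi`).  So
  `Φ (g • x) ^ (q ^ s) = ∑ ι (lm j₀ n_i) * ι (C (μ.r g • α ^ (q ^ s * i))) = ι (lm (μ.r g •) X)` with `X = ∑ lm j₀ n_i * C (α ^ (q ^ s * i))` (`lm (μ.r g •)` fixes `lm j₀ n_i`).
-/

set_option autoImplicit false
set_option linter.unusedVariables false

namespace MSN

universe u

open MSG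

noncomputable section

/-- the action of `g` on the field as a ring homomorphism -/
abbrev sm {G Ω : Type u} [Group G] [Field Ω] [MulSemiringAction G Ω] (g : G) : Ω →+* Ω := MulSemiringAction.toRingHom G Ω g

variable {k G₀ Ω₀ G Ω : Type u} [Field k] [Group G₀] [TopologicalSpace G₀] [Field Ω₀] [MulSemiringAction G₀ Ω₀]
  [Group G] [TopologicalSpace G] [Field Ω] [MulSemiringAction G Ω] {j₀ : k →+* Ω₀} {j : LaurentSeries k →+* Ω}

/-- compatible embedding of `Ω` into the algebraic closure of `Ω₀((t))` -/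
structure Ph (μ : Mo G₀ Ω₀ G Ω) (j₀ : k →+* Ω₀) (j : LaurentSeries k →+* Ω)
    (Φ : Ω →+* AlgebraicClosure (LaurentSeries Ω₀)) : Prop where
  onj : ∀ x : LaurentSeries k, Φ (j x) = algebraMap (LaurentSeries Ω₀) (AlgebraicClosure (LaurentSeries Ω₀)) (lm j₀ x)
  onψ : ∀ α : Ω₀, Φ (μ.ψ α) = algebraMap (LaurentSeries Ω₀) (AlgebraicClosure (LaurentSeries Ω₀)) (HahnSeries.C α)

private theorem ph_frob {K : Type u} [Field K] (q : ℕ) [ExpChar K q] (n : ℕ) {x y : K}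
    (h : x ^ (q ^ n) = y ^ (q ^ n)) : x = y :=
  iterateFrobenius_inj K q n (by rw [iterateFrobenius_def, iterateFrobenius_def, h])

private theorem ph_exp {K L : Type u} [Field K] [Field L] (ψ : K →+* L) : ringExpChar L = ringExpChar K := by
  have := expChar_of_injective_ringHom ψ.injective (ringExpChar K)
  exact ringExpChar.eq L _

private theorem ph_ext {K L M : Type u} [Field K] [Field L] [Field M] [Algebra K L] [Algebra.IsAlgebraic K L]
    [IsAlgClosed M] (φ : K →+* M) : ∃ ψ : L →+* M, ∀ x, ψ (algebraMap K L x) = φ x := by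
  let _ : Algebra K M := φ.toAlgebra
  let l : L →ₐ[K] M := IsAlgClosed.lift
  exact ⟨l.toRingHom, fun x => l.commutes x⟩

/-- two embeddings which agree on the fixed elements are conjugate -/
private theorem ph_conj {Ω' : Type u} [Field Ω'] (hG : GA G₀ Ω₀) (a b : Ω₀ →+* Ω')
    (h : ∀ x : Ω₀, (∀ g : G₀, g • x = x) → a x = b x) : ∃ c : G₀, ∀ x, b x = a (c • x) := by
  let _ : MulSemiringAction PUnit.{u + 1} Ω' :=
    { smul := fun _ x => x
      one_smul := fun _ => rfl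
      mul_smul := fun _ _ _ => rfl
      smul_zero := fun _ => rfl
      smul_add := fun _ _ _ => rfl
      smul_one := fun _ => rfl
      smul_mul := fun _ _ _ => rfl }
  let ma : Mo G₀ Ω₀ PUnit.{u + 1} Ω' := ⟨a, 1, continuous_const, fun g x => congrArg a (one_smul G₀ x)⟩
  let mb : Mo G₀ Ω₀ PUnit.{u + 1} Ω' := ⟨b, 1, continuous_const, fun g x => congrArg b (one_smul G₀ x)⟩
  obtain ⟨c, hc, -⟩ := Mo.conj hG ma mb h
  exact ⟨c, hc⟩

private theorem ph_alg (h : Ov (LaurentSeries k) G j) {Ω' : Type u} [Field Ω'] [IsAlgClosed Ω']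
    (φ : LaurentSeries k →+* Ω') : ∃ Ψ : Ω →+* Ω', ∀ x : LaurentSeries k, Ψ (j x) = φ x := by
  let i0 : LaurentSeries k →+* FixedPoints.subfield G Ω :=
    j.codRestrict (FixedPoints.subfield G Ω).toSubring (fun x g => h.fj g x)
  let _ : Algebra (LaurentSeries k) Ω := j.toAlgebra
  let _ : Algebra (LaurentSeries k) (FixedPoints.subfield G Ω) := i0.toAlgebra
  have ht : IsScalarTower (LaurentSeries k) (FixedPoints.subfield G Ω) Ω :=
    IsScalarTower.of_algebraMap_eq fun x => rfl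
  have h1 := h.ga.algebraic
  have h2 : Algebra.IsAlgebraic (LaurentSeries k) (FixedPoints.subfield G Ω) := by
    refine ⟨fun x => ?_⟩
    obtain ⟨n, y, hy⟩ := h.pi x x.2
    have hq : 0 < ringExpChar Ω ^ n := pow_pos (expChar_pos Ω (ringExpChar Ω)) n
    refine ⟨Polynomial.X ^ (ringExpChar Ω ^ n) - Polynomial.C y,
      Polynomial.X_pow_sub_C_ne_zero hq y, ?_⟩
    rw [map_sub, map_pow, Polynomial.aeval_X, Polynomial.aeval_C, sub_eq_zero]
    exact Subtype.ext hy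
  have h3 : Algebra.IsAlgebraic (LaurentSeries k) Ω :=
    Algebra.IsAlgebraic.trans (LaurentSeries k) (FixedPoints.subfield G Ω) Ω
  exact ph_ext φ

theorem exists_phi (h₀ : Ov k G₀ j₀) (h : Ov (LaurentSeries k) G j) (μ : Mo G₀ Ω₀ G Ω)
    (hμ : ∀ x, μ.ψ (j₀ x) = j (HahnSeries.C x)) : ∃ Φ, Ph μ j₀ j Φ := by
  let ι : LaurentSeries Ω₀ →+* AlgebraicClosure (LaurentSeries Ω₀) :=
    algebraMap (LaurentSeries Ω₀) (AlgebraicClosure (LaurentSeries Ω₀))
  obtain ⟨Φ₀, hΦ₀⟩ := ph_alg h (ι.comp (lm j₀))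
  have e1 : ringExpChar (AlgebraicClosure (LaurentSeries Ω₀)) = ringExpChar Ω₀ :=
    ph_exp (ι.comp (HahnSeries.C : Ω₀ →+* LaurentSeries Ω₀))
  obtain ⟨c, hc⟩ := ph_conj h₀.ga (ι.comp (HahnSeries.C : Ω₀ →+* LaurentSeries Ω₀)) (Φ₀.comp μ.ψ) (by
    intro x hx
    obtain ⟨n, y, hy⟩ := h₀.pi x hx
    have hE : ExpChar (AlgebraicClosure (LaurentSeries Ω₀)) (ringExpChar Ω₀) := by
      rw [← e1]
      infer_instance
    refine ph_frob (ringExpChar Ω₀) n ?_
    rw [← map_pow, ← map_pow, hy]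
    change ι (HahnSeries.C (j₀ y)) = Φ₀ (μ.ψ (j₀ y))
    rw [hμ, hΦ₀]
    change ι (HahnSeries.C (j₀ y)) = ι (lm j₀ (HahnSeries.C y))
    rw [lm_C])
  obtain ⟨τ, hτ⟩ := ph_ext (L := AlgebraicClosure (LaurentSeries Ω₀)) (ι.comp (lm (sm c⁻¹ : Ω₀ →+* Ω₀)))
  have hτ' : ∀ x, τ (ι x) = ι (lm (sm c⁻¹ : Ω₀ →+* Ω₀) x) := hτ
  refine ⟨τ.comp Φ₀, fun x => ?_, fun α => ?_⟩
  · change τ (Φ₀ (j x)) = ι (lm j₀ x)
    rw [hΦ₀]
    change τ (ι (lm j₀ x)) = ι (lm j₀ x)
    rw [hτ', lm_comp]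
    congr 2
    ext y
    exact h₀.fj _ _
  · change τ (Φ₀ (μ.ψ α)) = ι (HahnSeries.C α)
    have h1 : Φ₀ (μ.ψ α) = ι (HahnSeries.C (c • α)) := hc α
    rw [h1, hτ', lm_C]
    change ι (HahnSeries.C (c⁻¹ • c • α)) = _
    rw [inv_smul_smul]

theorem mu_surj (h₀ : Ov k G₀ j₀) (h : Ov (LaurentSeries k) G j) (μ : Mo G₀ Ω₀ G Ω)
    (hμ : ∀ x, μ.ψ (j₀ x) = j (HahnSeries.C x)) : Function.Surjective μ.r := by
  obtain ⟨Φ, hΦ⟩ := exists_phi h₀ h μ hμ
  have := h.ga.cpt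
  have := h₀.ga.t2
  have hcl : IsClosed (μ.r.range : Set G₀) := by
    rw [MonoidHom.coe_range]
    exact (isCompact_range μ.cont).isClosed
  rw [← MonoidHom.range_eq_top, Subgroup.eq_top_iff']
  intro g₀
  by_contra hg
  obtain ⟨x, hx, hgx⟩ := h₀.ga.sep _ hcl g₀ hg
  have h1 : ∀ g : G, g • μ.ψ x = μ.ψ x := by
    intro g
    rw [← μ.comp, hx _ ⟨g, rfl⟩]
  obtain ⟨n, y, hy⟩ := h.pi _ h1
  have e1 : ringExpChar Ω = ringExpChar Ω₀ := ph_exp μ.ψ
  rw [e1] at hy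
  have h2 := congrArg Φ hy
  rw [← map_pow, hΦ.onψ, hΦ.onj] at h2
  have h3 := (algebraMap (LaurentSeries Ω₀) (AlgebraicClosure (LaurentSeries Ω₀))).injective h2
  have h4 : x ^ (ringExpChar Ω₀ ^ n) = j₀ (y.coeff 0) := by
    have h5 := congrArg (fun z : LaurentSeries Ω₀ => z.coeff 0) h3
    simp only [lm_coeff] at h5
    rw [HahnSeries.C_apply, HahnSeries.coeff_single_same] at h5
    exact h5
  apply hgx
  refine ph_frob (ringExpChar Ω₀) n ?_
  rw [← smul_pow', h4, h₀.fj]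

theorem fl (h₀ : Ov k G₀ j₀) (h : Ov (LaurentSeries k) G j) (μ : Mo G₀ Ω₀ G Ω)
    (hμ : ∀ x, μ.ψ (j₀ x) = j (HahnSeries.C x)) {Φ : Ω →+* AlgebraicClosure (LaurentSeries Ω₀)} (hΦ : Ph μ j₀ j Φ)
    (V : Subgroup G₀) (hV : IsOpen (V : Set G₀)) {x : Ω} (hx : ∀ g : G, μ.r g ∈ V → g • x = x) :
    ∃ s₀ : ℕ, ∀ s, s₀ ≤ s → ∃ X : LaurentSeries Ω₀, ∀ g : G, Φ (g • x) ^ (ringExpChar Ω₀ ^ s) =
      algebraMap (LaurentSeries Ω₀) (AlgebraicClosure (LaurentSeries Ω₀)) (lm (sm (μ.r g)) X) := by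
  classical
  have hsurj := mu_surj h₀ h μ hμ
  have e1 : ringExpChar Ω = ringExpChar Ω₀ := ph_exp μ.ψ
  obtain ⟨α, hα⟩ := h₀.ga.basis V hV V.one_mem
  have hfin := h₀.ga.orbit_finite α
  -- the orbit
  let O : Finset Ω₀ := hfin.toFinset
  have hO : ∀ g : G, μ.r g • α ∈ O := fun g => hfin.mem_toFinset.2 ⟨μ.r g, rfl⟩
  have hO' : ∀ β ∈ O, ∃ g : G, μ.r g • α = β := by
    intro β hβ
    obtain ⟨g₀, hg₀⟩ := hfin.mem_toFinset.1 hβ
    obtain ⟨g, rfl⟩ := hsurj g₀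
    exact ⟨g, hg₀⟩
  have hO'' : ∀ β : Ω₀, ∃ g : G, β ∈ O → μ.r g • α = β := by
    intro β
    by_cases hβ : β ∈ O
    · obtain ⟨g, hg⟩ := hO' β hβ
      exact ⟨g, fun _ => hg⟩
    · exact ⟨1, fun h' => absurd h' hβ⟩
  choose γ hγ using hO''
  have hval : ∀ g : G, γ (μ.r g • α) • x = g • x := by
    intro g
    have h1 : μ.r (γ (μ.r g • α)) • α = μ.r g • α := hγ _ (hO g)
    have h2 : (g⁻¹ * γ (μ.r g • α)) • x = x := by
      refine hx _ (hα _ ?_)
      rw [map_mul, map_inv, mul_smul, h1, inv_smul_smul]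
    rw [mul_smul] at h2
    exact eq_inv_smul_iff.1 h2.symm |>.symm
  -- the interpolation polynomial
  let P : Polynomial Ω := Lagrange.interpolate O μ.ψ (fun β => γ β • x)
  have hinj : Set.InjOn μ.ψ (O : Set Ω₀) := μ.ψ.injective.injOn
  have hP : ∀ g : G, P.eval (μ.ψ (μ.r g • α)) = g • x := by
    intro g
    have h1 := Lagrange.eval_interpolate_at_node (fun β => γ β • x) hinj (hO g)
    rw [hval g] at h1
    exact h1
  have hfix : ∀ g : G, P.map (MulSemiringAction.toRingHom G Ω g) = P := by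
    intro g
    refine Lagrange.eq_interpolate_of_eval_eq (fun β => γ β • x) hinj ?_ ?_
    · exact (Polynomial.degree_map_le).trans_lt (Lagrange.degree_interpolate_lt _ hinj)
    · intro β hβ
      obtain ⟨g', rfl⟩ := hO' β hβ
      have h1 : μ.ψ (μ.r g' • α) = (MulSemiringAction.toRingHom G Ω g) (μ.ψ (μ.r (g⁻¹ * g') • α)) := by
        change _ = g • μ.ψ (μ.r (g⁻¹ * g') • α)
        rw [← μ.comp, smul_smul, ← map_mul, mul_inv_cancel_left]
      rw [h1, Polynomial.eval_map_apply, hP]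
      change g • (g⁻¹ * g') • x = _
      rw [smul_smul, mul_inv_cancel_left, hval]
  have hcoef : ∀ (i : ℕ) (g : G), g • P.coeff i = P.coeff i := by
    intro i g
    have h1 : (P.map (MulSemiringAction.toRingHom G Ω g)).coeff i = P.coeff i := by rw [hfix g]
    rw [Polynomial.coeff_map] at h1
    exact h1
  choose nn yy hny using fun i => h.pi (P.coeff i) (hcoef i)
  refine ⟨(Finset.range (P.natDegree + 1)).sup nn, fun s hs => ?_⟩
  have hE : ExpChar Ω (ringExpChar Ω₀) := by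
    rw [← e1]
    infer_instance
  have hz : ∀ i ∈ Finset.range (P.natDegree + 1),
      P.coeff i ^ (ringExpChar Ω₀ ^ s) = j (yy i ^ (ringExpChar Ω₀ ^ (s - nn i))) := by
    intro i hi
    have h1 : nn i ≤ s := (Finset.le_sup hi).trans hs
    have h2 : s = nn i + (s - nn i) := by omega
    have h3 := hny i
    rw [e1] at h3
    conv_lhs => rw [h2, pow_add, pow_mul]
    rw [h3, map_pow]
  refine ⟨∑ i ∈ Finset.range (P.natDegree + 1), lm j₀ (yy i ^ (ringExpChar Ω₀ ^ (s - nn i))) *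
    HahnSeries.C (α ^ (i * ringExpChar Ω₀ ^ s)), fun g => ?_⟩
  have h1 : (g • x) ^ (ringExpChar Ω₀ ^ s) = ∑ i ∈ Finset.range (P.natDegree + 1),
      j (yy i ^ (ringExpChar Ω₀ ^ (s - nn i))) * μ.ψ (μ.r g • α ^ (i * ringExpChar Ω₀ ^ s)) := by
    rw [← hP g, Polynomial.eval_eq_sum_range, ← iterateFrobenius_def, map_sum]
    refine Finset.sum_congr rfl fun i hi => ?_
    rw [map_mul, iterateFrobenius_def, iterateFrobenius_def, hz i hi, ← pow_mul, ← map_pow,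
      smul_pow']
  rw [← map_pow, h1, map_sum, map_sum, map_sum]
  refine Finset.sum_congr rfl fun i _ => ?_
  rw [map_mul Φ, hΦ.onj, hΦ.onψ, ← map_mul, map_mul (lm _), lm_C, lm_comp]
  congr 3
  ext z
  exact (h₀.fj _ _).symm

end

end MSN
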