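import Pool.Agent.MSN.Kum
import Pool.Agent.MSG.Corb

/-! # MSN / Trf: transfer

`C : Cd p H ζ a g₀`, `j : K₀ →+* Ω` with image fixed by `H`, `i : K₀ →+* K₁`, `j₁ : K₁ →+* Ω` with image fixed by `kr H p a`, `j₁ ∘ i = j`.  If `w ∈ K₂(K₀)` becomes `∑ {x_l, y_l}` in `K₂(K₁)`, `y_l ∈ K₀`, then `p • hB w = hB (∑ {N x_l, y_l})`.

PROOF.  By `MSC.sum_sym` `w = ∑ S (a r) (b r)`; `f g h = ∑ km n z (j (a r)) g * km n z (j (b r)) h` is a continuous cocycle (`Z2 n H`: `km` are continuous homomorphisms) and `hB L w = bc (zf z f)` (`MSC.hB_sum`).  The restriction of `f` to `kr H p a` gives `hB L₁ (K2.map i w) = hB L₁ (∑ S (x l) (i (y l)))`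
(`MSC.hB_sum` for `L₁`), so by `MSC.co_of_bc_zf` the restriction of `f` and `∑ km n z (j₁ (x l)) * km n z (j (y l))` differ by a coboundary on `kr H p a`.  `cor_proj` (MSG/Corb.lean) with `G = H`, `ι = id`, `N = kr H p a` (open, index `p`, every element of `H` is trivially reached) gives
`Co (fun g h => p * f g h) (fun g h => ∑ l, km n z (nrm N (j₁ (x l))) g * km n z (j (y l)) h)`.  `nrm N x = nL p g₀ x` (the `g₀ ^ k`, `k < p`, represent `H / N`; `finprod`), which is `j (ν l)`.  So `p • hB L w = bc (zf z (p f)) = bc (zf z (∑ ..)) = hB L (∑ S (ν l) (y l))`.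
-/

set_option autoImplicit false
set_option linter.unusedVariables false

namespace MSN

universe u

open MSG

open Pool.Agent.MK (K2 S)

theorem nrm_eq {p : ℕ} {H Ω : Type u} [Group H] [TopologicalSpace H] [Field Ω] [MulSemiringAction H Ω] {ζ a : Ω} {g₀ : H}
    (C : Cd p H ζ a g₀) {x : Ω} (hx : FxM (kr H p a) x) : nrm (kr H p a) x = nL p g₀ x := by
  classical
  have halg := C.ga.alg
  have htop := C.ga.top
  have hcpt := C.ga.cpt
  have hne : NeZero p := ⟨C.hp.ne_zero⟩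
  have hfin : Finite (H ⧸ kr H p a) := Subgroup.quotient_finite_of_isOpen _ C.open'
  have hft : Fintype (H ⧸ kr H p a) := Fintype.ofFinite _
  have hadd : ∀ g h : H, km p ζ a (g * h) = km p ζ a g + km p ζ a h := fun g h =>
    km_hom C.hz C.fa.1 (C.fz g) (C.fz h) (C.fa.2 g) (C.fa.2 h)
  have hpow : ∀ k : ℕ, km p ζ a (g₀ ^ k) = (k : ZMod p) := by
    intro k
    induction k with
    | zero =>
      rw [pow_zero, Nat.cast_zero]
      exact C.mem_kr.1 (one_mem _)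
    | succ k ih => rw [pow_succ, hadd, ih, C.g1, Nat.cast_succ]
  have hmk : ∀ g : H, (QuotientGroup.mk (g₀ ^ (km p ζ a g).val) : H ⧸ kr H p a) =
      QuotientGroup.mk g := by
    intro g
    obtain ⟨m, hm, he⟩ := C.dec g
    conv_rhs => rw [he]
    exact (QuotientGroup.mk_mul_of_mem _ hm).symm
  have hkm : ∀ g h : H, (QuotientGroup.mk g : H ⧸ kr H p a) = QuotientGroup.mk h →
      km p ζ a g = km p ζ a h := by
    intro g h e
    rw [QuotientGroup.eq] at e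
    have e1 : h = g * (g⁻¹ * h) := by rw [mul_inv_cancel_left]
    rw [e1, hadd, C.mem_kr.1 e, add_zero]
  unfold nrm nL
  rw [finprod_eq_prod_of_fintype]
  symm
  refine Finset.prod_bij' (fun k _ => (QuotientGroup.mk (g₀ ^ k) : H ⧸ kr H p a))
    (fun s _ => (km p ζ a s.out).val) ?_ ?_ ?_ ?_ ?_
  · intro k _
    exact Finset.mem_univ _
  · intro s _
    rw [Finset.mem_range]
    exact ZMod.val_lt _
  · intro k hk
    rw [Finset.mem_range] at hk
    have e : km p ζ a ((QuotientGroup.mk (g₀ ^ k) : H ⧸ kr H p a)).out = (k : ZMod p) := by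
      rw [← hpow k]
      exact hkm _ _ (QuotientGroup.out_eq' _)
    change (km p ζ a ((QuotientGroup.mk (g₀ ^ k) : H ⧸ kr H p a)).out).val = k
    rw [e, ZMod.val_cast_of_lt hk]
  · intro s _
    rw [hmk]
    exact QuotientGroup.out_eq' _
  · intro k _
    exact (fam_mk hx.2 _).symm

theorem trf {p : ℕ} {H Ω K₀ K₁ : Type u} [Group H] [TopologicalSpace H] [Field Ω] [MulSemiringAction H Ω] [Field K₀] [Field K₁]
    {ζ a : Ω} {g₀ : H} (C : Cd p H ζ a g₀) {i : K₀ →+* K₁} {j : K₀ →+* Ω} {j₁ : K₁ →+* Ω} (h1 : ∀ y, j₁ (i y) = j y)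
    {n : ℕ} {z : Ω} (L : Lv n H z j) (L₁ : Lv n (kr H p a) z j₁) (w : K2 K₀) {m : ℕ} (x : Fin m → K₁) (y ν : Fin m → K₀)
    (hx : ∀ l, x l ≠ 0) (hy : ∀ l, y l ≠ 0) (hw : K2.map i w = ∑ l, S (x l) (i (y l)))
    (hν : ∀ l, j (ν l) = nL p g₀ (j₁ (x l))) : p • hB L w = hB L (∑ l, S (ν l) (y l)) := by
  have halg := L.ga.alg
  have htop := L.ga.top
  obtain ⟨r, c, d, hc, hd, rfl⟩ := MSC.sum_sym w
  have hν0 : ∀ l, ν l ≠ 0 := by
    intro l h
    have h2 := hν l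
    rw [h, map_zero] at h2
    have h3 : nL p g₀ (j₁ (x l)) ≠ 0 := by
      unfold nL
      refine Finset.prod_ne_zero_iff.2 fun k _ => ?_
      exact (smul_ne_zero_iff_ne _).2 ((map_ne_zero j₁).2 (hx l))
    exact h3 h2.symm
  have hk : ∀ {x : K₀}, x ≠ 0 → (fun g : H => km n z (j x) g) ∈ Pool.Agent.Helper14.Massey.H1 n H := by
    intro x hx
    refine ⟨km_cont L.ga _ z _, fun σ τ => ?_⟩
    exact km_hom L.pz (L.fx hx).1 (L.fz σ) (L.fz τ) ((L.fx hx).2 _) ((L.fx hx).2 _)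
  obtain ⟨f, hf⟩ : ∃ f : H → H → ZMod n,
      f = fun g h : H => ∑ i, km n z (j (c i)) g * km n z (j (d i)) h := ⟨_, rfl⟩
  have hfZ : f ∈ Pool.Agent.Helper14.Massey.Z2 n H := by
    have e : f = ∑ i, Pool.Agent.Helper14.Massey.cup (fun g : H => km n z (j (c i)) g)
        (fun g : H => km n z (j (d i)) g) := by
      rw [hf]
      funext g h
      rw [Finset.sum_apply, Finset.sum_apply]
      rfl
    rw [e]
    refine AddSubgroup.sum_mem _ fun i _ => ?_
    exact Pool.Agent.Helper14.Massey.cup_mem_Z2 ⟨_, hk (hc i)⟩ ⟨_, hk (hd i)⟩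
  have e1 : hB L (∑ l, S (c l) (d l)) = bc (zf z f) := by
    rw [MSC.hB_sum L hc hd, hf]
  have hic : ∀ l, i (c l) ≠ 0 := fun l => (map_ne_zero i).2 (hc l)
  have hid : ∀ l, i (d l) ≠ 0 := fun l => (map_ne_zero i).2 (hd l)
  have hiy : ∀ l, i (y l) ≠ 0 := fun l => (map_ne_zero i).2 (hy l)
  have e2 : hB L₁ (∑ l, S (i (c l)) (i (d l))) = hB L₁ (∑ l, S (x l) (i (y l))) := by
    rw [← hw]
    congr 1
    rw [map_sum]
    refine Finset.sum_congr rfl fun l _ => ?_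
    rw [K2.map_S]
  rw [MSC.hB_sum L₁ hic hid, MSC.hB_sum L₁ hx hiy] at e2
  simp only [h1] at e2
  obtain ⟨χ, hχ, hco⟩ := MSC.co_of_bc_zf L₁.ga L₁.pz L₁.fz e2
  have e3 : Co (fun g h : (kr H p a).comap (MonoidHom.id H) => f g h)
      (fun g h : (kr H p a).comap (MonoidHom.id H) =>
        ∑ l, km n z (j₁ (x l)) (MonoidHom.id H g) * km n z (j (y l)) (MonoidHom.id H h)) := by
    refine ⟨fun g => χ ⟨g.1, g.2⟩, hχ.comp (Continuous.subtype_mk continuous_subtype_val _),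
      fun g h => ?_⟩
    have e4 := hco ⟨g.1, g.2⟩ ⟨h.1, h.2⟩
    rw [hf]
    exact e4
  have e5 := cor_proj L.ga L.pz (ι := MonoidHom.id H) continuous_id (fun h => L.fz h) C.open'
    (fun g => ⟨g, by
      rw [MonoidHom.id_apply, inv_mul_cancel]
      exact one_mem _⟩) hfZ (fun l => j₁ (x l)) (fun l => j (y l))
    (fun l => ⟨(map_ne_zero j₁).2 (hx l), fun g hg => L₁.fj ⟨g, hg⟩ (x l)⟩)
    (fun l => L.fx (hy l)) e3
  have e6 : (fun g h : H => ∑ l, km n z (nrm (kr H p a) (j₁ (x l))) (MonoidHom.id H g) *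
      km n z (j (y l)) (MonoidHom.id H h)) =
      fun g h : H => ∑ l, km n z (j (ν l)) g * km n z (j (y l)) h := by
    funext g h
    refine Finset.sum_congr rfl fun l _ => ?_
    rw [nrm_eq C ⟨(map_ne_zero j₁).2 (hx l), fun g hg => L₁.fj ⟨g, hg⟩ (x l)⟩, ← hν]
    rfl
  rw [e6, C.index] at e5
  rw [e1, MSC.hB_sum L hν0 hy, ← bc_pow (nz_zf L.pz f), ← bc_of_co L.pz L.fz e5]
  congr 1
  funext g h
  change zp z (f g h) ^ p = zp z ((p : ZMod n) * f g h)
  rw [zp_val_pow L.pz, mul_comm]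

end MSN
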