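import Pool.Agent.MSN.Am2
import Pool.Agent.MSN.Trf

/-! # MSN / S1b: transfer of the unramified element

PROOFS.
* `real`: `(sK D)` realised: by `kx_KL` (`ζ₀, a₀ : F` the elements `ζ, a`, `α = rt p a : L`, `D.s α = ζ α`: `Cd.smul_rt`, `dat_s`) and `Kx.exists_j1` with `β = μ.ψ (rt p a)`: `j₁ (iK y) = j' y`, `j₁ (cL α) = μ.ψ α`.  For `ℓ : L`: `ℓ = ∑ c_i α ^ i` (`Cd.kum`), `c_i ∈ F`,
  `j₁ (cL c_i) = j₁ (iK (cF c_i)) = j' (cF c_i) = μ.ψ c_i`; so `j₁ (cL ℓ) = μ.ψ ℓ`.  `g₁ • j₁ y = j₁ (sK D y)` if `μ.r g₁ = g₀` (`Kx.smul_j1`, `km p ζ' a' g₁ = km p ζ a g₀ = 1` by `Mo.km`, `(1 : ZMod p).val = 1`).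
* `s1b`: `μ.r` is surjective (`mo_surj`, `alg_cF`, `Ov.self`), so by `gi_surj` there is `g₁ ∈ Gi p G' Ω'` with `μ.r g₁ = g₀`.  `H' = Gi p G' Ω'`, `C'' : Cd p H' ζ' a' g₁` (`ζ' = μ.ψ ζ`, `a' = μ.ψ a`).  `κL = ∑ S (x_l) (y_l)` with `y_l ∈ F` (`bt_k2`).
  `trf` for `C''`, `i = iK D`, `j'`, `j₁` (`real`), `x = cL x_l`, `y = cF y_l`, `ν = cF (N_l)`, `N_l = ∏_(k<p) g₀ ^ k • x_l` (fixed by `G`: `Cd.fixed`; nonzero): the image of `j₁` is fixed by `kr H' p a'` (`Kx.ov_j1` or `Kx.smul_j1` with `km = 0`), so there is `Lv` for `kr`.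
  `κ = ∑ S (N_l) (y_l)`.
-/

set_option autoImplicit false
set_option linter.unusedVariables false

namespace MSN

universe u

open MSG

open Pool.Agent.MK (K2 S)

open Pool.Agent.MSX (KL Q Dat)

theorem real {p : ℕ} {G Ω : Type u} [Group G] [TopologicalSpace G] [Field Ω] [MulSemiringAction G Ω] {ζ a : Ω} {g₀ : G}
    (C : Cd p G ζ a g₀) (b : fF G Ω) (hb : b ≠ 0) {G' Ω' : Type u} [Group G'] [TopologicalSpace G'] [Field Ω']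
    [MulSemiringAction G' Ω'] {j' : (C.dat b hb).K →+* Ω'} (h' : Ov (C.dat b hb).K G' j') (μ : Mo G Ω G' Ω')
    (hμ : ∀ x : fF G Ω, μ.ψ x = j' (cF (C.dat b hb) x)) :
    ∃ j₁ : KL p (fL G Ω p a) →+* Ω', (∀ y, j₁ (iK (C.dat b hb) y) = j' y) ∧ (∀ ℓ : fL G Ω p a, j₁ (cL p _ ℓ) = μ.ψ ℓ) ∧
      (∀ g : G', g ∈ kr G' p (μ.ψ a) → ∀ y, g • j₁ y = j₁ y) ∧
      ∀ g₁ : G', μ.r g₁ = g₀ → ∀ y, g₁ • j₁ y = j₁ (sK (C.dat b hb) y) := by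
  have hal := C.ga.alg
  have hal' := h'.ga.alg
  have hpos : 1 < p := C.hz.one_lt
  have hfact : Fact (1 < p) := ⟨hpos⟩
  obtain ⟨ζ₀, hζ₀⟩ : ∃ ζ₀ : fF G Ω, (ζ₀ : Ω) = ζ := ⟨⟨ζ, C.fz⟩, rfl⟩
  obtain ⟨a₀, ha₀⟩ : ∃ a₀ : fF G Ω, (a₀ : Ω) = a := ⟨⟨a, C.fa.2⟩, rfl⟩
  obtain ⟨α, hα⟩ : ∃ α : fL G Ω p a, (α : Ω) = rt p a := ⟨⟨rt p a, fun g => C.rt_mem g⟩, rfl⟩
  have hz : PZ p ζ₀ := ⟨C.hz.odd, C.hz.one_lt,
    IsPrimitiveRoot.of_map_of_injective (f := (fF G Ω).subtype)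
      (by
        change IsPrimitiveRoot (ζ₀ : Ω) p
        rw [hζ₀]
        exact C.hz.prim) (fF G Ω).subtype.injective⟩
  have hs : (C.dat b hb).s α = algebraMap (fF G Ω) (fL G Ω p a) ζ₀ * α := by
    apply Subtype.ext
    rw [C.dat_s, hα, C.smul_rt, C.g1]
    change _ = ((algebraMap (fF G Ω) (fL G Ω p a) ζ₀ : fL G Ω p a) : Ω) * (α : Ω)
    rw [algFL_val, hα, hζ₀]
    have e := zp_nat C.hz 1
    rw [Nat.cast_one, pow_one] at e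
    rw [e]
  have hαp : α ^ p = algebraMap (fF G Ω) (fL G Ω p a) a₀ := by
    apply Subtype.ext
    change (α : Ω) ^ p = _
    rw [algFL_val, hα, C.pow_rt, ha₀]
  have ha0 : a₀ ≠ 0 := by
    intro h0
    rw [h0] at ha₀
    exact C.fa.1 ha₀.symm
  have X := kx_KL (C.dat b hb) hz hs hαp ha0
  have ja : j' (cF (C.dat b hb) a₀) = μ.ψ a := by rw [← hμ, ha₀]
  have jζ : j' (cF (C.dat b hb) ζ₀) = μ.ψ ζ := by rw [← hμ, hζ₀]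
  have hβ : (μ.ψ (rt p a)) ^ p = j' (cF (C.dat b hb) a₀) := by
    rw [← map_pow, C.pow_rt, ja]
  obtain ⟨j₁, h1, h2⟩ := X.exists_j1 h' hβ
  have hz' : PZ p (μ.ψ ζ) := ⟨C.hz.odd, C.hz.one_lt, C.hz.prim.map_of_injective μ.ψ.injective⟩
  have hk : ∀ g : G', km p (j' (cF (C.dat b hb) ζ₀)) (j' (cF (C.dat b hb) a₀)) g =
      km p (μ.ψ ζ) (μ.ψ a) g := by
    intro g
    rw [ja, jζ]
  refine ⟨j₁, h1, ?_, ?_, ?_⟩
  · intro ℓ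
    obtain ⟨c, hc, hx⟩ := C.kum (x := (ℓ : Ω)) (fun g hg => ℓ.2 ⟨g, hg⟩)
    obtain ⟨c', hc'⟩ : ∃ c' : Fin p → fF G Ω, ∀ i, (c' i : Ω) = c i :=
      ⟨fun i => ⟨c i, hc i⟩, fun i => rfl⟩
    have e : ℓ = ∑ i, algebraMap (fF G Ω) (fL G Ω p a) (c' i) * α ^ i.val := by
      apply (fL G Ω p a).subtype.injective
      rw [map_sum]
      change (ℓ : Ω) = _
      rw [hx]
      refine Finset.sum_congr rfl fun i _ => ?_
      rw [map_mul, map_pow]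
      change _ = ((algebraMap (fF G Ω) (fL G Ω p a) (c' i) : fL G Ω p a) : Ω) * (α : Ω) ^ i.val
      rw [algFL_val, hα, hc']
    rw [hx, map_sum]
    conv_lhs => rw [e]
    rw [map_sum, map_sum]
    refine Finset.sum_congr rfl fun i _ => ?_
    rw [map_mul, map_mul, map_pow, map_pow, map_mul, map_pow, h2, ← iK_cF, h1, ← hμ, hc']
  · intro g hg y
    rw [X.smul_j1 h' h1 g y, hk]
    have e : km p (μ.ψ ζ) (μ.ψ a) g = 0 := by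
      have hg' : g • rt p (μ.ψ a) = rt p (μ.ψ a) := hg
      unfold km
      rw [hg', div_self (rt_ne hz' ((map_ne_zero μ.ψ).2 C.fa.1)), lg_one hz']
    rw [e, ZMod.val_zero]
    rfl
  · intro g₁ hg₁ y
    rw [X.smul_j1 h' h1 g₁ y, hk]
    have e : km p (μ.ψ ζ) (μ.ψ a) g₁ = 1 := by
      rw [μ.km C.hz C.fa.1 (C.fz _) (C.fa.2 _), hg₁, C.g1]
    rw [e, ZMod.val_one]
    rfl

theorem s1b {p : ℕ} {G Ω : Type u} [Group G] [TopologicalSpace G] [Field Ω] [MulSemiringAction G Ω] {ζ a : Ω} {g₀ : G}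
    (C : Cd p G ζ a g₀) (hg : g₀ ∈ Gi p G Ω) (hPS : PS p G) (b : fF G Ω) (hb : b ≠ 0) {G' Ω' : Type u} [Group G'] [TopologicalSpace G']
    [Field Ω'] [MulSemiringAction G' Ω'] {j' : (C.dat b hb).K →+* Ω'} (h' : Ov (C.dat b hb).K G' j') (μ : Mo G Ω G' Ω')
    (hμ : ∀ x : fF G Ω, μ.ψ x = j' (cF (C.dat b hb) x)) {w' : K2 (C.dat b hb).K} {κL : K2 (fL G Ω p a)}
    (h : K2.map (iK (C.dat b hb)) w' = K2.map (cL p (fL G Ω p a)) κL) :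
    ∃ κ : K2 (fF G Ω), ∀ (n : ℕ) (z : Ω') (L : Lv n (Gi p G' Ω') z j'), p • hB L w' = hB L (K2.map (cF (C.dat b hb)) κ) := by
  have hal := C.ga.alg
  have hal' := h'.ga.alg
  have hz' : PZ p (μ.ψ ζ) := ⟨C.hz.odd, C.hz.one_lt, C.hz.prim.map_of_injective μ.ψ.injective⟩
  have hsurj : Function.Surjective μ.r :=
    mo_surj (Ov.self C.ga) h' (φ := cF (C.dat b hb))
      (fun y P hP hy => alg_cF (C.dat b hb) y P hP hy) μ (fun x => hμ x)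
  obtain ⟨g₁, hg₁, hr⟩ := gi_surj C.ga C.hp C.hz μ hsurj g₀ hg
  obtain ⟨j₁, h1, h2, h3, -⟩ := real C b hb h' μ hμ
  have C' : Cd p (Gi p G' Ω') (μ.ψ ζ) (μ.ψ a) (⟨g₁, hg₁⟩ : Gi p G' Ω') := by
    refine ⟨C.hp, gi_ga h'.ga, hz', fun g => ?_, ⟨(map_ne_zero μ.ψ).2 C.fa.1, fun g => ?_⟩, ?_⟩
    · change (g : G') • μ.ψ ζ = μ.ψ ζ
      rw [← μ.comp, C.fz]
    · change (g : G') • μ.ψ a = μ.ψ a
      rw [← μ.comp, C.fa.2]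
    · change km p (μ.ψ ζ) (μ.ψ a) g₁ = 1
      rw [μ.km C.hz C.fa.1 (C.fz _) (C.fa.2 _), hr, C.g1]
  obtain ⟨m, x, y, hx, hy, hκ⟩ := bt_k2 C hPS κL
  have hN : ∀ l, Fx G (nL p g₀ (x l : Ω)) := fun l =>
    nL_fx C.ga C.hz C.fz C.fa C.g1 ⟨fun h0 => hx l (Subtype.ext h0), fun g hg => (x l).2 ⟨g, hg⟩⟩
  obtain ⟨N, hN'⟩ : ∃ N : Fin m → fF G Ω, ∀ l, (N l : Ω) = nL p g₀ (x l : Ω) :=
    ⟨fun l => ⟨nL p g₀ (x l : Ω), (hN l).2⟩, fun l => rfl⟩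
  refine ⟨(∑ l, S (N l) (y l) : K2 (fF G Ω)), fun n z L => ?_⟩
  have L₁ : Lv n (kr (Gi p G' Ω') p (μ.ψ a)) z j₁ :=
    ⟨ga_kr C', L.pz, fun g => L.fz (g : Gi p G' Ω'), fun g u => h3 ((g : Gi p G' Ω') : G') g.2 u⟩
  have hw : K2.map (iK (C.dat b hb)) w' =
      ∑ l, S (cL p (fL G Ω p a) (x l)) (iK (C.dat b hb) (cF (C.dat b hb) (y l))) := by
    rw [h, hκ, map_sum]
    refine Finset.sum_congr rfl fun l _ => ?_
    rw [K2.map_S, iK_cF]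
  have hν : ∀ l, j' (cF (C.dat b hb) (N l)) =
      nL p (⟨g₁, hg₁⟩ : Gi p G' Ω') (j₁ (cL p (fL G Ω p a) (x l))) := by
    intro l
    rw [← hμ, hN', h2]
    unfold nL
    rw [map_prod]
    refine Finset.prod_congr rfl fun k _ => ?_
    change _ = (g₁ ^ k) • μ.ψ (x l : Ω)
    rw [← hr, ← map_pow, μ.comp]
  have key := trf C' h1 L L₁ w' (fun l => cL p (fL G Ω p a) (x l)) (fun l => cF (C.dat b hb) (y l))
    (fun l => cF (C.dat b hb) (N l)) (fun l => (map_ne_zero _).2 (hx l))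
    (fun l => (map_ne_zero _).2 (hy l)) hw hν
  rw [key]
  congr 1
  rw [map_sum]
  refine Finset.sum_congr rfl fun l _ => ?_
  rw [K2.map_S]

end MSN
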