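import Pool.Agent.MSN.S1a
import Pool.Agent.MSN.S1b

/-! # MSN / S1: the step, first case

A cocycle class `bc f` of `p`-power order over `G` whose restriction to `Gi` of the function field `D.K` is `hB w`; `z` good with `p ^ s • tmK w = (p ^ M * p ^ s) • z`; a torsion family `τ` with `cc τ = cc z`.  Then `ri (bc f)` is in `HD`.

PROOF of `s1`.  `M ≥ 1` (`PZ (p ^ M)`).  Let `r = s + l + 1`.  Choose `z₁ ∈ Ω'` with `z₁ ^ (p ^ r) = z0` (the root `z0` of `L`), primitive of order `p ^ (M + r)` (algebraically closed, `exists_prim`-like: successive `p`-th roots of a primitive root of order `p ^ M`, `M ≥ 1`); `L₁ : Lv (p ^ (M + r)) (Gi p G' Ω') z₁ j'` (`mu_gi`).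
By `MSC.hB_level`: `hB L w = p ^ r • hB L₁ w`.  With `s1a`: `N • hB L w = hB L₁ ((N p ^ (s + l)) • w) * p`, i.e. `= p • hB L₁ (w' + p ^ (M + s + l) • v) = p • hB L₁ w' + p ^ (M + r) • hB L₁ v = p • hB L₁ w'` (`MSC.tors_hB`) `= hB L₁ (K2.map (cF D) κ)` (`s1b`).
Let `z₂ ∈ Ω` with `μ.ψ z₂ = z₁` (roots of unity come from `Ω`), `L₂ : Lv (p ^ (M + r)) (Gi p G Ω) z₂ (fF G Ω).subtype`.  `x = N • ri p G Ω (bc f) - hB L₂ κ`.  `bqm (gim p μ) x = N • ri p G' Ω' (bqm μ (bc f)) - hB L₁ (K2.map (cF D) κ) = 0` (`gim_ri`, `bqm_hB`, `hB_map`, `hμ`).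
`x` is the class of a cocycle: `ri (bc f) = bc (rs _ f)` with `Zo (rs _ f)` (`Zu_sub`), `HD.zo` for `hB L₂ κ`, products and inverses of cocycles (`Zu_mul`, `Zu_inv`, `Zu_pow`, `bc_mul`, `bc_inv`, `bc_pow`).  `x` has `p`-power order.  `am2`: `x = t • ri (bc (sb p ζ a b))`.  So
`N • ri (bc f) = hB L₂ κ + t • ri (bc (sb ..))` is in `HD` (`HD.add`, `HD.nsmul`, `HD.sb` for the group `Gi`; `ri (bc (sb p ζ a b)) = bc (sb p ζ a b)`), and `HD.cop`.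
-/

set_option autoImplicit false
set_option linter.unusedVariables false

namespace MSN

universe u

open MSG

open Pool.Agent.MK (K2 S)

open Pool.Agent.MSX (KL Q Dat Fam tm cc cMb Mb lv)

private theorem s1_cast {n : ℕ} {H Ω : Type u} [Group H] [TopologicalSpace H] [Field Ω] [MulSemiringAction H Ω] {F : Type u}
    [Field F] {z : Ω} {j j₁ : F →+* Ω} (e : j = j₁) (L : Lv n H z j) (L₁ : Lv n H z j₁) (x : K2 F) : hB L x = hB L₁ x := by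
  subst e
  rfl

private theorem s1_level {n k N : ℕ} (hN : N = n * k) {H Ω : Type u} [Group H] [TopologicalSpace H] [Field Ω]
    [MulSemiringAction H Ω] {F : Type u} [Field F] {z z₀ : Ω} {j : F →+* Ω} (hz : z ^ k = z₀) (L : Lv N H z j)
    (L' : Lv n H z₀ j) (x : K2 F) : hB L' x = k • hB L x := by
  subst hz
  exact MSC.hB_level hN L L' x

/-- a compatible root of higher level, coming from the small field -/
private theorem s1_root {p : ℕ} {G Ω G' Ω' : Type u} [Group G] [TopologicalSpace G] [Field Ω] [MulSemiringAction G Ω]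
    [Group G'] [TopologicalSpace G'] [Field Ω'] [MulSemiringAction G' Ω'] [IsAlgClosed Ω] {ζ : Ω} (hp : p.Prime)
    (hz : PZ p ζ) (μ : Mo G Ω G' Ω') {M : ℕ} {z₀ : Ω'} (h0 : PZ (p ^ M) z₀) (r : ℕ) :
    ∃ z₂ : Ω, PZ (p ^ (M + r)) z₂ ∧ PZ (p ^ (M + r)) (μ.ψ z₂) ∧ μ.ψ z₂ ^ p ^ r = z₀ := by
  obtain ⟨m, rfl⟩ : ∃ m, M = m + 1 := by
    cases M with
    | zero =>
      have := h0.one_lt
      rw [pow_zero] at this
      omega
    | succ m => exact ⟨m, rfl⟩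
  obtain ⟨z', hz', -⟩ := exists_prim hp hz m
  have hψ := μ.pz hz'
  have hpos : 0 < p ^ (m + 1) := pow_pos hp.pos _
  have := NeZero.of_pos hpos
  obtain ⟨u, -, hu⟩ := hψ.prim.eq_pow_of_pow_eq_one h0.prim.pow_eq_one
  obtain ⟨z₂, hz₂⟩ := IsAlgClosed.exists_pow_nat_eq (z' ^ u) (pow_pos hp.pos r)
  have h1 : μ.ψ z₂ ^ p ^ r = z₀ := by
    rw [← map_pow, hz₂, map_pow, hu]
  have h2 : μ.ψ z₂ ^ p ^ (m + r + 1) = 1 := by
    rw [show m + r + 1 = r + (m + 1) by omega, pow_add, pow_mul, h1, h0.prim.pow_eq_one]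
  have h3 : ¬ μ.ψ z₂ ^ p ^ (m + r) = 1 := by
    rw [show m + r = r + m by omega, pow_add, pow_mul, h1]
    intro h
    have h4 := h0.prim.dvd_of_pow_eq_one _ h
    have h5 := (Nat.pow_dvd_pow_iff_le_right hp.one_lt).1 h4
    omega
  have := Fact.mk hp
  have h4 : IsPrimitiveRoot (μ.ψ z₂) (p ^ (m + 1 + r)) := by
    rw [show m + 1 + r = m + r + 1 by omega, IsPrimitiveRoot.iff_orderOf]
    exact orderOf_eq_prime_pow h3 h2
  have h5 : PZ (p ^ (m + 1 + r)) (μ.ψ z₂) :=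
    ⟨hz.odd.pow, Nat.one_lt_pow (by omega) hp.one_lt, h4⟩
  exact ⟨z₂, ⟨h5.odd, h5.one_lt, h4.of_map_of_injective μ.ψ.injective⟩, h5, h1⟩

theorem s1 {p : ℕ} {G Ω : Type u} [Group G] [TopologicalSpace G] [Field Ω] [MulSemiringAction G Ω] {ζ a : Ω} {g₀ : G}
    (C : Cd p G ζ a g₀) (hg : g₀ ∈ Gi p G Ω) (hPS : PS p G) (b : fF G Ω) (hb : b ≠ 0) {G' Ω' : Type u} [Group G'] [TopologicalSpace G']
    [Field Ω'] [MulSemiringAction G' Ω'] {j' : (C.dat b hb).K →+* Ω'} (h' : Ov (C.dat b hb).K G' j') (μ : Mo G Ω G' Ω')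
    (hμ : ∀ x : fF G Ω, μ.ψ x = j' (cF (C.dat b hb) x)) {N : ℕ} (hN : CoreI (C.dat b hb) N) {f : G → G → Ω} (hf : Zo f) {e : ℕ}
    (he : p ^ e • bc f = 0) {M : ℕ} {z₀ : Ω'} (L : Lv (p ^ M) (Gi p G' Ω') z₀ j') {w : K2 (C.dat b hb).K}
    (hw : ri p G' Ω' (bqm μ (bc f)) = hB L w) {s l : ℕ} {z τ : Fam p (fL G Ω p a)} (hz : (C.dat b hb).Good z)
    (hzw : p ^ s • (C.dat b hb).tmK w = (p ^ M * p ^ s) • z) (hτ : (C.dat b hb).Good τ) (hτl : p ^ l • τ = 0) (hc : cc τ = cc z) :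
    HD p (fF G Ω).subtype (ri p G Ω (bc f)) := by
  have halg : IsAlgClosed Ω := C.ga.alg
  have halg' : IsAlgClosed Ω' := L.ga.alg
  have hp := C.hp
  have hpf : PerfectField (fL G Ω p a) := perfect (kr G p a)
  have hf0 : Nz f := hf.ne
  -- roots
  obtain ⟨z₂, hz₂, hz₁, hroot⟩ := s1_root hp C.hz μ L.pz (s + l + 1)
  have L₂ : Lv (p ^ (M + (s + l + 1))) (Gi p G Ω) z₂ (fF G Ω).subtype :=
    ⟨gi_ga C.ga, hz₂, fun g => gi_fix g hz₂.prim.pow_eq_one, fun g x => x.2 (g : G)⟩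
  have L₁ : Lv (p ^ (M + (s + l + 1))) (Gi p G' Ω') (μ.ψ z₂) j' :=
    ⟨L.ga, hz₁, fun g => gi_fix g hz₁.prim.pow_eq_one, L.fj⟩
  have e2 : hB L w = p ^ (s + l + 1) • hB L₁ w := s1_level (pow_add p M (s + l + 1)) hroot L₁ L w
  obtain ⟨w', v, κL, e3, e3'⟩ := s1a hp (C.dat b hb) hN hz hzw hτ hτl hc
  obtain ⟨κ, hκ⟩ := s1b C hg hPS b hb h' μ hμ e3'
  have e4 : N • hB L w = hB L₁ (K2.map (cF (C.dat b hb)) κ) := by
    have h1 : N • hB L w = p • hB L₁ ((N * p ^ (s + l)) • w) := by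
      rw [e2, map_nsmul, smul_smul, smul_smul]
      congr 1
      ring
    have h2 : p • hB L₁ (p ^ (M + s + l) • v) = 0 := by
      rw [map_nsmul, smul_smul, show p * p ^ (M + s + l) = p ^ (M + (s + l + 1)) by ring]
      exact MSC.tors_hB L₁ v
    rw [h1, e3, map_add, smul_add, h2, add_zero, hκ]
  -- the class on `Gi p G Ω`
  have L₃ : Lv (p ^ (M + (s + l + 1))) (Gi p G' Ω') ((gim p μ).ψ z₂) ((gim p μ).ψ.comp (fF G Ω).subtype) :=
    L₂.pull (gim p μ) L.ga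
  have e5 : hB L₁ (K2.map (cF (C.dat b hb)) κ) = bqm (gim p μ) (hB L₂ κ) := by
    rw [hB_map (cF (C.dat b hb)) L₁ (L₁.comp _), bqm_hB (gim p μ) L₂ L₃]
    refine s1_cast ?_ _ _ _
    exact RingHom.ext fun x => (hμ x).symm
  have e6 : bqm (gim p μ) (N • ri p G Ω (bc f) - hB L₂ κ) = 0 := by
    rw [map_sub, map_nsmul, gim_ri, hw, e4, e5, sub_self]
  -- cocycles
  obtain ⟨f₂, hf₂, ef₂⟩ : ∃ f₂ : Gi p G Ω → Gi p G Ω → Ω, Zo f₂ ∧ hB L₂ κ = bc f₂ :=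
    HD.zo (p := p) (j := (fF G Ω).subtype) ⟨M + (s + l), z₂, L₂, κ, rfl⟩
  have hrs : Zo (rs (Gi p G Ω) f) := Zu_sub hf _
  have hfx : Zo (fun g h : Gi p G Ω => rs (Gi p G Ω) f g h ^ N * (f₂ g h)⁻¹) :=
    Zu_mul (Zu_pow N hrs) (Zu_inv hf₂)
  have e7 : N • ri p G Ω (bc f) - hB L₂ κ =
      bc (fun g h : Gi p G Ω => rs (Gi p G Ω) f g h ^ N * (f₂ g h)⁻¹) := by
    have hrs0 : Nz (rs (Gi p G Ω) f) := hrs.ne
    have hf₂0 : Nz f₂ := hf₂.ne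
    rw [bc_mul (hrs0.pow N) hf₂0.inv, bc_pow hrs0, bc_inv hf₂0, ri_bc hf0, ef₂, sub_eq_add_neg]
  have e8 : p ^ (e + (M + (s + l + 1))) • (N • ri p G Ω (bc f) - hB L₂ κ) = 0 := by
    have h1 : p ^ e • ri p G Ω (bc f) = 0 := by rw [← map_nsmul, he, map_zero]
    have h2 : p ^ (M + (s + l + 1)) • hB L₂ κ = 0 := MSC.tors_hB L₂ κ
    rw [smul_sub, pow_add]
    have h3 : (p ^ e * p ^ (M + (s + l + 1))) • N • ri p G Ω (bc f) = 0 := by
      rw [smul_smul, show p ^ e * p ^ (M + (s + l + 1)) * N = p ^ (M + (s + l + 1)) * N * p ^ e by ring,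
        mul_smul, h1, smul_zero]
    rw [h3, mul_smul, h2, smul_zero, sub_zero]
  rw [e7] at e6 e8
  obtain ⟨t, ht⟩ := am2 C hg b hb h' μ hμ hfx e8 e6
  have hfix : ∀ (g : Gi p G Ω) (x : fF G Ω), g • (fF G Ω).subtype x = (fF G Ω).subtype x :=
    fun g x => x.2 (g : G)
  have hsb : HD p (fF G Ω).subtype (ri p G Ω (bc (sb (H := G) p ζ a (b : Ω)))) := by
    rw [ri_bc (nz_sb C.hz a (b : Ω))]
    have ha0 : (⟨a, C.fa.2⟩ : fF G Ω) ≠ 0 := fun h => C.fa.1 (congrArg Subtype.val h)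
    exact HD.sb (j := (fF G Ω).subtype) (gi_ga C.ga) hp C.hz (fun g => C.fz (g : G)) hfix ha0 hb
  have hH : HD p (fF G Ω).subtype (N • ri p G Ω (bc f)) := by
    have e9 : N • ri p G Ω (bc f) = hB L₂ κ + t • ri p G Ω (bc (sb (H := G) p ζ a (b : Ω))) := by
      rw [← ht, ← e7, add_sub_cancel]
    rw [e9]
    exact HD.add hp (gi_ga C.ga) C.hz mu_gi hfix ⟨M + (s + l), z₂, L₂, κ, rfl⟩ (hsb.nsmul t)
  exact HD.cop hN.1 (by rw [← map_nsmul, he, map_zero]) hH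

end MSN
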