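import Pool.Agent.MSN.Gx

/-! # MSN / S1a: an unramified element

`CoreI D N`, `w ∈ K₂(D.K)`, `p ^ s • tmK w = (p ^ M * p ^ s) • z`, `z` good, `τ` good with `p ^ l • τ = 0` and `cc τ = cc z`.  Then `(N p ^ (s + l)) • w = w' + p ^ (M + s + l) • v` with `w'` unramified, so `w'` comes from `K₂(L)` over `KL`.

PROOF.  `z'' = z + -τ` is good, `cc z'' = 0` (`cc_add`, `cc_neg`, finite supports from `Good.fin`).  `D.tmK (p ^ (l + s) • w) = (p ^ M * p ^ s * p ^ l) • z = (p ^ M * p ^ s * p ^ l) • z''` (because `p ^ l • τ = 0`).  `CoreI` (first part) for `w'' = p ^ (l + s) • w`, `n = p ^ M * p ^ s * p ^ l`: `v` with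
`D.tmK v = N • z''`.  Put `w' = (N * p ^ (s + l)) • w - p ^ (M + s + l) • v`: `D.tmK w' = (N p ^ (M + s + l)) • z - (p ^ (M + s + l) N) • (z - τ) = (N p ^ (M + s + l)) • τ = 0`.  `unr` for `K2.map (iK D) w'` (`KL.subtype ∘ iK D = D.K.subtype`, `K2.map_map`; `tmK` is `tm P` of the image in `K₂(Q)` by definition).
-/

set_option autoImplicit false
set_option linter.unusedVariables false

namespace MSN

universe u

open MSG

open Pool.Agent.MK (K2 S)

open Pool.Agent.MSX (KL Q Dat Fam tm cc cMb Mb lv)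

private theorem s1a_aux' {A : Type*} [AddCommGroup A] (n : ℕ) {z t : A} (h : n • t = 0) :
    n • (z + -t) = n • z := by
  rw [smul_add, smul_neg, h, neg_zero, add_zero]

private theorem s1a_aux {A : Type*} [AddCommGroup A] (N n : ℕ) {x z : A} (h : n • x = n • z) :
    N • n • z - n • N • x = 0 := by
  rw [← mul_smul n N x, mul_comm n N, mul_smul, h, sub_self]

theorem s1a {p : ℕ} {F L : Type u} [Field F] [Field L] [Algebra F L] (hp : p.Prime) (D : Dat p F L) [PerfectField L] {N : ℕ} (hN : CoreI D N) {M s l : ℕ}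
    {w : K2 D.K} {z τ : Fam p L} (hz : D.Good z) (hzw : p ^ s • D.tmK w = (p ^ M * p ^ s) • z) (hτ : D.Good τ)
    (hτl : p ^ l • τ = 0) (hc : cc τ = cc z) :
    ∃ (w' v : K2 D.K) (κL : K2 L), (N * p ^ (s + l)) • w = w' + p ^ (M + s + l) • v ∧ K2.map (iK D) w' = K2.map (cL p L) κL := by
  obtain ⟨hN1, hN2⟩ := hN
  have hg : D.Good (z + -τ) := hz.add hτ.neg
  have hcc : cc (z + -τ) = 0 := by
    rw [Pool.Agent.MSX.cc_add hz.fin hτ.neg.fin, Pool.Agent.MSX.cc_neg hτ.fin, hc, add_neg_cancel]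
  have hnτ : (p ^ l * (p ^ M * p ^ s)) • τ = 0 := by
    rw [mul_comm, mul_smul, hτl, smul_zero]
  have hnz : (p ^ l * (p ^ M * p ^ s)) • (z + -τ) = (p ^ l * (p ^ M * p ^ s)) • z := by
    exact s1a_aux' _ hnτ
  have htw : D.tmK (p ^ (s + l) • w) = (p ^ l * (p ^ M * p ^ s)) • z := by
    rw [map_nsmul, pow_add, mul_comm (p ^ s) (p ^ l), mul_smul, hzw, ← mul_smul]
  have hn1 : 1 ≤ p ^ l * (p ^ M * p ^ s) :=
    Nat.mul_pos (pow_pos hp.pos _) (Nat.mul_pos (pow_pos hp.pos _) (pow_pos hp.pos _))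
  obtain ⟨v, hv⟩ := (hN2 (p ^ (s + l) • w) (p ^ l * (p ^ M * p ^ s)) (z + -τ) hn1 hg
    (by rw [hnz, htw])).1 hcc
  have hMn : p ^ (M + s + l) = p ^ l * (p ^ M * p ^ s) := by
    rw [pow_add, pow_add, mul_comm]
  have h0 : D.tmK ((N * p ^ (s + l)) • w - p ^ (M + s + l) • v) = 0 := by
    rw [map_sub, mul_smul, map_nsmul, htw, map_nsmul, hv, hMn]
    exact s1a_aux N _ hnz
  obtain ⟨κ, hκ⟩ := unr (K2.map (iK D) ((N * p ^ (s + l)) • w - p ^ (M + s + l) • v)) (by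
    intro P
    rw [K2.map_map]
    have h1 := congrFun h0 P
    exact h1)
  exact ⟨_, v, κ, (sub_add_cancel _ _).symm, hκ.symm⟩

end MSN
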