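import Pool.Agent.MSN.Df
import Pool.Agent.MSG.Rlt
import Pool.Agent.MSG.TS3

/-! # MSN / Sb: symbols in `Bq`, the homomorphism `hB : K₂(F) → Bq H Ω`

`Lv n ζ j`: `H` acts on `Ω` as a Galois group (`GA H Ω`), `ζ` is a primitive `n`-th root of unity (`n` odd) fixed by `H`, `j : F →+* Ω` is a field
embedding with image fixed by `H`.  `sb n ζ a b` is the cochain `ζ ^ (km a ∪ km b)`; `hB L {a, b} = bc (sb (j a) (j b))`.

PROOFS.
* `bo_of_co`: `u g = zp ζ (χ g)`; `H` fixes `ζ` (`smul_zp`), `zp_add`, `zp_neg`; continuous functions to the discrete `ZMod n` are locally constant.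
* `kk_st`: `tH_steinberg` for the one point set `S = PUnit` and `ι = id` (`tH` and the product of the Kummer characters agree because
  `cS n ζ (fun _ => a) g s = km n ζ a g` by definition), or directly.
* `sb_mul_left` ...: `km_mul`, `zp_add`.
-/

set_option autoImplicit false
set_option linter.unusedSectionVars false

namespace MSN

universe u v w

open MSG

open Pool.Agent.MK (K2 S)

noncomputable section

section

variable {H : Type u} {Ω : Type v} [Group H] [TopologicalSpace H] [Field Ω] [MulSemiringAction H Ω]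

/-- the symbol cochain -/
def sb (n : ℕ) (ζ a b : Ω) (g h : H) : Ω := zp ζ (km n ζ a g * km n ζ b h)

/-- the cochain `ζ ^ f` -/
def zf {n : ℕ} (ζ : Ω) (f : H → H → ZMod n) (g h : H) : Ω := zp ζ (f g h)

/-- level data -/
structure Lv (n : ℕ) (H : Type u) {Ω : Type v} {F : Type w} [Group H] [TopologicalSpace H] [Field Ω]
    [MulSemiringAction H Ω] [Field F] (ζ : Ω) (j : F →+* Ω) : Prop where
  /-- Galois action -/
  ga : GA H Ω
  /-- root of unity -/
  pz : PZ n ζ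
  /-- fixed root of unity -/
  fz : ∀ g : H, g • ζ = ζ
  /-- fixed field -/
  fj : ∀ (g : H) (x : F), g • j x = j x

variable {n : ℕ} {ζ : Ω}

theorem nz_zf (hz : PZ n ζ) (f : H → H → ZMod n) : Nz (zf ζ f) := fun _ _ => zp_ne hz _

theorem nz_sb (hz : PZ n ζ) (a b : Ω) : Nz (sb (H := H) n ζ a b) := fun _ _ => zp_ne hz _

theorem zf_add (hz : PZ n ζ) (f f' : H → H → ZMod n) :
    zf ζ (fun g h => f g h + f' g h) = fun g h => zf ζ f g h * zf ζ f' g h := by
  funext g h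
  exact zp_add hz _ _

theorem bo_of_co (hz : PZ n ζ) (hζ : ∀ g : H, g • ζ = ζ) {f f' : H → H → ZMod n} (h : Co f f') :
    Bo (zf ζ f) (zf ζ f') := by
  obtain ⟨χ, hχ, e⟩ := h
  refine ⟨fun g => zp ζ (χ g), fun g => zp_ne hz _, ?_, fun g k => ?_⟩
  · exact ((IsLocallyConstant.iff_continuous χ).2 hχ).comp (zp ζ)
  · show zp ζ (f g k) * zp ζ (χ (g * k)) = zp ζ (f' g k) * (zp ζ (χ g) * g • zp ζ (χ k))
    rw [smul_zp (hζ g), e, ← zp_add hz, ← zp_add hz, ← zp_add hz]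
    congr 1
    ring

theorem bc_of_co (hz : PZ n ζ) (hζ : ∀ g : H, g • ζ = ζ) {f f' : H → H → ZMod n} (h : Co f f') :
    bc (zf ζ f) = bc (zf ζ f') :=
  (bo_of_co hz hζ h).bc (nz_zf hz f) (nz_zf hz f')

/-- the Steinberg relation -/
theorem kk_st (hH : GA H Ω) (hz : PZ n ζ) (hζ : ∀ g : H, g • ζ = ζ) {a b : Ω} (ha : Fx H a) (hb : Fx H b)
    (h : a + b = 1) : Co (fun x y : H => km n ζ a x * km n ζ b y) (fun _ _ => 0) := by
  letI : MulAction H (PUnit.{1}) :=
    { smul := fun _ s => s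
      one_smul := fun _ => rfl
      mul_smul := fun _ _ _ => rfl }
  have hx : Ev H (fun _ : PUnit.{1} => a) := fun _ => ⟨ha.1, fun g => (ha.2 g).symm⟩
  have hy : Ev H (fun _ : PUnit.{1} => b) := fun _ => ⟨hb.1, fun g => (hb.2 g).symm⟩
  have hS : OS H PUnit.{1} := fun s => by
    have e : {g : H | g • s = s} = Set.univ := Set.eq_univ_of_forall fun g => Subsingleton.elim _ _
    rw [e]
    exact isOpen_univ
  have h1 := tH_steinberg hH hz hS (ι := MonoidHom.id H) continuous_id (fun g => hζ g) hx hy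
    (fun _ => h)
  have e1 : tH n ζ (MonoidHom.id H) (fun _ : PUnit.{1} => a) (fun _ : PUnit.{1} => b) =
      fun g h : H => km n ζ a g * km n ζ b h := by
    funext g k
    show ∑ s : PUnit.{1}, _ = _
    rw [Fintype.sum_unique]
    rfl
  rw [e1] at h1
  exact h1

theorem Lv.fx {F : Type w} [Field F] {j : F →+* Ω} (L : Lv n H ζ j) {a : F} (ha : a ≠ 0) : Fx H (j a) :=
  ⟨(map_ne_zero j).2 ha, fun g => L.fj g a⟩

theorem bc_sb_mul_left (hH : GA H Ω) (hz : PZ n ζ) (hζ : ∀ g : H, g • ζ = ζ) {a b c : Ω} (ha : Fx H a) (hb : Fx H b) :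
    bc (sb (H := H) n ζ (a * b) c) = bc (sb n ζ a c) + bc (sb n ζ b c) := by
  have := hH.alg
  rw [← bc_mul (nz_sb hz _ _) (nz_sb hz _ _)]
  congr 1
  funext g h
  show zp ζ _ = zp ζ _ * zp ζ _
  rw [km_mul hz ha.1 hb.1 (hζ g) (ha.2 g) (hb.2 g), ← zp_add hz, add_mul]

theorem bc_sb_mul_right (hH : GA H Ω) (hz : PZ n ζ) (hζ : ∀ g : H, g • ζ = ζ) {a b c : Ω} (ha : Fx H a) (hb : Fx H b) :
    bc (sb (H := H) n ζ c (a * b)) = bc (sb n ζ c a) + bc (sb n ζ c b) := by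
  have := hH.alg
  rw [← bc_mul (nz_sb hz _ _) (nz_sb hz _ _)]
  congr 1
  funext g h
  show zp ζ _ = zp ζ _ * zp ζ _
  rw [km_mul hz ha.1 hb.1 (hζ h) (ha.2 h) (hb.2 h), ← zp_add hz, mul_add]

theorem bc_zero_zf (hz : PZ n ζ) : bc (zf ζ (fun _ _ : H => (0 : ZMod n))) = 0 := by
  rw [← bc_one]
  congr 1
  funext g h
  exact zp_zero hz

theorem bc_sb_st (hH : GA H Ω) (hz : PZ n ζ) (hζ : ∀ g : H, g • ζ = ζ) {a b : Ω} (ha : Fx H a) (hb : Fx H b)
    (h : a + b = 1) : bc (sb (H := H) n ζ a b) = 0 := by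
  rw [← bc_zero_zf hz]
  exact bc_of_co hz hζ (kk_st hH hz hζ ha hb h)

/-- the norm residue homomorphism with values in `Bq H Ω` -/
def hB {F : Type w} [Field F] {j : F →+* Ω} (L : Lv n H ζ j) : K2 F →+ Bq H Ω :=
  K2.lift (fun a b => bc (sb n ζ (j a) (j b)))
    (fun a b c ha hb _ => by rw [map_mul, bc_sb_mul_left L.ga L.pz L.fz (L.fx ha) (L.fx hb)])
    (fun a b c _ hb hc => by rw [map_mul, bc_sb_mul_right L.ga L.pz L.fz (L.fx hb) (L.fx hc)])
    (fun a b ha hb h => bc_sb_st L.ga L.pz L.fz (L.fx ha) (L.fx hb) (by rw [← map_add, h, map_one]))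

theorem hB_S {F : Type w} [Field F] {j : F →+* Ω} (L : Lv n H ζ j) {a b : F} (ha : a ≠ 0) (hb : b ≠ 0) :
    hB L (S a b) = bc (sb n ζ (j a) (j b)) :=
  K2.lift_S _ _ _ _ ha hb

theorem hB_map {F F' : Type w} [Field F] [Field F'] {j : F' →+* Ω} (φ : F →+* F') (L : Lv n H ζ j)
    (L' : Lv n H ζ (j.comp φ)) (x : K2 F) : hB L (K2.map φ x) = hB L' x := by
  induction x using Pool.Agent.MK.K2_induction with
  | hS a b ha hb =>
    rw [K2.map_S, hB_S L ((map_ne_zero φ).2 ha) ((map_ne_zero φ).2 hb), hB_S L' ha hb]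
    rfl
  | hz => simp
  | hadd x y hx hy => rw [map_add, map_add, hx, hy, map_add]

theorem Lv.comp {F F' : Type w} [Field F] [Field F'] {j : F' →+* Ω} (L : Lv n H ζ j) (φ : F →+* F') :
    Lv n H ζ (j.comp φ) :=
  ⟨L.ga, L.pz, L.fz, fun g x => L.fj g (φ x)⟩

end

end

end MSN
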