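import Pool.Agent.MSN.Gx
import Pool.Agent.MSN.Gz
import Pool.Agent.MSX.Simp

/-! # MSN / Wan: reduced norms and splitting fields

`C : Cd p G ζ a g₀`, `G` p-special, `b`, `D = C.dat b` with `D.Div`; `g ∈ D.An 1` with `det g = ξ ∈ Ω^G`, `ξ` not a `p`-th power in `Ω^G`.  Then there are `λ ∈ Ω`, `c : G` such that `U = stab λ` is normal of index `p`, `c` generates the quotient, `∏_(r<p) c ^ r • λ = ξ` and the cocycle
`sb p ζ a b` is a coboundary on `U`.

PROOF of `wan`.  `F = Ω^G`, `L = Ω^(kr G p a)`, `B = D.Bm 1` (size `dm p 1 = p`), `g B = B s(g)`.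
1. `χ = charpoly g` has coefficients in `F`, degree `p` (`cn_charpoly`, `bm_det`).  It has no root in `F`: if `χ (c) = 0`, `c ∈ F`, then `g - c ∈ An 1` is not invertible, so it is zero (`Simp`/`AnB`: a nonzero element of `An 1` is invertible, `D.Div`), `g = c`, `ξ = det g = c ^ p`, contradiction.
   So `χ` is irreducible over `F` (`PS.irr`, `ps_F`).
2. Let `λ` be a root of `χ` in `Ω`.  The orbit of `λ` under `G` is the set of roots of `χ` (irreducible), `χ` is separable (perfect field), so `[G : stab λ] = p`, `stab λ` is normal (index `p` in a pro-`p` group: `G / core` is a finite `p`-group, subgroups of index `p` are normal), choose `c` not in `stab λ`: it generates the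
   quotient, the orbit is `{c ^ r • λ | r < p}`, and `χ = ∏ (X - c ^ r • λ)`, so `ξ = det g = (-1) ^ p χ (0) = ∏ c ^ r • λ` (`p` odd: `C.hz.odd`; `Matrix.det_eq_sign_charpoly_coeff`).
3. `U = stab λ`.  If `U = kr G p a`: `km p ζ a = 0` on `U`, so `sb p ζ a b = 1` on `U`.  (More generally if `U ≤ kr G p a`.)  Otherwise there is `h ∈ U` with `km p ζ a h = 1` (a power of an element with nonzero `km`).
   Over `Ω`: `g v = λ v` with `v ≠ 0`, unique up to scalars (`λ` is a simple root of the characteristic polynomial); normalise one coordinate of `v` to be `1`.  For `n ∈ U ∩ kr G p a`: `n • v` is again an eigenvector for `λ` (`g` has entries in `L`, fixed by `kr`), so `n • v = v`.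
   `B (h • v)` : `g B (h v) = B s(g) (h v) = B h (g v) = λ B (h v)` (`h` acts on `L` as `s`, because `h ∈ g₀ * kr`; `h λ = λ`), so `B (h • v) = z • v` for some `z ∈ Ω`, `z ≠ 0`, fixed by `U ∩ kr G p a` (`n • (B (h v)) = B (h (h⁻¹ n h) v) = B (h v)`).
   Iterating, `(B h)^p v = (∏_(i<p) h ^ i • z) v` and `(B h)^p v = B s(B) .. s^(p-1)(B) (h ^ p v) = b v` (`tau_iter`, `tau_bm_pow`: `(D.tau B)^[p] = b`; `h ^ p ∈ U ∩ kr`).  So `b = ∏_(i<p) h ^ i • z` with `z` fixed by `kr U p a`.
4. `nc_of_norm` for the pair `(U, Ω)`, `g₀ = h`, `y = z`: `Co (kk p ζ a b) 0` on `U`, so `Cu (sb p ζ a b) 1` on `U` (`Cu_of_Co`), i.e. `CuN U (sb p ζ a b) 1`.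
-/

set_option autoImplicit false
set_option linter.unusedVariables false

namespace MSN

universe u

open MSG

open Pool.Agent.MK (K2 S)

private theorem wan_normal {p : ℕ} (hp : p.Prime) {G : Type u} [Group G] [TopologicalSpace G]
    [IsTopologicalGroup G] [CompactSpace G] (hPS : PS p G) {U : Subgroup G}
    (hU : IsOpen (U : Set G)) (hi : U.index = p) : U.Normal := by
  have hfi : U.FiniteIndex := ⟨by rw [hi]; exact hp.ne_zero⟩
  have hUc := U.isClosed_of_isOpen hU
  have hVo : IsOpen (U.normalCore : Set G) :=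
    U.normalCore.isOpen_of_isClosed_of_finiteIndex (U.normalCore_isClosed hUc)
  obtain ⟨m, hm⟩ := hPS _ hVo
  have hfin : Finite (G ⧸ U.normalCore) := U.normalCore.quotient_finite_of_isOpen hVo
  obtain ⟨π, hπ⟩ : ∃ π : G →* G ⧸ U.normalCore, π = QuotientGroup.mk' U.normalCore := ⟨_, rfl⟩
  have hsurj : Function.Surjective π := by
    rw [hπ]
    exact QuotientGroup.mk'_surjective _
  have hker : π.ker ≤ U := by
    rw [hπ, QuotientGroup.ker_mk']
    exact U.normalCore_le
  have hidx : (U.map π).index = p := by rw [U.index_map_eq hsurj hker, hi]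
  have hcard : Nat.card (G ⧸ U.normalCore) = p ^ m := hm
  have hm0 : m ≠ 0 := by
    rintro rfl
    have h1 : U.index ∣ U.normalCore.index := Subgroup.index_dvd_of_le U.normalCore_le
    rw [hm, hi, pow_zero] at h1
    exact hp.one_lt.ne' (Nat.dvd_one.1 h1)
  have hnorm : (U.map π).Normal := by
    apply Subgroup.normal_of_index_eq_minFac_card
    rw [hidx, hcard, hp.pow_minFac hm0]
  have h2 : ((U.map π).comap π).Normal := hnorm.comap π
  rwa [Subgroup.comap_map_eq_self hker] at h2

private theorem wan_inj {p : ℕ} (hp : p.Prime) {G : Type u} {Ω : Type u} [Group G]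
    [MulAction G Ω] {x : Ω} (hn : (MulAction.stabilizer G x).Normal)
    (hi : (MulAction.stabilizer G x).index = p) {c : G} (hc : c ∉ MulAction.stabilizer G x) :
    ∀ r s, r < p → s < p → c ^ r • x = c ^ s • x → r = s := by
  have key : ∀ d, 0 < d → d < p → c ^ d • x ≠ x := by
    intro d hd hdp h
    apply hc
    rw [← QuotientGroup.eq_one_iff]
    have h1 : ((c : G ⧸ MulAction.stabilizer G x)) ^ d = 1 := by
      rw [← QuotientGroup.mk_pow, QuotientGroup.eq_one_iff]
      exact h
    have h2 : ((c : G ⧸ MulAction.stabilizer G x)) ^ p = 1 := by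
      have h3 : Nat.card (G ⧸ MulAction.stabilizer G x) = p := hi
      rw [← h3]
      exact pow_card_eq_one'
    have h4 := orderOf_dvd_of_pow_eq_one h1
    have h5 := orderOf_dvd_of_pow_eq_one h2
    have h6 : d.Coprime p := (Nat.coprime_of_lt_prime hd.ne' hdp hp).symm
    have h7 := Nat.dvd_gcd h4 h5
    rw [h6, Nat.dvd_one, orderOf_eq_one_iff] at h7
    exact h7
  have key2 : ∀ r s, r < s → s < p → c ^ r • x ≠ c ^ s • x := by
    intro r s hrs hs h
    have h1 : c ^ s = c ^ r * c ^ (s - r) := by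
      rw [← pow_add]
      congr 1
      omega
    rw [h1, mul_smul] at h
    exact key (s - r) (by omega) (by omega) (smul_left_cancel _ h).symm
  intro r s hr hs h
  rcases lt_trichotomy r s with h1 | h1 | h1
  · exact absurd h (key2 r s h1 hs)
  · exact h1
  · exact absurd h.symm (key2 s r h1 hr)

open Polynomial in
private theorem wan_orb_poly {H Ω : Type u} [Group H] [TopologicalSpace H] [Field Ω]
    [MulSemiringAction H Ω] (hG : GA H Ω) (x : Ω) :
    ∃ q : Polynomial (FixedPoints.subfield H Ω), q.Monic ∧ aeval x q = 0 ∧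
      q.natDegree = (MulAction.orbit H x).ncard := by
  classical
  have hfin := hG.orbit_finite x
  obtain ⟨s, hs⟩ : ∃ s : Finset Ω, s = hfin.toFinset := ⟨_, rfl⟩
  obtain ⟨P, hP⟩ : ∃ P : Polynomial Ω, P = ∏ y ∈ s, (X - C y) := ⟨_, rfl⟩
  have hPm : P.Monic := by
    rw [hP]
    exact monic_prod_of_monic _ _ fun y _ => monic_X_sub_C y
  have hmem : ∀ y, y ∈ s ↔ y ∈ MulAction.orbit H x := fun y => by
    rw [hs]
    exact hfin.mem_toFinset
  have hinv : ∀ g : H, P.map (MulSemiringAction.toRingHom H Ω g) = P := by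
    intro g
    rw [hP, Polynomial.map_prod]
    refine Finset.prod_bij (fun y _ => g • y) ?_ ?_ ?_ ?_
    · intro y hy
      rw [hmem] at hy ⊢
      exact MulAction.mem_orbit_of_mem_orbit g hy
    · intro y _ z _ h
      exact smul_left_cancel g h
    · intro y hy
      refine ⟨g⁻¹ • y, ?_, smul_inv_smul g y⟩
      rw [hmem] at hy ⊢
      exact MulAction.mem_orbit_of_mem_orbit g⁻¹ hy
    · intro y _
      rw [Polynomial.map_sub, map_X, map_C]
      rfl
  have hlift : P ∈ Polynomial.lifts (algebraMap (FixedPoints.subfield H Ω) Ω) := by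
    rw [lifts_iff_coeff_lifts]
    intro n
    refine ⟨⟨P.coeff n, fun g => ?_⟩, rfl⟩
    have h := congrArg (fun Q => coeff Q n) (hinv g)
    simpa [coeff_map] using h
  obtain ⟨q, hq, hqd, hqm⟩ := lifts_and_natDegree_eq_and_monic hlift hPm
  refine ⟨q, hqm, ?_, ?_⟩
  · rw [aeval_def, ← eval_map, hq, hP, eval_prod]
    exact Finset.prod_eq_zero ((hmem x).2 (MulAction.mem_orbit_self x)) (by simp)
  · rw [hqd, hP, natDegree_prod_of_monic _ _ fun y _ => monic_X_sub_C y, hs,
      Set.ncard_eq_toFinset_card _ hfin]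
    simp

private theorem wan_conj_root {H Ω : Type u} [Group H] [Field Ω] [MulSemiringAction H Ω]
    (f : Polynomial (FixedPoints.subfield H Ω)) (h : H) {r : Ω} (hr : Polynomial.aeval r f = 0) :
    Polynomial.aeval (h • r) f = 0 := by
  have h3 : Polynomial.aeval (h • r) f = h • Polynomial.aeval r f := by
    rw [Polynomial.aeval_def, Polynomial.aeval_def]
    have h4 := Polynomial.hom_eval₂ f (algebraMap (FixedPoints.subfield H Ω) Ω)
      (MulSemiringAction.toRingHom H Ω h) r
    have h5 : (MulSemiringAction.toRingHom H Ω h).comp (algebraMap (FixedPoints.subfield H Ω) Ω) =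
        algebraMap (FixedPoints.subfield H Ω) Ω := RingHom.ext fun x => x.2 h
    rw [h5] at h4
    exact h4.symm
  rw [h3, hr, smul_zero]

private theorem wan_index {H Ω : Type u} [Group H] [TopologicalSpace H] [Field Ω]
    [MulSemiringAction H Ω] (hH : GA H Ω) {f : Polynomial (FixedPoints.subfield H Ω)}
    (hf : Irreducible f) {r : Ω} (hr : Polynomial.aeval r f = 0) :
    (MulAction.stabilizer H r).index = f.natDegree := by
  classical
  have hf0 : f ≠ 0 := hf.ne_zero
  obtain ⟨q, hqm, hq, hqd⟩ := wan_orb_poly hH r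
  have hfq : f ∣ q := by
    have h1 := minpoly.eq_of_irreducible hf hr
    have h2 : minpoly (FixedPoints.subfield H Ω) r ∣ q := minpoly.dvd _ r hq
    rw [← h1] at h2
    exact (dvd_mul_right _ _).trans h2
  have h1 : f.natDegree ≤ (MulAction.orbit H r).ncard := by
    rw [← hqd]
    exact Polynomial.natDegree_le_of_dvd hfq hqm.ne_zero
  have h2 : (MulAction.orbit H r).ncard ≤ f.natDegree := by
    have horb : MulAction.orbit H r ⊆ (f.rootSet Ω : Set Ω) := by
      rintro _ ⟨h, rfl⟩
      rw [Polynomial.mem_rootSet]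
      exact ⟨hf0, wan_conj_root f h hr⟩
    exact (Set.ncard_le_ncard horb (Polynomial.rootSet_finite f Ω)).trans
      (Polynomial.ncard_rootSet_le f Ω)
  rw [MulAction.index_stabilizer]
  exact le_antisymm h2 h1

/-- an eigenvector of a simple eigenvalue is unique up to a scalar -/
private theorem wan_eig {K : Type u} [Field K] {ι : Type} [Fintype ι] [DecidableEq ι]
    (A : Matrix ι ι K) {μ : K} (h1 : A.charpoly.rootMultiplicity μ ≤ 1) {v w : ι → K}
    (hv : A.mulVec v = μ • v) (hv0 : v ≠ 0) (hw : A.mulVec w = μ • w) : ∃ t : K, w = t • v := by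
  have h2 : Module.finrank K (Module.End.eigenspace (Matrix.toLin' A) μ) ≤ 1 := by
    refine (LinearMap.finrank_eigenspace_le _ _).trans ?_
    rw [Matrix.charpoly_toLin']
    exact h1
  obtain ⟨e, he⟩ := finrank_le_one_iff.1 h2
  have hvm : v ∈ Module.End.eigenspace (Matrix.toLin' A) μ := by
    rw [Module.End.mem_eigenspace_iff, Matrix.toLin'_apply]
    exact hv
  have hwm : w ∈ Module.End.eigenspace (Matrix.toLin' A) μ := by
    rw [Module.End.mem_eigenspace_iff, Matrix.toLin'_apply]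
    exact hw
  obtain ⟨x, hx⟩ := he ⟨v, hvm⟩
  obtain ⟨y, hy⟩ := he ⟨w, hwm⟩
  have hx' : x • (e : ι → K) = v := congrArg Subtype.val hx
  have hy' : y • (e : ι → K) = w := congrArg Subtype.val hy
  have hx0 : x ≠ 0 := by
    rintro rfl
    rw [zero_smul] at hx'
    exact hv0 hx'.symm
  refine ⟨y / x, ?_⟩
  rw [← hx', ← hy', smul_smul, div_mul_cancel₀ _ hx0]

private theorem wan_smul_mulVec {H Ω : Type u} [Group H] [Field Ω] [MulSemiringAction H Ω]
    {ι : Type} [Fintype ι] (h : H) (A : Matrix ι ι Ω) (v : ι → Ω) :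
    (fun i => h • (A.mulVec v) i) = (A.map (fun x => h • x)).mulVec (fun i => h • v i) := by
  funext i
  rw [Matrix.mulVec, Matrix.mulVec, dotProduct, dotProduct, Finset.smul_sum]
  refine Finset.sum_congr rfl fun j _ => ?_
  rw [smul_mul', Matrix.map_apply]

theorem wan {p : ℕ} {G Ω : Type u} [Group G] [TopologicalSpace G] [Field Ω] [MulSemiringAction G Ω] {ζ a : Ω} {g₀ : G}
    (C : Cd p G ζ a g₀) (hPS : PS p G) (b : fF G Ω) (hb : b ≠ 0) (hD : (C.dat b hb).Div)
    {g : Matrix (Fin (Pool.Agent.MSX.dm p 1)) (Fin (Pool.Agent.MSX.dm p 1)) (fL G Ω p a)} (hg : g ∈ (C.dat b hb).An 1) {ξ : fF G Ω}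
    (hξ : g.det = algebraMap (fF G Ω) (fL G Ω p a) ξ) (hξp : ∀ x : fF G Ω, x ^ p ≠ ξ) :
    ∃ (lam : Ω) (c : G), (MulAction.stabilizer G lam).Normal ∧ (MulAction.stabilizer G lam).index = p ∧
      c ∉ MulAction.stabilizer G lam ∧ ∏ r ∈ Finset.range p, c ^ r • lam = (ξ : Ω) ∧
      CuN (MulAction.stabilizer G lam) (sb (H := G) p ζ a (b : Ω)) (fun _ _ => 1) := by
  classical
  have i1 := C.ga.alg
  have i2 := C.ga.top
  have i3 := C.ga.cpt
  have hp := C.hp
  have hnd : ¬ (p : ℤ) ∣ 1 := by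
    intro h
    have h1 := Int.natCast_dvd_natCast.1 (by simpa using h : (p : ℤ) ∣ ((1 : ℕ) : ℤ))
    exact hp.one_lt.ne' (Nat.dvd_one.1 h1)
  have hdm : Fintype.card (Fin (Pool.Agent.MSX.dm p 1)) = p := by
    rw [Fintype.card_fin, Pool.Agent.MSX.dm_of hnd]
  obtain ⟨D, hDdef⟩ : ∃ D, D = C.dat b hb := ⟨_, rfl⟩
  rw [← hDdef] at hD hg
  have hDs : ∀ x : fL G Ω p a, ((D.s x : fL G Ω p a) : Ω) = g₀ • (x : Ω) := by
    rw [hDdef]
    exact C.dat_s b hb
  have hDb : D.b = b := by
    rw [hDdef]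
    exact C.dat_b b hb
  clear hDdef
  have hBdet := D.bm_det 1
  obtain ⟨f, hfm, hfd, hfg⟩ := D.cn_charpoly hBdet hg
  rw [hdm] at hfd
  -- step 1
  have hroot : ∀ x : fF G Ω, ¬ f.IsRoot x := by
    intro x hx
    obtain ⟨x', hx'⟩ : ∃ x' : fL G Ω p a, x' = algebraMap (fF G Ω) (fL G Ω p a) x := ⟨_, rfl⟩
    have h1 : Module.End.HasEigenvalue (Matrix.toLin' g) x' := by
      rw [Module.End.hasEigenvalue_iff_isRoot_charpoly, Matrix.charpoly_toLin', ← hfg, hx']
      exact hx.map
    have hne : Module.End.eigenspace (Matrix.toLin' g) x' ≠ ⊥ := h1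
    have hmem : ∀ v, v ∈ Module.End.eigenspace (Matrix.toLin' g) x' ↔ g.mulVec v = x' • v := by
      intro v
      rw [Module.End.mem_eigenspace_iff, Matrix.toLin'_apply]
    have hst : ∀ v ∈ Module.End.eigenspace (Matrix.toLin' g) x',
        D.tau (D.Bm 1) v ∈ Module.End.eigenspace (Matrix.toLin' g) x' := by
      intro v hv
      rw [hmem] at hv ⊢
      rw [D.cn_mulVec hg, hv, D.tau_smul, hx', D.s.commutes]
    have h2 : p ∣ Module.finrank (fL G Ω p a) (Module.End.eigenspace (Matrix.toLin' g) x') :=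
      D.dvd_finrank hD hnd ((D.tau_bm_isTau 1).sub _ hst)
    have h3 : Module.finrank (fL G Ω p a) (Fin (Pool.Agent.MSX.dm p 1) → fL G Ω p a) = p := by
      rw [Module.finrank_fintype_fun_eq_card, hdm]
    have h4 : 0 < Module.finrank (fL G Ω p a) (Module.End.eigenspace (Matrix.toLin' g) x') := by
      rw [Nat.pos_iff_ne_zero, Ne, Submodule.finrank_eq_zero]
      exact hne
    have h5 : Module.End.eigenspace (Matrix.toLin' g) x' = ⊤ := by
      apply Submodule.eq_top_of_finrank_eq
      refine le_antisymm (Submodule.finrank_le _) ?_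
      rw [h3]
      exact Nat.le_of_dvd h4 h2
    have h6 : g = x' • (1 : Matrix _ _ (fL G Ω p a)) := by
      refine Matrix.ext_of_mulVec_single fun i => ?_
      have h7 : Pi.single i (1 : fL G Ω p a) ∈ Module.End.eigenspace (Matrix.toLin' g) x' := by
        rw [h5]
        exact Submodule.mem_top
      rw [hmem] at h7
      rw [h7, Matrix.smul_mulVec, Matrix.one_mulVec]
    rw [h6, Matrix.det_smul, Matrix.det_one, mul_one, hdm, hx', ← map_pow] at hξ
    exact hξp x ((algebraMap (fF G Ω) (fL G Ω p a)).injective hξ)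
  have hirr : Irreducible f := (ps_F C.ga hPS).irr hp f hfd hroot
  -- step 2
  have hfdeg : f.degree ≠ 0 := by
    intro h
    exact hirr.not_isUnit (Polynomial.isUnit_iff_degree_eq_zero.2 h)
  obtain ⟨lam, hlam⟩ := IsAlgClosed.exists_aeval_eq_zero Ω f hfdeg
  have hidx : (MulAction.stabilizer G lam).index = p := by rw [wan_index C.ga hirr hlam, hfd]
  have hUo : IsOpen ((MulAction.stabilizer G lam : Subgroup G) : Set G) := C.ga.stab lam
  have hnorm : (MulAction.stabilizer G lam).Normal := wan_normal hp hPS hUo hidx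
  obtain ⟨c, hc⟩ : ∃ c, c ∉ MulAction.stabilizer G lam := by
    by_contra hcon
    push Not at hcon
    have h1 : MulAction.stabilizer G lam = ⊤ := by
      ext x
      exact ⟨fun _ => Subgroup.mem_top x, fun _ => hcon x⟩
    rw [h1, Subgroup.index_top] at hidx
    exact hp.one_lt.ne hidx
  have hinj := wan_inj hp hnorm hidx hc
  -- the matrix over `Ω`
  obtain ⟨ε, hε⟩ : ∃ ε : fL G Ω p a →+* Ω, ε = (fL G Ω p a).subtype := ⟨_, rfl⟩
  have hεv : ∀ x, ε x = (x : Ω) := fun x => by rw [hε]; rfl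
  obtain ⟨A, hA⟩ : ∃ A, A = g.map ε := ⟨_, rfl⟩
  have hAc : A.charpoly = f.map (algebraMap (fF G Ω) Ω) := by
    rw [hA, Matrix.charpoly_map, ← hfg, Polynomial.map_map]
    congr 1
    ext x
    rw [RingHom.comp_apply, hεv]
    rfl
  have hAdet : A.det = (ξ : Ω) := by
    rw [hA, ← RingHom.mapMatrix_apply, ← RingHom.map_det, hξ, hεv]
    rfl
  have hAroot : ∀ r, (A.charpoly).IsRoot (c ^ r • lam) := by
    intro r
    rw [hAc, Polynomial.IsRoot.def, Polynomial.eval_map]
    exact wan_conj_root f (c ^ r) hlam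
  have hAm : A.charpoly ≠ 0 := (Matrix.charpoly_monic A).ne_zero
  have hinj' : Set.InjOn (fun r => c ^ r • lam) (Finset.range p : Set ℕ) := by
    intro r hr s hs h
    exact hinj r s (Finset.mem_range.1 hr) (Finset.mem_range.1 hs) h
  have hroots : ((Finset.range p).image (fun r => c ^ r • lam)).val = A.charpoly.roots := by
    refine Multiset.eq_of_le_of_card_le ?_ ?_
    · rw [Multiset.le_iff_subset (Finset.nodup _)]
      intro y hy
      rw [Finset.mem_val] at hy
      obtain ⟨r, _, rfl⟩ := Finset.mem_image.1 hy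
      exact (Polynomial.mem_roots hAm).2 (hAroot r)
    · refine (Polynomial.card_roots' _).trans ?_
      rw [Finset.card_val, Finset.card_image_of_injOn hinj', Finset.card_range,
        Matrix.charpoly_natDegree_eq_dim, hdm]
  have hprod : ∏ r ∈ Finset.range p, c ^ r • lam = (ξ : Ω) := by
    rw [← hAdet, Matrix.det_eq_prod_roots_charpoly, ← hroots, ← Finset.prod_image (f := fun y => y)
      (g := fun r => c ^ r • lam) (s := Finset.range p) hinj']
    rw [Finset.prod_eq_multiset_prod]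
    simp
  have hmult : A.charpoly.rootMultiplicity lam ≤ 1 := by
    rw [← Polynomial.count_roots, ← hroots]
    exact Multiset.nodup_iff_count_le_one.1 (Finset.nodup _) lam
  refine ⟨lam, c, hnorm, hidx, hc, hprod, ?_⟩
  -- step 3
  by_cases hkr : MulAction.stabilizer G lam ≤ kr G p a
  · refine CuN_of_eq fun x hx y _ => ?_
    show zp ζ (km p ζ a x * km p ζ (b : Ω) y) = 1
    rw [C.mem_kr.1 (hkr hx), zero_mul, zp_zero C.hz]
  have hne := C.hz.neZero
  obtain ⟨h, hh, hkm⟩ : ∃ h ∈ MulAction.stabilizer G lam, km p ζ a h = 1 := by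
    obtain ⟨h₀, hh₀, hk₀⟩ := Set.not_subset.1 (fun hs => hkr hs)
    have hk0 : km p ζ a h₀ ≠ 0 := fun h0 => hk₀ (C.mem_kr.2 h0)
    have hF := Fact.mk hp
    have hpow : ∀ k : ℕ, km p ζ a (h₀ ^ k) = (k : ZMod p) * km p ζ a h₀ := by
      intro k
      induction k with
      | zero =>
        rw [pow_zero, Nat.cast_zero, zero_mul]
        exact C.mem_kr.1 (kr G p a).one_mem
      | succ k ih =>
        rw [pow_succ, km_hom C.hz C.fa.1 (C.fz _) (C.fz _) (C.fa.2 _) (C.fa.2 _), ih]
        push_cast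
        ring
    refine ⟨h₀ ^ ((km p ζ a h₀)⁻¹).val, Subgroup.pow_mem _ hh₀ _, ?_⟩
    rw [hpow, ZMod.natCast_zmod_val, inv_mul_cancel₀ hk0]
  have hhlam : h • lam = lam := hh
  -- `h` acts on `L` as `s`
  have hs : ∀ x : fL G Ω p a, h • (x : Ω) = ((D.s x : fL G Ω p a) : Ω) := by
    intro x
    have h1 : g₀⁻¹ * h ∈ kr G p a := by
      have h2 := MSG.kr_dec C.ga C.hz C.fz C.fa C.g1 h
      rw [hkm] at h2
      have hF : Fact (1 < p) := ⟨hp.one_lt⟩
      rw [ZMod.val_one, pow_one] at h2
      exact h2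
    have h3 : (g₀⁻¹ * h) • (x : Ω) = x := x.2 ⟨_, h1⟩
    rw [mul_smul, inv_smul_eq_iff] at h3
    rw [h3, hDs]
  have hsmap : ∀ (M : Matrix (Fin (Pool.Agent.MSX.dm p 1)) (Fin (Pool.Agent.MSX.dm p 1)) (fL G Ω p a)),
      (M.map ε).map (fun x => h • x) = (M.map D.s).map ε := by
    intro M
    ext i j
    rw [Matrix.map_apply, Matrix.map_apply, Matrix.map_apply, Matrix.map_apply, hεv, hεv, hs]
  obtain ⟨B, hB⟩ : ∃ B, B = (D.Bm 1).map ε := ⟨_, rfl⟩
  have hAB : A * B = B * (g.map D.s).map ε := by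
    have h1 : g * D.Bm 1 = D.Bm 1 * g.map D.s := hg
    rw [hA, hB, ← Matrix.map_mul, h1, Matrix.map_mul]
  have hBdet' : B.det ≠ 0 := by
    rw [hB, ← RingHom.mapMatrix_apply, ← RingHom.map_det]
    exact (map_ne_zero ε).2 hBdet
  -- the eigenvector
  obtain ⟨v, hv, hv0⟩ : ∃ v, A.mulVec v = lam • v ∧ v ≠ 0 := by
    have h1 : Module.End.HasEigenvalue (Matrix.toLin' A) lam := by
      rw [Module.End.hasEigenvalue_iff_isRoot_charpoly, Matrix.charpoly_toLin']
      have := hAroot 0
      rwa [pow_zero, one_smul] at this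
    obtain ⟨v, hv⟩ := h1.exists_hasEigenvector
    refine ⟨v, ?_, hv.2⟩
    have h2 := hv.apply_eq_smul
    rwa [Matrix.toLin'_apply] at h2
  obtain ⟨i₀, hi₀⟩ := Function.ne_iff.1 hv0
  rw [Pi.zero_apply] at hi₀
  obtain ⟨w, hw⟩ : ∃ w, w = (v i₀)⁻¹ • v := ⟨_, rfl⟩
  have hw1 : w i₀ = 1 := by
    rw [hw, Pi.smul_apply, smul_eq_mul, inv_mul_cancel₀ hi₀]
  have hw0 : w ≠ 0 := by
    rintro h0
    rw [h0, Pi.zero_apply] at hw1
    exact zero_ne_one hw1
  have hAw : A.mulVec w = lam • w := by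
    rw [hw, Matrix.mulVec_smul, hv, smul_comm]
  -- `U ∩ kr` fixes `w`
  have hfixw : ∀ n : G, n • lam = lam → n ∈ kr G p a → (fun i => n • w i) = w := by
    intro n hn hnk
    have h1 : A.map (fun x => n • x) = A := by
      ext i j
      rw [Matrix.map_apply, hA, Matrix.map_apply, hεv]
      exact (g i j).2 ⟨n, hnk⟩
    have h2 : A.mulVec (fun i => n • w i) = lam • (fun i => n • w i) := by
      have h3 := wan_smul_mulVec n A w
      rw [h1, hAw] at h3
      rw [← h3]
      funext i
      rw [Pi.smul_apply, smul_eq_mul, smul_mul', hn, Pi.smul_apply, smul_eq_mul]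
    obtain ⟨t, ht⟩ := wan_eig A hmult hAw hw0 h2
    have h4 := congrFun ht i₀
    rw [hw1, smul_one, Pi.smul_apply, smul_eq_mul, hw1, mul_one] at h4
    rw [ht, ← h4, one_smul]
  -- the operator `T`
  obtain ⟨T, hT⟩ : ∃ T : (Fin (Pool.Agent.MSX.dm p 1) → Ω) → (Fin (Pool.Agent.MSX.dm p 1) → Ω),
    T = fun u => B.mulVec (fun i => h • u i) := ⟨_, rfl⟩
  have hTsm : ∀ (x : Ω) u, T (x • u) = (h • x) • T u := by
    intro x u
    rw [hT]
    show B.mulVec (fun i => h • (x • u) i) = (h • x) • B.mulVec (fun i => h • u i)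
    rw [← Matrix.mulVec_smul]
    congr 1
    funext i
    rw [Pi.smul_apply, Pi.smul_apply, smul_eq_mul, smul_eq_mul, smul_mul']
  have hAT : A.mulVec (T w) = lam • T w := by
    have h1 : A.mulVec (T w) = T (A.mulVec w) := by
      rw [hT]
      show A.mulVec (B.mulVec (fun i => h • w i)) = B.mulVec (fun i => h • (A.mulVec w) i)
      rw [wan_smul_mulVec, Matrix.mulVec_mulVec, Matrix.mulVec_mulVec, hAB, hA, hsmap]
    rw [h1, hAw, hTsm, hhlam]
  obtain ⟨z, hz⟩ := wan_eig A hmult hAw hw0 hAT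
  have hz0 : z ≠ 0 := by
    rintro rfl
    rw [zero_smul] at hz
    have h1 : B.mulVec (fun i => h • w i) = 0 := by
      rw [hT] at hz
      exact hz
    have h2 : (fun i => h • w i) = 0 := by
      by_contra h3
      exact hBdet' (Matrix.exists_mulVec_eq_zero_iff.1 ⟨_, h3, h1⟩)
    have h3 := congrFun h2 i₀
    rw [hw1, smul_one, Pi.zero_apply] at h3
    exact one_ne_zero h3
  have hzfix : ∀ n : G, n • lam = lam → n ∈ kr G p a → n • z = z := by
    intro n hn hnk
    have hcj : h⁻¹ * n * h ∈ kr G p a := (MSG.kr_conj C.ga C.hz C.fz C.fa h n).1 hnk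
    have hcl : (h⁻¹ * n * h) • lam = lam := by
      rw [mul_smul, mul_smul, hhlam, hn, inv_smul_eq_iff, hhlam]
    have h1 : (fun i => n • (T w) i) = T w := by
      have h2 : B.map (fun x => n • x) = B := by
        ext i j
        rw [Matrix.map_apply, hB, Matrix.map_apply, hεv]
        exact (D.Bm 1 i j).2 ⟨n, hnk⟩
      rw [hT]
      show (fun i => n • (B.mulVec (fun i => h • w i)) i) = B.mulVec (fun i => h • w i)
      rw [wan_smul_mulVec, h2]
      congr 1
      funext i
      have h3 := congrFun (hfixw _ hcl hcj) i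
      have h4 : n • h • w i = h • (h⁻¹ * n * h) • w i := by
        rw [← mul_smul, ← mul_smul]
        congr 1
        group
      rw [h4]
      exact congrArg _ h3
    have h2 := congrFun h1 i₀
    rw [hz, Pi.smul_apply, smul_eq_mul, hw1, mul_one] at h2
    exact h2
  -- iteration
  have hit1 : ∀ k : ℕ, T^[k] w = (∏ i ∈ Finset.range k, h ^ i • z) • w := by
    intro k
    induction k with
    | zero => rw [Function.iterate_zero, id, Finset.range_zero, Finset.prod_empty, one_smul]
    | succ k ih =>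
      rw [Function.iterate_succ_apply', ih, hTsm, hz, smul_smul]
      congr 1
      rw [Finset.prod_range_succ', pow_zero, one_smul, Finset.smul_prod']
      congr 1
      refine Finset.prod_congr rfl fun i _ => ?_
      rw [pow_succ', mul_smul]
  have hit2 : ∀ k : ℕ, T^[k] w =
      ((Pool.Agent.MSX.itM D.s.toRingEquiv (D.Bm 1) k).map ε).mulVec (fun i => h ^ k • w i) := by
    intro k
    induction k with
    | zero =>
      have h1 : Pool.Agent.MSX.itM D.s.toRingEquiv (D.Bm 1) 0 = 1 := rfl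
      rw [Function.iterate_zero, id, h1, Matrix.map_one _ (map_zero ε) (map_one ε),
        Matrix.one_mulVec]
      funext i
      rw [pow_zero, one_smul]
    | succ k ih =>
      have h1 : Pool.Agent.MSX.itM D.s.toRingEquiv (D.Bm 1) (k + 1) =
        D.Bm 1 * (Pool.Agent.MSX.itM D.s.toRingEquiv (D.Bm 1) k).map D.s := rfl
      rw [Function.iterate_succ_apply', ih, h1, Matrix.map_mul, ← hB, ← Matrix.mulVec_mulVec,
        ← hsmap]
      rw [hT]
      show B.mulVec (fun i => h • (Matrix.mulVec _ _) i) = _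
      rw [wan_smul_mulVec]
      congr 2
      funext i
      rw [pow_succ', mul_smul]
  have hbp : (b : Ω) = nL p h z := by
    have h1 := hit2 p
    rw [D.bm_iter, hit1 p] at h1
    have h2 : (fun i => h ^ p • w i) = w :=
      hfixw _ (by
        have : h ^ p ∈ MulAction.stabilizer G lam := Subgroup.pow_mem _ hh p
        exact this) (MSG.kr_pow C.ga C.hz C.fz C.fa h)
    rw [h2] at h1
    have h3 : (((D.bL : fL G Ω p a) ^ (1 : ℤ)) • (1 : Matrix (Fin (Pool.Agent.MSX.dm p 1))
        (Fin (Pool.Agent.MSX.dm p 1)) (fL G Ω p a))).map ε = (b : Ω) • 1 := by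
      ext i j
      rw [Matrix.map_apply, Matrix.smul_apply, Matrix.smul_apply, zpow_one, smul_eq_mul, map_mul,
        hεv, smul_eq_mul, Matrix.one_apply, Matrix.one_apply]
      have h4 : ((D.bL : fL G Ω p a) : Ω) = (b : Ω) := by
        unfold Pool.Agent.MSX.Dat.bL
        rw [algFL_val, hDb]
      rw [h4]
      by_cases hij : i = j
      · rw [if_pos hij, if_pos hij, map_one]
      · rw [if_neg hij, if_neg hij, map_zero]
    rw [h3, Matrix.smul_mulVec, Matrix.one_mulVec] at h1
    have h5 := congrFun h1 i₀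
    rw [Pi.smul_apply, Pi.smul_apply, hw1, smul_eq_mul, smul_eq_mul, mul_one, mul_one] at h5
    exact h5.symm
  -- the pair `(U, Ω)`
  have hGU : GA (MulAction.stabilizer G lam) Ω :=
    C.ga.sub _ (Subgroup.isClosed_of_isOpen _ hUo)
  have hco := nc_of_norm (G := MulAction.stabilizer G lam) hGU hp C.hz (fun g => C.fz g)
    (a := a) ⟨C.fa.1, fun g => C.fa.2 g⟩ (g₀ := ⟨h, hh⟩) hkm (y := z)
    ⟨hz0, fun n hn => hzfix n n.2 hn⟩
  have hnL : nL p (⟨h, hh⟩ : MulAction.stabilizer G lam) z = (b : Ω) := by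
    rw [hbp]
    rfl
  rw [hnL] at hco
  have hcu := Cu_of_Co C.hz (fun g : MulAction.stabilizer G lam => C.fz g) hco
  have h1 : (fun g h : MulAction.stabilizer G lam => zp ζ (0 : ZMod p)) = fun _ _ => 1 := by
    funext g h
    exact zp_zero C.hz
  rw [h1] at hcu
  exact hcu

end MSN
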