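import Pool.Agent.MSN.C2
import Pool.Agent.MSN.Wan
import Pool.Agent.MSN.Bb

/-! # MSN / Stp: the step

PROOF of `step`.  `μ.ψ ζ = ζ'`.  By `h` and `HD.perf` (`(p : Ω') ≠ 0`): `ri (bqm μ (bc (zf ζ f)))` is in `HD p j'` (`pf_zf`: the pull back of `zf ζ f` is `zf (μ.ψ ζ) (f ∘ μ.r)`; `BB` is `HD` for the inclusion of the fixed field by definition).  The fields `F = Ω^G`, `L` are perfect (`perfect`), `MSX.PS` (`ps_F`, `ps_kr`, `ga_kr`),
`D.Div` (`dat_div`), so `core'` gives `N`.  As in `HD.level` write `ri (bqm μ (bc (zf ζ f))) = hB L w`, `res_step`: `s, z`, `xi_of`: `ξ`, `g`.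
(i) `cyc`: if `Mu p G Ω`: `ξ = ξ' ^ p` with `ξ' ∈ Ω^G` (a `p`-th root of `ξ` in `Ω` is a root of unity of `p`-power order, so it is fixed); `tor1`, `s1`.
(ii) Data `Cyx p G i ξ₁ c`.  `xip`: if `ξ = ξ' ^ p` again `tor1`, `s1`.  Otherwise `ξ` is a primitive root of order `p ^ i`.
  If `ri (bc (sb p ζ a b)) = 0`: `tor2`, `s1`.
  Otherwise `ξ` is not a `p`-th power in `F`: `ξ = x ^ p` would make `x` a root of unity of order `p ^ (i + 1)` fixed by `G` (`cyc_max`).  `wan`: `lam, c'`.  `bta`: `θ`, and `ker_cyc` (MSG/Uqb.lean; `f = sb p ζ a b` is a cocycle, `CuN (stab lam) f 1`, `θ c' = 1`): `Cu (sb p ζ a b) (b' ^ cy θ)` with `b'` fixed by `G`.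
  `bta` for `b'`: `β` with `p ^ i • bc β = bc (b' ^ cy θ) = bc (sb p ζ a b)`.  The class of `(a, b)` dies in `G'`: `kill_K` below (`bqm_sb`, `Cu_of_Co`).  So `bqm μ (bc β) = hB L' κ` of level `p ^ i`; restricted to `Gi` (`MSC.ri_hB`) it is in `HD` for the fixed field of `G'`, so in `HD p j'` (`HD.perf`).  `c2`.

PROOF of `kill_K`.  `hn'`: `Y ∈ KL` with `∏ (sK D)^[k] Y = cL b`; `real`: `j₁`; choose `g₁` with `μ.r g₁ = g₀` (`mo_surj`, `alg_cF`); `y = j₁ Y` is fixed by `kr G' p a'` and `∏_(k<p) g₁ ^ k • y = j₁ (cL b) = μ.ψ b`; `nc_of_norm` for `(G', Ω')`, `km p ζ' a' g₁ = 1` (`Mo.km`).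
-/

set_option autoImplicit false
set_option linter.unusedVariables false

namespace MSN

universe u

open MSG Pool.Agent.Helper14.Massey

open Pool.Agent.MK (K2 S)

open Pool.Agent.MSX (KL Q Dat Fam tm cc cMb Mb lv)

private theorem stp_kk_Z2 {p : ℕ} {G Ω : Type u} [Group G] [TopologicalSpace G] [Field Ω] [MulSemiringAction G Ω] {ζ a : Ω} {g₀ : G}
    (C : Cd p G ζ a g₀) (b : fF G Ω) (hb : b ≠ 0) : kk (G := G) p ζ a (b : Ω) ∈ Z2 p G := by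
  have halg : IsAlgClosed Ω := C.ga.alg
  have hk : ∀ {x : Ω}, Fx G x → (fun g : G => km p ζ x g) ∈ H1 p G := by
    intro x hx
    refine ⟨km_cont C.ga _ ζ _, fun σ τ => ?_⟩
    exact km_hom C.hz hx.1 (C.fz σ) (C.fz τ) (hx.2 _) (hx.2 _)
  have hb' : Fx G (b : Ω) := ⟨fun h => hb (Subtype.ext h), fun g => b.2 g⟩
  exact cup_mem_Z2 ⟨_, hk C.fa⟩ ⟨_, hk hb'⟩

theorem kill_K {p : ℕ} {G Ω : Type u} [Group G] [TopologicalSpace G] [Field Ω] [MulSemiringAction G Ω] {ζ a : Ω} {g₀ : G}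
    (C : Cd p G ζ a g₀) (b : fF G Ω) (hb : b ≠ 0) {G' Ω' : Type u} [Group G'] [TopologicalSpace G']
    [Field Ω'] [MulSemiringAction G' Ω'] {j' : (C.dat b hb).K →+* Ω'} (h' : Ov (C.dat b hb).K G' j') (μ : Mo G Ω G' Ω')
    (hμ : ∀ x : fF G Ω, μ.ψ x = j' (cF (C.dat b hb) x)) :
    Co (kk (G := G') p (μ.ψ ζ) (μ.ψ a) (μ.ψ (b : Ω))) (fun _ _ => 0) := by
  have halg : IsAlgClosed Ω := C.ga.alg
  have halg' : IsAlgClosed Ω' := h'.ga.alg
  obtain ⟨Y, hY0, hY⟩ := hn' (C.dat b hb)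
  obtain ⟨j₁, h1, h2, h3, h4⟩ := real C b hb h' μ hμ
  have hsur : Function.Surjective μ.r :=
    mo_surj (Ov.self C.ga) h' (alg_cF (C.dat b hb)) μ hμ
  obtain ⟨g₁, hg₁⟩ := hsur g₀
  have hit : ∀ (k : ℕ) (y : KL p (fL G Ω p a)), g₁ ^ k • j₁ y = j₁ ((sK (C.dat b hb))^[k] y) := by
    intro k
    induction k with
    | zero =>
      intro y
      rw [pow_zero, one_smul]
      rfl
    | succ k ih =>
      intro y
      rw [pow_succ, mul_smul, h4 g₁ hg₁, ih, Function.iterate_succ_apply]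
  have e1 : nL p g₁ (j₁ Y) = μ.ψ (b : Ω) := by
    unfold nL
    rw [Finset.prod_congr rfl fun i _ => hit i Y, ← map_prod, hY, h2, algFL_val, C.dat_b]
  have hkm : km p (μ.ψ ζ) (μ.ψ a) g₁ = 1 := by
    rw [μ.km C.hz C.fa.1 (C.fz _) (C.fa.2 _), hg₁, C.g1]
  rw [← e1]
  refine nc_of_norm h'.ga C.hp (μ.pz C.hz) (fun g => by rw [← μ.comp, C.fz]) (μ.fx C.fa) hkm ?_
  exact ⟨(map_ne_zero j₁).2 hY0, fun g hg => h3 g hg Y⟩

theorem step {p : ℕ} {G Ω : Type u} [Group G] [TopologicalSpace G] [Field Ω] [MulSemiringAction G Ω] {ζ a : Ω} {g₀ : G}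
    (C : Cd p G ζ a g₀) (hg : g₀ ∈ Gi p G Ω) (hPS : PS p G) (b : fF G Ω) (hb : b ≠ 0)
    (hab : ¬ Co (kk (G := G) p ζ a (b : Ω)) (fun _ _ => 0)) {G' Ω' : Type u} [Group G'] [TopologicalSpace G']
    [Field Ω'] [MulSemiringAction G' Ω'] {j' : (C.dat b hb).K →+* Ω'} (h' : Ov (C.dat b hb).K G' j') (μ : Mo G Ω G' Ω')
    (hμ : ∀ x : fF G Ω, μ.ψ x = j' (cF (C.dat b hb) x)) {f : G → G → ZMod p} (hf : f ∈ Z2 p G)
    (h : BB p G' (μ.ψ ζ) (fun g h => f (μ.r g) (μ.r h))) : BB p G ζ f := by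
  have halg : IsAlgClosed Ω := C.ga.alg
  have halg' : IsAlgClosed Ω' := h'.ga.alg
  have hp := C.hp
  have hp2 : p ≠ 2 := by
    rintro rfl
    exact absurd C.hz.odd (by decide)
  have hpΩ' : (p : Ω') ≠ 0 := (μ.pz C.hz).cast_ne
  have i1 : PerfectField (fF G Ω) := perfect G
  have i2 : PerfectField (fL G Ω p a) := perfect (kr G p a)
  have hf' : Zo (zf ζ f) := Zu_zp C.ga C.hz C.fz hf
  have hb' : Fx G (b : Ω) := ⟨fun h => hb (Subtype.ext h), fun g => b.2 g⟩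
  -- the class over `D.K`
  have hK : HD p j' (ri p G' Ω' (bqm μ (bc (zf ζ f)))) := by
    refine HD.perf h' hp hpΩ' ?_
    rw [bqm_bc μ (nz_zf C.hz f), pf_zf]
    exact h
  have hD := C.dat_div b hb hab
  have hζ₀ : IsPrimitiveRoot (⟨ζ, C.fz⟩ : fF G Ω) p :=
    IsPrimitiveRoot.of_map_of_injective (f := (fF G Ω).subtype) C.hz.prim (fF G Ω).subtype.injective
  obtain ⟨N, hN⟩ := core' (C.dat b hb) hp2 hD (ps_F C.ga hPS) (ps_F (ga_kr C) (ps_kr C hPS)) hζ₀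
  have hpf : p ^ 1 • bc (zf ζ f) = 0 := by
    rw [← bc_pow (nz_zf C.hz f), ← bc_one]
    congr 1
    funext g h
    rw [pow_one]
    exact zp_pow C.hz _
  obtain ⟨m, z', L, w, hw⟩ := id hK
  obtain ⟨s, z, hz, hzw⟩ := res_step C b hb h' μ hμ hf' L hw
  obtain ⟨ξ, k, hξ, hcz, g', hg', hdet⟩ := xi_of hp (C.dat b hb) hN hz hzw
  -- the torsion family finishes the proof
  have fin : (∃ (τ : Fam p (fL G Ω p a)) (l : ℕ), (C.dat b hb).Good τ ∧ p ^ l • τ = 0 ∧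
      (((cc τ).toMul : (Mb p (fL G Ω p a))ˣ) : Mb p (fL G Ω p a)) = cMb p (fL G Ω p a) (algebraMap (fF G Ω) (fL G Ω p a) ξ)) →
      BB p G ζ f := by
    rintro ⟨τ, l, h1, h2, h3⟩
    refine s1 C hg hPS b hb h' μ hμ hN hf' hpf L hw hz hzw h1 h2 ?_
    apply Additive.toMul.injective
    apply Units.ext
    rw [h3, hcz]
  have fin1 : (∃ (ξ' : fF G Ω) (k' : ℕ), ξ' ^ p ^ k' = 1 ∧ ξ' ^ p = ξ) → BB p G ζ f := by
    rintro ⟨ξ', k', h1, h2⟩
    obtain ⟨τ, l, h3, h4, h5⟩ := tor1 (C.dat b hb) h1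
    rw [h2] at h5
    exact fin ⟨τ, l, h3, h4, h5⟩
  rcases cyc hp C.ga C.hz C.fz with hM | ⟨i, ξ₁, c, hc⟩
  · apply fin1
    obtain ⟨x, hx⟩ := IsAlgClosed.exists_pow_nat_eq (ξ : Ω) hp.pos
    have hx1 : x ^ p ^ (k + 1) = 1 := by
      rw [pow_succ', pow_mul, hx]
      exact congrArg (fun t : fF G Ω => (t : Ω)) hξ
    refine ⟨⟨x, fun g => hM g x (k + 1) hx1⟩, k + 1, Subtype.ext hx1, Subtype.ext hx⟩
  · rcases xip hp hc hξ with h1 | hξp
    · exact fin1 h1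
    · by_cases hA : ri p G Ω (bc (sb (H := G) p ζ a (b : Ω))) = 0
      · exact fin (tor2 C hg b hb hc hA hξp)
      · obtain ⟨i', rfl⟩ : ∃ i', i = i' + 1 := ⟨i - 1, by have := hc.one_le; omega⟩
        have hnp : ∀ x : fF G Ω, x ^ p ≠ ξ := by
          intro x hx
          have hx' : (x : Ω) ^ p = (ξ : Ω) := congrArg (fun t : fF G Ω => (t : Ω)) hx
          have e1 : (x : Ω) ^ p ^ (i' + 1 + 1) = 1 := by
            rw [pow_succ', pow_mul, hx']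
            exact hξp.pow_eq_one
          have e2 : (x : Ω) ^ p ^ (i' + 1) = 1 := cyc_max hp hc e1 fun g => x.2 g
          rw [pow_succ', pow_mul, hx'] at e2
          have e3 := hξp.dvd_of_pow_eq_one _ e2
          have e4 := (Nat.pow_dvd_pow_iff_le_right hp.one_lt).1 e3
          omega
        obtain ⟨lam, c', hn, hi, hcn, hprod, hcu⟩ := wan C hPS b hb hD hg' hdet hnp
        obtain ⟨θ, hθ, hadd, hθc, hθ0, hall⟩ := bta hp C.ga hPS C.hz C.fz hc hξp hn hi hcn hprod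
        have hne : NeZero p := ⟨hp.ne_zero⟩
        have hZ : Zu G (sb (H := G) p ζ a (b : Ω)) := Zu_zp C.ga C.hz C.fz (stp_kk_Z2 C b hb)
        obtain ⟨b', hb'f, hbcu⟩ := ker_cyc C.ga hθ hadd hθc hθ0 hZ hcu
        obtain ⟨β, hβ, hβi, hβ2⟩ := hall b' hb'f
        have hNz : Nz (fun g h : G => b' ^ cy θ g h) := fun g h => pow_ne_zero _ hb'f.1
        have e1 : bc (fun g h : G => b' ^ cy θ g h) = bc (sb (H := G) p ζ a (b : Ω)) :=
          ((bc_eq_cu (nz_sb C.hz a (b : Ω)) hNz).2 hbcu).symm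
        rw [e1] at hβi hβ2
        have hz' := μ.pz C.hz
        have hfz' : ∀ g : G', g • μ.ψ ζ = μ.ψ ζ := fun g => by rw [← μ.comp, C.fz]
        have e2 : bqm μ (bc (sb (H := G) p ζ a (b : Ω))) = 0 := by
          rw [bqm_bc μ (nz_sb C.hz a (b : Ω)), bqm_sb μ C.ga h'.ga C.hz C.fz C.fa hb', ← bc_zero_zf hz']
          exact bc_of_co hz' hfz' (kill_K C b hb h' μ hμ)
        obtain ⟨L₁, κ, hκ⟩ := hβ2 G' Ω' μ h'.ga e2
        have hβK : HD p j' (ri p G' Ω' (bqm μ (bc β))) := by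
          refine HD.perf h' hp hpΩ' ?_
          rw [hκ]
          exact ⟨i', _, MSC.gi_lv L₁, κ, MSC.ri_hB L₁ (MSC.gi_lv L₁) κ⟩
        exact c2 C hg hPS b hb h' μ hμ hN hc hA hβ hβi hβK hf hK

end MSN
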