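import Pool.Agent.MSN.Gz
import Pool.Agent.MSN.Bb
import Pool.Agent.MSG.Dpb

/-! # MSN / Syd: descent from a Sylow subgroup

PROOF of `bb_syl`.  `BB p P ζ (f on P)`: level `p ^ (m + 1)`, root `z`, `L : Lv (p ^ (m + 1)) (Gi p P Ω) z _`, `κ ∈ K₂(Ω^P)`; by `MSC.adjust` one may assume `z ^ (p ^ m) = ζ`.  Let `e : ZMod p → ZMod (p ^ (m + 1))`, `e x = p ^ m * x.val` (additive; `ZMod`-lift of multiplication by `p ^ m`): `zp z (e x) = zp ζ x`,
so `zf ζ f = zf z (fun g h => e (f g h))`.  `f' g h = e (f g h)` for `g, h` in `H = Gi p G Ω`: `f' ∈ Z2 (p ^ (m + 1)) H`.  `ι : H → G` the inclusion.  `P.comap ι` and `Gi p P Ω` are the same subgroup of `G` (`{g ∈ P | g fixes the roots of unity}`): transport the relation: by `MSC.sum_sym`, `MSC.hB_sum`, `MSC.co_of_bc_zf`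
it says that `e f` on `Gi p P Ω` is a sum of symbols with entries fixed by `P`, up to a coboundary, i.e. `Sy (p ^ (m + 1)) z (ι.subgroupComap P) (f' on P.comap ι)`.  `dp` (MSG/Dpb.lean; `htr` from `gi_tr`, `PF H` from `GA.pf (gi_ga hG)`, `ι h • z = z` for `h ∈ Gi`): `Sy (p ^ (m + 1)) z ι f'`: entries
fixed by `G`.  So `ri (bc (zf ζ f)) = bc (zf z f') = hB L' (∑ S a_i b_i)` (`MSC.hB_sum`, `bc_of_co`; `L'` from `MSC.lv_gi`).
-/

set_option autoImplicit false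
set_option linter.unusedVariables false

namespace MSN

universe u

open MSG Pool.Agent.Helper14.Massey

open Pool.Agent.MK (K2 S)

/-- multiplication by `p ^ m` from `ZMod p` to `ZMod (p ^ (m + 1))` -/
private theorem syd_e (p m : ℕ) (hp : 0 < p) : ∃ e : ZMod p →+ ZMod (p ^ (m + 1)),
    ∀ x : ZMod p, e x = ((p ^ m * x.val : ℕ) : ZMod (p ^ (m + 1))) := by
  have : NeZero p := ⟨hp.ne'⟩
  have h0 : (zmultiplesHom (ZMod (p ^ (m + 1))) ((p ^ m : ℕ) : ZMod (p ^ (m + 1)))) (p : ℤ) = 0 := by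
    rw [zmultiplesHom_apply, natCast_zsmul, nsmul_eq_mul, ← Nat.cast_mul, ← pow_succ']
    exact ZMod.natCast_self _
  refine ⟨ZMod.lift p ⟨zmultiplesHom _ _, h0⟩, fun x => ?_⟩
  have h1 := ZMod.lift_coe p ⟨zmultiplesHom (ZMod (p ^ (m + 1))) ((p ^ m : ℕ) : ZMod (p ^ (m + 1))), h0⟩
    (x.val : ℤ)
  have h2 : (((x.val : ℤ) : ZMod p)) = x := by
    rw [Int.cast_natCast, ZMod.natCast_zmod_val]
  rw [h2] at h1
  rw [h1]
  show (zmultiplesHom _ _) _ = _
  rw [zmultiplesHom_apply, natCast_zsmul, nsmul_eq_mul, ← Nat.cast_mul, mul_comm]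

theorem bb_syl {p : ℕ} {G Ω : Type u} [Group G] [TopologicalSpace G] [Field Ω] [MulSemiringAction G Ω] {ζ : Ω} (hp : p.Prime)
    (hG : GA G Ω) (hz : PZ p ζ) (hζ : ∀ g : G, g • ζ = ζ) {P : Subgroup G} (hP : IsClosed (P : Set G))
    (hPi : ∀ U : Subgroup G, IsOpen (U : Set G) → P ≤ U → ¬ p ∣ U.index) {f : G → G → ZMod p} (hf : f ∈ Z2 p G)
    (h : BB p P ζ (fun g h : P => f g h)) : BB p G ζ f := by
  obtain ⟨m, z₀, L₀, κ₀, hx₀⟩ := h
  obtain ⟨z, L, κ, hzz, hκ⟩ := MSC.adjust hp hz L₀ κ₀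
  rw [← hκ] at hx₀
  obtain ⟨r, a, b, ha, hb, hκs⟩ := MSC.sum_sym κ
  rw [hκs, MSC.hB_sum L ha hb] at hx₀
  obtain ⟨e, he⟩ := syd_e p m hp.pos
  have hez : ∀ x : ZMod p, zp z (e x) = zp ζ x := by
    intro x
    rw [he, zp_nat L.pz, pow_mul, hzz]
    rfl
  -- the class of `f` restricted to `Gi p P Ω`
  have hcP : Co (fun g h : Gi p P Ω => e (f g h))
      (fun g h => ∑ i, km (p ^ (m + 1)) z ((FixedPoints.subfield P Ω).subtype (a i)) g *
        km (p ^ (m + 1)) z ((FixedPoints.subfield P Ω).subtype (b i)) h) := by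
    apply MSC.co_of_bc_zf L.ga L.pz L.fz
    rw [← hx₀, ri_bc (nz_zf hz _)]
    congr 1
    funext g h
    exact hez _
  obtain ⟨χ, hχ, hχe⟩ := hcP
  have hft : ∀ g h : Gi p G Ω, e (f g h) = e (f g h) := fun _ _ => rfl
  have i1 : IsTopologicalGroup (Gi p G Ω) := (gi_ga hG).top
  have i2 : CompactSpace (Gi p G Ω) := (gi_ga hG).cpt
  have hfZ : (fun g h : Gi p G Ω => e (f g h)) ∈ Z2 (p ^ (m + 1)) (Gi p G Ω) := by
    refine ⟨?_, fun σ τ υ => ?_⟩
    · exact (continuous_of_discreteTopology (f := e)).comp (hf.1.comp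
        ((continuous_subtype_val.comp continuous_fst).prodMk
          (continuous_subtype_val.comp continuous_snd)))
    · have h1 := congrArg e (hf.2 (σ : G) τ υ)
      rw [map_sub, map_add, map_sub, map_zero] at h1
      exact h1
  have hGi : ∀ h : Gi p G Ω, (Gi p G Ω).subtype h • z = z := fun h => gi_fix h L.pz.prim.pow_eq_one
  have hpz : PZ (p ^ (m + 1)) z := L.pz
  have key := dp (ι := (Gi p G Ω).subtype) (gi_ga hG).pf hG hp rfl L.pz continuous_subtype_val hGi hP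
    hPi (fun U hU hPU g => gi_tr hp hG hz hζ hU (hPi U hU hPU) g) hfZ (by
      refine ⟨r, fun i => (a i : Ω), fun i => (b i : Ω), fun i => ?_, fun i => ?_, ?_⟩
      · exact ⟨fun h0 => ha i (Subtype.ext h0), fun g => (a i).2 g⟩
      · exact ⟨fun h0 => hb i (Subtype.ext h0), fun g => (b i).2 g⟩
      · refine ⟨fun x => χ ⟨⟨x.1.1, x.2⟩, fun y k hy => x.1.2 y k hy⟩, ?_, fun g h => ?_⟩
        · exact hχ.comp (((continuous_subtype_val.comp continuous_subtype_val).subtype_mk _).subtype_mk _)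
        · exact hχe ⟨⟨g.1.1, g.2⟩, fun y k hy => g.1.2 y k hy⟩ ⟨⟨h.1.1, h.2⟩, fun y k hy => h.1.2 y k hy⟩)
  obtain ⟨r', a', b', ha', hb', hco⟩ := key
  have L' : Lv (p ^ (m + 1)) (Gi p G Ω) z (FixedPoints.subfield G Ω).subtype :=
    MSC.lv_gi hp hG (fun g x => x.2 g) hpz
  refine ⟨m, z, L', ∑ i, S (⟨a' i, (ha' i).2⟩ : FixedPoints.subfield G Ω) ⟨b' i, (hb' i).2⟩, ?_⟩
  rw [MSC.hB_sum L' (fun i h0 => (ha' i).1 (congrArg Subtype.val h0))
    (fun i h0 => (hb' i).1 (congrArg Subtype.val h0)), ri_bc (nz_zf hz _)]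
  have h5 : rs (Gi p G Ω) (zf ζ f) = zf z (fun g h : Gi p G Ω => e (f g h)) := by
    funext g h
    exact (hez _).symm
  rw [h5]
  exact bc_of_co hpz (fun g => gi_fix g hpz.prim.pow_eq_one) hco

end MSN
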