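import Pool.Agent.MSN.Stp
import Pool.Agent.MSN.Gz2
import Pool.Agent.MSN.Syd
import Pool.Agent.MSG.Tow

/-! # MSN / ThA: Theorem B

PROOFS.
* `bb_zero`: `Co f 0` implies `BB p G ζ f`: `bc (zf ζ f) = bc (zf ζ 0) = 0 = hB L 0` (`bc_of_co`, `bc_zero_zf`), level `p ^ (0 + 1) = p`, root `ζ`.
* `gcB`: `Gd A B φ := ∀ f ∈ Z2 p A.G, BB p B.G B.ζ (φ.pb f) → BB p A.G A.ζ f`.  `gid`: `(KM.id A).pb f = f`.  `gcmp`: `(φ.cmp ψ).pb f = ψ.pb (φ.pb f)`, `φ.pb f ∈ Z2`.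
  `kill`: let `a, b` be fixed.  If `Co (kk a b) 0` take `B = A`, `φ = id`.  Otherwise `choose_ab`: `a', b', g₀`; `C : Cd p A.G A.ζ a' g₀`; `b'` as an element of `fF A.G A.Ω`; `¬ Co (kk a' b') 0`.  `exists_ov` for `K = (C.dat b' _).K`: `(G', Ω', j')`; `Ov.mo` for `Ov.self A.ga`, `φ = j' ∘ cF D`: `μ : Mo A.G A.Ω G' Ω'`.
  `exists_sylow` for `G'` (`GA.pf`): `P` closed, `PS p P`.  `B = ⟨P, Ω', μ.ψ A.ζ⟩` (`GA.sub`), the morphism `φ = μ.cmp (Mo.incl G' Ω' P)`.  `Gd`: `f ∈ Z2 p A.G`, `BB p P (μ.ψ ζ) (f ∘ μ.r on P)` gives `BB p G' (μ.ψ ζ) (f ∘ μ.r)` (`bb_syl`) and `step` gives `BB p A.G ζ f`.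
  Killing: `kill_K` for `a', b'`, restricted to `P`, and `Co (kk a b) (kk a' b')` pulled back (`Mo.km`, `Co_comp`).
* `theoremB'`: `exists_sylow` for `G`: `P`; `A = ⟨P, Ω, ζ⟩ : KP p`; `tow hp gcB A (f on P)`: `B, φ`, `Gd`, `Co (φ.pb f) 0`; `bb_zero`, so `BB p P ζ (f on P)`, and `bb_syl`.
-/

set_option autoImplicit false
set_option linter.unusedVariables false

namespace MSN

universe u

open MSG Pool.Agent.Helper14.Massey

open Pool.Agent.MK (K2 S)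

theorem bb_zero {p : ℕ} {G Ω : Type u} [Group G] [TopologicalSpace G] [Field Ω] [MulSemiringAction G Ω] {ζ : Ω} (hp : p.Prime)
    (hG : GA G Ω) (hz : PZ p ζ) (hζ : ∀ g : G, g • ζ = ζ) {f : G → G → ZMod p} (h : Co f (fun _ _ => 0)) : BB p G ζ f := by
  have hz' : PZ (p ^ (0 + 1)) ζ := by
    rw [zero_add, pow_one]
    exact hz
  have L : Lv (p ^ (0 + 1)) (Gi p G Ω) ζ (FixedPoints.subfield G Ω).subtype :=
    ⟨gi_ga hG, hz', fun g => hζ g, fun g x => x.2 g⟩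
  refine ⟨0, ζ, L, 0, ?_⟩
  rw [bc_of_co hz hζ h, bc_zero_zf hz, map_zero, map_zero]

/-- the class of good morphisms -/
def GdB (p : ℕ) (A B : KP.{u} p) (φ : KM A B) : Prop := ∀ f ∈ Z2 p A.G, BB p B.G B.ζ (φ.pb f) → BB p A.G A.ζ f

private theorem z2_pull {p : ℕ} {G H : Type u} [Group G] [TopologicalSpace G] [Group H] [TopologicalSpace H] (s : H →* G)
    (hs : Continuous s) {f : G → G → ZMod p} (hf : f ∈ Z2 p G) : (fun g h : H => f (s g) (s h)) ∈ Z2 p H := by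
  refine ⟨?_, fun x y z => ?_⟩
  · exact hf.1.comp ((hs.comp continuous_fst).prodMk (hs.comp continuous_snd))
  · have h := hf.2 (s x) (s y) (s z)
    rw [← map_mul, ← map_mul] at h
    exact h

private theorem kk_mo {p : ℕ} {A B : KP.{u} p} (φ : KM A B) {a b : A.Ω} (ha : Fx A.G a) (hb : Fx A.G b) :
    kk (G := B.G) p B.ζ (φ.ψ a) (φ.ψ b) = fun x y => kk (G := A.G) p A.ζ a b (φ.r x) (φ.r y) := by
  funext x y
  have h1 := φ.toMo.km A.pz ha.1 (A.fx (φ.r x)) (ha.2 _)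
  have h2 := φ.toMo.km A.pz hb.1 (A.fx (φ.r y)) (hb.2 _)
  rw [φ.zz] at h1 h2
  unfold kk
  rw [h1, h2]

theorem killB {p : ℕ} (hp : p.Prime) (A : KP.{u} p) (a b : A.Ω) (ha : Fx A.G a) (hb : Fx A.G b) :
    ∃ (B : KP.{u} p) (f : KM A B), GdB p A B f ∧ Co (kk (G := B.G) p B.ζ (f.ψ a) (f.ψ b)) (fun _ _ => 0) := by
  by_cases h0 : Co (kk (G := A.G) p A.ζ a b) (fun _ _ => 0)
  · exact ⟨A, KM.id A, fun f hf h => h, h0⟩
  · obtain ⟨a', b', g₀, ha', hb', hg, hk, hco⟩ := choose_ab hp A.ga A.pz A.fx ha hb h0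
    have C : Cd p A.G A.ζ a' g₀ := ⟨hp, A.ga, A.pz, A.fx, ha', hk⟩
    obtain ⟨bF, hbF⟩ : ∃ bF : fF A.G A.Ω, (bF : A.Ω) = b' := ⟨⟨b', hb'.2⟩, rfl⟩
    subst hbF
    have hb0 : bF ≠ 0 := fun h => hb'.1 (by rw [h]; rfl)
    have hab : ¬ Co (kk (G := A.G) p A.ζ a' (bF : A.Ω)) (fun _ _ => 0) := fun h => h0 (Co_trans hco h)
    obtain ⟨G', Ω', _, _, _, _, j', h'⟩ := exists_ov (C.dat bF hb0).K
    obtain ⟨μ, hμ⟩ := (Ov.self A.ga).mo h'.ga (j'.comp (cF (C.dat bF hb0))) (fun g x => h'.fj g _)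
    have hμ' : ∀ x : fF A.G A.Ω, μ.ψ x = j' (cF (C.dat bF hb0) x) := fun x => hμ x
    have i1 := h'.ga.top
    have i2 := h'.ga.cpt
    obtain ⟨P, hPc, hPS, hPi⟩ := exists_sylow h'.ga.pf hp
    have hζ' : ∀ g : G', g • μ.ψ A.ζ = μ.ψ A.ζ := fun g => by rw [← μ.comp, A.fx]
    let B : KP.{u} p :=
      { G := P
        Ω := Ω'
        ζ := μ.ψ A.ζ
        ga := h'.ga.sub P hPc
        pz := μ.pz A.pz
        fx := fun g => hζ' g
        ps := hPS }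
    let φ : KM A B := { toMo := μ.cmp (Mo.incl G' Ω' P), zz := rfl }
    refine ⟨B, φ, ?_, ?_⟩
    · intro v hv hBB
      have h1 : BB p G' (μ.ψ A.ζ) (fun g h => v (μ.r g) (μ.r h)) :=
        bb_syl hp h'.ga (μ.pz A.pz) hζ' hPc hPi (z2_pull μ.r μ.cont hv) hBB
      exact step C hg A.ps bF hb0 hab h' μ hμ' hv h1
    · have h1 := kill_K C bF hb0 h' μ hμ'
      have h2 : Co (fun x y : B.G => kk (G := A.G) p A.ζ a b (φ.r x) (φ.r y))
          (fun x y : B.G => kk (G := A.G) p A.ζ a' (bF : A.Ω) (φ.r x) (φ.r y)) := Co_comp φ.r φ.cont hco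
      rw [← kk_mo φ ha hb, ← kk_mo φ ha' hb'] at h2
      have h3 : Co (fun x y : P => kk (G := G') p (μ.ψ A.ζ) (μ.ψ a') (μ.ψ (bF : A.Ω)) x y) (fun _ _ => 0) :=
        Co_comp P.subtype continuous_subtype_val h1
      exact Co_trans h2 h3

/-- the class of good morphisms -/
def gcB {p : ℕ} (hp : p.Prime) : GC.{u} p where
  Gd := GdB p
  gid A := fun f hf h => h
  gcmp A B C f g hf hg v hv h := by
    exact hf v hv (hg (f.pb v) (z2_pull f.r f.cont hv) h)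
  kill := killB hp

theorem theoremB' {p : ℕ} (hp : p.Prime) {G Ω : Type u} [Group G] [TopologicalSpace G] [Field Ω] [MulSemiringAction G Ω]
    (hG : GA G Ω) {ζ : Ω} (hz : PZ p ζ) (hζ : ∀ g : G, g • ζ = ζ) {f : G → G → ZMod p} (hf : f ∈ Z2 p G) : BB p G ζ f := by
  have i1 := hG.top
  have i2 := hG.cpt
  obtain ⟨P, hPc, hPS, hPi⟩ := exists_sylow hG.pf hp
  let A : KP.{u} p :=
    { G := P
      Ω := Ω
      ζ := ζ
      ga := hG.sub P hPc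
      pz := hz
      fx := fun g => hζ g
      ps := hPS }
  have hfP : (fun g h : P => f g h) ∈ Z2 p P := z2_pull P.subtype continuous_subtype_val hf
  obtain ⟨B, φ, hφ, hco⟩ := tow hp (gcB hp) A (fun g h : P => f g h) hfP
  have h1 : BB p B.G B.ζ (φ.pb (fun g h : P => f g h)) := bb_zero hp B.ga B.pz B.fx hco
  have h2 : BB p P ζ (fun g h : P => f g h) := hφ _ hfP h1
  exact bb_syl hp hG hz hζ hPc hPi hf h2

end MSN
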