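import Pool.Agent.MSN.Ir
import Pool.Agent.MSN.Ph

/-! # MSN / Tl: classes from `k` do not die in `k((t))`

`tl`: a cocycle `f` of `G₀` (pair over `k`) whose pull back to `k((t))` is a coboundary: a power `f ^ (q ^ s)` is a coboundary, `q` the exponential characteristic.

PROOF.  `f` is locally constant, choose `V` by `exists_V` (`e = f`): `f` factors through `G₀ / V`, values fixed by `V`, `V` normal open.  `W = V.comap μ.r` is open and normal in `G`; `F g h = μ.ψ (f (μ.r g) (μ.r h))` satisfies the hypotheses of `ir`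
(`μ.comp`).  So `F g h * Ξ (g * h) = Ξ g * g • Ξ h` with `Ξ` factoring through `G / W`, values fixed by `W`.  `G / W` is finite (open in compact), so `fl` can be used with the same `s` for all values `Ξ g`: for every `g` there is `X_g` with
`Φ (h • Ξ g) ^ (q ^ s) = ι (lm (sm (μ.r h)) X_g)` for all `h`; `X_g` depends only on the class of `g` modulo `W` (it is determined by `Φ (Ξ g) ^ (q ^ s)`, `h = 1`), i.e. only on `μ.r g` modulo `V`.  Let `u a = leadingCoeff X_g` for `a = μ.r g` (`mu_surj`;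
`X_g` depends only on `μ.r g`: if `μ.r g = μ.r g'` then `g⁻¹ * g' ∈ W`).  Apply `Φ` and the power `q ^ s` to the coboundary equation: `ι (C (f a b) ^ (q ^ s)) * ι (X_(gh)) = ι (X_g) * ι (lm (sm a) X_h)`; `ι` is injective; leading coefficients
(`HahnSeries.leadingCoeff_mul`, `lm_lc`, `lC_lc`): `f a b ^ (q ^ s) * u (a * b) = u a * a • u b`.  `u` is nowhere zero (`X_g ≠ 0`) and factors through `G₀ / V`, so it is locally constant.

* `bi_laurent`: `p ^ e • bc f = 0` and `q ^ s • bc f = 0` (`tl`, `bc_pow`), `q ^ s` and `p ^ e` are coprime because `(p : Ω₀) ≠ 0`: `q = ringExpChar Ω₀` is `1` or a prime different from `p`.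
-/

set_option autoImplicit false
set_option linter.unusedVariables false

namespace MSN

universe u

open MSG

/-- classes of `p`-power order do not die under `φ` -/
def BI (p : ℕ) {k K : Type u} [Field k] [Field K] (φ : k →+* K) : Prop :=
  ∀ (G₀ Ω₀ G Ω : Type u) [Group G₀] [TopologicalSpace G₀] [Field Ω₀] [MulSemiringAction G₀ Ω₀]
    [Group G] [TopologicalSpace G] [Field Ω] [MulSemiringAction G Ω] (j₀ : k →+* Ω₀) (j : K →+* Ω),
    Ov k G₀ j₀ → Ov K G j → ∀ μ : Mo G₀ Ω₀ G Ω, (∀ x, μ.ψ (j₀ x) = j (φ x)) → ∀ f : G₀ → G₀ → Ω₀, Zo f →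
    ∀ e : ℕ, p ^ e • bc f = 0 → bqm μ (bc f) = 0 → bc f = 0

section

variable {k G₀ Ω₀ G Ω : Type u} [Field k] [Group G₀] [TopologicalSpace G₀] [Field Ω₀] [MulSemiringAction G₀ Ω₀]
  [Group G] [TopologicalSpace G] [Field Ω] [MulSemiringAction G Ω] {j₀ : k →+* Ω₀} {j : LaurentSeries k →+* Ω}

private theorem tl_cop {K : Type u} [Field K] (q : ℕ) [hq : ExpChar K q] {p : ℕ} (hp : p.Prime)
    (h : (p : K) ≠ 0) : q.Coprime p := by
  rcases hq with _ | hq'
  · exact Nat.coprime_one_left p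
  · rw [Nat.coprime_primes hq' hp]
    intro e
    apply h
    rw [← e]
    exact CharP.cast_eq_zero K q

private theorem tl_lc {A : Type u} {X : Type*} [Group A] [TopologicalSpace A] [IsTopologicalGroup A] (V : Subgroup A)
    (hV : IsOpen (V : Set A)) {u : A → X} (hu : ∀ a v : A, v ∈ V → u (a * v) = u a) : IsLocallyConstant u := by
  rw [IsLocallyConstant.iff_exists_open]
  intro a
  refine ⟨(fun y => a⁻¹ * y) ⁻¹' (V : Set A), hV.preimage (continuous_const.mul continuous_id), ?_, ?_⟩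
  · show a⁻¹ * a ∈ V
    rw [inv_mul_cancel]
    exact V.one_mem
  · intro y hy
    have e : y = a * (a⁻¹ * y) := by group
    rw [e]
    exact hu a _ hy

private theorem tl_sm {G₁ Ω₁ : Type u} [Group G₁] [Field Ω₁] [MulSemiringAction G₁ Ω₁] (X : LaurentSeries Ω₁) :
    lm (sm (1 : G₁)) X = X := by
  ext n
  rw [lm_coeff]
  show (1 : G₁) • X.coeff n = X.coeff n
  rw [one_smul]

theorem tl (h₀ : Ov k G₀ j₀) (h : Ov (LaurentSeries k) G j) (μ : Mo G₀ Ω₀ G Ω)
    (hμ : ∀ x, μ.ψ (j₀ x) = j (HahnSeries.C x)) {f : G₀ → G₀ → Ω₀} (hf : Zo f) (hF : Cu (pf μ f) (fun _ _ => 1)) :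
    ∃ s : ℕ, Cu (fun g h => f g h ^ (ringExpChar Ω₀ ^ s)) (fun _ _ => 1) := by
  have i1 := h₀.ga.top
  have i2 := h.ga.top
  have i3 := h.ga.cpt
  obtain ⟨Φ, hΦ⟩ := exists_phi h₀ h μ hμ
  obtain ⟨V, hVn, hVo, v1, v2, -, -, v3⟩ := exists_V (Y := Unit) h₀.ga hf.lc hf.lc
  have hWo : IsOpen ((V.comap μ.r : Subgroup G) : Set G) := hVo.preimage μ.cont
  have hFz : Zu G (pf μ f) := zo_pf hf μ
  obtain ⟨Ξ, x0, x1, x2, x3⟩ := ir h.ga (V.comap μ.r) hWo hFz
    (fun g h w hw => by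
      show μ.ψ (f (μ.r (g * w)) (μ.r h)) = μ.ψ (f (μ.r g) (μ.r h))
      rw [map_mul, v1 _ _ _ hw])
    (fun g h w hw => by
      show μ.ψ (f (μ.r g) (μ.r (h * w))) = μ.ψ (f (μ.r g) (μ.r h))
      rw [map_mul, v2 _ _ _ hw])
    (fun g h w hw => by
      show w • μ.ψ (f (μ.r g) (μ.r h)) = μ.ψ (f (μ.r g) (μ.r h))
      rw [← μ.comp, v3 _ _ _ hw]) hF
  -- a common exponent
  have hfl : ∀ g : G, ∃ s₀ : ℕ, ∀ s, s₀ ≤ s → ∃ X : LaurentSeries Ω₀, ∀ l : G,
      Φ (l • Ξ g) ^ (ringExpChar Ω₀ ^ s) =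
      algebraMap (LaurentSeries Ω₀) (AlgebraicClosure (LaurentSeries Ω₀)) (lm (sm (μ.r l)) X) :=
    fun g => fl h₀ h μ hμ hΦ V hVo (fun w hw => x2 g w hw)
  choose s0 hs0 using hfl
  have hfin : Finite (G ⧸ (V.comap μ.r)) := Subgroup.quotient_finite_of_isOpen _ hWo
  obtain ⟨s, hs⟩ := (Set.finite_range (fun c : G ⧸ (V.comap μ.r) => s0 (Quotient.out c))).bddAbove
  have hX : ∀ g : G, ∃ X : LaurentSeries Ω₀, ∀ l : G,
      Φ (l • Ξ g) ^ (ringExpChar Ω₀ ^ s) =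
      algebraMap (LaurentSeries Ω₀) (AlgebraicClosure (LaurentSeries Ω₀)) (lm (sm (μ.r l)) X) := by
    intro g
    obtain ⟨X, hX⟩ := hs0 (Quotient.out (g : G ⧸ (V.comap μ.r))) s (hs ⟨_, rfl⟩)
    obtain ⟨w, hw⟩ := QuotientGroup.mk_out_eq_mul (V.comap μ.r) g
    have e : Ξ (Quotient.out (g : G ⧸ (V.comap μ.r))) = Ξ g := by
      rw [hw]
      exact x1 g w w.2
    refine ⟨X, fun l => ?_⟩
    rw [← e]
    exact hX l
  choose X hX using hX
  have hι : Function.Injective (algebraMap (LaurentSeries Ω₀) (AlgebraicClosure (LaurentSeries Ω₀))) :=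
    (algebraMap (LaurentSeries Ω₀) (AlgebraicClosure (LaurentSeries Ω₀))).injective
  have hX1 : ∀ g : G, Φ (Ξ g) ^ (ringExpChar Ω₀ ^ s) =
      algebraMap (LaurentSeries Ω₀) (AlgebraicClosure (LaurentSeries Ω₀)) (X g) := by
    intro g
    have e := hX g 1
    rw [one_smul, map_one, tl_sm] at e
    exact e
  have hXeq : ∀ g g' : G, (μ.r g)⁻¹ * μ.r g' ∈ V → X g' = X g := by
    intro g g' hg
    have e1 : g' = g * (g⁻¹ * g') := by group
    have e2 : Ξ g' = Ξ g := by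
      rw [e1]
      refine x1 g _ ?_
      show μ.r (g⁻¹ * g') ∈ V
      rw [map_mul, map_inv]
      exact hg
    apply hι
    rw [← hX1, ← hX1, e2]
  have hX0 : ∀ g : G, X g ≠ 0 := by
    intro g e
    have e1 := hX1 g
    rw [e, map_zero] at e1
    exact x0 g ((map_eq_zero Φ).1 ((pow_eq_zero_iff (pow_pos (expChar_pos Ω₀ (ringExpChar Ω₀)) s).ne').1 e1))
  choose sec hsec using mu_surj h₀ h μ hμ
  refine ⟨s, fun a => (X (sec a)).leadingCoeff, fun a => ?_, ?_, fun a b => ?_⟩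
  · exact HahnSeries.leadingCoeff_ne_zero.2 (hX0 _)
  · refine tl_lc V hVo fun a v hv => ?_
    show (X (sec (a * v))).leadingCoeff = (X (sec a)).leadingCoeff
    rw [hXeq (sec a) (sec (a * v)) (by
      rw [hsec, hsec, inv_mul_cancel_left]
      exact hv)]
  · show f a b ^ (ringExpChar Ω₀ ^ s) = 1 * ((X (sec a)).leadingCoeff * a • (X (sec b)).leadingCoeff /
      (X (sec (a * b))).leadingCoeff)
    have e0 : X (sec (a * b)) = X (sec a * sec b) := by
      refine hXeq _ _ ?_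
      rw [map_mul, hsec, hsec, hsec, inv_mul_cancel]
      exact V.one_mem
    have e1 : Φ (pf μ f (sec a) (sec b) * Ξ (sec a * sec b)) ^ (ringExpChar Ω₀ ^ s) =
        Φ (Ξ (sec a) * sec a • Ξ (sec b)) ^ (ringExpChar Ω₀ ^ s) := by rw [x3]
    have e2 : Φ (pf μ f (sec a) (sec b)) = algebraMap (LaurentSeries Ω₀) (AlgebraicClosure (LaurentSeries Ω₀))
        (HahnSeries.C (f a b)) := by
      show Φ (μ.ψ (f (μ.r (sec a)) (μ.r (sec b)))) = _
      rw [hΦ.onψ, hsec, hsec]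
    rw [map_mul, map_mul, mul_pow, mul_pow, e2, hX1, hX1, hX, hsec, ← map_pow, ← map_mul, ← map_mul] at e1
    have e3 := congrArg HahnSeries.leadingCoeff (hι e1)
    rw [HahnSeries.leadingCoeff_mul, HahnSeries.leadingCoeff_mul, lm_lc, ← map_pow, lC_lc] at e3
    rw [one_mul, eq_div_iff (HahnSeries.leadingCoeff_ne_zero.2 (hX0 _)), e0]
    exact e3

end

theorem bi_laurent {p : ℕ} (hp : p.Prime) {k : Type u} [Field k] (hpk : (p : k) ≠ 0) :
    BI p (HahnSeries.C : k →+* LaurentSeries k) := by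
  intro G₀ Ω₀ G Ω _ _ _ _ _ _ _ _ j₀ j h₀ h μ hμ f hf e he hb
  have h0 : Nz f := hf.ne
  rw [bqm_bc μ h0, ← bc_one, bc_eq_cu (h0.pf μ) Nz.one] at hb
  obtain ⟨s, hs⟩ := tl h₀ h μ hμ hf hb
  have h1 : (ringExpChar Ω₀ ^ s) • bc f = 0 := by
    rw [← bc_pow h0, ← bc_one (H := G₀) (Ω := Ω₀), bc_eq_cu (h0.pow _) Nz.one]
    exact hs
  have hpΩ : (p : Ω₀) ≠ 0 := by
    rw [← map_natCast j₀ p]
    exact (map_ne_zero j₀).2 hpk
  have hc : (ringExpChar Ω₀ ^ s).Coprime (p ^ e) := Nat.Coprime.pow _ _ (tl_cop (ringExpChar Ω₀) hp hpΩ)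
  have h2 := addOrderOf_dvd_of_nsmul_eq_zero h1
  have h3 := addOrderOf_dvd_of_nsmul_eq_zero he
  exact AddMonoid.addOrderOf_eq_one_iff.1 (Nat.eq_one_of_dvd_coprimes hc h2 h3)

end MSN
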